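import Mathlib

/-! Prediction errors of the digits of a large set of binary words. -/

set_option autoImplicit false
open Finset Filter Topology

namespace Pool.Agent.TH338.LG

/-- `0` or `1` -/
def bit (a : Bool) : ℝ := if a then 1 else 0

/-- sum of the squared prediction errors; `l` is the past, most recent digit first -/
def cost (g : List Bool → ℝ) : List Bool → List Bool → ℝ
  | _, [] => 0
  | l, a :: w => (bit a - g l) ^ 2 + cost g (a :: l) w

/-- sum of `F` over the successive pasts -/
def Sm (F : List Bool → ℝ) : List Bool → List Bool → ℝ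
  | _, [] => 0
  | l, a :: w => F (a :: l) + Sm F (a :: l) w

lemma binEntropy_le (η : ℝ) (hη : 0 < η) :
    ∃ C : ℝ, 0 < C ∧ ∀ p : ℝ, 0 ≤ p → p ≤ 1 → Real.binEntropy p ≤ η + C * (p * (1 - p)) := by
  have h0 : ∀ᶠ p in 𝓝 (0 : ℝ), Real.binEntropy p < η := by
    have := (Real.binEntropy_continuous.tendsto 0)
    rw [Real.binEntropy_zero] at this
    exact (tendsto_order.1 this).2 η hη
  have h1 : ∀ᶠ p in 𝓝 (1 : ℝ), Real.binEntropy p < η := by
    have := (Real.binEntropy_continuous.tendsto 1)
    rw [Real.binEntropy_one] at this
    exact (tendsto_order.1 this).2 η hη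
  rw [Metric.eventually_nhds_iff] at h0 h1
  obtain ⟨δ0, hδ0, h0⟩ := h0
  obtain ⟨δ1, hδ1, h1⟩ := h1
  set δ := min (min δ0 δ1) (1 / 2) with hδ
  have hδpos : 0 < δ := by positivity
  have hδ0' : δ ≤ δ0 := (min_le_left _ _).trans (min_le_left _ _)
  have hδ1' : δ ≤ δ1 := (min_le_left _ _).trans (min_le_right _ _)
  have hδ2 : δ ≤ 1 / 2 := min_le_right _ _
  refine ⟨Real.log 2 / (δ * (1 / 2)), by positivity, fun p hp0 hp1 => ?_⟩
  have hC : 0 ≤ Real.log 2 / (δ * (1 / 2)) * (p * (1 - p)) := by
    have : 0 ≤ 1 - p := by linarith
    positivity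
  by_cases hA : p < δ
  · have := h0 (y := p) (by rw [Real.dist_eq, sub_zero, abs_of_nonneg hp0]; linarith)
    linarith
  by_cases hB : 1 - p < δ
  · have := h1 (y := p) (by rw [Real.dist_eq, abs_sub_comm, abs_of_nonneg (by linarith)]; linarith)
    linarith
  push Not at hA hB
  have h2 : Real.binEntropy p ≤ Real.log 2 := Real.binEntropy_le_log_two
  have h3 : δ * (1 / 2) ≤ p * (1 - p) := by
    by_cases hp : p ≤ 1 / 2
    · nlinarith
    · push Not at hp
      nlinarith
  have h4 : Real.log 2 ≤ Real.log 2 / (δ * (1 / 2)) * (p * (1 - p)) := by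
    rw [div_mul_eq_mul_div, le_div_iff₀ (by positivity)]
    exact mul_le_mul_of_nonneg_left h3 (Real.log_nonneg (by norm_num))
  linarith

/-- the tree bound -/
lemma tree {η C : ℝ} (hC : 0 < C)
    (hE : ∀ p : ℝ, 0 ≤ p → p ≤ 1 → Real.binEntropy p ≤ η + C * (p * (1 - p)))
    (g : List Bool → ℝ) (T : ℕ) : ∀ (l : List Bool) (W : Finset (List Bool)),
      (∀ w ∈ W, w.length = T) →
      (W.card : ℝ) * (Real.log W.card - η * T) ≤ C * ∑ w ∈ W, cost g l w := by
  have hη : 0 ≤ η := by
    have := hE 0 le_rfl zero_le_one
    rw [Real.binEntropy_zero] at this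
    linarith
  induction T with
  | zero =>
    intro l W hW
    have h1 : W ⊆ {[]} := by
      intro w hw
      have := hW w hw
      rw [List.length_eq_zero_iff] at this
      simp [this]
    have h2 : W.card ≤ 1 := by
      have := Finset.card_le_card h1
      simpa using this
    have h3 : ∑ w ∈ W, cost g l w = 0 := by
      refine Finset.sum_eq_zero fun w hw => ?_
      have := h1 hw
      rw [Finset.mem_singleton] at this
      rw [this]
      rfl
    rw [h3]
    interval_cases W.card <;> simp
  | succ T ih =>
    intro l W hW
    set Wa : Bool → Finset (List Bool) := fun a => W.preimage (List.cons a)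
      (fun x _ y _ h => by simpa using h) with hWa
    have hlen : ∀ a, ∀ w ∈ Wa a, w.length = T := by
      intro a w hw
      have := hW _ (Finset.mem_preimage.1 hw)
      simpa using this
    have hsplit : W = (Wa false).image (List.cons false) ∪ (Wa true).image (List.cons true) := by
      ext w
      simp only [Finset.mem_union, Finset.mem_image, hWa]
      constructor
      · intro hw
        cases w with
        | nil =>
          have := hW _ hw
          simp at this
        | cons a w =>
          cases a
          · exact Or.inl ⟨w, Finset.mem_preimage.2 hw, rfl⟩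
          · exact Or.inr ⟨w, Finset.mem_preimage.2 hw, rfl⟩
      · rintro (⟨w', h, rfl⟩ | ⟨w', h, rfl⟩) <;> exact Finset.mem_preimage.1 h
    have hdisj : Disjoint ((Wa false).image (List.cons false))
        ((Wa true).image (List.cons true)) := by
      rw [Finset.disjoint_left]
      intro w h1 h2
      obtain ⟨w1, _, rfl⟩ := Finset.mem_image.1 h1
      obtain ⟨w2, _, h⟩ := Finset.mem_image.1 h2
      simp at h
    have hcard : W.card = (Wa false).card + (Wa true).card := by
      conv_lhs => rw [hsplit]
      rw [Finset.card_union_of_disjoint hdisj, Finset.card_image_of_injective _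
        (List.cons_injective), Finset.card_image_of_injective _ (List.cons_injective)]
    have hsum : ∑ w ∈ W, cost g l w = (∑ w ∈ Wa false, cost g (false :: l) w +
        (Wa false).card * (g l) ^ 2) + (∑ w ∈ Wa true, cost g (true :: l) w +
        (Wa true).card * (1 - g l) ^ 2) := by
      conv_lhs => rw [hsplit]
      rw [Finset.sum_union hdisj, Finset.sum_image (fun x _ y _ h => by simpa using h),
        Finset.sum_image (fun x _ y _ h => by simpa using h)]
      congr 1
      · simp only [cost, bit]
        rw [Finset.sum_add_distrib, Finset.sum_const, nsmul_eq_mul]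
        simp
        ring
      · simp only [cost, bit]
        rw [Finset.sum_add_distrib, Finset.sum_const, nsmul_eq_mul]
        simp
        ring
    have i0 := ih (false :: l) (Wa false) (hlen false)
    have i1 := ih (true :: l) (Wa true) (hlen true)
    rw [hsum]
    set n0 : ℝ := ((Wa false).card : ℝ) with hn0
    set n1 : ℝ := ((Wa true).card : ℝ) with hn1
    have hN : (W.card : ℝ) = n0 + n1 := by
      rw [hcard]; push_cast; rfl
    rw [hN]
    have n00 : 0 ≤ n0 := Nat.cast_nonneg _
    have n10 : 0 ≤ n1 := Nat.cast_nonneg _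
    rcases (add_nonneg n00 n10).lt_or_eq with hpos | hz
    · set p := n1 / (n0 + n1) with hp
      have hp0 : 0 ≤ p := div_nonneg n10 (add_nonneg n00 n10)
      have hp1 : p ≤ 1 := by
        rw [hp, div_le_one hpos]; linarith
      have hq : 1 - p = n0 / (n0 + n1) := by
        rw [hp]; field_simp; ring
      have hEp := hE p hp0 hp1
      have e1 : (n0 + n1) * Real.binEntropy p =
          (n0 + n1) * Real.log (n0 + n1) - n0 * Real.log n0 - n1 * Real.log n1 := by
        unfold Real.binEntropy
        rw [hq, hp]
        rw [Real.log_inv, Real.log_inv]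
        have a1 : n1 * Real.log (n1 / (n0 + n1)) = n1 * (Real.log n1 - Real.log (n0 + n1)) := by
          rcases n10.lt_or_eq with h | h
          · rw [Real.log_div h.ne' hpos.ne']
          · rw [← h, zero_mul, zero_mul]
        have a0 : n0 * Real.log (n0 / (n0 + n1)) = n0 * (Real.log n0 - Real.log (n0 + n1)) := by
          rcases n00.lt_or_eq with h | h
          · rw [Real.log_div h.ne' hpos.ne']
          · rw [← h, zero_mul, zero_mul]
        have e2 : (n0 + n1) * (n1 / (n0 + n1) * -Real.log (n1 / (n0 + n1)) +
            n0 / (n0 + n1) * -Real.log (n0 / (n0 + n1))) =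
            -(n1 * Real.log (n1 / (n0 + n1))) - n0 * Real.log (n0 / (n0 + n1)) := by
          field_simp
          ring
        rw [e2, a1, a0]
        ring
      have e3 : (n0 + n1) * (p * (1 - p)) ≤ n0 * (g l) ^ 2 + n1 * (1 - g l) ^ 2 := by
        rw [hq, hp]
        have : (n0 + n1) * (n1 / (n0 + n1) * (n0 / (n0 + n1))) = n1 * n0 / (n0 + n1) := by
          field_simp
        rw [this, div_le_iff₀ hpos]
        nlinarith [sq_nonneg ((n0 + n1) * g l - n1)]
      have e4 : (n0 + n1) * Real.binEntropy p ≤ (n0 + n1) * (η + C * (p * (1 - p))) :=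
        mul_le_mul_of_nonneg_left hEp hpos.le
      have e5 : C * ((n0 + n1) * (p * (1 - p))) ≤ C * (n0 * (g l) ^ 2 + n1 * (1 - g l) ^ 2) :=
        mul_le_mul_of_nonneg_left e3 hC.le
      push_cast
      nlinarith
    · have h0 : n0 = 0 := by linarith
      have h1 : n1 = 0 := by linarith
      have a0 : ∑ w ∈ Wa false, cost g (false :: l) w = 0 := by
        have : (Wa false).card = 0 := by
          rw [hn0] at h0
          exact_mod_cast h0
        rw [Finset.card_eq_zero.1 this]
        simp
      have a1 : ∑ w ∈ Wa true, cost g (true :: l) w = 0 := by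
        have : (Wa true).card = 0 := by
          rw [hn1] at h1
          exact_mod_cast h1
        rw [Finset.card_eq_zero.1 this]
        simp
      rw [a0, a1, h0, h1]
      simp

lemma cost_eq (g : List Bool → ℝ) : ∀ (w l : List Bool), cost g l w =
    ∑ k ∈ range w.length, (bit (w.getD k false) - g ((w.take k).reverse ++ l)) ^ 2 := by
  intro w
  induction w with
  | nil => intro l; simp [cost]
  | cons a w ih =>
    intro l
    rw [cost, ih, List.length_cons, Finset.sum_range_succ']
    simp only [List.getD_cons_succ, List.take_succ_cons, List.reverse_cons, List.append_assoc,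
      List.singleton_append, List.getD_cons_zero, List.take_zero, List.reverse_nil,
      List.nil_append]
    rw [add_comm]

end Pool.Agent.TH338.LG
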