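import Mathlib
import Pool.Agent.TH338.LG.Tree

/-! Invariant measures of positive conditional variance from large sets of words. -/

set_option autoImplicit false
open MeasureTheory Finset Filter Topology
open scoped ENNReal

namespace Pool.Agent.TH338.LG

/-- symbolic space -/
abbrev SX : Type := ℕ → Bool

/-- the shift -/
def sh (ω : SX) : SX := fun n => ω (n + 1)

/-- prepend a digit -/
def cns (a : Bool) (ω : SX) : SX
  | 0 => a
  | n + 1 => ω n

/-- extension of a finite word by zeros -/
def ext (l : List Bool) : SX := fun i => l.getD i false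

lemma sh_cns (a : Bool) (ω : SX) : sh (cns a ω) = ω := rfl

lemma cns_sh (ω : SX) : cns (ω 0) (sh ω) = ω := by
  funext n
  cases n <;> rfl

lemma sh_ext (a : Bool) (l : List Bool) : sh (ext (a :: l)) = ext l := by
  funext n
  simp [sh, ext]

lemma ext_zero (a : Bool) (l : List Bool) : ext (a :: l) 0 = a := by simp [ext]

lemma cont_sh : Continuous sh := continuous_pi fun n => continuous_apply (n + 1)

lemma cont_cns (a : Bool) : Continuous (cns a) := by
  refine continuous_pi fun n => ?_
  cases n with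
  | zero => exact continuous_const
  | succ n => exact continuous_apply n

lemma cont_bit0 : Continuous (fun ω : SX => bit (ω 0)) :=
  (continuous_of_discreteTopology (f := bit)).comp (continuous_apply 0)

/-- empirical measure -/
noncomputable def emp {ι : Type} (s : Finset ι) (y : ι → SX) : Measure SX :=
  (s.card : ℝ≥0∞)⁻¹ • ∑ i ∈ s, Measure.dirac (y i)

lemma emp_prob {ι : Type} {s : Finset ι} (hs : s.Nonempty) (y : ι → SX) :
    IsProbabilityMeasure (emp s y) := by
  constructor
  unfold emp
  rw [Measure.smul_apply, Measure.coe_finset_sum, Finset.sum_apply]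
  simp only [measure_univ, Finset.sum_const, nsmul_eq_mul, mul_one, smul_eq_mul]
  refine ENNReal.inv_mul_cancel ?_ (ENNReal.natCast_ne_top _)
  simpa using hs.ne_empty

lemma emp_int {ι : Type} (s : Finset ι) (y : ι → SX) (F : SX → ℝ) :
    ∫ ω, F ω ∂(emp s y) = (s.card : ℝ)⁻¹ * ∑ i ∈ s, F (y i) := by
  unfold emp
  rw [integral_smul_measure, integral_finsetSum_measure]
  · simp only [integral_dirac, ENNReal.toReal_inv, ENNReal.toReal_natCast, smul_eq_mul]
  · intro i _
    exact integrable_dirac (by simp)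

/-- **limit measures** -/
theorem exists_meas {ε : ℝ} (hε : 0 < ε) (Wf : ℕ → Finset (List Bool))
    (hlen : ∀ T, ∀ w ∈ Wf T, w.length = T)
    (hbig : ∀ T : ℕ, 1 ≤ T → Real.exp (ε * T) ≤ ((Wf T).card : ℝ)) :
    ∃ μ : Measure SX, IsProbabilityMeasure μ ∧ μ.map sh = μ ∧
      (∃ c : ℝ, 0 < c ∧ ∀ g : SX → ℝ, Continuous g →
        c ≤ ∫ ω, (bit (ω 0) - g (sh ω)) ^ 2 ∂μ) ∧
      ∀ F : SX → ℝ, Continuous F → (∀ ω, 0 ≤ F ω) →
        (∃ K : ℝ, ∀ T, ∀ w ∈ Wf T, ∑ k ∈ range T, F (ext (w.take (k + 1)).reverse) ≤ K) →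
        ∫ ω, F ω ∂μ = 0 := by
  classical
  set I : ℕ → Finset (List Bool × ℕ) := fun T => Wf (T + 1) ×ˢ range (T + 1) with hI
  set y : List Bool × ℕ → SX := fun i => ext (i.1.take (i.2 + 1)).reverse with hy
  have hWpos : ∀ T, 0 < (Wf (T + 1)).card := by
    intro T
    have h1 := hbig (T + 1) (by omega)
    have h2 : (0 : ℝ) < ((Wf (T + 1)).card : ℝ) := lt_of_lt_of_le (Real.exp_pos _) h1
    exact_mod_cast h2
  have hIne : ∀ T, (I T).Nonempty := fun T =>
    Finset.Nonempty.product (Finset.card_pos.1 (hWpos T)) ⟨0, by simp⟩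
  have hIcard : ∀ T, ((I T).card : ℝ) = ((Wf (T + 1)).card : ℝ) * (T + 1) := fun T => by
    simp only [hI]
    rw [Finset.card_product, Finset.card_range]
    push_cast
    ring
  set μT : ℕ → ProbabilityMeasure SX := fun T => ⟨emp (I T) y, emp_prob (hIne T) y⟩ with hμT
  obtain ⟨μ, hμ⟩ := exists_clusterPt_of_compactSpace (Filter.map μT atTop)
  have hμ' : MapClusterPt μ atTop μT := hμ
  obtain ⟨U, hU, hlim⟩ := mapClusterPt_iff_ultrafilter.1 hμ'
  have hint : ∀ (T : ℕ) (F : SX → ℝ), ∫ ω, F ω ∂(μT T : Measure SX) =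
      (((Wf (T + 1)).card : ℝ) * (T + 1))⁻¹ *
        ∑ w ∈ Wf (T + 1), ∑ k ∈ range (T + 1), F (ext (w.take (k + 1)).reverse) := by
    intro T F
    show ∫ ω, F ω ∂(emp (I T) y) = _
    rw [emp_int, hIcard, hI]
    simp only
    rw [Finset.sum_product]
  -- convergence for continuous functions
  have hconv : ∀ F : SX → ℝ, Continuous F →
      Tendsto (fun T => ∫ ω, F ω ∂(μT T : Measure SX)) U (𝓝 (∫ ω, F ω ∂(μ : Measure SX))) := by
    intro F hF
    have := (ProbabilityMeasure.tendsto_iff_forall_integral_tendsto.1 hlim)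
      (BoundedContinuousFunction.mkOfCompact ⟨F, hF⟩)
    simpa using this
  have hev : ∀ p : ℕ → Prop, (∀ T, p T) → ∀ᶠ T in (U : Filter ℕ), p T := fun p h =>
    Eventually.of_forall h
  have hsmall : ∀ K : ℝ, Tendsto (fun T : ℕ => K / ((T : ℝ) + 1)) U (𝓝 0) := by
    intro K
    have h1 : Tendsto (fun T : ℕ => K / ((T : ℝ) + 1)) atTop (𝓝 0) :=
      tendsto_const_nhds.div_atTop
        (tendsto_atTop_add_const_right _ _ tendsto_natCast_atTop_atTop)
    exact h1.mono_left hU
  -- an upper bound for averages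
  have havg : ∀ (T : ℕ) (G : List Bool → ℝ) (K : ℝ), (∀ w ∈ Wf (T + 1), G w ≤ K) →
      (((Wf (T + 1)).card : ℝ) * (T + 1))⁻¹ * ∑ w ∈ Wf (T + 1), G w ≤ K / (T + 1) := by
    intro T G K hG
    have hc : (0 : ℝ) < ((Wf (T + 1)).card : ℝ) := by exact_mod_cast hWpos T
    have h1 : ∑ w ∈ Wf (T + 1), G w ≤ (Wf (T + 1)).card * K := by
      refine (Finset.sum_le_sum hG).trans ?_
      rw [Finset.sum_const, nsmul_eq_mul]
    rw [inv_mul_le_iff₀ (by positivity)]
    refine h1.trans (le_of_eq ?_)
    field_simp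
  refine ⟨μ, inferInstance, ?_, ?_, ?_⟩
  · -- invariance
    have hms : Measurable sh := cont_sh.measurable
    have : IsProbabilityMeasure ((μ : Measure SX).map sh) :=
      Measure.isProbabilityMeasure_map hms.aemeasurable
    refine ext_of_forall_integral_eq_of_IsFiniteMeasure fun f => ?_
    rw [integral_map hms.aemeasurable f.continuous.aestronglyMeasurable]
    set F : SX → ℝ := fun ω => f ω with hF
    have cF : Continuous F := f.continuous
    obtain ⟨C, hC⟩ : ∃ C : ℝ, ∀ ω, |F ω| ≤ C := ⟨‖f‖, fun ω => f.norm_coe_le_norm ω⟩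
    have l1 := hconv F cF
    have l2 := hconv (fun ω => F (sh ω)) (cF.comp cont_sh)
    have l3 : Tendsto (fun T => ∫ ω, F (sh ω) ∂(μT T : Measure SX) -
        ∫ ω, F ω ∂(μT T : Measure SX)) U (𝓝 0) := by
      refine squeeze_zero_norm (fun T => ?_) (hsmall (2 * C))
      rw [hint, hint, ← mul_sub, ← Finset.sum_sub_distrib]
      have key : ∀ w ∈ Wf (T + 1), |∑ k ∈ range (T + 1), F (sh (ext (w.take (k + 1)).reverse)) -
          ∑ k ∈ range (T + 1), F (ext (w.take (k + 1)).reverse)| ≤ 2 * C := by
        intro w hw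
        have hl := hlen _ w hw
        have e1 : ∀ k ∈ range (T + 1), F (sh (ext (w.take (k + 1)).reverse)) =
            F (ext (w.take k).reverse) := by
          intro k hk
          have hk' : k < w.length := by rw [hl]; exact Finset.mem_range.1 hk
          rw [List.take_succ_eq_append_getElem hk', List.reverse_append]
          simp only [List.reverse_singleton, List.singleton_append]
          rw [sh_ext]
        rw [Finset.sum_congr rfl e1, ← Finset.sum_sub_distrib]
        have e2 := Finset.sum_range_sub (fun k => F (ext (w.take k).reverse)) (T + 1)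
        have e3 : ∑ k ∈ range (T + 1), (F (ext (w.take k).reverse) -
            F (ext (w.take (k + 1)).reverse)) =
            -(∑ k ∈ range (T + 1), (F (ext (w.take (k + 1)).reverse) -
              F (ext (w.take k).reverse))) := by
          rw [← Finset.sum_neg_distrib]
          refine Finset.sum_congr rfl fun k _ => ?_
          ring
        rw [e3, e2, abs_neg]
        refine (abs_sub _ _).trans ?_
        have := hC (ext (w.take (T + 1)).reverse)
        have := hC (ext (w.take 0).reverse)
        linarith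
      rw [Real.norm_eq_abs, abs_mul, abs_of_nonneg (by positivity)]
      calc (((Wf (T + 1)).card : ℝ) * (T + 1))⁻¹ * |∑ w ∈ Wf (T + 1),
            (∑ k ∈ range (T + 1), F (sh (ext (w.take (k + 1)).reverse)) -
              ∑ k ∈ range (T + 1), F (ext (w.take (k + 1)).reverse))| ≤
            (((Wf (T + 1)).card : ℝ) * (T + 1))⁻¹ * ∑ w ∈ Wf (T + 1),
            |∑ k ∈ range (T + 1), F (sh (ext (w.take (k + 1)).reverse)) -
              ∑ k ∈ range (T + 1), F (ext (w.take (k + 1)).reverse)| :=
            mul_le_mul_of_nonneg_left (Finset.abs_sum_le_sum_abs _ _) (by positivity)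
        _ ≤ 2 * C / (T + 1) := havg T _ _ key
    have l4 := l2.sub l1
    have := tendsto_nhds_unique l4 l3
    linarith
  · -- the prediction error
    obtain ⟨C, hC0, hC⟩ := binEntropy_le (ε / 2) (by positivity)
    refine ⟨ε / 2 / C, by positivity, fun g hg => ?_⟩
    have cG : Continuous (fun ω : SX => (bit (ω 0) - g (sh ω)) ^ 2) :=
      (cont_bit0.sub (hg.comp cont_sh)).pow 2
    refine ge_of_tendsto (hconv _ cG) (hev _ fun T => ?_)
    rw [hint]
    have hc : (0 : ℝ) < ((Wf (T + 1)).card : ℝ) := by exact_mod_cast hWpos T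
    have ht := tree hC0 hC (fun l => g (ext l)) (T + 1) [] (Wf (T + 1)) (hlen (T + 1))
    have e1 : ∀ w ∈ Wf (T + 1), cost (fun l => g (ext l)) [] w = ∑ k ∈ range (T + 1),
        (bit (ext (w.take (k + 1)).reverse 0) - g (sh (ext (w.take (k + 1)).reverse))) ^ 2 := by
      intro w hw
      have hl := hlen _ w hw
      rw [cost_eq, hl]
      refine Finset.sum_congr rfl fun k hk => ?_
      have hk' : k < w.length := by rw [hl]; exact Finset.mem_range.1 hk
      rw [List.take_succ_eq_append_getElem hk', List.reverse_append]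
      simp only [List.reverse_singleton, List.singleton_append, List.append_nil]
      rw [sh_ext, ext_zero]
      congr 3
      exact List.getD_eq_getElem w false hk'
    rw [Finset.sum_congr rfl e1] at ht
    set Q := ∑ w ∈ Wf (T + 1), ∑ k ∈ range (T + 1),
        (bit (ext (w.take (k + 1)).reverse 0) - g (sh (ext (w.take (k + 1)).reverse))) ^ 2
    have h1 := hbig (T + 1) (by omega)
    have h2 : ε * ((T + 1 : ℕ) : ℝ) ≤ Real.log ((Wf (T + 1)).card : ℝ) := by
      rw [Real.le_log_iff_exp_le hc]
      exact h1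
    have h3 : ((Wf (T + 1)).card : ℝ) * (ε / 2 * ((T + 1 : ℕ) : ℝ)) ≤ C * Q := by
      refine le_trans ?_ ht
      refine mul_le_mul_of_nonneg_left ?_ hc.le
      linarith
    rw [div_le_iff₀ hC0, inv_mul_eq_div, div_mul_eq_mul_div, le_div_iff₀ (by positivity)]
    push_cast at h3
    linarith
  · -- vanishing integrals
    rintro F cF hF0 ⟨K, hK⟩
    have l1 := hconv F cF
    have l2 : Tendsto (fun T => ∫ ω, F ω ∂(μT T : Measure SX)) U (𝓝 0) := by
      refine squeeze_zero (fun T => integral_nonneg hF0) (fun T => ?_) (hsmall K)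
      rw [hint]
      exact havg T _ K (hK (T + 1))
    exact tendsto_nhds_unique l1 l2

end Pool.Agent.TH338.LG
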