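import Mathlib

/-! Transfer operators with exact inverse branches: pointwise identities. -/

set_option autoImplicit false
open MeasureTheory Finset Filter Topology
open scoped ENNReal

namespace Pool.Agent.TH338.LG

/-- a measure-preserving system with finitely many inverse branches `c a` of `σ`, conditional
weights `w a`, and a unimodular function `e` with `e ^ b = e ∘ σ` -/
structure Sys (b : ℕ) (X ι : Type) [MeasurableSpace X] [Fintype ι] where
  σ : X → X
  c : ι → X → X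
  w : ι → X → ℝ
  e : X → ℂ
  v : X → ℝ
  μ : Measure X
  prob : IsProbabilityMeasure μ
  hσ : Measurable σ
  hc : ∀ a, Measurable (c a)
  hw : ∀ a, Measurable (w a)
  he : Measurable e
  hv : Measurable v
  w0 : ∀ a z, 0 ≤ w a z
  w1 : ∀ z, ∑ a, w a z = 1
  σc : ∀ a z, σ (c a z) = z
  e1 : ∀ z, ‖e z‖ = 1
  eb : ∀ z, e z ^ b = e (σ z)
  v0 : ∀ z, 0 ≤ v z
  vu : ∀ u : ℕ, ¬ b ∣ u → ∀ z, v z ≤ 1 - ‖∑ a, w a z • e (c a z) ^ u‖ ^ 2
  inv : ∀ F : X → ℂ, Measurable F → (∃ C : ℝ, ∀ z, ‖F z‖ ≤ C) →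
    ∫ z, ∑ a, w a z • F (c a z) ∂μ = ∫ z, F z ∂μ
  pos : ∀ᵐ z ∂μ, ∃ i : ℕ, 0 < v (σ^[i] z)

namespace Sys

variable {b : ℕ} {X ι : Type} [MeasurableSpace X] [Fintype ι] (S : Sys b X ι)

/-- the transfer operator -/
def P {E : Type} [AddCommGroup E] [Module ℝ E] (F : X → E) : X → E :=
  fun z => ∑ a, S.w a z • F (S.c a z)

/-- its iterates -/
def Q (m : ℕ) {E : Type} [AddCommGroup E] [Module ℝ E] (F : X → E) : X → E :=
  (S.P (E := E))^[m] F

lemma Q_zero {E : Type} [AddCommGroup E] [Module ℝ E] (F : X → E) : S.Q 0 F = F := rfl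

lemma Q_succ (m : ℕ) {E : Type} [AddCommGroup E] [Module ℝ E] (F : X → E) :
    S.Q (m + 1) F = S.Q m (S.P F) := rfl

lemma Q_one {E : Type} [AddCommGroup E] [Module ℝ E] (F : X → E) : S.Q 1 F = S.P F := rfl

lemma Q_add (m n : ℕ) {E : Type} [AddCommGroup E] [Module ℝ E] (F : X → E) :
    S.Q (n + m) F = S.Q m (S.Q n F) := by
  unfold Q
  rw [add_comm, Function.iterate_add_apply]

/-- the iterates are explicit averages -/
lemma rep (m : ℕ) : ∃ (I : Type) (_ : Fintype I) (W : X → I → ℝ) (y : X → I → X),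
    (∀ z i, 0 ≤ W z i) ∧ (∀ z, ∑ i, W z i = 1) ∧ (∀ z i, S.σ^[m] (y z i) = z) ∧
    ∀ (E : Type) [AddCommGroup E] [Module ℝ E] (F : X → E) (z : X),
      S.Q m F z = ∑ i, W z i • F (y z i) := by
  induction m with
  | zero =>
    refine ⟨Unit, inferInstance, fun _ _ => 1, fun z _ => z, fun _ _ => zero_le_one, ?_, ?_, ?_⟩
    · intro z; simp
    · intro z i; rfl
    · intro E _ _ F z; simp [Q_zero]
  | succ m ih =>
    obtain ⟨I, hI, W, y, h0, h1, h2, h3⟩ := ih
    refine ⟨I × ι, inferInstance, fun z i => W z i.1 * S.w i.2 (y z i.1),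
      fun z i => S.c i.2 (y z i.1), ?_, ?_, ?_, ?_⟩
    · intro z i
      exact mul_nonneg (h0 _ _) (S.w0 _ _)
    · intro z
      rw [Fintype.sum_prod_type]
      simp only
      calc ∑ x, ∑ a, W z x * S.w a (y z x) = ∑ x, W z x := by
            refine Finset.sum_congr rfl fun x _ => ?_
            rw [← Finset.mul_sum, S.w1, mul_one]
        _ = 1 := h1 z
    · intro z i
      rw [Function.iterate_succ_apply, S.σc, h2]
    · intro E _ _ F z
      rw [Q_succ, h3, Fintype.sum_prod_type]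
      refine Finset.sum_congr rfl fun x _ => ?_
      unfold P
      rw [Finset.smul_sum]
      refine Finset.sum_congr rfl fun a _ => ?_
      rw [smul_smul]

lemma Q_mono (m : ℕ) {F G : X → ℝ} (h : ∀ z, F z ≤ G z) (z : X) : S.Q m F z ≤ S.Q m G z := by
  obtain ⟨I, _, W, y, h0, h1, h2, h3⟩ := S.rep m
  rw [h3, h3]
  refine Finset.sum_le_sum fun i _ => ?_
  simp only [smul_eq_mul]
  exact mul_le_mul_of_nonneg_left (h _) (h0 _ _)

lemma Q_nonneg (m : ℕ) {F : X → ℝ} (h : ∀ z, 0 ≤ F z) (z : X) : 0 ≤ S.Q m F z := by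
  obtain ⟨I, _, W, y, h0, h1, h2, h3⟩ := S.rep m
  rw [h3]
  refine Finset.sum_nonneg fun i _ => ?_
  simp only [smul_eq_mul]
  exact mul_nonneg (h0 _ _) (h _)

lemma Q_const (m : ℕ) {E : Type} [AddCommGroup E] [Module ℝ E] (C : E) (z : X) :
    S.Q m (fun _ => C) z = C := by
  obtain ⟨I, _, W, y, h0, h1, h2, h3⟩ := S.rep m
  rw [h3, ← Finset.sum_smul, h1, one_smul]

lemma Q_lin (m : ℕ) (r s : ℝ) {E : Type} [AddCommGroup E] [Module ℝ E] (F G : X → E) (z : X) :
    S.Q m (fun x => r • F x + s • G x) z = r • S.Q m F z + s • S.Q m G z := by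
  obtain ⟨I, _, W, y, h0, h1, h2, h3⟩ := S.rep m
  rw [h3, h3, h3, Finset.smul_sum, Finset.smul_sum, ← Finset.sum_add_distrib]
  refine Finset.sum_congr rfl fun i _ => ?_
  rw [smul_add, smul_comm, smul_comm (W z i) s]

lemma Q_sum (m : ℕ) {J : Type} (s : Finset J) {E : Type} [AddCommGroup E] [Module ℝ E]
    (F : J → X → E) (z : X) :
    S.Q m (fun x => ∑ j ∈ s, F j x) z = ∑ j ∈ s, S.Q m (F j) z := by
  obtain ⟨I, _, W, y, h0, h1, h2, h3⟩ := S.rep m
  simp only [h3]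
  rw [Finset.sum_comm]
  refine Finset.sum_congr rfl fun i _ => ?_
  rw [Finset.smul_sum]

lemma Q_pull (m : ℕ) (F G : X → ℂ) (z : X) :
    S.Q m (fun x => G (S.σ^[m] x) * F x) z = G z * S.Q m F z := by
  obtain ⟨I, _, W, y, h0, h1, h2, h3⟩ := S.rep m
  rw [h3, h3, Finset.mul_sum]
  refine Finset.sum_congr rfl fun i _ => ?_
  rw [h2]
  simp only [Complex.real_smul]
  ring

lemma Q_comp (m : ℕ) {E : Type} [AddCommGroup E] [Module ℝ E] (G : X → E) :
    S.Q m (fun x => G (S.σ^[m] x)) = G := by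
  funext z
  obtain ⟨I, _, W, y, h0, h1, h2, h3⟩ := S.rep m
  rw [h3]
  simp only [h2]
  rw [← Finset.sum_smul, h1, one_smul]

lemma Q_norm_le (m : ℕ) {F : X → ℂ} {C : ℝ} (h : ∀ z, ‖F z‖ ≤ C) (z : X) :
    ‖S.Q m F z‖ ≤ C := by
  obtain ⟨I, _, W, y, h0, h1, h2, h3⟩ := S.rep m
  rw [h3]
  calc ‖∑ i, W z i • F (y z i)‖ ≤ ∑ i, ‖W z i • F (y z i)‖ := norm_sum_le _ _
    _ ≤ ∑ i, W z i * C := by
        refine Finset.sum_le_sum fun i _ => ?_
        rw [norm_smul, Real.norm_eq_abs, abs_of_nonneg (h0 _ _)]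
        exact mul_le_mul_of_nonneg_left (h _) (h0 _ _)
    _ = C := by rw [← Finset.sum_mul, h1, one_mul]

/-- the variance identity -/
lemma Q_var (m : ℕ) (F G : X → ℂ) (z : X) :
    S.Q m (fun x => ‖F x - G (S.σ^[m] x)‖ ^ 2) z =
      S.Q m (fun x => ‖F x‖ ^ 2) z - 2 * ((starRingEnd ℂ (G z)) * S.Q m F z).re + ‖G z‖ ^ 2 := by
  obtain ⟨I, _, W, y, h0, h1, h2, h3⟩ := S.rep m
  rw [h3, h3, h3]
  have key : ∀ i, W z i • ‖F (y z i) - G (S.σ^[m] (y z i))‖ ^ 2 =
      W z i • ‖F (y z i)‖ ^ 2 - 2 * (starRingEnd ℂ (G z) * (W z i • F (y z i))).re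
        + W z i * ‖G z‖ ^ 2 := by
    intro i
    rw [h2]
    simp only [smul_eq_mul, Complex.real_smul]
    rw [← Complex.normSq_eq_norm_sq, ← Complex.normSq_eq_norm_sq, ← Complex.normSq_eq_norm_sq,
      Complex.normSq_sub]
    simp only [Complex.mul_re, Complex.mul_im, Complex.conj_re, Complex.conj_im,
      Complex.ofReal_re, Complex.ofReal_im]
    ring
  have h5 : ∑ i, 2 * (starRingEnd ℂ (G z) * (W z i • F (y z i))).re =
      2 * (starRingEnd ℂ (G z) * ∑ i, W z i • F (y z i)).re := by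
    rw [Finset.mul_sum, Complex.re_sum, Finset.mul_sum]
  rw [Finset.sum_congr rfl fun i _ => key i, Finset.sum_add_distrib, Finset.sum_sub_distrib,
    ← Finset.sum_mul, h1, one_mul, h5]

/-- Jensen -/
lemma Q_sq (m : ℕ) (F : X → ℂ) (z : X) :
    ‖S.Q m F z‖ ^ 2 ≤ S.Q m (fun x => ‖F x‖ ^ 2) z := by
  have h1 := S.Q_var m F (S.Q m F) z
  have h2 : 0 ≤ S.Q m (fun x => ‖F x - S.Q m F (S.σ^[m] x)‖ ^ 2) z :=
    S.Q_nonneg m (fun x => by positivity) z
  have h3 : (starRingEnd ℂ (S.Q m F z) * S.Q m F z).re = ‖S.Q m F z‖ ^ 2 := by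
    rw [← Complex.normSq_eq_norm_sq, mul_comm, Complex.mul_conj, Complex.ofReal_re]
  rw [h3] at h1
  linarith

/-- the variance of a unimodular function is at most the mean square distance to a constant -/
lemma Q_var_le (m : ℕ) {F : X → ℂ} (hF : ∀ z, ‖F z‖ = 1) (β : ℂ) (z : X) :
    1 - ‖S.Q m F z‖ ^ 2 ≤ S.Q m (fun x => ‖F x - β‖ ^ 2) z := by
  have h1 := S.Q_var m F (fun _ => β) z
  simp only [hF, one_pow] at h1
  rw [S.Q_const] at h1
  rw [h1]
  have h3 := Complex.normSq_nonneg (S.Q m F z - β)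
  rw [Complex.normSq_sub, Complex.normSq_eq_norm_sq, Complex.normSq_eq_norm_sq] at h3
  have h4 : (S.Q m F z * starRingEnd ℂ β).re = (starRingEnd ℂ β * S.Q m F z).re := by
    rw [mul_comm]
  rw [h4] at h3
  linarith

/-! ### measurability and integrals -/

lemma meas_P {F : X → ℂ} (hF : Measurable F) : Measurable (S.P F) := by
  unfold P
  refine Finset.measurable_sum _ fun a _ => ?_
  exact (S.hw a).smul (hF.comp (S.hc a))

lemma meas_P' {F : X → ℝ} (hF : Measurable F) : Measurable (S.P F) := by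
  unfold P
  refine Finset.measurable_sum _ fun a _ => ?_
  exact (S.hw a).smul (hF.comp (S.hc a))

lemma meas_Q (m : ℕ) {F : X → ℂ} (hF : Measurable F) : Measurable (S.Q m F) := by
  induction m generalizing F with
  | zero => exact hF
  | succ m ih => exact ih (S.meas_P hF)

lemma meas_Q' (m : ℕ) {F : X → ℝ} (hF : Measurable F) : Measurable (S.Q m F) := by
  induction m generalizing F with
  | zero => exact hF
  | succ m ih => exact ih (S.meas_P' hF)

lemma Q_ofReal (m : ℕ) (F : X → ℝ) (z : X) :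
    S.Q m (fun x => (F x : ℂ)) z = ((S.Q m F z : ℝ) : ℂ) := by
  obtain ⟨I, _, W, y, h0, h1, h2, h3⟩ := S.rep m
  rw [h3, h3]
  push_cast
  refine Finset.sum_congr rfl fun i _ => ?_
  simp only [Complex.real_smul, smul_eq_mul, Complex.ofReal_mul]

lemma int_Q (m : ℕ) {F : X → ℂ} (hF : Measurable F) {C : ℝ} (hC : ∀ z, ‖F z‖ ≤ C) :
    ∫ z, S.Q m F z ∂S.μ = ∫ z, F z ∂S.μ := by
  induction m generalizing F with
  | zero => rfl
  | succ m ih =>
    rw [Q_succ, ih (S.meas_P hF) (fun z => S.Q_norm_le 1 hC z)]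
    exact S.inv F hF ⟨C, hC⟩

lemma int_Q' (m : ℕ) {F : X → ℝ} (hF : Measurable F) {C : ℝ} (hC : ∀ z, |F z| ≤ C) :
    ∫ z, S.Q m F z ∂S.μ = ∫ z, F z ∂S.μ := by
  have h1 := S.int_Q m (F := fun x => (F x : ℂ)) (Complex.measurable_ofReal.comp hF) (C := C)
    (by intro z; simpa using hC z)
  simp only [S.Q_ofReal] at h1
  rw [integral_complex_ofReal, integral_complex_ofReal] at h1
  exact_mod_cast h1

lemma integrable_bdd {F : X → ℝ} (hF : Measurable F) {C : ℝ} (hC : ∀ z, |F z| ≤ C) :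
    Integrable F S.μ := by
  have := S.prob
  exact Integrable.of_bound hF.aestronglyMeasurable C (Eventually.of_forall hC)

lemma integrable_bddC {F : X → ℂ} (hF : Measurable F) {C : ℝ} (hC : ∀ z, ‖F z‖ ≤ C) :
    Integrable F S.μ := by
  have := S.prob
  exact Integrable.of_bound hF.aestronglyMeasurable C (Eventually.of_forall hC)

end Sys

end Pool.Agent.TH338.LG
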