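import Mathlib
import Pool.Agent.TH338.LG.Op

/-! The key inequality and the uniform bound. -/

set_option autoImplicit false
open MeasureTheory Finset Filter Topology
open scoped ENNReal

namespace Pool.Agent.TH338.LG

namespace Sys

variable {b : ℕ} {X ι : Type} [MeasurableSpace X] [Fintype ι] (S : Sys b X ι)

lemma e_pow_norm (u : ℕ) (z : X) : ‖S.e z ^ u‖ = 1 := by
  rw [norm_pow, S.e1, one_pow]

lemma e_pow_b (t : ℕ) (z : X) : S.e z ^ (b ^ t) = S.e (S.σ^[t] z) := by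
  induction t generalizing z with
  | zero => simp
  | succ t ih =>
    rw [pow_succ, mul_comm, pow_mul, S.eb, ih, Function.iterate_succ_apply]

lemma e_split (u v k : ℕ) (z : X) :
    S.e z ^ (u + b ^ v * k) = (S.e (S.σ^[v] z)) ^ k * S.e z ^ u := by
  rw [pow_add, pow_mul, S.e_pow_b, mul_comm]

lemma Q_e_split (m u k : ℕ) (z : X) :
    S.Q m (fun x => S.e x ^ (u + b ^ m * k)) z = S.e z ^ k * S.Q m (fun x => S.e x ^ u) z := by
  have h : (fun x => S.e x ^ (u + b ^ m * k)) =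
      fun x => (fun y => S.e y ^ k) (S.σ^[m] x) * (fun y => S.e y ^ u) x := by
    funext x
    exact S.e_split u m k x
  rw [h]
  exact S.Q_pull m (fun y => S.e y ^ u) (fun y => S.e y ^ k) z

/-- `|P^m e^u|²` -/
noncomputable def r (m u : ℕ) : X → ℝ := fun z => ‖S.Q m (fun x => S.e x ^ u) z‖ ^ 2

lemma r_nonneg (m u : ℕ) (z : X) : 0 ≤ S.r m u z := by unfold r; positivity

lemma r_le_one (m u : ℕ) (z : X) : S.r m u z ≤ 1 := by
  unfold r
  have := S.Q_norm_le m (F := fun x => S.e x ^ u) (C := 1) (fun z => (S.e_pow_norm u z).le) z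
  exact pow_le_one₀ (norm_nonneg _) this

lemma meas_r (m u : ℕ) : Measurable (S.r m u) :=
  ((S.meas_Q m (S.he.pow_const u)).norm).pow_const 2

lemma abs_r_le (m u : ℕ) (z : X) : |S.r m u z| ≤ 1 := by
  rw [abs_of_nonneg (S.r_nonneg _ _ _)]
  exact S.r_le_one _ _ _

lemma integrable_r (m u : ℕ) : Integrable (S.r m u) S.μ :=
  S.integrable_bdd (S.meas_r m u) (S.abs_r_le m u)

lemma r_add (m u k : ℕ) : S.r m (u + b ^ m * k) = S.r m u := by
  funext z
  unfold r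
  rw [S.Q_e_split, norm_mul, S.e_pow_norm, one_mul]

lemma r_mod (m : ℕ) {u u' : ℕ} (h : u ≡ u' [MOD b ^ m]) : S.r m u = S.r m u' := by
  rcases le_total u u' with hl | hl
  · obtain ⟨k, hk⟩ := (Nat.modEq_iff_dvd' hl).1 h
    have : u' = u + b ^ m * k := by omega
    rw [this, S.r_add]
  · obtain ⟨k, hk⟩ := (Nat.modEq_iff_dvd' hl).1 h.symm
    have : u = u' + b ^ m * k := by omega
    rw [this, S.r_add]

lemma int_sq_le {F : X → ℝ} (hF : Measurable F) {C : ℝ} (hC : ∀ z, |F z| ≤ C) :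
    (∫ z, F z ∂S.μ) ^ 2 ≤ ∫ z, F z ^ 2 ∂S.μ := by
  have := S.prob
  set c := ∫ z, F z ∂S.μ with hc
  have h2 : ∀ z, |F z ^ 2| ≤ C ^ 2 := by
    intro z
    rw [abs_pow]
    exact pow_le_pow_left₀ (abs_nonneg _) (hC z) 2
  have i1 := S.integrable_bdd hF hC
  have i2 := S.integrable_bdd (hF.pow_const 2) h2
  have h0 : 0 ≤ ∫ z, (F z - c) ^ 2 ∂S.μ := integral_nonneg fun z => by positivity
  have h3 : ∫ z, (F z - c) ^ 2 ∂S.μ = ∫ z, F z ^ 2 ∂S.μ - 2 * c * c + c ^ 2 := by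
    have : ∀ z, (F z - c) ^ 2 = F z ^ 2 - 2 * c * F z + c ^ 2 := fun z => by ring
    simp only [this]
    have e1 := integral_sub i2 (i1.const_mul (2 * c))
    have e2 := integral_add (i2.sub (i1.const_mul (2 * c))) (integrable_const (c ^ 2))
    simp only [Pi.sub_apply] at e2
    rw [e2, e1, integral_const_mul, ← hc]
    simp
  nlinarith

/-- the key inequality -/
lemma key (v m u k : ℕ) :
    ∫ z, |S.r (v + m) (u + b ^ v * k) z - S.r (v + m) u z * S.r m k z| ∂S.μ ≤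
      2 * √(∫ z, S.r v u z ∂S.μ - ∫ z, S.r (v + m) u z ∂S.μ) := by
  have := S.prob
  set A : X → ℂ := S.Q v (fun x => S.e x ^ u) with hA
  set B : X → ℂ := S.Q m A with hB
  have hA1 : ∀ z, ‖A z‖ ≤ 1 := fun z => S.Q_norm_le v (fun z => (S.e_pow_norm u z).le) z
  have hB1 : ∀ z, ‖B z‖ ≤ 1 := fun z => S.Q_norm_le m hA1 z
  have mA : Measurable A := S.meas_Q v (S.he.pow_const u)
  have mB : Measurable B := S.meas_Q m mA
  have hB' : B = S.Q (v + m) (fun x => S.e x ^ u) := by rw [S.Q_add m v]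
  have mσ : Measurable (S.σ^[m]) := S.hσ.iterate m
  set D : X → ℂ := fun x => S.e x ^ k * A x - S.e x ^ k * B (S.σ^[m] x) with hD
  have mD : Measurable D :=
    ((S.he.pow_const k).mul mA).sub ((S.he.pow_const k).mul (mB.comp mσ))
  have hDn : ∀ x, ‖D x‖ = ‖A x - B (S.σ^[m] x)‖ := by
    intro x
    simp only [hD]
    rw [← mul_sub, norm_mul, S.e_pow_norm, one_mul]
  have hD2 : ∀ x, ‖D x‖ ≤ 2 := by
    intro x
    rw [hDn]
    calc ‖A x - B (S.σ^[m] x)‖ ≤ ‖A x‖ + ‖B (S.σ^[m] x)‖ := norm_sub_le _ _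
      _ ≤ 1 + 1 := add_le_add (hA1 _) (hB1 _)
      _ = 2 := by norm_num
  have h1 : ∀ z, S.Q (v + m) (fun x => S.e x ^ (u + b ^ v * k)) z =
      S.Q m (fun x => S.e x ^ k * A x) z := by
    intro z
    rw [S.Q_add m v]
    congr 1
    funext x
    exact S.Q_e_split v u k x
  have h2 : ∀ z, S.Q m (fun x => S.e x ^ k * B (S.σ^[m] x)) z =
      B z * S.Q m (fun x => S.e x ^ k) z := by
    intro z
    rw [← S.Q_pull m (fun x => S.e x ^ k) B z]
    congr 1
    funext x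
    ring
  have h3 : ∀ z, S.Q m D z = S.Q m (fun x => S.e x ^ k * A x) z -
      S.Q m (fun x => S.e x ^ k * B (S.σ^[m] x)) z := by
    intro z
    have := S.Q_lin m 1 (-1) (fun x => S.e x ^ k * A x)
      (fun x => S.e x ^ k * B (S.σ^[m] x)) z
    simp only [one_smul, neg_smul, ← sub_eq_add_neg] at this
    exact this
  have h4 : ∀ z, |S.r (v + m) (u + b ^ v * k) z - S.r (v + m) u z * S.r m k z| ≤
      2 * ‖S.Q m D z‖ := by
    intro z
    have e1 : S.r (v + m) (u + b ^ v * k) z = ‖S.Q m (fun x => S.e x ^ k * A x) z‖ ^ 2 := by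
      unfold r
      rw [h1]
    have e2 : S.r (v + m) u z * S.r m k z =
        ‖S.Q m (fun x => S.e x ^ k * B (S.σ^[m] x)) z‖ ^ 2 := by
      rw [h2, norm_mul, mul_pow, hB']
      rfl
    rw [e1, e2, h3]
    set a := S.Q m (fun x => S.e x ^ k * A x) z
    set c := S.Q m (fun x => S.e x ^ k * B (S.σ^[m] x)) z
    have ha : ‖a‖ ≤ 1 := S.Q_norm_le m (fun x => by
      rw [norm_mul, S.e_pow_norm, one_mul]; exact hA1 x) z
    have hc : ‖c‖ ≤ 1 := S.Q_norm_le m (fun x => by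
      rw [norm_mul, S.e_pow_norm, one_mul]; exact hB1 _) z
    have h5 := abs_norm_sub_norm_le a c
    have h6 : ‖a‖ ^ 2 - ‖c‖ ^ 2 = (‖a‖ - ‖c‖) * (‖a‖ + ‖c‖) := by ring
    rw [h6, abs_mul, abs_of_nonneg (by positivity : 0 ≤ ‖a‖ + ‖c‖)]
    have h7 : ‖a‖ + ‖c‖ ≤ 2 := by linarith
    calc |‖a‖ - ‖c‖| * (‖a‖ + ‖c‖) ≤ ‖a - c‖ * 2 :=
          mul_le_mul h5 h7 (by positivity) (norm_nonneg _)
      _ = 2 * ‖a - c‖ := by ring
  have mQ : Measurable (fun z => ‖S.Q m D z‖) := (S.meas_Q m mD).norm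
  have bQ : ∀ z, |‖S.Q m D z‖| ≤ 2 := fun z => by
    rw [abs_norm]; exact S.Q_norm_le m hD2 z
  have h5 : ∫ z, |S.r (v + m) (u + b ^ v * k) z - S.r (v + m) u z * S.r m k z| ∂S.μ ≤
      2 * ∫ z, ‖S.Q m D z‖ ∂S.μ := by
    rw [← integral_const_mul]
    refine integral_mono_of_nonneg (Eventually.of_forall fun z => abs_nonneg _)
      ((S.integrable_bdd mQ bQ).const_mul 2) (Eventually.of_forall h4)
  refine h5.trans ?_
  refine mul_le_mul_of_nonneg_left ?_ (by norm_num)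
  refine Real.le_sqrt_of_sq_le ?_
  refine (S.int_sq_le mQ bQ).trans ?_
  have h6 : ∀ z, ‖S.Q m D z‖ ^ 2 ≤ S.Q m (fun x => ‖A x‖ ^ 2) z - S.r (v + m) u z := by
    intro z
    refine (S.Q_sq m D z).trans ?_
    have e1 : (fun x => ‖D x‖ ^ 2) = fun x => ‖A x - B (S.σ^[m] x)‖ ^ 2 := by
      funext x; rw [hDn]
    rw [e1, S.Q_var m A B z]
    have e2 : (starRingEnd ℂ (B z) * S.Q m A z).re = ‖B z‖ ^ 2 := by
      rw [← hB, ← Complex.normSq_eq_norm_sq, mul_comm, Complex.mul_conj, Complex.ofReal_re]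
    rw [e2]
    have e3 : S.r (v + m) u z = ‖B z‖ ^ 2 := by
      unfold r; rw [hB']
    rw [e3]
    linarith
  have mA2 : Measurable (fun x => ‖A x‖ ^ 2) := mA.norm.pow_const 2
  have bA2 : ∀ x, |‖A x‖ ^ 2| ≤ 1 := fun x => by
    rw [abs_of_nonneg (by positivity)]
    exact pow_le_one₀ (norm_nonneg _) (hA1 x)
  have bQA : ∀ z, |S.Q m (fun x => ‖A x‖ ^ 2) z| ≤ 1 := by
    intro z
    rw [abs_of_nonneg (S.Q_nonneg m (fun x => by positivity) z)]
    have := S.Q_mono m (G := fun _ => (1 : ℝ)) (fun x => (le_abs_self _).trans (bA2 x)) z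
    rwa [S.Q_const] at this
  have i1 : Integrable (S.Q m (fun x => ‖A x‖ ^ 2)) S.μ :=
    S.integrable_bdd (S.meas_Q' m mA2) bQA
  calc ∫ z, ‖S.Q m D z‖ ^ 2 ∂S.μ ≤
        ∫ z, (S.Q m (fun x => ‖A x‖ ^ 2) z - S.r (v + m) u z) ∂S.μ :=
        integral_mono_of_nonneg (Eventually.of_forall fun z => by positivity)
          (i1.sub (S.integrable_r _ _)) (Eventually.of_forall h6)
    _ = ∫ z, S.Q m (fun x => ‖A x‖ ^ 2) z ∂S.μ - ∫ z, S.r (v + m) u z ∂S.μ :=
        integral_sub i1 (S.integrable_r _ _)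
    _ = ∫ z, S.r v u z ∂S.μ - ∫ z, S.r (v + m) u z ∂S.μ := by
        rw [S.int_Q' m mA2 bA2]
        rfl

/-- the level functions decrease -/
lemma int_r_anti (v m u : ℕ) : ∫ z, S.r (v + m) u z ∂S.μ ≤ ∫ z, S.r v u z ∂S.μ := by
  have := S.prob
  set A : X → ℂ := S.Q v (fun x => S.e x ^ u) with hA
  have hA1 : ∀ z, ‖A z‖ ≤ 1 := fun z => S.Q_norm_le v (fun z => (S.e_pow_norm u z).le) z
  have mA : Measurable A := S.meas_Q v (S.he.pow_const u)
  have mA2 : Measurable (fun x => ‖A x‖ ^ 2) := mA.norm.pow_const 2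
  have bA2 : ∀ x, |‖A x‖ ^ 2| ≤ 1 := fun x => by
    rw [abs_of_nonneg (by positivity)]
    exact pow_le_one₀ (norm_nonneg _) (hA1 x)
  have bQA : ∀ z, |S.Q m (fun x => ‖A x‖ ^ 2) z| ≤ 1 := by
    intro z
    rw [abs_of_nonneg (S.Q_nonneg m (fun x => by positivity) z)]
    have := S.Q_mono m (G := fun _ => (1 : ℝ)) (fun x => (le_abs_self _).trans (bA2 x)) z
    rwa [S.Q_const] at this
  calc ∫ z, S.r (v + m) u z ∂S.μ ≤ ∫ z, S.Q m (fun x => ‖A x‖ ^ 2) z ∂S.μ := by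
        refine integral_mono_of_nonneg (Eventually.of_forall fun z => S.r_nonneg _ _ _)
          (S.integrable_bdd (S.meas_Q' m mA2) bQA) (Eventually.of_forall fun z => ?_)
        show ‖S.Q (v + m) (fun x => S.e x ^ u) z‖ ^ 2 ≤ _
        rw [S.Q_add m v]
        exact S.Q_sq m A z
    _ = ∫ z, S.r v u z ∂S.μ := by
        rw [S.int_Q' m mA2 bA2]
        rfl

end Sys

end Pool.Agent.TH338.LG
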