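import Mathlib
import Pool.Agent.TH338.LG.Ki

/-! The uniform bound for units. -/

set_option autoImplicit false
open MeasureTheory Finset Filter Topology
open scoped ENNReal

namespace Pool.Agent.TH338.LG

lemma pow_sub_norm_le (x y : ℂ) (hx : ‖x‖ ≤ 1) (hy : ‖y‖ ≤ 1) (n : ℕ) :
    ‖x ^ n - y ^ n‖ ≤ n * ‖x - y‖ := by
  induction n with
  | zero => simp
  | succ n ih =>
    have h : x ^ (n + 1) - y ^ (n + 1) = x * (x ^ n - y ^ n) + (x - y) * y ^ n := by ring
    rw [h]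
    calc ‖x * (x ^ n - y ^ n) + (x - y) * y ^ n‖ ≤ ‖x * (x ^ n - y ^ n)‖ + ‖(x - y) * y ^ n‖ :=
          norm_add_le _ _
      _ ≤ 1 * (n * ‖x - y‖) + ‖x - y‖ * 1 := by
          rw [norm_mul, norm_mul]
          refine add_le_add (mul_le_mul hx ih (norm_nonneg _) zero_le_one)
            (mul_le_mul_of_nonneg_left ?_ (norm_nonneg _))
          rw [norm_pow]
          exact pow_le_one₀ (norm_nonneg _) hy
      _ = ((n + 1 : ℕ) : ℝ) * ‖x - y‖ := by push_cast; ring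

namespace Sys

variable {b : ℕ} {X ι : Type} [MeasurableSpace X] [Fintype ι] (S : Sys b X ι)

lemma fact1 (m u : ℕ) (hu : ¬ b ∣ u) (z : X) : S.Q m S.v z ≤ 1 - S.r (m + 1) u z := by
  have h1 : S.r (m + 1) u z = ‖S.Q m (S.P (fun x => S.e x ^ u)) z‖ ^ 2 := rfl
  have h2 := S.Q_sq m (S.P (fun x => S.e x ^ u)) z
  have h3 : S.Q m S.v z ≤ S.Q m (fun x => (1 : ℝ) • (1 : ℝ) +
      (-1 : ℝ) • ‖S.P (fun x => S.e x ^ u) x‖ ^ 2) z := by
    refine S.Q_mono m (fun x => ?_) z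
    have := S.vu u hu x
    simp only [smul_eq_mul]
    unfold P
    linarith
  rw [S.Q_lin m 1 (-1) (fun _ => (1 : ℝ)) (fun x => ‖S.P (fun x => S.e x ^ u) x‖ ^ 2) z,
    S.Q_const] at h3
  simp only [smul_eq_mul] at h3
  rw [h1]
  linarith

lemma fact2 (hb : 1 ≤ b) (t m u : ℕ) (hu : ¬ b ∣ u) (z : X) :
    S.Q m S.v z ≤ 2 * (b : ℝ) ^ (2 * t) * (1 - S.r (t + (m + 1)) u z) := by
  refine (S.fact1 m u hu z).trans ?_
  set F : X → ℂ := fun x => S.e x ^ u with hF
  set M := t + (m + 1) with hM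
  have h1 : ∀ x, F x ^ (b ^ t) = F (S.σ^[t] x) := by
    intro x
    simp only [hF]
    rw [← pow_mul, mul_comm, pow_mul, S.e_pow_b]
  have h2 : S.Q M (fun x => F x ^ (b ^ t)) = S.Q (m + 1) F := by
    rw [hM, S.Q_add (m + 1) t]
    congr 1
    simp only [h1]
    exact S.Q_comp t F
  have h3 : S.r (m + 1) u z = ‖S.Q M (fun x => F x ^ (b ^ t)) z‖ ^ 2 := by
    rw [h2]; rfl
  set c := S.Q M F z with hc
  have hc1 : ‖c‖ ≤ 1 := S.Q_norm_le M (fun z => (S.e_pow_norm u z).le) z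
  obtain ⟨β, hβ, hβc⟩ : ∃ β : ℂ, ‖β‖ = 1 ∧ (starRingEnd ℂ β * c).re = ‖c‖ := by
    by_cases h0 : c = 0
    · exact ⟨1, by simp, by simp [h0]⟩
    · have hn : (‖c‖ : ℂ) ≠ 0 := by
        simpa using h0
      refine ⟨c / ‖c‖, ?_, ?_⟩
      · rw [norm_div, Complex.norm_real, norm_norm, div_self]
        simpa using h0
      · have : starRingEnd ℂ (c / (‖c‖ : ℂ)) * c = (‖c‖ : ℂ) := by
          rw [map_div₀, Complex.conj_ofReal, div_mul_eq_mul_div, mul_comm, Complex.mul_conj,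
            Complex.normSq_eq_norm_sq]
          push_cast
          rw [pow_two, mul_div_assoc, div_self hn, mul_one]
        rw [this, Complex.ofReal_re]
  have hF1 : ∀ x, ‖F x‖ = 1 := fun x => S.e_pow_norm u x
  have h4 : 1 - ‖S.Q M (fun x => F x ^ (b ^ t)) z‖ ^ 2 ≤
      S.Q M (fun x => ‖F x ^ (b ^ t) - β ^ (b ^ t)‖ ^ 2) z :=
    S.Q_var_le M (fun x => by rw [norm_pow, hF1, one_pow]) _ z
  have h5 : S.Q M (fun x => ‖F x ^ (b ^ t) - β ^ (b ^ t)‖ ^ 2) z ≤
      S.Q M (fun x => ((b : ℝ) ^ (2 * t)) • ‖F x - β‖ ^ 2 + (0 : ℝ) • (0 : ℝ)) z := by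
    refine S.Q_mono M (fun x => ?_) z
    have h := pow_sub_norm_le (F x) β (hF1 x).le hβ.le (b ^ t)
    simp only [smul_eq_mul, mul_zero, add_zero]
    calc ‖F x ^ b ^ t - β ^ b ^ t‖ ^ 2 ≤ (((b ^ t : ℕ) : ℝ) * ‖F x - β‖) ^ 2 :=
          pow_le_pow_left₀ (norm_nonneg _) h 2
      _ = (b : ℝ) ^ (2 * t) * ‖F x - β‖ ^ 2 := by
          push_cast
          ring
  rw [S.Q_lin M ((b : ℝ) ^ (2 * t)) 0 (fun x => ‖F x - β‖ ^ 2) (fun _ => (0 : ℝ)) z] at h5
  have h6 := S.Q_var M F (fun _ => β) z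
  simp only [hF1, hβ, one_pow] at h6
  rw [S.Q_const, ← hc, hβc] at h6
  rw [h6] at h5
  have h7 : S.r M u z = ‖c‖ ^ 2 := rfl
  rw [h3, h7]
  refine h4.trans (h5.trans ?_)
  simp only [zero_smul, add_zero, smul_eq_mul]
  have h8 : (0 : ℝ) ≤ (b : ℝ) ^ (2 * t) := by positivity
  nlinarith [mul_nonneg h8 (mul_nonneg (norm_nonneg c) (sub_nonneg.2 hc1))]

/-- `Y L z = Σ_{t<L} v(σ^t z)` -/
noncomputable def Y (L : ℕ) : X → ℝ := fun z => ∑ t ∈ range L, S.v (S.σ^[t] z)

lemma fact3 (hb : 1 ≤ b) (L M u : ℕ) (hL : L ≤ M + 1) (hu : ¬ b ∣ u) (z : X) :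
    S.Q M (S.Y L) z ≤ (2 * L * (b : ℝ) ^ (2 * L)) * (1 - S.r (M + 1) u z) := by
  have h0 : S.Q M (S.Y L) z = ∑ t ∈ range L, S.Q M (fun x => S.v (S.σ^[t] x)) z :=
    S.Q_sum M (range L) (fun t x => S.v (S.σ^[t] x)) z
  rw [h0]
  have hs : 0 ≤ 1 - S.r (M + 1) u z := sub_nonneg.2 (S.r_le_one _ _ _)
  have hb' : (1 : ℝ) ≤ b := by exact_mod_cast hb
  calc ∑ t ∈ range L, S.Q M (fun x => S.v (S.σ^[t] x)) z ≤
        ∑ _t ∈ range L, 2 * (b : ℝ) ^ (2 * L) * (1 - S.r (M + 1) u z) := by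
        refine Finset.sum_le_sum fun t ht => ?_
        have ht' : t < L := Finset.mem_range.1 ht
        have e1 : S.Q M (fun x => S.v (S.σ^[t] x)) = S.Q (M - t) S.v := by
          have : M = t + (M - t) := by omega
          rw [this, S.Q_add (M - t) t, S.Q_comp t S.v]
          congr 1
          omega
        rw [e1]
        refine (S.fact2 hb t (M - t) u hu z).trans ?_
        have e2 : t + (M - t + 1) = M + 1 := by omega
        rw [e2]
        refine mul_le_mul_of_nonneg_right ?_ hs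
        refine mul_le_mul_of_nonneg_left ?_ (by norm_num)
        exact pow_le_pow_right₀ hb' (by omega)
    _ = (2 * L * (b : ℝ) ^ (2 * L)) * (1 - S.r (M + 1) u z) := by
        rw [Finset.sum_const, Finset.card_range, nsmul_eq_mul]
        ring

lemma meas_Y (L : ℕ) : Measurable (S.Y L) :=
  Finset.measurable_sum _ fun t _ => S.hv.comp (S.hσ.iterate t)

lemma Y_nonneg (L : ℕ) (z : X) : 0 ≤ S.Y L z := Finset.sum_nonneg fun t _ => S.v0 _

lemma Y_mono {L L' : ℕ} (h : L ≤ L') (z : X) : S.Y L z ≤ S.Y L' z :=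
  Finset.sum_le_sum_of_subset_of_nonneg (Finset.range_mono h) fun t _ _ => S.v0 _

/-- the exceptional sets are small -/
lemma small (ε : ℝ) (hε : 0 < ε) : ∃ n : ℕ, S.μ.real {z | S.Y n z < 1 / ((n : ℝ) + 1)} ≤ ε := by
  have := S.prob
  set A : ℕ → Set X := fun n => {z | S.Y n z < 1 / ((n : ℝ) + 1)} with hA
  have mA : ∀ n, MeasurableSet (A n) := fun n => measurableSet_lt (S.meas_Y n) measurable_const
  have anti : Antitone A := by
    intro n n' h z hz
    have hz' : S.Y n' z < 1 / ((n' : ℝ) + 1) := hz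
    show S.Y n z < 1 / ((n : ℝ) + 1)
    have h1 : 1 / ((n' : ℝ) + 1) ≤ 1 / ((n : ℝ) + 1) := by
      have : (n : ℝ) ≤ n' := by exact_mod_cast h
      apply one_div_le_one_div_of_le <;> [positivity; linarith]
    exact (S.Y_mono h z).trans_lt (hz'.trans_le h1)
  have h0 : S.μ (⋂ n, A n) = 0 := by
    refine measure_mono_null ?_ (ae_iff.1 S.pos)
    intro z hz
    simp only [Set.mem_iInter] at hz
    simp only [Set.mem_setOf_eq, not_exists, not_lt]
    intro i
    by_contra hi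
    push Not at hi
    obtain ⟨n, hn⟩ := exists_nat_one_div_lt hi
    have h1 : S.Y (max n (i + 1)) z < 1 / (((max n (i + 1) : ℕ) : ℝ) + 1) := hz _
    have h2 : S.v (S.σ^[i] z) ≤ S.Y (max n (i + 1)) z := by
      refine Finset.single_le_sum (f := fun t => S.v (S.σ^[t] z)) (fun t _ => S.v0 _) ?_
      rw [Finset.mem_range]
      omega
    have h3 : 1 / (((max n (i + 1) : ℕ) : ℝ) + 1) ≤ 1 / ((n : ℝ) + 1) := by
      have : (n : ℝ) ≤ (max n (i + 1) : ℕ) := by exact_mod_cast le_max_left _ _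
      apply one_div_le_one_div_of_le <;> [positivity; linarith]
    linarith
  have ht : Tendsto (fun n => S.μ (A n)) atTop (𝓝 (S.μ (⋂ n, A n))) :=
    tendsto_measure_iInter_atTop (fun n => (mA n).nullMeasurableSet) anti
      ⟨0, measure_ne_top _ _⟩
  rw [h0] at ht
  have := (ht.eventually (ENNReal.tendsto_nhds_zero.1 tendsto_id (ENNReal.ofReal ε)
    (by simpa using hε) |> fun h => h)).exists
  obtain ⟨n, hn⟩ := this
  refine ⟨n, ?_⟩
  have hn' : S.μ (A n) ≤ ENNReal.ofReal ε := hn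
  exact ENNReal.toReal_le_of_le_ofReal hε.le hn'

/-- **the uniform bound** -/
lemma ul (hb : 1 ≤ b) (ε : ℝ) (hε : 0 < ε) : ∃ δ : ℝ, 0 < δ ∧ ∃ L : ℕ, ∀ m, L ≤ m → ∀ u : ℕ,
    ¬ b ∣ u → ∃ h : X → ℝ, Measurable h ∧ (∀ z, 0 ≤ h z) ∧ (∀ z, h z ≤ 1) ∧
      ∫ z, h z ∂S.μ ≤ ε ∧ ∀ z, S.r m u z ≤ 1 - δ * (1 - h z) := by
  have := S.prob
  obtain ⟨n, hn⟩ := S.small ε hε
  set A : Set X := {z | S.Y n z < 1 / ((n : ℝ) + 1)} with hA
  have mA : MeasurableSet A := measurableSet_lt (S.meas_Y n) measurable_const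
  set τ : ℝ := 1 / ((n : ℝ) + 1) with hτ
  have hτ0 : 0 < τ := by positivity
  set K : ℝ := 2 * n * (b : ℝ) ^ (2 * n) + 1 with hK
  have hK0 : 0 < K := by positivity
  refine ⟨τ / K, by positivity, n + 1, fun m hm u hu => ?_⟩
  obtain ⟨M, rfl⟩ : ∃ M, m = M + 1 := ⟨m - 1, by omega⟩
  set g : X → ℝ := Set.indicator A (fun _ => (1 : ℝ)) with hg
  have mg : Measurable g := measurable_const.indicator mA
  have g0 : ∀ z, 0 ≤ g z := fun z => Set.indicator_nonneg (fun _ _ => zero_le_one) z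
  have g1 : ∀ z, g z ≤ 1 := fun z => Set.indicator_le_self' (fun _ _ => zero_le_one) z
  refine ⟨S.Q M g, S.meas_Q' M mg, S.Q_nonneg M g0, fun z => ?_, ?_, fun z => ?_⟩
  · have := S.Q_mono M (G := fun _ => (1 : ℝ)) g1 z
    rwa [S.Q_const] at this
  · rw [S.int_Q' M mg (C := 1) (fun z => by rw [abs_of_nonneg (g0 z)]; exact g1 z)]
    rw [hg, integral_indicator mA]
    simpa using hn
  · have h1 := S.fact3 hb n M u (by omega) hu z
    have h2 : S.Q M (fun x => τ • (1 : ℝ) + (-τ) • g x) z ≤ S.Q M (S.Y n) z := by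
      refine S.Q_mono M (fun x => ?_) z
      simp only [smul_eq_mul, mul_one]
      by_cases hx : x ∈ A
      · rw [hg, Set.indicator_of_mem hx]
        have := S.Y_nonneg n x
        linarith
      · rw [hg, Set.indicator_of_notMem hx]
        have : ¬ (S.Y n x < τ) := hx
        push Not at this
        linarith
    rw [S.Q_lin M τ (-τ) (fun _ => (1 : ℝ)) g z, S.Q_const] at h2
    simp only [smul_eq_mul, mul_one] at h2
    have hs : 0 ≤ 1 - S.r (M + 1) u z := sub_nonneg.2 (S.r_le_one _ _ _)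
    have h3 : τ * (1 - S.Q M g z) ≤ K * (1 - S.r (M + 1) u z) := by
      rw [hK]
      nlinarith
    have h4 : τ / K * (1 - S.Q M g z) ≤ 1 - S.r (M + 1) u z := by
      rw [div_mul_eq_mul_div, div_le_iff₀ hK0]
      linarith
    linarith

/-- the lower bound from positivity of the imaginary part -/
lemma low (N : ℕ) (h2 : ¬ b ∣ 2 * N) (hN : ∀ᵐ z ∂S.μ, 0 ≤ (S.e z ^ N).im) :
    ∫ z, S.v z ∂S.μ ≤ 4 * ∫ z, (S.e z ^ N).im ∂S.μ := by
  have := S.prob
  have mE : Measurable (fun z => S.e z ^ N) := S.he.pow_const N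
  have mI : Measurable (fun z => (S.e z ^ N).im) := Complex.measurable_im.comp mE
  have bI : ∀ z, |(S.e z ^ N).im| ≤ 1 := fun z =>
    (Complex.abs_im_le_norm _).trans (S.e_pow_norm N z).le
  set F : X → ℝ := fun x => ‖S.e x ^ (2 * N) - 1‖ ^ 2 with hF
  have mF : Measurable F := (((S.he.pow_const _).sub_const 1).norm).pow_const 2
  have bF : ∀ x, |F x| ≤ 4 := by
    intro x
    rw [abs_of_nonneg (by positivity)]
    have : ‖S.e x ^ (2 * N) - 1‖ ≤ 2 := by
      calc ‖S.e x ^ (2 * N) - 1‖ ≤ ‖S.e x ^ (2 * N)‖ + ‖(1 : ℂ)‖ := norm_sub_le _ _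
        _ = 2 := by rw [S.e_pow_norm, norm_one]; norm_num
    simp only [hF]
    nlinarith [norm_nonneg (S.e x ^ (2 * N) - 1)]
  have h3 : ∀ z, S.v z ≤ S.Q 1 F z := by
    intro z
    have h4 := S.fact1 0 (2 * N) h2 z
    have h5 := S.Q_var_le 1 (F := fun x => S.e x ^ (2 * N)) (S.e_pow_norm _) 1 z
    have h6 : S.r (0 + 1) (2 * N) z = ‖S.Q 1 (fun x => S.e x ^ (2 * N)) z‖ ^ 2 := rfl
    rw [h6] at h4
    have h7 : S.Q 0 S.v z = S.v z := rfl
    rw [h7] at h4
    linarith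
  have bQ : ∀ z, |S.Q 1 F z| ≤ 4 := by
    intro z
    rw [abs_of_nonneg (S.Q_nonneg 1 (fun x => by positivity) z)]
    have := S.Q_mono 1 (G := fun _ => (4 : ℝ)) (fun x => (le_abs_self _).trans (bF x)) z
    rwa [S.Q_const] at this
  calc ∫ z, S.v z ∂S.μ ≤ ∫ z, S.Q 1 F z ∂S.μ :=
        integral_mono_of_nonneg (Eventually.of_forall S.v0)
          (S.integrable_bdd (S.meas_Q' 1 mF) bQ) (Eventually.of_forall h3)
    _ = ∫ z, F z ∂S.μ := S.int_Q' 1 mF bF
    _ ≤ ∫ z, 4 * (S.e z ^ N).im ∂S.μ := by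
        refine integral_mono_ae (S.integrable_bdd mF bF)
          ((S.integrable_bdd mI bI).const_mul 4) ?_
        filter_upwards [hN] with z hz
        show ‖S.e z ^ (2 * N) - 1‖ ^ 2 ≤ 4 * (S.e z ^ N).im
        rw [two_mul, pow_add]
        set w := S.e z ^ N with hw
        have hw1 : ‖w‖ = 1 := S.e_pow_norm N z
        have hw2 : w.re * w.re + w.im * w.im = 1 := by
          have := Complex.normSq_eq_norm_sq w
          rw [hw1, Complex.normSq_apply] at this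
          linarith
        rw [← Complex.normSq_eq_norm_sq, Complex.normSq_apply]
        simp only [Complex.sub_re, Complex.sub_im, Complex.mul_re, Complex.mul_im, Complex.one_re,
          Complex.one_im]
        have him : w.im ≤ 1 := (le_abs_self _).trans (bI z)
        have e1 : (w.re * w.re - w.im * w.im - 1) * (w.re * w.re - w.im * w.im - 1) +
            (w.re * w.im + w.im * w.re - 0) * (w.re * w.im + w.im * w.re - 0) =
            4 * w.im ^ 2 := by
          have : w.re * w.re = 1 - w.im * w.im := by linarith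
          have e2 : (w.re * w.im + w.im * w.re - 0) * (w.re * w.im + w.im * w.re - 0) =
              4 * (w.re * w.re) * (w.im * w.im) := by ring
          rw [e2, this]
          ring
        rw [e1]
        nlinarith
    _ = 4 * ∫ z, (S.e z ^ N).im ∂S.μ := integral_const_mul _ _

end Sys

end Pool.Agent.TH338.LG
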