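import Mathlib
import Pool.Agent.TH338.LG.Ul

/-! Large Fourier coefficients along a sequence of units force a short exact expansion. -/

set_option autoImplicit false
open MeasureTheory Finset Filter Topology
open scoped ENNReal

namespace Pool.Agent.TH338.LG

/-! ### `p`-adic preliminaries -/

section padic

variable {b : ℕ} [hp : Fact b.Prime]

/-- infinitely many `j ∈ J` have `N j` of the form `Σ κ_i b^{V_i}` with fixed `κ_i` -/
def Term (N : ℕ → ℤ_[b]) (J : Set ℕ) : Prop :=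
  ∃ (r : ℕ) (κ : Fin r → ℤ_[b]),
    {j | j ∈ J ∧ ∃ V : Fin r → ℕ, N j = ∑ i, κ i * (b : ℤ_[b]) ^ (V i)}.Infinite

lemma modEq_of_dvd {x y m : ℕ} (h : (b : ℤ_[b]) ^ m ∣ (x : ℤ_[b]) - y) : x ≡ y [MOD b ^ m] := by
  have h2 : ‖(((x : ℤ) - (y : ℤ) : ℤ) : ℤ_[b])‖ ≤ (b : ℝ) ^ (-(m : ℤ)) := by
    rw [PadicInt.norm_le_pow_iff_mem_span_pow, Ideal.mem_span_singleton]
    push_cast
    exact h
  rw [PadicInt.norm_int_le_pow_iff_dvd] at h2
  have h3 : ((b ^ m : ℕ) : ℤ) ∣ (y : ℤ) - x := by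
    have := (dvd_neg.2 h2)
    push_cast at this ⊢
    rwa [neg_sub] at this
  exact (Nat.modEq_iff_dvd.2 h3)

lemma appr_dvd (x : ℤ_[b]) (m : ℕ) : (b : ℤ_[b]) ^ m ∣ x - (x.appr m : ℤ_[b]) :=
  Ideal.mem_span_singleton.1 (PadicInt.appr_spec m x)

/-- congruent `p`-adic integers have congruent approximations -/
lemma appr_congr {x y : ℤ_[b]} {m : ℕ} (h : (b : ℤ_[b]) ^ m ∣ x - y) (n n' : ℕ) (hn : m ≤ n)
    (hn' : m ≤ n') : x.appr n ≡ y.appr n' [MOD b ^ m] := by
  apply modEq_of_dvd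
  have h1 : (b : ℤ_[b]) ^ m ∣ x - (x.appr n : ℤ_[b]) := (pow_dvd_pow _ hn).trans (appr_dvd x n)
  have h2 : (b : ℤ_[b]) ^ m ∣ y - (y.appr n' : ℤ_[b]) := (pow_dvd_pow _ hn').trans (appr_dvd y n')
  have : (x.appr n : ℤ_[b]) - y.appr n' = (x - y) - (x - (x.appr n : ℤ_[b]))
    + (y - (y.appr n' : ℤ_[b])) := by ring
  rw [this]
  exact dvd_add (dvd_sub h h1) h2

lemma not_dvd_appr {x : ℤ_[b]} (hx : ‖x‖ = 1) {m : ℕ} (hm : 1 ≤ m) : ¬ b ∣ x.appr m := by
  intro hd
  have h1 : (b : ℤ_[b]) ∣ (x.appr m : ℤ_[b]) := by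
    obtain ⟨c, hc⟩ := hd
    exact ⟨c, by rw [hc]; push_cast; ring⟩
  have h2 : (b : ℤ_[b]) ∣ x - (x.appr m : ℤ_[b]) := (dvd_pow_self _ (by omega)).trans (appr_dvd x m)
  have h3 : (b : ℤ_[b]) ∣ x := by
    have := dvd_add h2 h1
    simpa using this
  have := (PadicInt.norm_lt_one_iff_dvd x).2 h3
  linarith

/-- accumulation points -/
lemma exists_acc (N : ℕ → ℤ_[b]) (J : Set ℕ) (hJ : J.Infinite) :
    ∃ κ : ℤ_[b], ∀ w : ℕ, {j | j ∈ J ∧ (b : ℤ_[b]) ^ w ∣ N j - κ}.Infinite := by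
  have hne : NeBot ((cofinite : Filter ℕ) ⊓ 𝓟 J) := by
    rw [← Filter.frequently_mem_iff_neBot]
    rw [Filter.frequently_cofinite_iff_infinite]
    exact hJ
  have hne' : NeBot (Filter.map N ((cofinite : Filter ℕ) ⊓ 𝓟 J)) := hne.map N
  obtain ⟨κ, hκ⟩ := exists_clusterPt_of_compactSpace (Filter.map N ((cofinite : Filter ℕ) ⊓ 𝓟 J))
  refine ⟨κ, fun w => ?_⟩
  have h1 : MapClusterPt κ ((cofinite : Filter ℕ) ⊓ 𝓟 J) N := hκ
  rw [mapClusterPt_iff_frequently] at h1
  have hb : (0 : ℝ) < (b : ℝ) ^ (-(w : ℤ)) := by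
    have : (0 : ℝ) < b := by exact_mod_cast hp.out.pos
    positivity
  have h2 := h1 (Metric.closedBall κ ((b : ℝ) ^ (-(w : ℤ)))) (Metric.closedBall_mem_nhds κ hb)
  rw [Filter.frequently_inf_principal, Filter.frequently_cofinite_iff_infinite] at h2
  refine h2.mono ?_
  rintro j ⟨hj, hj2⟩
  refine ⟨hj, ?_⟩
  rw [Metric.mem_closedBall, dist_eq_norm, PadicInt.norm_le_pow_iff_mem_span_pow,
    Ideal.mem_span_singleton] at hj2
  exact hj2

end padic

namespace Sys

variable {b : ℕ} {X ι : Type} [MeasurableSpace X] [Fintype ι] (S : Sys b X ι)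

lemma int_v_pos (hb : 2 ≤ b) : 0 < ∫ z, S.v z ∂S.μ := by
  have := S.prob
  have hv1 : ∀ z, S.v z ≤ 1 := by
    intro z
    have h1 : ¬ b ∣ 1 := by
      intro h
      have := Nat.le_of_dvd one_pos h
      omega
    have := S.vu 1 h1 z
    have h2 : 0 ≤ ‖∑ a, S.w a z • S.e (S.c a z) ^ 1‖ ^ 2 := by positivity
    linarith
  have hva : ∀ z, |S.v z| ≤ 1 := fun z => by rw [abs_of_nonneg (S.v0 z)]; exact hv1 z
  have h0 : 0 ≤ ∫ z, S.v z ∂S.μ := integral_nonneg S.v0
  rcases h0.lt_or_eq with h | h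
  · exact h
  exfalso
  have h1 : ∀ i : ℕ, ∀ᵐ z ∂S.μ, S.v (S.σ^[i] z) = 0 := by
    intro i
    have m1 : Measurable (fun z => S.v (S.σ^[i] z)) := S.hv.comp (S.hσ.iterate i)
    have e1 : ∫ z, S.v (S.σ^[i] z) ∂S.μ = 0 := by
      rw [← S.int_Q' i m1 (fun z => hva _), S.Q_comp i S.v, ← h]
    exact (integral_eq_zero_iff_of_nonneg (fun z => S.v0 _)
      (S.integrable_bdd m1 (fun z => hva _))).1 e1
  have h2 : ∀ᵐ z ∂S.μ, ∀ i : ℕ, S.v (S.σ^[i] z) = 0 := ae_all_iff.2 h1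
  have h3 : ∀ᵐ z ∂S.μ, False := by
    filter_upwards [h2, S.pos] with z hz hz'
    obtain ⟨i, hi⟩ := hz'
    rw [hz i] at hi
    exact lt_irrefl _ hi
  have h4 := h3.exists
  exact h4.choose_spec

/-- the level functions form a Cauchy sequence -/
lemma cauchy [hp : Fact b.Prime] (κ : ℤ_[b]) (η : ℝ) (hη : 0 < η) : ∃ w : ℕ, ∀ v, w ≤ v → ∀ m,
    ∫ z, S.r v (κ.appr v) z ∂S.μ - ∫ z, S.r (v + m) (κ.appr (v + m)) z ∂S.μ ≤ η := by
  set G : ℕ → ℝ := fun n => ∫ z, S.r n (κ.appr n) z ∂S.μ with hG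
  have anti : Antitone G := by
    refine antitone_nat_of_succ_le fun n => ?_
    have h1 : S.r n (κ.appr n) = S.r n (κ.appr (n + 1)) :=
      S.r_mod n (appr_congr (by simp) n (n + 1) le_rfl (Nat.le_succ n))
    simp only [hG]
    rw [h1]
    exact S.int_r_anti n 1 _
  have h0 : ∀ n, 0 ≤ G n := fun n => integral_nonneg fun z => S.r_nonneg _ _ _
  have hbdd : BddBelow (Set.range G) := ⟨0, by rintro _ ⟨n, rfl⟩; exact h0 n⟩
  have ht := tendsto_atTop_ciInf anti hbdd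
  obtain ⟨w, hw⟩ := ((tendsto_order.1 ht).2 (⨅ i, G i + η)
    (by
      have : ⨅ i, G i + η = (⨅ i, G i) + η := by
        rw [ciInf_add hbdd]
      rw [this]; linarith)).exists
  refine ⟨w, fun v hv m => ?_⟩
  have h1 : G v ≤ G w := anti hv
  have h2 : (⨅ i, G i) ≤ G (v + m) := ciInf_le hbdd _
  have h3 : ⨅ i, G i + η = (⨅ i, G i) + η := by rw [ciInf_add hbdd]
  rw [h3] at hw
  show G v - G (v + m) ≤ η
  linarith

/-- the iteration -/
lemma claim [hp : Fact b.Prime] {ε δ : ℝ} {L : ℕ}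
    (hUL : ∀ m, L ≤ m → ∀ u : ℕ, ¬ b ∣ u → ∃ h : X → ℝ, Measurable h ∧ (∀ z, 0 ≤ h z) ∧
      (∀ z, h z ≤ 1) ∧ ∫ z, h z ∂S.μ ≤ ε ∧ ∀ z, S.r m u z ≤ 1 - δ * (1 - h z)) (R : ℕ) :
    ∀ (N : ℕ → ℤ_[b]) (J : Set ℕ), J.Infinite → (∀ j ∈ J, ‖N j‖ = 1) → ¬ Term N J →
      ∀ η : ℝ, 0 < η → ∃ j ∈ J, ∃ m0 : ℕ, ∀ m, m0 ≤ m → ∃ H g : X → ℝ, Measurable H ∧
        (∀ z, 0 ≤ H z) ∧ (∀ z, H z ≤ R) ∧ ∫ z, H z ∂S.μ ≤ R * ε ∧ Integrable g S.μ ∧
        (∀ z, 0 ≤ g z) ∧ ∫ z, g z ∂S.μ ≤ η ∧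
        ∀ z, S.r m ((N j).appr m) z ≤ Real.exp (-(δ * (R - H z))) + g z := by
  have := S.prob
  induction R with
  | zero =>
    intro N J hJ hN hT η hη
    obtain ⟨j, hj⟩ := hJ.nonempty
    refine ⟨j, hj, 0, fun m _ => ⟨fun _ => 0, fun _ => 0, measurable_const, fun _ => le_rfl,
      fun _ => by simp, by simp, integrable_const _, fun _ => le_rfl, by simpa using hη.le,
      fun z => ?_⟩⟩
    simpa using S.r_le_one m _ z
  | succ R ih =>
    intro N J hJ hN hT η hη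
    obtain ⟨κ, hκ⟩ := exists_acc N J hJ
    -- `κ` is a unit
    have hκ1 : ‖κ‖ = 1 := by
      obtain ⟨j, hj, hj2⟩ := (hκ 1).nonempty
      rw [pow_one] at hj2
      have h1 : ‖N j - κ‖ < 1 := (PadicInt.norm_lt_one_iff_dvd _).2 hj2
      have h2 : κ = N j + (-(N j - κ)) := by ring
      rw [h2]
      have h3 : ‖-(N j - κ)‖ < ‖N j‖ := by rw [norm_neg, hN j hj]; exact h1
      rw [PadicInt.norm_add_eq_max_of_ne (ne_of_gt h3), hN j hj, norm_neg]
      exact max_eq_left h1.le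
    -- only finitely many `j` with `N j = κ`
    have hfin : {j | j ∈ J ∧ N j = κ}.Finite := by
      by_contra hinf
      apply hT
      refine ⟨1, fun _ => κ, ?_⟩
      refine (Set.Infinite.mono ?_ hinf)
      rintro j ⟨hj, hj2⟩
      exact ⟨hj, fun _ => 0, by simp [hj2]⟩
    -- the remainders
    set v : ℕ → ℕ := fun j => (N j - κ).valuation with hv
    classical
    set N' : ℕ → ℤ_[b] := fun j =>
      if h : N j - κ ≠ 0 then ((PadicInt.unitCoeff h : ℤ_[b]ˣ) : ℤ_[b]) else 1 with hN'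
    have hN'1 : ∀ j, ‖N' j‖ = 1 := by
      intro j
      simp only [hN']
      split_ifs with h
      · exact PadicInt.norm_units _
      · exact norm_one
    have hdec : ∀ j, N j ≠ κ → N j = κ + (b : ℤ_[b]) ^ (v j) * N' j := by
      intro j hj
      have h : N j - κ ≠ 0 := sub_ne_zero.2 hj
      have h1 := PadicInt.unitCoeff_spec h
      have h2 : N' j = (PadicInt.unitCoeff h : ℤ_[b]) := by
        simp only [hN']
        rw [dif_pos h]
      rw [h2, mul_comm, ← h1]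
      ring
    -- choose the level
    obtain ⟨w, hw⟩ := S.cauchy κ ((η / 4) ^ 2) (by positivity)
    set J' : Set ℕ := {j | j ∈ J ∧ N j ≠ κ ∧ w ≤ v j} with hJ'
    have hJ'inf : J'.Infinite := by
      refine ((hκ w).sdiff hfin).mono ?_
      rintro j ⟨⟨hj, hj2⟩, hj3⟩
      have hne : N j ≠ κ := fun h => hj3 ⟨hj, h⟩
      refine ⟨hj, hne, ?_⟩
      exact (PadicInt.mem_span_pow_iff_le_valuation _ (sub_ne_zero.2 hne) w).1
        (Ideal.mem_span_singleton.2 hj2)
    have hT' : ¬ Term N' J' := by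
      rintro ⟨r, κ', hr⟩
      apply hT
      refine ⟨r + 1, Fin.cons κ κ', hr.mono ?_⟩
      rintro j ⟨⟨hj, hne, _⟩, V, hV⟩
      refine ⟨hj, Fin.cons 0 (fun i => v j + V i), ?_⟩
      rw [Fin.sum_univ_succ]
      simp only [Fin.cons_zero, Fin.cons_succ, pow_zero, mul_one]
      rw [hdec j hne, hV, Finset.mul_sum]
      congr 1
      refine Finset.sum_congr rfl fun i _ => ?_
      rw [pow_add]
      ring
    obtain ⟨j, hj, m0, hm0⟩ := ih N' J' hJ'inf (fun j _ => hN'1 j) hT' (η / 2) (by positivity)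
    obtain ⟨hjJ, hjne, hjv⟩ := hj
    refine ⟨j, hjJ, v j + (m0 + L + 1), fun M hM => ?_⟩
    obtain ⟨m, rfl⟩ : ∃ m, M = v j + m := ⟨M - v j, by omega⟩
    obtain ⟨H, g, mH, H0, H1, iH, ig, g0, ig2, hle⟩ := hm0 m (by omega)
    set u : ℕ := κ.appr (v j + m) with hu
    set k : ℕ := (N' j).appr m with hk
    obtain ⟨h, mh, h0, h1, ih1, hUh⟩ := hUL (v j + m) (by omega) u
      (not_dvd_appr hκ1 (by omega))
    set err : X → ℝ := fun z => |S.r (v j + m) (u + b ^ (v j) * k) z -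
      S.r (v j + m) u z * S.r m k z| with herr
    have merr : Measurable err := by
      have := ((S.meas_r (v j + m) (u + b ^ (v j) * k)).sub
        ((S.meas_r (v j + m) u).mul (S.meas_r m k)))
      exact this.norm
    have berr : ∀ z, |err z| ≤ 2 := by
      intro z
      simp only [herr, abs_abs]
      have a1 := S.r_nonneg (v j + m) (u + b ^ (v j) * k) z
      have a2 := S.r_le_one (v j + m) (u + b ^ (v j) * k) z
      have a3 := S.r_nonneg (v j + m) u z
      have a4 := S.r_le_one (v j + m) u z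
      have a5 := S.r_nonneg m k z
      have a6 := S.r_le_one m k z
      have a7 : 0 ≤ S.r (v j + m) u z * S.r m k z := mul_nonneg a3 a5
      have a8 : S.r (v j + m) u z * S.r m k z ≤ 1 := mul_le_one₀ a4 a5 a6
      rw [abs_le]
      constructor <;> linarith
    have ierr : Integrable err S.μ := S.integrable_bdd merr berr
    have hkey : ∫ z, err z ∂S.μ ≤ η / 2 := by
      refine (S.key (v j) m u k).trans ?_
      have e1 : S.r (v j) u = S.r (v j) (κ.appr (v j)) :=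
        S.r_mod _ (appr_congr (by simp) _ _ (Nat.le_add_right _ _) le_rfl)
      rw [e1]
      have e2 := hw (v j) hjv m
      have e3 : √(∫ z, S.r (v j) (κ.appr (v j)) z ∂S.μ -
          ∫ z, S.r (v j + m) u z ∂S.μ) ≤ η / 4 := by
        rw [Real.sqrt_le_left (by positivity)]
        exact e2
      linarith
    have hmod : S.r (v j + m) ((N j).appr (v j + m)) =
        S.r (v j + m) (u + b ^ (v j) * k) := by
      apply S.r_mod
      apply modEq_of_dvd
      obtain ⟨c1, hc1⟩ := appr_dvd (N j) (v j + m)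
      obtain ⟨c2, hc2⟩ := appr_dvd κ (v j + m)
      obtain ⟨c3, hc3⟩ := appr_dvd (N' j) m
      refine ⟨-c1 + c2 + c3, ?_⟩
      have e1 : ((N j).appr (v j + m) : ℤ_[b]) = N j - (b : ℤ_[b]) ^ (v j + m) * c1 := by
        rw [← hc1]; ring
      have e2 : ((κ.appr (v j + m) : ℕ) : ℤ_[b]) = κ - (b : ℤ_[b]) ^ (v j + m) * c2 := by
        rw [← hc2]; ring
      have e3 : (((N' j).appr m : ℕ) : ℤ_[b]) = N' j - (b : ℤ_[b]) ^ m * c3 := by
        rw [← hc3]; ring
      push_cast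
      rw [hu, hk, e1, e2, e3, hdec j hjne, pow_add]
      ring
    refine ⟨fun z => H z + h z, fun z => g z + err z, mH.add mh,
      fun z => add_nonneg (H0 z) (h0 z), fun z => ?_, ?_, ig.add ierr,
      fun z => add_nonneg (g0 z) (abs_nonneg _), ?_, fun z => ?_⟩
    · push_cast
      exact add_le_add (H1 z) (h1 z)
    · rw [integral_add]
      · push_cast
        linarith
      · exact S.integrable_bdd mH (C := R) (fun z => by rw [abs_of_nonneg (H0 z)]; exact H1 z)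
      · exact S.integrable_bdd mh (C := 1) (fun z => by rw [abs_of_nonneg (h0 z)]; exact h1 z)
    · rw [integral_add ig ierr]
      linarith
    · rw [hmod]
      have a1 : S.r (v j + m) (u + b ^ (v j) * k) z ≤
          S.r (v j + m) u z * S.r m k z + err z := by
        have := le_abs_self (S.r (v j + m) (u + b ^ (v j) * k) z -
          S.r (v j + m) u z * S.r m k z)
        simp only [herr]
        linarith
      have a2 := hle z
      have a3 : S.r (v j + m) u z ≤ Real.exp (-(δ * (1 - h z))) := by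
        refine (hUh z).trans ?_
        have := Real.add_one_le_exp (-(δ * (1 - h z)))
        linarith
      have a4 := S.r_nonneg (v j + m) u z
      have a5 := S.r_le_one (v j + m) u z
      have a6 := S.r_nonneg m k z
      have a7 : S.r (v j + m) u z * S.r m k z ≤
          Real.exp (-(δ * (1 - h z))) * Real.exp (-(δ * (R - H z))) + g z := by
        calc S.r (v j + m) u z * S.r m k z ≤
              S.r (v j + m) u z * (Real.exp (-(δ * (R - H z))) + g z) :=
              mul_le_mul_of_nonneg_left a2 a4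
          _ = S.r (v j + m) u z * Real.exp (-(δ * (R - H z))) + S.r (v j + m) u z * g z := by
              ring
          _ ≤ Real.exp (-(δ * (1 - h z))) * Real.exp (-(δ * (R - H z))) + 1 * g z :=
              add_le_add (mul_le_mul_of_nonneg_right a3 (Real.exp_pos _).le)
                (mul_le_mul_of_nonneg_right a5 (g0 z))
          _ = _ := by ring
      rw [← Real.exp_add] at a7
      have a8 : -(δ * (1 - h z)) + -(δ * ((R : ℝ) - H z)) =
          -(δ * (((R + 1 : ℕ) : ℝ) - (H z + h z))) := by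
        push_cast
        ring
      rw [a8] at a7
      linarith

/-- **Main theorem.** Large Fourier coefficients along units force an exact expansion. -/
theorem core [hp : Fact b.Prime] (N : ℕ → ℕ) (J : Set ℕ) (hJ : J.Infinite)
    (hN : ∀ j ∈ J, ¬ b ∣ N j) (c : ℝ) (hc : 0 < c)
    (hlow : ∀ j ∈ J, c ≤ ‖∫ z, S.e z ^ (N j) ∂S.μ‖) :
    Term (fun j => ((N j : ℕ) : ℤ_[b])) J := by
  have := S.prob
  by_contra hT
  have hb1 : 1 ≤ b := hp.out.one_lt.le
  obtain ⟨δ, hδ, L, hUL⟩ := S.ul hb1 (c ^ 2 / 4) (by positivity)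
  obtain ⟨R, hR1, hR2⟩ : ∃ R : ℕ, 1 ≤ R ∧ Real.exp (-(δ * R)) ≤ c ^ 2 / 4 := by
    have h1 : Tendsto (fun n : ℕ => Real.exp (-(δ * n))) atTop (𝓝 0) := by
      refine Real.tendsto_exp_atBot.comp ?_
      refine tendsto_neg_atTop_atBot.comp ?_
      exact (tendsto_natCast_atTop_atTop (R := ℝ)).const_mul_atTop hδ
    have h2 := ((tendsto_order.1 h1).2 (c ^ 2 / 4) (by positivity)).and
      (eventually_ge_atTop 1)
    obtain ⟨R, hR, hR'⟩ := h2.exists
    exact ⟨R, hR', hR.le⟩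
  have hunit : ∀ j ∈ J, ‖((N j : ℕ) : ℤ_[b])‖ = 1 := by
    intro j hj
    by_contra hne
    have h1 : ‖((N j : ℕ) : ℤ_[b])‖ < 1 := lt_of_le_of_ne (PadicInt.norm_le_one _) hne
    have h2 : ‖(((N j : ℕ) : ℤ) : ℤ_[b])‖ < 1 := by push_cast; exact h1
    rw [PadicInt.norm_int_lt_one_iff_dvd] at h2
    exact hN j hj (by exact_mod_cast h2)
  obtain ⟨j, hj, m0, hm⟩ := S.claim hUL R (fun j => ((N j : ℕ) : ℤ_[b])) J hJ hunit hT
    (c ^ 2 / 4) (by positivity)
  obtain ⟨H, g, mH, H0, H1, iH, ig, g0, ig2, hle⟩ := hm m0 le_rfl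
  have hR0 : (0 : ℝ) < R := by exact_mod_cast hR1
  -- the lower bound
  have hmod : S.r m0 (((N j : ℕ) : ℤ_[b]).appr m0) = S.r m0 (N j) := by
    apply S.r_mod
    apply modEq_of_dvd
    rw [← neg_sub, dvd_neg]
    exact appr_dvd _ m0
  have mE : Measurable (fun z => S.e z ^ (N j)) := S.he.pow_const _
  have hlow2 : c ^ 2 ≤ ∫ z, S.r m0 (N j) z ∂S.μ := by
    have h1 : ∫ z, S.Q m0 (fun x => S.e x ^ (N j)) z ∂S.μ = ∫ z, S.e z ^ (N j) ∂S.μ :=
      S.int_Q m0 mE (C := 1) (fun z => (S.e_pow_norm _ z).le)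
    have h2 := hlow j hj
    rw [← h1] at h2
    have h3 := norm_integral_le_integral_norm (μ := S.μ) (S.Q m0 (fun x => S.e x ^ (N j)))
    have mQ : Measurable (fun z => ‖S.Q m0 (fun x => S.e x ^ (N j)) z‖) :=
      (S.meas_Q m0 mE).norm
    have bQ : ∀ z, |‖S.Q m0 (fun x => S.e x ^ (N j)) z‖| ≤ 1 := fun z => by
      rw [abs_norm]
      exact S.Q_norm_le m0 (fun z => (S.e_pow_norm _ z).le) z
    have h4 := S.int_sq_le mQ bQ
    have h5 : ∫ z, S.r m0 (N j) z ∂S.μ =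
        ∫ z, ‖S.Q m0 (fun x => S.e x ^ (N j)) z‖ ^ 2 ∂S.μ := rfl
    rw [h5]
    refine le_trans ?_ h4
    exact pow_le_pow_left₀ hc.le (h2.trans h3) 2
  -- the upper bound
  have iHi : Integrable H S.μ :=
    S.integrable_bdd mH (C := R) (fun z => by rw [abs_of_nonneg (H0 z)]; exact H1 z)
  have hup : ∫ z, S.r m0 (N j) z ∂S.μ ≤ ∫ z, (Real.exp (-(δ * R)) + (H z / R + g z)) ∂S.μ := by
    refine integral_mono_of_nonneg (Eventually.of_forall fun z => S.r_nonneg _ _ _)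
      ((integrable_const _).add ((iHi.div_const _).add ig)) (Eventually.of_forall fun z => ?_)
    have h1 := hle z
    rw [hmod] at h1
    have h2 : Real.exp (-(δ * (R - H z))) ≤ Real.exp (-(δ * R)) + H z / R := by
      have ha0 : 0 ≤ 1 - H z / (R : ℝ) := by
        rw [sub_nonneg, div_le_one hR0]; exact H1 z
      have hb0 : 0 ≤ H z / (R : ℝ) := div_nonneg (H0 z) hR0.le
      have hconv := convexOn_exp.2 (Set.mem_univ (-(δ * (R : ℝ)))) (Set.mem_univ (0 : ℝ))
        ha0 hb0 (by ring)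
      have e1 : (1 - H z / R) • (-(δ * (R : ℝ))) + (H z / R) • (0 : ℝ) =
          -(δ * (R - H z)) := by
        simp only [smul_eq_mul, mul_zero, add_zero]
        field_simp
      rw [e1] at hconv
      simp only [smul_eq_mul, Real.exp_zero, mul_one] at hconv
      refine hconv.trans ?_
      have e2 : 0 ≤ H z / R := div_nonneg (H0 z) hR0.le
      nlinarith [Real.exp_pos (-(δ * (R : ℝ)))]
    show S.r m0 (N j) z ≤ Real.exp (-(δ * R)) + (H z / R + g z)
    linarith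
  have e1 : ∫ z, (Real.exp (-(δ * R)) + (H z / R + g z)) ∂S.μ =
      Real.exp (-(δ * R)) + ((∫ z, H z ∂S.μ) / R + ∫ z, g z ∂S.μ) := by
    have e2 := integral_add (integrable_const (μ := S.μ) (Real.exp (-(δ * (R : ℝ)))))
      ((iHi.div_const (R : ℝ)).add ig)
    have e3 := integral_add (iHi.div_const (R : ℝ)) ig
    simp only [Pi.add_apply] at e2
    rw [e2, e3, integral_div]
    simp
  have e2 : (∫ z, H z ∂S.μ) / R ≤ c ^ 2 / 4 := by
    rw [div_le_iff₀ hR0]
    linarith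
  rw [e1] at hup
  have hc2 : 0 < c ^ 2 := by positivity
  linarith

end Sys

end Pool.Agent.TH338.LG
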