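import Mathlib
import Pool.Agent.TH461.SST.AuxA
import Pool.Agent.TH461.SST.Expand
import Pool.Agent.TH461.SST.Vanish
import Pool.Agent.TH461.SST.Est
import Pool.Agent.TH461.SST.Core
import Pool.Agent.TH461.SST.Hp
import Pool.Agent.TH461.SST.Dich
import Pool.Agent.TH461.SST.Pen
import Pool.Agent.TH461.SST.Basis
import Pool.Agent.TH461.SST.CB
import Pool.Agent.TH461.SST.SF
import Pool.Agent.TH461.SST.Gap
import Pool.Agent.TH461.SST.Comp
import Pool.Agent.TH461.SST.Red
import Pool.Agent.TH461.SST.Sub

/-! The subspace theorem over the rationals, from the files of TH461/SST. -/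

set_option autoImplicit false

namespace Pool.Agent.TH338.LG

open Pool.Agent.TH461.SST

theorem subspace : SubspaceStmt :=
  Sub.subspace (Pen.pen (Core.core Aux.aux (Vanish.vanish Expand.expand) Est.est) Hp.height_pair
    Dich.dich) CB.cb (SF.sf CB.cb)
    (Red.red Basis.basis CB.cb (SF.sf CB.cb) Gap.gap (Comp.comp CB.cb (SF.sf CB.cb)))

end Pool.Agent.TH338.LG
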