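import Mathlib
import Pool.Agent.TH338.LG.Sst
import Pool.Agent.TH338.LG.Core

/-! `D q^n` is a combination of a bounded number of powers of `b` only finitely often. -/

set_option autoImplicit false
open Finset Filter Topology

namespace Pool.Agent.TH338.LG

open Pool.Agent.TH461.SST

lemma ar_int (b q : ℕ) (hb : 2 ≤ b) (hq : 2 ≤ q) (hbq : Nat.Coprime q b) (r : ℕ) :
    ∀ (D : ℤ), D ≠ 0 → ∀ (c : Fin r → ℤ) (n : ℕ → ℕ), Tendsto n atTop atTop →
      ∀ (V : ℕ → Fin r → ℕ), ¬ (∀ t, D * (q : ℤ) ^ (n t) = ∑ i, c i * (b : ℤ) ^ (V t i)) := by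
  induction r with
  | zero =>
    intro D hD c n hn V h
    have := h 0
    simp at this
    rcases this with h | h
    · exact hD h
    · omega
  | succ r ih =>
    intro D hD c n hn V h
    by_cases hc : ∃ i, c i = 0
    · obtain ⟨i, hi⟩ := hc
      refine ih D hD (fun l => c (i.succAbove l)) n hn (fun t l => V t (i.succAbove l)) ?_
      intro t
      rw [h t, Fin.sum_univ_succAbove _ i, hi]
      ring
    push Not at hc
    -- the largest exponent
    have hmax : ∀ t, ∃ i, ∀ l, V t l ≤ V t i := fun t => by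
      obtain ⟨i, _, hi⟩ := Finset.exists_max_image (Finset.univ : Finset (Fin (r + 1)))
        (fun l => V t l) ⟨0, Finset.mem_univ _⟩
      exact ⟨i, fun l => hi l (Finset.mem_univ _)⟩
    choose I hI using hmax
    obtain ⟨i1, hi1⟩ : ∃ i1, ∃ᶠ t in atTop, I t = i1 := by
      by_contra hne
      push Not at hne
      have h1 : ∀ i1, ∀ᶠ t in atTop, I t ≠ i1 := fun i1 => by
        have := hne i1
        exact this
      have h2 := (Filter.eventually_all.2 h1).exists
      obtain ⟨t, ht⟩ := h2
      exact ht (I t) rfl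
    set C1 : ℝ := ∑ i, |(c i : ℝ)| with hC1
    have hC1' : 1 ≤ C1 := by
      have h1 : |(c 0 : ℝ)| ≤ C1 :=
        Finset.single_le_sum (f := fun i => |(c i : ℝ)|) (fun i _ => abs_nonneg _)
          (Finset.mem_univ 0)
      have h2 : (1 : ℝ) ≤ |(c 0 : ℝ)| := by
        have := Int.one_le_abs (hc 0)
        exact_mod_cast this
      linarith
    have hbR : (2 : ℝ) ≤ b := by exact_mod_cast hb
    have hqR : (2 : ℝ) ≤ q := by exact_mod_cast hq
    have hD1 : (1 : ℝ) ≤ |(D : ℝ)| := by
      have := Int.one_le_abs hD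
      exact_mod_cast this
    have hsize : ∀ t, |(D : ℝ)| * (q : ℝ) ^ (n t) ≤ C1 * (b : ℝ) ^ (V t (I t)) := by
      intro t
      have h1 : ((D * (q : ℤ) ^ (n t) : ℤ) : ℝ) = ((∑ i, c i * (b : ℤ) ^ (V t i) : ℤ) : ℝ) := by
        rw [h t]
      push_cast at h1
      have h2 : |(D : ℝ)| * (q : ℝ) ^ (n t) = |(D : ℝ) * (q : ℝ) ^ (n t)| := by
        rw [abs_mul, abs_of_nonneg (by positivity : (0 : ℝ) ≤ (q : ℝ) ^ (n t))]
      rw [h2, h1, hC1, Finset.sum_mul]
      refine (Finset.abs_sum_le_sum_abs _ _).trans (Finset.sum_le_sum fun i _ => ?_)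
      rw [abs_mul, abs_of_nonneg (by positivity : (0 : ℝ) ≤ (b : ℝ) ^ (V t i))]
      exact mul_le_mul_of_nonneg_left (pow_le_pow_right₀ (by linarith) (hI t i)) (abs_nonneg _)
    have hlogb : 0 < Real.log b := Real.log_pos (by linarith)
    have hlogq : 0 < Real.log q := Real.log_pos (by linarith)
    have hVlow : ∀ t, Real.log |(D : ℝ)| + n t * Real.log q ≤
        Real.log C1 + V t (I t) * Real.log b := by
      intro t
      have h1 := Real.log_le_log (by positivity) (hsize t)
      rw [Real.log_mul (by positivity) (by positivity), Real.log_mul (by positivity) (by positivity),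
        Real.log_pow, Real.log_pow] at h1
      exact h1
    have hD0 : 0 ≤ Real.log |(D : ℝ)| := Real.log_nonneg hD1
    have hC0 : 0 ≤ Real.log C1 := Real.log_nonneg hC1'
    have hVt : Tendsto (fun t => ((V t (I t) : ℕ) : ℝ)) atTop atTop := by
      have h1 : Tendsto (fun t => ((n t : ℕ) : ℝ) * (Real.log q / Real.log b) +
          (-(Real.log C1) / Real.log b)) atTop atTop :=
        tendsto_atTop_add_const_right _ _ ((tendsto_natCast_atTop_atTop.comp hn).atTop_mul_const
          (by positivity))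
      refine tendsto_atTop_mono (fun t => ?_) h1
      have h2 := hVlow t
      have h3 : (n t : ℝ) * (Real.log q / Real.log b) + -(Real.log C1) / Real.log b =
          ((n t : ℝ) * Real.log q - Real.log C1) / Real.log b := by ring
      rw [h3, div_le_iff₀ hlogb]
      linarith
    set K0 : ℝ := max 1 (2 * Real.log |(D : ℝ)| / Real.log b) with hK0
    have hfr : ∃ᶠ t in atTop, I t = i1 ∧ K0 ≤ ((V t (I t) : ℕ) : ℝ) :=
      hi1.and_eventually (hVt.eventually_ge_atTop K0)
    obtain ⟨φ, hφ, hφ2⟩ := Filter.extraction_of_frequently_atTop hfr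
    -- the data
    set c0 : ℝ := max 1 (Real.log C1 + Real.log b) with hc0
    set M0 : Matrix (Fin (r + 1)) (Fin (r + 1)) ℤ := Matrix.updateRow 1 i1 c with hM0
    have hdet : M0.det ≠ 0 := by
      rw [hM0, ← Matrix.transpose_one, Matrix.updateRow_transpose, Matrix.det_transpose,
        ← Matrix.cramer_apply, Matrix.cramer_one]
      exact hc i1
    set M : Fin 2 → Matrix (Fin (r + 1)) (Fin (r + 1)) ℤ := ![M0, 1] with hM
    set bb : Fin 2 → ℕ := ![q, b] with hbb
    have hPl : Places M0 M bb := by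
      refine ⟨hdet, ?_, ?_, ?_⟩
      · intro v
        fin_cases v
        · exact hdet
        · simp [hM]
      · intro v
        fin_cases v
        · exact hq
        · exact hb
      · intro v v' hv
        fin_cases v <;> fin_cases v'
        · exact absurd rfl hv
        · exact hbq
        · exact hbq.symm
        · exact absurd rfl hv
    set e : ℕ → Fin 2 → Fin (r + 1) → ℕ := fun t =>
      ![fun l => if l = i1 then n (φ t) else 0, fun l => V (φ t) l] with he
    set A : ℕ → Fin (r + 1) → ℝ := fun t l =>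
      if l = i1 then |(D : ℝ)| * (q : ℝ) ^ (n (φ t)) else (b : ℝ) ^ (V (φ t) l) with hA
    set NN : ℕ → ℝ := fun t => ((V (φ t) i1 : ℕ) : ℝ) with hNN
    have hIφ : ∀ t, I (φ t) = i1 := fun t => (hφ2 t).1
    have hN1 : ∀ t, 1 ≤ NN t := fun t => by
      have := (hφ2 t).2
      rw [hIφ t] at this
      exact (le_max_left _ _).trans this
    have hN2 : ∀ t, 2 * Real.log |(D : ℝ)| ≤ NN t * Real.log b := fun t => by
      have := (hφ2 t).2
      rw [hIφ t] at this
      have h2 := (le_max_right _ _).trans this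
      rwa [div_le_iff₀ hlogb] at h2
    have hVN : ∀ t l, ((V (φ t) l : ℕ) : ℝ) ≤ NN t := fun t l => by
      have := hI (φ t) l
      rw [hIφ t] at this
      simp only [hNN]
      exact_mod_cast this
    have hc1 : Real.log C1 + Real.log b ≤ c0 := le_max_right _ _
    have hnN : ∀ t, Real.log |(D : ℝ)| + n (φ t) * Real.log q ≤ c0 * NN t := fun t => by
      have h1 := hVlow (φ t)
      rw [hIφ t] at h1
      have h2 : Real.log C1 + NN t * Real.log b ≤ (Real.log C1 + Real.log b) * NN t := by
        nlinarith [hN1 t]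
      have h3 : (Real.log C1 + Real.log b) * NN t ≤ c0 * NN t :=
        mul_le_mul_of_nonneg_right hc1 (by linarith [hN1 t])
      linarith
    have hbN : ∀ t l, ((V (φ t) l : ℕ) : ℝ) * Real.log b ≤ c0 * NN t := fun t l => by
      have h1 := hVN t l
      have h2 : ((V (φ t) l : ℕ) : ℝ) * Real.log b ≤ NN t * Real.log b :=
        mul_le_mul_of_nonneg_right h1 hlogb.le
      have h3 : Real.log b ≤ c0 := by linarith
      have h4 : Real.log b * NN t ≤ c0 * NN t :=
        mul_le_mul_of_nonneg_right h3 (by linarith [hN1 t])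
      linarith
    have hlogA : ∀ t l, Real.log (A t l) = if l = i1 then Real.log |(D : ℝ)| +
        n (φ t) * Real.log q else ((V (φ t) l : ℕ) : ℝ) * Real.log b := by
      intro t l
      simp only [hA]
      split_ifs with hl
      · rw [Real.log_mul (by positivity) (by positivity), Real.log_pow]
      · rw [Real.log_pow]
    have hSize : ∀ t, Size bb c0 (Real.log b / 2) (NN t) (e t) (A t) := by
      intro t
      refine ⟨?_, ?_, ?_, ?_⟩
      · intro v l
        fin_cases v
        · show (((if l = i1 then n (φ t) else 0 : ℕ)) : ℝ) * Real.log q ≤ c0 * NN t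
          split_ifs
          · linarith [hnN t]
          · have : 0 ≤ c0 * NN t := by
              have := hN1 t
              have h2 : (1 : ℝ) ≤ c0 := le_max_left _ _
              positivity
            simpa using this
        · exact hbN t l
      · intro l
        simp only [hA]
        split_ifs <;> positivity
      · intro l
        rw [hlogA]
        split_ifs
        · rw [abs_of_nonneg (by positivity)]
          exact hnN t
        · rw [abs_of_nonneg (by positivity)]
          exact hbN t l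
      · rw [Fin.sum_univ_two]
        show ∑ l, Real.log (A t l) + Real.log b / 2 * NN t ≤
          ∑ l, (((if l = i1 then n (φ t) else 0 : ℕ)) : ℝ) * Real.log q +
          ∑ l, ((V (φ t) l : ℕ) : ℝ) * Real.log b
        simp only [hlogA]
        have e1 : ∑ l, (if l = i1 then Real.log |(D : ℝ)| +
            n (φ t) * Real.log q else ((V (φ t) l : ℕ) : ℝ) * Real.log b) =
            ∑ l, ((if l = i1 then Real.log |(D : ℝ)| +
            n (φ t) * Real.log q - NN t * Real.log b else 0) +
              ((V (φ t) l : ℕ) : ℝ) * Real.log b) := by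
          refine Finset.sum_congr rfl fun l _ => ?_
          split_ifs with hl
          · rw [hl]
            ring
          · ring
        rw [e1, Finset.sum_add_distrib, Finset.sum_ite_eq' Finset.univ i1]
        have e2 : ∑ l, (((if l = i1 then n (φ t) else 0 : ℕ)) : ℝ) * Real.log q =
            n (φ t) * Real.log q := by
          have : ∀ l, (((if l = i1 then n (φ t) else 0 : ℕ)) : ℝ) * Real.log q =
              if l = i1 then (n (φ t) : ℝ) * Real.log q else 0 := by
            intro l
            split_ifs <;> simp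
          simp only [this]
          rw [Finset.sum_ite_eq' Finset.univ i1]
          simp
        rw [e2]
        simp only [Finset.mem_univ, if_true]
        have := hN2 t
        linarith
    have hNt : Tendsto NN atTop atTop := by
      have h1 := hVt.comp hφ.tendsto_atTop
      refine h1.congr fun t => ?_
      simp only [Function.comp, hNN]
      rw [hIφ t]
    set x : ℕ → Fin (r + 1) → ℤ := fun t l => (b : ℤ) ^ (V (φ t) l) with hx
    have hrow : ∀ t l, ∑ j, M0 l j * x t j = if l = i1 then D * (q : ℤ) ^ (n (φ t)) else x t l := by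
      intro t l
      split_ifs with hl
      · rw [hl, h (φ t)]
        refine Finset.sum_congr rfl fun j _ => ?_
        rw [hM0, Matrix.updateRow_self]
      · have : ∀ j, M0 l j = if l = j then 1 else 0 := by
          intro j
          rw [hM0, Matrix.updateRow_ne hl, Matrix.one_apply]
        simp only [this, ite_mul, one_mul, zero_mul]
        rw [Finset.sum_ite_eq Finset.univ l]
        simp
    have hSol : ∀ t, Sol M0 M bb (e t) (A t) (x t) := by
      intro t
      refine ⟨fun l => ?_, fun v l => ?_⟩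
      · rw [hrow]
        simp only [hA, hx]
        split_ifs
        · push_cast
          rw [abs_mul, abs_of_nonneg (by positivity : (0 : ℝ) ≤ (q : ℝ) ^ (n (φ t)))]
        · push_cast
          rw [abs_of_nonneg (by positivity)]
      · fin_cases v
        · show ((q : ℕ) : ℤ) ^ (if l = i1 then n (φ t) else 0) ∣ ∑ j, M0 l j * x t j
          rw [hrow]
          split_ifs
          · exact dvd_mul_left _ _
          · simp
        · show ((b : ℕ) : ℤ) ^ (V (φ t) l) ∣ ∑ j, (1 : Matrix (Fin (r + 1)) (Fin (r + 1)) ℤ) l j *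
            x t j
          simp only [Matrix.one_apply, ite_mul, one_mul, zero_mul]
          rw [Finset.sum_ite_eq Finset.univ l]
          simp [hx]
    have hx0 : ∀ t, x t ≠ 0 := by
      intro t h0
      have := congrFun h0 i1
      simp only [hx, Pi.zero_apply] at this
      have h2 : (b : ℤ) ≠ 0 := by exact_mod_cast (by omega : b ≠ 0)
      exact pow_ne_zero _ h2 this
    obtain ⟨y, hy, hfreq⟩ := subspace (r + 1) 2 (by omega) M0 M bb hPl c0 (Real.log b / 2)
      (le_max_left _ _) (by positivity) NN hNt e A hSize x hx0 hSol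
    obtain ⟨ψ, hψ, hψ2⟩ := Filter.extraction_of_frequently_atTop hfreq
    obtain ⟨l0, hl0⟩ : ∃ l0, y l0 ≠ 0 := by
      by_contra hne
      push Not at hne
      exact hy (funext hne)
    refine ih (y l0 * D) (mul_ne_zero hl0 hD)
      (fun i => y l0 * c (l0.succAbove i) - c l0 * y (l0.succAbove i))
      (fun t => n (φ (ψ t))) (hn.comp (hφ.tendsto_atTop.comp hψ.tendsto_atTop))
      (fun t i => V (φ (ψ t)) (l0.succAbove i)) ?_
    intro t
    have h1 := h (φ (ψ t))
    have h2 := hψ2 t
    rw [Fin.sum_univ_succAbove _ l0] at h1 h2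
    simp only [hx] at h2
    have h3 : ∑ i, (y l0 * c (l0.succAbove i) - c l0 * y (l0.succAbove i)) *
        (b : ℤ) ^ (V (φ (ψ t)) (l0.succAbove i)) =
        y l0 * ∑ i, c (l0.succAbove i) * (b : ℤ) ^ (V (φ (ψ t)) (l0.succAbove i)) -
        c l0 * ∑ i, y (l0.succAbove i) * (b : ℤ) ^ (V (φ (ψ t)) (l0.succAbove i)) := by
      rw [Finset.mul_sum, Finset.mul_sum, ← Finset.sum_sub_distrib]
      refine Finset.sum_congr rfl fun i _ => ?_
      ring
    rw [h3, mul_assoc, h1]
    linear_combination (c l0) * h2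

/-- **Theorem AR.** -/
theorem ar {b : ℕ} [hp : Fact b.Prime] {q : ℕ} (hq : 2 ≤ q) (hbq : Nat.Coprime q b) (a : ℕ)
    (ha : a ≠ 0) (n : ℕ → ℕ) (hn : StrictMono n) (J : Set ℕ) :
    ¬ Term (fun j => ((a * q ^ (n j) : ℕ) : ℤ_[b])) J := by
  rintro ⟨r, κ, hinf⟩
  obtain ⟨g, hg⟩ := LinearMap.exists_leftInverse_of_injective (Algebra.linearMap ℚ ℚ_[b])
    (LinearMap.ker_eq_bot.2 (algebraMap ℚ ℚ_[b]).injective)
  have hg1 : ∀ x : ℚ, g (algebraMap ℚ ℚ_[b] x) = x := fun x => by
    have := LinearMap.congr_fun hg x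
    simpa using this
  obtain ⟨φ, hφ, hφ2⟩ : ∃ φ : ℕ → ℕ, StrictMono φ ∧ ∀ t, φ t ∈ {j | j ∈ J ∧
      ∃ V : Fin r → ℕ, ((a * q ^ (n j) : ℕ) : ℤ_[b]) = ∑ i, κ i * (b : ℤ_[b]) ^ (V i)} :=
    ⟨Nat.nth (· ∈ {j | j ∈ J ∧
      ∃ V : Fin r → ℕ, ((a * q ^ (n j) : ℕ) : ℤ_[b]) = ∑ i, κ i * (b : ℤ_[b]) ^ (V i)}),
      Nat.nth_strictMono hinf, fun t => Nat.nth_mem_of_infinite hinf t⟩
  choose hJ V hV using hφ2
  set ρ : Fin r → ℚ := fun i => g ((κ i : ℤ_[b]) : ℚ_[b]) with hρ
  have h1 : ∀ t, (a : ℚ) * (q : ℚ) ^ (n (φ t)) = ∑ i, ρ i * (b : ℚ) ^ (V t i) := by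
    intro t
    have h2 := congrArg (fun x : ℤ_[b] => (x : ℚ_[b])) (hV t)
    have h3 : (((a * q ^ (n (φ t)) : ℕ) : ℤ_[b]) : ℚ_[b]) =
        algebraMap ℚ ℚ_[b] ((a : ℚ) * (q : ℚ) ^ (n (φ t))) := by
      push_cast
      simp
    have h4 : ((∑ i, κ i * (b : ℤ_[b]) ^ (V t i) : ℤ_[b]) : ℚ_[b]) =
        ∑ i, ((b : ℚ) ^ (V t i)) • ((κ i : ℤ_[b]) : ℚ_[b]) := by
      rw [PadicInt.coe_sum]
      refine Finset.sum_congr rfl fun i _ => ?_
      rw [Algebra.smul_def]
      push_cast
      simp [mul_comm]
    rw [h3, h4] at h2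
    have h5 := congrArg g h2
    rw [hg1, map_sum] at h5
    rw [h5]
    refine Finset.sum_congr rfl fun i _ => ?_
    rw [map_smul, smul_eq_mul, mul_comm]
  -- clear denominators
  set d : ℕ := ∏ i, (ρ i).den with hd
  have hd0 : d ≠ 0 := Finset.prod_ne_zero_iff.2 fun i _ => (ρ i).den_ne_zero
  have hcl : ∀ i, ∃ c : ℤ, ρ i * (d : ℚ) = c := by
    intro i
    obtain ⟨k, hk⟩ : (ρ i).den ∣ d := Finset.dvd_prod_of_mem _ (Finset.mem_univ i)
    refine ⟨(ρ i).num * k, ?_⟩
    rw [hk]
    push_cast
    rw [← mul_assoc, Rat.mul_den_eq_num]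
  choose c hc using hcl
  refine ar_int b q hp.out.two_le hq hbq r ((a : ℤ) * d)
    (mul_ne_zero (by exact_mod_cast ha) (by exact_mod_cast hd0)) c (fun t => n (φ t))
    ((hn.comp hφ).tendsto_atTop) V ?_
  intro t
  have h2 := h1 t
  have h3 : (((a : ℤ) * d * (q : ℤ) ^ (n (φ t)) : ℤ) : ℚ) =
      ((∑ i, c i * (b : ℤ) ^ (V t i) : ℤ) : ℚ) := by
    push_cast
    have h4 : (a : ℚ) * d * (q : ℚ) ^ (n (φ t)) = d * ((a : ℚ) * (q : ℚ) ^ (n (φ t))) := by ring
    rw [h4, h2, Finset.mul_sum]
    refine Finset.sum_congr rfl fun i _ => ?_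
    rw [← hc i]
    ring
  exact_mod_cast h3

end Pool.Agent.TH338.LG
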