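import Mathlib

/-! Conditional weights of an invariant measure, and conditioning on the non-deterministic part. -/

set_option autoImplicit false
open MeasureTheory Finset Filter Topology
open scoped ENNReal

namespace Pool.Agent.TH338.LG

theorem exists_weights {X ι : Type} [MeasurableSpace X] [Fintype ι] [Nonempty ι] [DecidableEq ι]
    (μ : Measure X) [IsProbabilityMeasure μ] (σ : X → X) (hσ : Measurable σ)
    (hinv : μ.map σ = μ) (c : ι → X → X) (hc : ∀ a, Measurable (c a)) (dg : X → ι)
    (hdg : ∀ a, MeasurableSet (dg ⁻¹' {a})) (h : ∀ x, c (dg x) (σ x) = x) :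
    ∃ w : ι → X → ℝ, (∀ a, Measurable (w a)) ∧ (∀ a z, 0 ≤ w a z) ∧ (∀ z, ∑ a, w a z = 1) ∧
      ∀ F : X → ℂ, Measurable F → (∃ C : ℝ, ∀ z, ‖F z‖ ≤ C) →
        ∫ z, ∑ a, w a z • F (c a z) ∂μ = ∫ z, F z ∂μ := by
  classical
  set ν : ι → Measure X := fun a => (μ.restrict (dg ⁻¹' {a})).map σ with hν
  have hle : ∀ a, ν a ≤ μ := by
    intro a
    calc ν a ≤ μ.map σ := Measure.map_mono Measure.restrict_le_self hσ
      _ = μ := hinv
  have hfin : ∀ a, IsFiniteMeasure (ν a) := fun a => isFiniteMeasure_of_le μ (hle a)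
  have hac : ∀ a, ν a ≪ μ := fun a => Measure.absolutelyContinuous_of_le (hle a)
  set f : ι → X → ℝ≥0∞ := fun a => (ν a).rnDeriv μ with hf
  have mf : ∀ a, Measurable (f a) := fun a => Measure.measurable_rnDeriv _ _
  have hsum : ∀ᵐ z ∂μ, ∑ a, f a z = 1 := by
    refine ae_eq_of_forall_setLIntegral_eq_of_sigmaFinite (Finset.measurable_sum _ fun a _ => mf a)
      measurable_const ?_
    intro s hs _
    rw [lintegral_finsetSum _ (fun a _ => mf a)]
    have h1 : ∀ a, ∫⁻ z in s, f a z ∂μ = μ (σ ⁻¹' s ∩ dg ⁻¹' {a}) := by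
      intro a
      have h2 := Measure.setLIntegral_rnDeriv (hac a) s
      rw [hf]
      simp only
      rw [h2, hν]
      simp only
      rw [Measure.map_apply hσ hs, Measure.restrict_apply (hσ hs)]
    simp only [h1]
    rw [setLIntegral_one]
    have h3 : μ s = μ (σ ⁻¹' s) := by
      conv_lhs => rw [← hinv]
      rw [Measure.map_apply hσ hs]
    have h4 : σ ⁻¹' s = ⋃ a ∈ (Finset.univ : Finset ι), (σ ⁻¹' s ∩ dg ⁻¹' {a}) := by
      ext x
      simp
    rw [h3]
    conv_rhs => rw [h4]
    rw [measure_biUnion_finset]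
    · intro a _ a' _ haa'
      refine Set.disjoint_left.2 ?_
      rintro x ⟨_, hx⟩ ⟨_, hx'⟩
      exact haa' (hx.symm.trans hx')
    · intro a _
      exact (hσ hs).inter (hdg a)
  obtain ⟨a0⟩ := ‹Nonempty ι›
  set w : ι → X → ℝ := fun a z => if ∑ a', f a' z = 1 then (f a z).toReal else
    (if a = a0 then 1 else 0) with hw
  have mset : MeasurableSet {z | ∑ a', f a' z = 1} :=
    (Finset.measurable_sum _ fun a _ => mf a) (measurableSet_singleton 1)
  have mw : ∀ a, Measurable (w a) := fun a =>
    Measurable.ite mset (mf a).ennreal_toReal measurable_const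
  have hae : ∀ᵐ z ∂μ, ∀ a, w a z = (f a z).toReal := by
    filter_upwards [hsum] with z hz a
    simp only [hw]
    rw [if_pos hz]
  refine ⟨w, mw, ?_, ?_, ?_⟩
  · intro a z
    simp only [hw]
    split_ifs
    · exact ENNReal.toReal_nonneg
    · exact zero_le_one
    · exact le_rfl
  · intro z
    simp only [hw]
    split_ifs with hz
    · rw [← ENNReal.toReal_sum, hz, ENNReal.toReal_one]
      intro a _ htop
      have h1 : f a z ≤ ∑ a', f a' z := Finset.single_le_sum (f := fun a' => f a' z) (fun _ _ => zero_le) (mem_univ a)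
      rw [hz, htop] at h1
      exact absurd h1 (by simp)
    · simp
  · rintro F mF ⟨C, hC⟩
    have i1 : Integrable F μ := Integrable.of_bound mF.aestronglyMeasurable C
      (Eventually.of_forall hC)
    have h1 : ∫ z, ∑ a, w a z • F (c a z) ∂μ = ∫ z, ∑ a, (f a z).toReal • F (c a z) ∂μ := by
      refine integral_congr_ae ?_
      filter_upwards [hae] with z hz
      refine Finset.sum_congr rfl fun a _ => ?_
      rw [hz]
    have i2 : ∀ a, Integrable (fun z => F (c a z)) (ν a) := fun a => by
      have := hfin a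
      exact Integrable.of_bound (mF.comp (hc a)).aestronglyMeasurable C
        (Eventually.of_forall fun z => hC _)
    have i3 : ∀ a, Integrable (fun z => (f a z).toReal • F (c a z)) μ := fun a => by
      have := hfin a
      exact (integrable_rnDeriv_smul_iff (hac a)).2 (i2 a)
    rw [h1, integral_finsetSum _ fun a _ => i3 a]
    have h2 : ∀ a, ∫ z, (f a z).toReal • F (c a z) ∂μ =
        ∫ z, Set.indicator (dg ⁻¹' {a}) F z ∂μ := by
      intro a
      have := hfin a
      have e1 : ∫ z, (f a z).toReal • F (c a z) ∂μ = ∫ z, F (c a z) ∂(ν a) :=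
        integral_rnDeriv_smul (hac a)
      rw [e1, hν]
      simp only
      rw [integral_map (f := fun z => F (c a z)) hσ.aemeasurable
        (mF.comp (hc a)).aestronglyMeasurable, integral_indicator (hdg a)]
      refine setIntegral_congr_fun (hdg a) ?_
      intro x hx
      have hx' : dg x = a := hx
      simp only
      rw [← hx', h]
    rw [Finset.sum_congr rfl fun a _ => h2 a, ← integral_finsetSum _ fun a _ => i1.indicator (hdg a)]
    refine integral_congr_ae (Eventually.of_forall fun x => ?_)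
    simp only
    rw [Finset.sum_eq_single (dg x)]
    · rw [Set.indicator_of_mem]
      rfl
    · intro a _ ha
      rw [Set.indicator_of_notMem]
      exact fun hx => ha hx.symm
    · intro hx
      exact absurd (mem_univ _) hx

/-- conditioning on the set where the system is eventually non-deterministic -/
theorem exists_cond {X ι : Type} [MeasurableSpace X] [Fintype ι]
    (μ : Measure X) [IsProbabilityMeasure μ] (σ : X → X) (hσ : Measurable σ)
    (c : ι → X → X) (w : ι → X → ℝ)
    (w1 : ∀ z, ∑ a, w a z = 1) (σc : ∀ a z, σ (c a z) = z)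
    (inv : ∀ F : X → ℂ, Measurable F → (∃ C : ℝ, ∀ z, ‖F z‖ ≤ C) →
        ∫ z, ∑ a, w a z • F (c a z) ∂μ = ∫ z, F z ∂μ)
    (v : X → ℝ) (hv : Measurable v) (v0 : ∀ z, 0 ≤ v z) (hpos : 0 < ∫ z, v z ∂μ) :
    ∃ μ' : Measure X, IsProbabilityMeasure μ' ∧ μ' ≪ μ ∧
      (∀ F : X → ℂ, Measurable F → (∃ C : ℝ, ∀ z, ‖F z‖ ≤ C) →
        ∫ z, ∑ a, w a z • F (c a z) ∂μ' = ∫ z, F z ∂μ') ∧
      ∀ᵐ z ∂μ', ∃ i : ℕ, 0 < v (σ^[i] z) := by
  set B : Set X := {z | ∃ i : ℕ, 0 < v (σ^[i] z)} with hB
  have mB : MeasurableSet B := by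
    have : B = ⋃ i : ℕ, {z | 0 < v (σ^[i] z)} := by ext z; simp [hB]
    rw [this]
    exact MeasurableSet.iUnion fun i =>
      measurableSet_lt measurable_const (hv.comp (hσ.iterate i))
  have hsub : σ ⁻¹' B ⊆ B := by
    rintro z ⟨i, hi⟩
    exact ⟨i + 1, by rw [Function.iterate_succ_apply]; exact hi⟩
  have hmap : ∀ F : X → ℂ, Measurable F → (∃ C : ℝ, ∀ z, ‖F z‖ ≤ C) →
      ∫ z, F (σ z) ∂μ = ∫ z, F z ∂μ := by
    rintro F mF ⟨C, hC⟩
    rw [← inv (fun z => F (σ z)) (mF.comp hσ) ⟨C, fun z => hC _⟩]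
    refine integral_congr_ae (Eventually.of_forall fun z => ?_)
    simp only [σc]
    rw [← Finset.sum_smul, w1, one_smul]
  have hBμ : μ (σ ⁻¹' B) = μ B := by
    have h1 := hmap (Set.indicator B (fun _ => (1 : ℂ))) (measurable_const.indicator mB)
      ⟨1, fun z => (norm_indicator_le_norm_self _ _).trans (by simp)⟩
    have h2 : (fun z => Set.indicator B (fun _ => (1 : ℂ)) (σ z)) =
        Set.indicator (σ ⁻¹' B) (fun _ => (1 : ℂ)) := by
      funext z
      by_cases hz : σ z ∈ B
      · rw [Set.indicator_of_mem hz, Set.indicator_of_mem (show z ∈ σ ⁻¹' B from hz)]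
      · rw [Set.indicator_of_notMem hz, Set.indicator_of_notMem (show z ∉ σ ⁻¹' B from hz)]
    rw [h2, integral_indicator (hσ mB), integral_indicator mB] at h1
    simp only [integral_const, measureReal_restrict_apply_univ, Complex.real_smul, mul_one] at h1
    have h3 : μ.real (σ ⁻¹' B) = μ.real B := by exact_mod_cast h1
    rw [measureReal_def, measureReal_def] at h3
    exact (ENNReal.toReal_eq_toReal_iff' (measure_ne_top _ _) (measure_ne_top _ _)).1 h3
  have hae : (σ ⁻¹' B : Set X) =ᵐ[μ] B :=
    ae_eq_of_subset_of_measure_ge hsub hBμ.symm.le (hσ mB).nullMeasurableSet (measure_ne_top _ _)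
  have hBpos : μ B ≠ 0 := by
    intro h0
    have h1 : ∀ᵐ z ∂μ, v z = 0 := by
      have h2 : ∀ᵐ z ∂μ, z ∉ B := by
        rw [ae_iff]
        simpa using h0
      filter_upwards [h2] with z hz
      have h3 : ¬ 0 < v z := fun h => hz ⟨0, h⟩
      exact le_antisymm (not_lt.1 h3) (v0 z)
    rw [integral_eq_zero_of_ae h1] at hpos
    exact lt_irrefl _ hpos
  refine ⟨(μ B)⁻¹ • μ.restrict B, ?_, ?_, ?_, ?_⟩
  · constructor
    rw [Measure.smul_apply, Measure.restrict_apply_univ, smul_eq_mul]
    exact ENNReal.inv_mul_cancel hBpos (measure_ne_top _ _)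
  · exact Measure.smul_absolutelyContinuous.trans Measure.restrict_le_self.absolutelyContinuous
  · rintro F mF ⟨C, hC⟩
    rw [integral_smul_measure, integral_smul_measure]
    congr 1
    have h1 := inv (fun z => Set.indicator B (fun _ => (1 : ℂ)) (σ z) * F z)
      (((measurable_const.indicator mB).comp hσ).mul mF)
      ⟨C, fun z => by
        rw [norm_mul]
        calc ‖Set.indicator B (fun _ => (1 : ℂ)) (σ z)‖ * ‖F z‖ ≤ 1 * C := by
              refine mul_le_mul ((norm_indicator_le_norm_self _ _).trans (by simp)) (hC z)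
                (norm_nonneg _) zero_le_one
          _ = C := one_mul C⟩
    have h2 : ∀ z, ∑ a, w a z • (Set.indicator B (fun _ => (1 : ℂ)) (σ (c a z)) * F (c a z)) =
        Set.indicator B (fun z => ∑ a, w a z • F (c a z)) z := by
      intro z
      simp only [σc]
      by_cases hz : z ∈ B
      · simp [Set.indicator_of_mem hz]
      · simp [Set.indicator_of_notMem hz]
    simp only [h2] at h1
    rw [integral_indicator mB] at h1
    rw [h1, ← integral_indicator mB]
    refine integral_congr_ae ?_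
    filter_upwards [hae.mem_iff] with z hz
    have hz' : (σ z ∈ B) ↔ (z ∈ B) := hz
    by_cases hzB : z ∈ B
    · rw [Set.indicator_of_mem (hz'.2 hzB), Set.indicator_of_mem hzB, one_mul]
    · rw [Set.indicator_of_notMem (fun h => hzB (hz'.1 h)), Set.indicator_of_notMem hzB, zero_mul]
  · rw [ae_iff, Measure.smul_apply, Measure.restrict_apply₀']
    · have : {z | ¬ ∃ i : ℕ, 0 < v (σ^[i] z)} ∩ B = ∅ := by
        ext z
        simp [hB]
      rw [this]
      simp
    · exact mB.nullMeasurableSet

end Pool.Agent.TH338.LG
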