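import Mathlib
import Pool.Agent.TH338.LG.Ar
import Pool.Agent.TH338.LG.Wt

/-! The circle with multiplication by a prime as a system with inverse branches. -/

set_option autoImplicit false
open MeasureTheory Finset Filter Topology
open scoped ENNReal

namespace Pool.Agent.TH338.LG

/-- representative in `[0, 1)` -/
noncomputable def rep (x : UnitAddCircle) : ℝ :=
  ((AddCircle.measurableEquivIco (1 : ℝ) 0 x : Set.Ico (0 : ℝ) (0 + 1)) : ℝ)

lemma rep_nonneg (x : UnitAddCircle) : 0 ≤ rep x :=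
  (AddCircle.measurableEquivIco (1 : ℝ) 0 x).2.1

lemma rep_lt_one (x : UnitAddCircle) : rep x < 1 := by
  have h : rep x < 0 + 1 := (AddCircle.measurableEquivIco (1 : ℝ) 0 x).2.2
  linarith

lemma coe_rep (x : UnitAddCircle) : ((rep x : ℝ) : UnitAddCircle) = x :=
  (AddCircle.equivIco (1 : ℝ) 0).symm_apply_apply x

lemma rep_coe {t : ℝ} (h0 : 0 ≤ t) (h1 : t < 1) : rep (t : UnitAddCircle) = t := by
  have := AddCircle.equivIco_coe_eq (p := (1 : ℝ)) (a := 0) (x := t) ⟨h0, by rwa [zero_add]⟩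
  exact congrArg Subtype.val this

lemma measurable_rep : Measurable rep :=
  measurable_subtype_coe.comp (AddCircle.measurableEquivIco (1 : ℝ) 0).measurable

lemma coe_eq_of_sub_nat {s t : ℝ} (k : ℕ) (h : s = t + k) :
    (s : UnitAddCircle) = (t : UnitAddCircle) := by
  rw [h]
  have h1 : ((k : ℝ) : UnitAddCircle) = 0 := by
    have : ((k : ℝ) : UnitAddCircle) = ((k • (1 : ℝ) : ℝ) : UnitAddCircle) := by simp
    rw [this, AddCircle.coe_nsmul, AddCircle.coe_period, smul_zero]
  rw [AddCircle.coe_add, h1, add_zero]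

section

variable {p : ℕ}

lemma nsmul_eq (x : UnitAddCircle) : p • x = ((p * rep x : ℝ) : UnitAddCircle) := by
  conv_lhs => rw [← coe_rep x]
  rw [← AddCircle.coe_nsmul, nsmul_eq_mul]

/-- the first digit, as a natural number -/
noncomputable def dg (p : ℕ) (x : UnitAddCircle) : ℕ := ⌊(p : ℝ) * rep x⌋₊

lemma dg_lt (hp : 0 < p) (x : UnitAddCircle) : dg p x < p := by
  unfold dg
  rw [Nat.floor_lt (by have := rep_nonneg x; positivity)]
  have h1 := rep_lt_one x
  have h2 : (0 : ℝ) < p := by exact_mod_cast hp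
  nlinarith

lemma rep_nsmul (x : UnitAddCircle) : rep (p • x) = p * rep x - dg p x := by
  have h0 : 0 ≤ (p : ℝ) * rep x := by have := rep_nonneg x; positivity
  have h1 := Nat.floor_le h0
  have h2 := Nat.lt_floor_add_one ((p : ℝ) * rep x)
  rw [nsmul_eq, coe_eq_of_sub_nat (dg p x) (show (p : ℝ) * rep x = (p * rep x - dg p x) + dg p x by
    ring)]
  exact rep_coe (by unfold dg; linarith) (by unfold dg; linarith)

/-- inverse branches -/
noncomputable def br (p : ℕ) (a : Fin p) (z : UnitAddCircle) : UnitAddCircle :=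
  (((rep z + (a : ℕ)) / p : ℝ) : UnitAddCircle)

lemma rep_br (a : Fin p) (z : UnitAddCircle) : rep (br p a z) = (rep z + (a : ℕ)) / p := by
  have hp : 0 < p := a.pos
  have hpR : (0 : ℝ) < p := by exact_mod_cast hp
  have h0 := rep_nonneg z
  have h1 := rep_lt_one z
  refine rep_coe (by positivity) ?_
  rw [div_lt_one hpR]
  have : ((a : ℕ) : ℝ) + 1 ≤ p := by exact_mod_cast a.2
  linarith

lemma nsmul_br (a : Fin p) (z : UnitAddCircle) : p • br p a z = z := by
  have hp : 0 < p := a.pos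
  have hpR : (0 : ℝ) < p := by exact_mod_cast hp
  rw [nsmul_eq, rep_br]
  have : (p : ℝ) * ((rep z + (a : ℕ)) / p) = rep z + (a : ℕ) := by field_simp
  rw [this, coe_eq_of_sub_nat (a : ℕ) rfl, coe_rep]

lemma br_dg (hp : 0 < p) (x : UnitAddCircle) : br p ⟨dg p x, dg_lt hp x⟩ (p • x) = x := by
  have hpR : (0 : ℝ) < p := by exact_mod_cast hp
  unfold br
  simp only
  rw [rep_nsmul]
  have : ((p : ℝ) * rep x - dg p x + dg p x) / p = rep x := by
    field_simp
    ring
  rw [this, coe_rep]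

lemma dg_br (a : Fin p) (z : UnitAddCircle) : dg p (br p a z) = a := by
  have hp : 0 < p := a.pos
  have hpR : (0 : ℝ) < p := by exact_mod_cast hp
  unfold dg
  rw [rep_br]
  have : (p : ℝ) * ((rep z + (a : ℕ)) / p) = rep z + (a : ℕ) := by field_simp
  rw [this, Nat.floor_add_natCast (rep_nonneg z), Nat.floor_eq_zero.2 (rep_lt_one z), zero_add]

lemma measurable_br (a : Fin p) : Measurable (br p a) :=
  (AddCircle.measurable_mk').comp ((measurable_rep.add_const _).div_const _)

lemma measurable_dg : Measurable (dg p) :=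
  Nat.measurable_floor.comp (measurable_rep.const_mul _)

lemma measurable_nsmul' : Measurable (fun x : UnitAddCircle => p • x) := by
  have : Continuous (fun x : UnitAddCircle => p • x) := continuous_nsmul p
  exact this.measurable

/-! ### the character -/

noncomputable def chr (x : UnitAddCircle) : ℂ := fourier (T := (1 : ℝ)) 1 x

lemma chr_pow (x : UnitAddCircle) (n : ℕ) : chr x ^ n = fourier (T := (1 : ℝ)) n x := by
  unfold chr
  rw [fourier_apply, fourier_apply, one_smul, natCast_zsmul, AddCircle.toCircle_nsmul]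
  simp

lemma chr_norm (x : UnitAddCircle) : ‖chr x‖ = 1 := by
  unfold chr
  rw [fourier_apply]
  exact Circle.norm_coe _

lemma chr_nsmul (x : UnitAddCircle) : chr x ^ p = chr (p • x) := by
  rw [chr_pow]
  unfold chr
  rw [fourier_apply, fourier_apply, one_smul, natCast_zsmul]

lemma measurable_chr : Measurable chr := (map_continuous (fourier (T := (1 : ℝ)) 1)).measurable

lemma chr_coe (t : ℝ) : chr (t : UnitAddCircle) =
    Complex.exp (((2 * Real.pi * t : ℝ) : ℂ) * Complex.I) := by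
  unfold chr
  rw [fourier_coe_apply]
  congr 1
  push_cast
  ring

lemma chr_br_pow (a : Fin p) (z : UnitAddCircle) (u : ℕ) : chr (br p a z) ^ u =
    Complex.exp (((2 * Real.pi * (u * ((rep z + (a : ℕ)) / p)) : ℝ) : ℂ) * Complex.I) := by
  unfold br
  rw [chr_coe, ← Complex.exp_nat_mul]
  congr 1
  push_cast
  ring

/-- a spectral gap for the roots of unity -/
lemma exists_gap (hp : 2 ≤ p) : ∃ c : ℝ, 0 < c ∧ ∀ k : ℤ, ¬ (p : ℤ) ∣ k →
    Real.cos (2 * Real.pi * (k / p)) ≤ 1 - c := by
  have hpR : (0 : ℝ) < p := by positivity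
  have hne : (Finset.Ico 1 p).Nonempty := ⟨1, by simp; omega⟩
  obtain ⟨k0, hk0, hmin⟩ := Finset.exists_min_image (Finset.Ico 1 p)
    (fun k : ℕ => 1 - Real.cos (2 * Real.pi * ((k : ℝ) / p))) hne
  refine ⟨1 - Real.cos (2 * Real.pi * ((k0 : ℝ) / p)), ?_, ?_⟩
  · have h1 : Real.cos (2 * Real.pi * ((k0 : ℝ) / p)) ≠ 1 := by
      intro h
      rw [Real.cos_eq_one_iff] at h
      obtain ⟨n, hn⟩ := h
      rw [Finset.mem_Ico] at hk0
      have h2 : (n : ℝ) * p = k0 := by
        have h3 : (2 * Real.pi) ≠ 0 := by positivity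
        have h4 : (2 * Real.pi) * (n * p) = (2 * Real.pi) * k0 := by
          have : (2 * Real.pi) * (n * p) = (n * (2 * Real.pi)) * p := by ring
          rw [this, hn]
          field_simp
        exact mul_left_cancel₀ h3 h4
      have h5 : n * (p : ℤ) = k0 := by exact_mod_cast h2
      have h6 : (p : ℤ) ∣ (k0 : ℤ) := ⟨n, by rw [← h5]; ring⟩
      have h7 : p ∣ k0 := by exact_mod_cast h6
      have := Nat.le_of_dvd (by omega) h7
      omega
    have := Real.cos_le_one (2 * Real.pi * ((k0 : ℝ) / p))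
    rcases this.lt_or_eq with h | h
    · linarith
    · exact absurd h h1
  · intro k hk
    have h1 : k = p * (k / p) + k % p := (Int.mul_ediv_add_emod k p).symm
    have h2 : 0 ≤ k % (p : ℤ) := Int.emod_nonneg _ (by omega)
    have h3 : k % (p : ℤ) < p := Int.emod_lt_of_pos _ (by omega)
    have h4 : k % (p : ℤ) ≠ 0 := fun h => hk (Int.dvd_of_emod_eq_zero h)
    obtain ⟨r, hr⟩ : ∃ r : ℕ, k % (p : ℤ) = r := ⟨(k % (p : ℤ)).toNat, by omega⟩
    have hrm : r ∈ Finset.Ico 1 p := by
      rw [Finset.mem_Ico]; omega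
    have h5 : (k : ℝ) = p * ((k / (p : ℤ) : ℤ) : ℝ) + r := by
      have : (k : ℝ) = ((p * (k / p) + k % p : ℤ) : ℝ) := by rw [← h1]
      rw [this, hr]
      push_cast
      ring
    have h6 : 2 * Real.pi * ((k : ℝ) / p) = 2 * Real.pi * ((r : ℝ) / p) +
        ((k / (p : ℤ) : ℤ) : ℝ) * (2 * Real.pi) := by
      rw [h5]
      field_simp
      ring
    rw [h6, Real.cos_add_int_mul_two_pi]
    have := hmin r hrm
    linarith

/-- the lower bound for the variance on the fibres -/
lemma vu_general (hp : p.Prime) {c : ℝ}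
    (hgap : ∀ k : ℤ, ¬ (p : ℤ) ∣ k → Real.cos (2 * Real.pi * (k / p)) ≤ 1 - c)
    (w : Fin p → UnitAddCircle → ℝ) (w0 : ∀ a z, 0 ≤ w a z) (w1 : ∀ z, ∑ a, w a z = 1)
    {u : ℕ} (hu : ¬ p ∣ u) (z : UnitAddCircle) :
    c * (1 - ∑ a, w a z ^ 2) ≤ 1 - ‖∑ a, w a z • chr (br p a z) ^ u‖ ^ 2 := by
  have hpR : (0 : ℝ) < p := by exact_mod_cast hp.pos
  set ξ : Fin p → ℂ := fun a => chr (br p a z) ^ u with hξ
  have h1 : ‖∑ a, w a z • ξ a‖ ^ 2 = ∑ a, ∑ a', w a z * w a' z * (ξ a * starRingEnd ℂ (ξ a')).re := by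
    rw [← Complex.normSq_eq_norm_sq]
    have h2 : ((Complex.normSq (∑ a, w a z • ξ a) : ℝ) : ℂ) =
        (∑ a, w a z • ξ a) * starRingEnd ℂ (∑ a, w a z • ξ a) := (Complex.mul_conj _).symm
    have h3 : Complex.normSq (∑ a, w a z • ξ a) =
        ((∑ a, w a z • ξ a) * starRingEnd ℂ (∑ a, w a z • ξ a)).re := by
      rw [← h2, Complex.ofReal_re]
    rw [h3, map_sum, Finset.sum_mul_sum, Complex.re_sum]
    refine Finset.sum_congr rfl fun a _ => ?_
    rw [Complex.re_sum]
    refine Finset.sum_congr rfl fun a' _ => ?_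
    simp only [Complex.real_smul, map_mul, Complex.conj_ofReal]
    have : (w a z : ℂ) * ξ a * ((w a' z : ℂ) * starRingEnd ℂ (ξ a')) =
        ((w a z * w a' z : ℝ) : ℂ) * (ξ a * starRingEnd ℂ (ξ a')) := by
      push_cast
      ring
    rw [this, Complex.re_ofReal_mul]
  have h2 : ∀ a a', (ξ a * starRingEnd ℂ (ξ a')).re =
      Real.cos (2 * Real.pi * (((u : ℤ) * ((a : ℕ) - (a' : ℕ) : ℤ) : ℤ) / p)) := by
    intro a a'
    simp only [hξ]
    rw [chr_br_pow, chr_br_pow, ← Complex.exp_conj, ← Complex.exp_add]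
    have : (((2 * Real.pi * (u * ((rep z + (a : ℕ)) / p)) : ℝ) : ℂ) * Complex.I +
        starRingEnd ℂ (((2 * Real.pi * (u * ((rep z + (a' : ℕ)) / p)) : ℝ) : ℂ) * Complex.I)) =
        ((2 * Real.pi * ((((u : ℤ) * ((a : ℕ) - (a' : ℕ) : ℤ) : ℤ) : ℝ) / p) : ℝ) : ℂ) *
          Complex.I := by
      rw [map_mul, Complex.conj_ofReal, Complex.conj_I]
      push_cast
      ring
    rw [this, Complex.exp_ofReal_mul_I_re]
  have h3 : ∀ a a', w a z * w a' z * (ξ a * starRingEnd ℂ (ξ a')).re ≤
      w a z * w a' z * (1 - c) + (if a = a' then c * (w a z * w a' z) else 0) := by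
    intro a a'
    have hww : 0 ≤ w a z * w a' z := mul_nonneg (w0 _ _) (w0 _ _)
    by_cases haa : a = a'
    · rw [if_pos haa]
      have : (ξ a * starRingEnd ℂ (ξ a')).re ≤ 1 := by
        rw [h2]; exact Real.cos_le_one _
      nlinarith
    · rw [if_neg haa, add_zero]
      refine mul_le_mul_of_nonneg_left ?_ hww
      rw [h2]
      refine hgap _ ?_
      intro hd
      rcases (Nat.prime_iff_prime_int.1 hp).dvd_or_dvd hd with h | h
      · exact hu (by exact_mod_cast h)
      · have e1 : ((a : ℕ) : ℤ) - (a' : ℕ) = 0 := by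
          apply Int.eq_zero_of_abs_lt_dvd h
          have e2 := a.2
          have e3 := a'.2
          rw [abs_lt]
          constructor <;> omega
        exact haa (Fin.ext (by omega))
  rw [h1]
  have h4 : ∑ a, ∑ a', w a z * w a' z * (ξ a * starRingEnd ℂ (ξ a')).re ≤
      ∑ a, ∑ a', (w a z * w a' z * (1 - c) + (if a = a' then c * (w a z * w a' z) else 0)) :=
    Finset.sum_le_sum fun a _ => Finset.sum_le_sum fun a' _ => h3 a a'
  have h5 : ∑ a, ∑ a', (w a z * w a' z * (1 - c) + (if a = a' then c * (w a z * w a' z) else 0)) =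
      (1 - c) + c * ∑ a, w a z ^ 2 := by
    have e1 : ∀ a, ∑ a', (w a z * w a' z * (1 - c) +
        (if a = a' then c * (w a z * w a' z) else 0)) =
        w a z * (1 - c) + c * w a z ^ 2 := by
      intro a
      rw [Finset.sum_add_distrib, ← Finset.sum_mul, ← Finset.mul_sum, w1, mul_one,
        Finset.sum_ite_eq Finset.univ a]
      simp only [Finset.mem_univ, if_true]
      ring
    rw [Finset.sum_congr rfl fun a _ => e1 a, Finset.sum_add_distrib, ← Finset.sum_mul, w1,
      one_mul, Finset.mul_sum]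
  rw [h5] at h4
  linarith

end

end Pool.Agent.TH338.LG
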