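import Mathlib
import Pool.Agent.TH338.LG.Circ

/-! Entropy of measures on the circle invariant under multiplication by `p`. -/

set_option autoImplicit false
open MeasureTheory Finset Filter Topology
open scoped ENNReal

namespace Pool.Agent.TH338.LG

/-- the index of the `p`-adic interval of level `n` containing `x` -/
noncomputable def cell (p n : ℕ) (x : UnitAddCircle) : ℕ := ⌊(p : ℝ) ^ n * rep x⌋₊

/-- the entropy of the partition into `p`-adic intervals of level `n` -/
noncomputable def Hn (p : ℕ) (μ : Measure UnitAddCircle) (n : ℕ) : ℝ :=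
  ∑ k ∈ range (p ^ n), Real.negMulLog (μ.real {x | cell p n x = k})

/-- the entropy of multiplication by `p` -/
noncomputable def ent (p : ℕ) (μ : Measure UnitAddCircle) : ℝ :=
  limsup (fun n : ℕ => Hn p μ n / (n : ℝ)) atTop

variable {p : ℕ}

lemma cell_lt (hp : 0 < p) (n : ℕ) (x : UnitAddCircle) : cell p n x < p ^ n := by
  unfold cell
  rw [Nat.floor_lt (by have := rep_nonneg x; positivity)]
  have h1 := rep_lt_one x
  have h2 : (0 : ℝ) < (p : ℝ) ^ n := by positivity
  push_cast
  nlinarith

lemma cell_succ (n : ℕ) (x : UnitAddCircle) :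
    cell p (n + 1) x = dg p x * p ^ n + cell p n (p • x) := by
  unfold cell
  rw [rep_nsmul]
  have h0 : 0 ≤ (p : ℝ) ^ n * (p * rep x - dg p x) := by
    have h1 := Nat.floor_le (show 0 ≤ (p : ℝ) * rep x by have := rep_nonneg x; positivity)
    have : 0 ≤ (p : ℝ) * rep x - dg p x := by unfold dg; linarith
    positivity
  have h1 : (p : ℝ) ^ (n + 1) * rep x = (p : ℝ) ^ n * (p * rep x - dg p x) +
      ((dg p x * p ^ n : ℕ) : ℝ) := by
    push_cast
    ring
  rw [h1, Nat.floor_add_natCast h0, add_comm]

lemma measurable_cell (n : ℕ) : Measurable (cell p n) :=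
  Nat.measurable_floor.comp (measurable_rep.const_mul _)

lemma Hn_nonneg (μ : Measure UnitAddCircle) [IsProbabilityMeasure μ] (n : ℕ) : 0 ≤ Hn p μ n :=
  Finset.sum_nonneg fun _ _ => Real.negMulLog_nonneg measureReal_nonneg measureReal_le_one

lemma negMulLog_le (η : ℝ) (hη : 0 < η) :
    ∃ C : ℝ, 0 < C ∧ ∀ t : ℝ, 0 ≤ t → t ≤ 1 → Real.negMulLog t ≤ η + C * (t * (1 - t)) := by
  have h0 : ∀ᶠ t in 𝓝 (0 : ℝ), Real.negMulLog t < η := by
    have := (Real.continuous_negMulLog.tendsto 0)
    rw [Real.negMulLog_zero] at this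
    exact (tendsto_order.1 this).2 η hη
  have h1 : ∀ᶠ t in 𝓝 (1 : ℝ), Real.negMulLog t < η := by
    have := (Real.continuous_negMulLog.tendsto 1)
    rw [Real.negMulLog_one] at this
    exact (tendsto_order.1 this).2 η hη
  rw [Metric.eventually_nhds_iff] at h0 h1
  obtain ⟨δ0, hδ0, h0⟩ := h0
  obtain ⟨δ1, hδ1, h1⟩ := h1
  set δ := min (min δ0 δ1) (1 / 2) with hδ
  have hδpos : 0 < δ := by positivity
  have hδ0' : δ ≤ δ0 := (min_le_left _ _).trans (min_le_left _ _)
  have hδ1' : δ ≤ δ1 := (min_le_left _ _).trans (min_le_right _ _)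
  have hδ2 : δ ≤ 1 / 2 := min_le_right _ _
  refine ⟨1 / (δ * (1 / 2)), by positivity, fun p hp0 hp1 => ?_⟩
  have hC : 0 ≤ 1 / (δ * (1 / 2)) * (p * (1 - p)) := by
    have : 0 ≤ 1 - p := by linarith
    positivity
  by_cases hA : p < δ
  · have := h0 (y := p) (by rw [Real.dist_eq, sub_zero, abs_of_nonneg hp0]; linarith)
    linarith
  by_cases hB : 1 - p < δ
  · have := h1 (y := p) (by rw [Real.dist_eq, abs_sub_comm, abs_of_nonneg (by linarith)]; linarith)
    linarith
  push Not at hA hB
  have h2 : Real.negMulLog p ≤ 1 := by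
    have := Real.negMulLog_le_one_sub_self hp0
    linarith
  have h3 : δ * (1 / 2) ≤ p * (1 - p) := by
    by_cases hp : p ≤ 1 / 2
    · nlinarith
    · push Not at hp
      nlinarith
  have h4 : 1 ≤ 1 / (δ * (1 / 2)) * (p * (1 - p)) := by
    rw [div_mul_eq_mul_div, one_mul, le_div_iff₀ (by positivity)]
    linarith
  linarith

lemma sum_range_mul' (f : ℕ → ℝ) (M a : ℕ) :
    ∑ k ∈ range (a * M), f k = ∑ i ∈ range a, ∑ k ∈ range M, f (i * M + k) := by
  induction a with
  | zero => simp
  | succ a ih =>
    rw [Nat.succ_mul, Finset.sum_range_add, ih, Finset.sum_range_succ]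

/-- the data: weights of an invariant measure -/
structure Wts (p : ℕ) (μ : Measure UnitAddCircle) (w : Fin p → UnitAddCircle → ℝ) : Prop where
  mw : ∀ a, Measurable (w a)
  w0 : ∀ a z, 0 ≤ w a z
  w1 : ∀ z, ∑ a, w a z = 1
  inv : ∀ F : UnitAddCircle → ℂ, Measurable F → (∃ C : ℝ, ∀ z, ‖F z‖ ≤ C) →
    ∫ z, ∑ a, w a z • F (br p a z) ∂μ = ∫ z, F z ∂μ

lemma Wts.le_one {μ : Measure UnitAddCircle} {w : Fin p → UnitAddCircle → ℝ} (hw : Wts p μ w)
    (a : Fin p) (z : UnitAddCircle) : w a z ≤ 1 := by
  rw [← hw.w1 z]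
  exact Finset.single_le_sum (f := fun a => w a z) (fun a _ => hw.w0 a z) (Finset.mem_univ a)

/-- measure of the cells of the next level -/
lemma Wts.cell_mass (hp : 0 < p) {μ : Measure UnitAddCircle} [IsProbabilityMeasure μ]
    {w : Fin p → UnitAddCircle → ℝ} (hw : Wts p μ w) (n : ℕ) (a : Fin p) {k : ℕ} (hk : k < p ^ n) :
    μ.real {x | cell p (n + 1) x = a * p ^ n + k} = ∫ z in {x | cell p n x = k}, w a z ∂μ := by
  set A : Set UnitAddCircle := {x | cell p (n + 1) x = a * p ^ n + k} with hA
  set B : Set UnitAddCircle := {x | cell p n x = k} with hB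
  have mA : MeasurableSet A := (measurable_cell (n + 1)) (measurableSet_singleton _)
  have mB : MeasurableSet B := (measurable_cell n) (measurableSet_singleton _)
  have hmem : ∀ (a' : Fin p) (z : UnitAddCircle), br p a' z ∈ A ↔ (a' = a ∧ z ∈ B) := by
    intro a' z
    simp only [hA, hB, Set.mem_setOf_eq]
    rw [cell_succ, dg_br, nsmul_br]
    have hc := cell_lt hp n z
    constructor
    · intro h
      have h1 : ((a' : ℕ) * p ^ n + cell p n z) / p ^ n = (a : ℕ) := by
        rw [h, add_comm, Nat.add_mul_div_right _ _ (by positivity), Nat.div_eq_of_lt hk, zero_add]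
      rw [add_comm, Nat.add_mul_div_right _ _ (by positivity), Nat.div_eq_of_lt hc, zero_add] at h1
      refine ⟨Fin.ext h1, ?_⟩
      rw [h1] at h
      omega
    · rintro ⟨rfl, h⟩
      rw [h]
  have h1 := hw.inv (Set.indicator A (fun _ => (1 : ℂ))) (measurable_const.indicator mA)
    ⟨1, fun z => (norm_indicator_le_norm_self _ _).trans (by simp)⟩
  have h2 : ∀ z, ∑ a', w a' z • Set.indicator A (fun _ => (1 : ℂ)) (br p a' z) =
      ((Set.indicator B (w a) z : ℝ) : ℂ) := by
    intro z
    rw [Finset.sum_eq_single a]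
    · by_cases hz : z ∈ B
      · rw [Set.indicator_of_mem ((hmem a z).2 ⟨rfl, hz⟩), Set.indicator_of_mem hz]
        simp
      · rw [Set.indicator_of_notMem (fun h => hz ((hmem a z).1 h).2), Set.indicator_of_notMem hz]
        simp
    · intro a' _ ha'
      rw [Set.indicator_of_notMem (fun h => ha' ((hmem a' z).1 h).1), smul_zero]
    · intro h
      exact absurd (Finset.mem_univ _) h
  simp only [h2] at h1
  rw [integral_complex_ofReal, integral_indicator mB, integral_indicator mA] at h1
  simp only [integral_const, measureReal_restrict_apply_univ, Complex.real_smul, mul_one] at h1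
  have h3 : ∫ z in B, w a z ∂μ = μ.real A := by exact_mod_cast h1
  exact h3.symm

lemma norm_coe_le (t : ℝ) : ‖(t : UnitAddCircle)‖ ≤ |t| := by
  rw [UnitAddCircle.norm_eq]
  have := round_le t 0
  simpa using this

/-- **zero entropy of deterministic systems** -/
lemma ent_small (hp : 0 < p) {μ : Measure UnitAddCircle} [IsProbabilityMeasure μ]
    {w : Fin p → UnitAddCircle → ℝ} (hw : Wts p μ w) (hv : ∀ᵐ z ∂μ, ∑ a, w a z ^ 2 = 1)
    (hp2 : 2 ≤ p) (η : ℝ) (hη : 0 < η) : ∃ n0, ∀ n, n0 ≤ n → Hn p μ (n + 1) ≤ Hn p μ n + η := by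
  have hpR : (0 : ℝ) < p := by exact_mod_cast hp
  obtain ⟨C, hC0, hC⟩ := negMulLog_le (η / (2 * p)) (by positivity)
  set δ : ℝ := η / (4 * C * p) with hδ
  have hδ0 : 0 < δ := by positivity
  have hsq : ∀ᵐ z ∂μ, ∀ a, w a z ^ 2 = w a z := by
    filter_upwards [hv] with z hz a
    have h1 : ∑ a, w a z * (1 - w a z) = 0 := by
      have : ∀ a, w a z * (1 - w a z) = w a z - w a z ^ 2 := fun a => by ring
      rw [Finset.sum_congr rfl fun a _ => this a, Finset.sum_sub_distrib, hw.w1, hz, sub_self]
    have h2 := (Finset.sum_eq_zero_iff_of_nonneg (fun a _ =>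
      mul_nonneg (hw.w0 a z) (sub_nonneg.2 (hw.le_one a z)))).1 h1 a (Finset.mem_univ a)
    nlinarith
  have iw : ∀ a, Integrable (w a) μ := fun a => Integrable.of_bound (hw.mw a).aestronglyMeasurable 1
    (Eventually.of_forall fun z => by
      rw [Real.norm_eq_abs, abs_of_nonneg (hw.w0 _ _)]; exact hw.le_one _ _)
  have hG : ∀ a, ∃ G : UnitAddCircle → ℝ, Continuous G ∧ (∀ z, 0 ≤ G z) ∧ (∀ z, G z ≤ 1) ∧
      ∫ z, |w a z - G z| ∂μ ≤ δ := by
    intro a
    obtain ⟨g0, hg0, ig0⟩ := (iw a).exists_boundedContinuous_integral_sub_le (ε := δ) hδ0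
    refine ⟨fun z => max 0 (min 1 (g0 z)), continuous_const.max (continuous_const.min
      g0.continuous), fun z => le_max_left _ _, fun z => max_le zero_le_one (min_le_left _ _), ?_⟩
    refine le_trans ?_ hg0
    refine integral_mono_of_nonneg (Eventually.of_forall fun z => abs_nonneg _)
      (((iw a).sub ig0).norm) (Eventually.of_forall fun z => ?_)
    have h1 := hw.w0 a z
    have h2 := hw.le_one a z
    show |w a z - max 0 (min 1 (g0 z))| ≤ ‖w a z - g0 z‖
    rw [Real.norm_eq_abs]
    rcases le_total (g0 z) 0 with h | h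
    · rw [min_eq_right (by linarith), max_eq_left h, sub_zero, abs_of_nonneg h1,
        abs_of_nonneg (by linarith)]
      linarith
    · rcases le_total (g0 z) 1 with h' | h'
      · rw [min_eq_right h', max_eq_right h]
      · rw [min_eq_left h', max_eq_right zero_le_one, abs_of_nonpos (by linarith),
          abs_of_nonpos (by linarith)]
        linarith
  choose G cG G0 G1 hGi using hG
  have hunif : ∃ ρ : ℝ, 0 < ρ ∧ ∀ a x y, dist x y < ρ → |G a x - G a y| < δ := by
    have h1 : ∀ a, ∃ ρ : ℝ, 0 < ρ ∧ ∀ x y, dist x y < ρ → |G a x - G a y| < δ := by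
      intro a
      obtain ⟨ρ, hρ, h2⟩ := Metric.uniformContinuous_iff.1
        (CompactSpace.uniformContinuous_of_continuous (cG a)) δ hδ0
      exact ⟨ρ, hρ, fun x y h => h2 h⟩
    choose ρ hρ h2 using h1
    have hne : Nonempty (Fin p) := ⟨⟨0, hp⟩⟩
    refine ⟨Finset.univ.inf' Finset.univ_nonempty ρ, ?_, fun a x y h => ?_⟩
    · rw [Finset.lt_inf'_iff]
      exact fun a _ => hρ a
    · exact h2 a x y (h.trans_le (Finset.inf'_le _ (Finset.mem_univ a)))
  obtain ⟨ρ, hρ, hρ2⟩ := hunif
  obtain ⟨n0, hn0⟩ : ∃ n0 : ℕ, ∀ n, n0 ≤ n → 1 / (p : ℝ) ^ n < ρ := by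
    obtain ⟨n0, hn0⟩ := exists_pow_lt_of_lt_one hρ (show (1 / (p : ℝ)) < 1 by
      rw [div_lt_one hpR]; exact_mod_cast hp2)
    refine ⟨n0, fun n hn => lt_of_le_of_lt ?_ hn0⟩
    rw [one_div_pow]
    apply one_div_le_one_div_of_le (by positivity)
    exact pow_le_pow_right₀ (by exact_mod_cast hp) hn
  refine ⟨n0, fun n hn => ?_⟩
  have hpn : (0 : ℝ) < (p : ℝ) ^ n := by positivity
  -- masses
  set P : ℕ → ℝ := fun k => μ.real {x | cell p n x = k} with hP
  set Pa : Fin p → ℕ → ℝ := fun a k => ∫ z in {x | cell p n x = k}, w a z ∂μ with hPa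
  have mB : ∀ k, MeasurableSet {x : UnitAddCircle | cell p n x = k} := fun k =>
    (measurable_cell n) (measurableSet_singleton _)
  have hPa0 : ∀ a k, 0 ≤ Pa a k := fun a k => setIntegral_nonneg (mB k) fun z _ => hw.w0 a z
  have hPsum : ∀ k, ∑ a, Pa a k = P k := by
    intro k
    simp only [hPa]
    rw [← integral_finsetSum _ (fun a _ => (iw a).integrableOn)]
    simp only [hw.w1]
    simp [hP]
  have hPtot : ∑ k ∈ range (p ^ n), P k = 1 := by
    have h1 : ∑ k ∈ range (p ^ n), P k = μ.real (⋃ k ∈ range (p ^ n), {x | cell p n x = k}) := by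
      rw [measureReal_biUnion_finset]
      · intro k _ k' _ hkk
        refine Set.disjoint_left.2 fun x h1 h2 => hkk ?_
        exact (show cell p n x = k from h1).symm.trans h2
      · intro k _; exact mB k
    rw [h1]
    have : (⋃ k ∈ range (p ^ n), {x : UnitAddCircle | cell p n x = k}) = Set.univ := by
      ext x
      simp only [Set.mem_iUnion, Set.mem_univ, iff_true, Finset.mem_range]
      exact ⟨cell p n x, cell_lt hp n x, rfl⟩
    rw [this]
    simp
  have hexp : Hn p μ (n + 1) = ∑ k ∈ range (p ^ n), ∑ a : Fin p, Real.negMulLog (Pa a k) := by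
    unfold Hn
    rw [pow_succ, mul_comm (p ^ n) p, sum_range_mul', Finset.sum_comm]
    refine Finset.sum_congr rfl fun k hk => ?_
    rw [Finset.sum_range (fun i => Real.negMulLog (μ.real {x | cell p (n + 1) x = i * p ^ n + k}))]
    refine Finset.sum_congr rfl fun a _ => ?_
    rw [hw.cell_mass hp n a (Finset.mem_range.1 hk)]
  -- the bound in a cell
  have hcell : ∀ k ∈ range (p ^ n), ∑ a, Real.negMulLog (Pa a k) ≤
      Real.negMulLog (P k) + η / 2 * P k +
        C * ∑ a, ∫ z in {x | cell p n x = k}, (|w a z - G a z| + δ) ∂μ := by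
    intro k hk
    have hk' := Finset.mem_range.1 hk
    have hP0 : 0 ≤ P k := measureReal_nonneg
    have hint0 : ∀ a, 0 ≤ ∫ z in {x | cell p n x = k}, (|w a z - G a z| + δ) ∂μ := fun a =>
      setIntegral_nonneg (mB k) fun z _ => by positivity
    rcases hP0.lt_or_eq with hPk | hPk
    · have hle : ∀ a, Pa a k ≤ P k := fun a => by
        rw [← hPsum k]
        exact Finset.single_le_sum (f := fun a => Pa a k) (fun a _ => hPa0 a k) (Finset.mem_univ a)
      have h1 : ∀ a, Real.negMulLog (Pa a k) ≤ (Pa a k / P k) * Real.negMulLog (P k) +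
          η / (2 * p) * P k + C * ∫ z in {x | cell p n x = k}, (|w a z - G a z| + δ) ∂μ := by
        intro a
        set t := Pa a k / P k with ht
        have ht0 : 0 ≤ t := div_nonneg (hPa0 a k) hP0
        have ht1 : t ≤ 1 := (div_le_one hPk).2 (hle a)
        have e1 : Pa a k = P k * t := by rw [ht]; field_simp
        have e2 : Real.negMulLog (Pa a k) = t * Real.negMulLog (P k) + P k * Real.negMulLog t := by
          rw [e1, Real.negMulLog_mul]
        rw [e2]
        have e3 := hC t ht0 ht1
        -- variance bound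
        set xk : UnitAddCircle := (((k : ℝ) / (p : ℝ) ^ n : ℝ) : UnitAddCircle) with hxk
        set g := G a xk with hg
        have hg0 : 0 ≤ g := G0 a xk
        have hg1 : g ≤ 1 := G1 a xk
        have e4 : P k * (t * (1 - t)) ≤ Pa a k * (1 - g) ^ 2 + (P k - Pa a k) * g ^ 2 := by
          rw [e1]
          nlinarith [mul_nonneg hP0 (sq_nonneg (g - t))]
        have e5 : Pa a k * (1 - g) ^ 2 + (P k - Pa a k) * g ^ 2 =
            ∫ z in {x | cell p n x = k}, (w a z * (1 - g) ^ 2 + (1 - w a z) * g ^ 2) ∂μ := by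
          have i1 : IntegrableOn (w a) {x | cell p n x = k} μ := (iw a).integrableOn
          have i2 : IntegrableOn (fun z => 1 - w a z) {x | cell p n x = k} μ :=
            ((integrable_const (1 : ℝ)).sub (iw a)).integrableOn
          have s1 := integral_add (i1.mul_const ((1 - g) ^ 2)) (i2.mul_const (g ^ 2))
          have s2 := integral_sub (integrable_const (μ := μ.restrict {x | cell p n x = k}) (1 : ℝ))
            i1
          rw [s1, integral_mul_const, integral_mul_const, s2]
          simp [hP, hPa]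
        have e6 : ∫ z in {x | cell p n x = k}, (w a z * (1 - g) ^ 2 + (1 - w a z) * g ^ 2) ∂μ ≤
            ∫ z in {x | cell p n x = k}, (|w a z - G a z| + δ) ∂μ := by
          refine integral_mono_ae ?_ ?_ ?_
          · exact (((iw a).mul_const _).add
              (((integrable_const (1 : ℝ)).sub (iw a)).mul_const _)).integrableOn
          · refine Integrable.integrableOn ?_
            refine Integrable.add ?_ (integrable_const δ)
            exact ((iw a).sub (Integrable.of_bound (cG a).aestronglyMeasurable 1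
              (Eventually.of_forall fun z => by
                rw [Real.norm_eq_abs, abs_of_nonneg (G0 a z)]; exact G1 a z))).norm
          · have hr : ∀ᵐ z ∂(μ.restrict {x | cell p n x = k}), cell p n z = k :=
              ae_restrict_mem (mB k)
            filter_upwards [ae_restrict_of_ae hsq, hr] with z hz hzk
            have hz' := hz a
            have d1 : w a z * (1 - g) ^ 2 + (1 - w a z) * g ^ 2 = (w a z - g) ^ 2 := by
              have : w a z * (1 - g) ^ 2 + (1 - w a z) * g ^ 2 =
                w a z - 2 * w a z * g + g ^ 2 := by ring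
              rw [this]
              have : (w a z - g) ^ 2 = w a z ^ 2 - 2 * w a z * g + g ^ 2 := by ring
              rw [this, hz']
            rw [d1]
            have d2 : |w a z - g| ≤ 1 := by
              have := hw.w0 a z
              have := hw.le_one a z
              rw [abs_le]; constructor <;> linarith
            have d3 : (w a z - g) ^ 2 ≤ |w a z - g| := by
              rw [← sq_abs, pow_two]
              calc |w a z - g| * |w a z - g| ≤ |w a z - g| * 1 :=
                    mul_le_mul_of_nonneg_left d2 (abs_nonneg _)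
                _ = |w a z - g| := mul_one _
            have d4 : dist z xk < ρ := by
              refine lt_of_le_of_lt ?_ (hn0 n hn)
              rw [dist_eq_norm, ← coe_rep z, hxk, ← AddCircle.coe_sub]
              refine (norm_coe_le _).trans ?_
              have f0 : 0 ≤ (p : ℝ) ^ n * rep z := by have := rep_nonneg z; positivity
              have f1 := Nat.floor_le f0
              have f2 := Nat.lt_floor_add_one ((p : ℝ) ^ n * rep z)
              have f3 : ⌊(p : ℝ) ^ n * rep z⌋₊ = k := hzk
              rw [f3] at f1 f2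
              have f4 : rep z - (k : ℝ) / (p : ℝ) ^ n = ((p : ℝ) ^ n * rep z - k) / (p : ℝ) ^ n := by
                field_simp
              rw [f4, abs_of_nonneg (div_nonneg (by linarith) hpn.le)]
              apply div_le_div_of_nonneg_right _ hpn.le
              linarith
            have d5 := hρ2 a z xk d4
            have d6 : |w a z - g| ≤ |w a z - G a z| + |G a z - g| := by
              have : w a z - g = (w a z - G a z) + (G a z - g) := by ring
              rw [this]
              exact abs_add_le _ _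
            show (w a z - g) ^ 2 ≤ |w a z - G a z| + δ
            linarith
        have e7 : P k * Real.negMulLog t ≤ P k * (η / (2 * p) + C * (t * (1 - t))) :=
          mul_le_mul_of_nonneg_left e3 hP0
        have e8 : P k * (t * (1 - t)) ≤ ∫ z in {x | cell p n x = k}, (|w a z - G a z| + δ) ∂μ :=
          e4.trans (e5.le.trans e6)
        have e9 := mul_le_mul_of_nonneg_left e8 hC0.le
        nlinarith
      calc ∑ a, Real.negMulLog (Pa a k) ≤ ∑ a, ((Pa a k / P k) * Real.negMulLog (P k) +
          η / (2 * p) * P k + C * ∫ z in {x | cell p n x = k}, (|w a z - G a z| + δ) ∂μ) :=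
            Finset.sum_le_sum fun a _ => h1 a
        _ = Real.negMulLog (P k) + η / 2 * P k +
            C * ∑ a, ∫ z in {x | cell p n x = k}, (|w a z - G a z| + δ) ∂μ := by
            rw [Finset.sum_add_distrib, Finset.sum_add_distrib, ← Finset.sum_mul,
              ← Finset.sum_div, hPsum, div_self hPk.ne', one_mul, Finset.sum_const,
              Finset.card_univ, Fintype.card_fin, nsmul_eq_mul, Finset.mul_sum]
            congr 2
            field_simp
    · have h1 : ∀ a, Pa a k = 0 := fun a => by
        have := hPsum k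
        rw [← hPk] at this
        exact (Finset.sum_eq_zero_iff_of_nonneg (fun a _ => hPa0 a k)).1 this a
          (Finset.mem_univ a)
      simp only [h1, ← hPk, Real.negMulLog_zero, Finset.sum_const_zero, mul_zero, add_zero,
        zero_add]
      exact mul_nonneg hC0.le (Finset.sum_nonneg fun a _ => hint0 a)
  rw [hexp]
  have hI : ∀ a, ∑ k ∈ range (p ^ n), ∫ z in {x | cell p n x = k}, (|w a z - G a z| + δ) ∂μ ≤
      2 * δ := by
    intro a
    have iG : Integrable (fun z => |w a z - G a z| + δ) μ := by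
      refine Integrable.add ?_ (integrable_const δ)
      exact ((iw a).sub (Integrable.of_bound (cG a).aestronglyMeasurable 1
        (Eventually.of_forall fun z => by
          rw [Real.norm_eq_abs, abs_of_nonneg (G0 a z)]; exact G1 a z))).norm
    have h1 : ∑ k ∈ range (p ^ n), ∫ z in {x | cell p n x = k}, (|w a z - G a z| + δ) ∂μ =
        ∫ z in ⋃ k ∈ range (p ^ n), {x | cell p n x = k}, (|w a z - G a z| + δ) ∂μ := by
      rw [integral_biUnion_finset]
      · intro k _; exact mB k
      · intro k _ k' _ hkk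
        refine Set.disjoint_left.2 fun x h1 h2 => hkk ?_
        exact (show cell p n x = k from h1).symm.trans h2
      · intro k _; exact iG.integrableOn
    rw [h1]
    have h2 : (⋃ k ∈ range (p ^ n), {x : UnitAddCircle | cell p n x = k}) = Set.univ := by
      ext x
      simp only [Set.mem_iUnion, Set.mem_univ, iff_true, Finset.mem_range]
      exact ⟨cell p n x, cell_lt hp n x, rfl⟩
    rw [h2, Measure.restrict_univ]
    have h3 := integral_add (((iw a).sub (Integrable.of_bound (cG a).aestronglyMeasurable 1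
        (Eventually.of_forall fun z => by
          rw [Real.norm_eq_abs, abs_of_nonneg (G0 a z)]; exact G1 a z))).norm)
          (integrable_const (μ := μ) δ)
    have h4 : ∫ z, (|w a z - G a z| + δ) ∂μ = ∫ z, |w a z - G a z| ∂μ + δ := by
      have := h3
      simpa using this
    rw [h4]
    linarith [hGi a]
  calc ∑ k ∈ range (p ^ n), ∑ a, Real.negMulLog (Pa a k) ≤
        ∑ k ∈ range (p ^ n), (Real.negMulLog (P k) + η / 2 * P k +
        C * ∑ a, ∫ z in {x | cell p n x = k}, (|w a z - G a z| + δ) ∂μ) :=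
        Finset.sum_le_sum hcell
    _ = Hn p μ n + η / 2 + C * ∑ a, ∑ k ∈ range (p ^ n),
        ∫ z in {x | cell p n x = k}, (|w a z - G a z| + δ) ∂μ := by
        rw [Finset.sum_add_distrib, Finset.sum_add_distrib, ← Finset.mul_sum, hPtot, mul_one,
          ← Finset.mul_sum, Finset.sum_comm]
        rfl
    _ ≤ Hn p μ n + η / 2 + C * ∑ _a : Fin p, 2 * δ := by
        have := Finset.sum_le_sum fun (a : Fin p) (_ : a ∈ Finset.univ) => hI a
        have := mul_le_mul_of_nonneg_left this hC0.le
        linarith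
    _ = Hn p μ n + η := by
        rw [Finset.sum_const, Finset.card_univ, Fintype.card_fin, nsmul_eq_mul, hδ]
        field_simp
        ring

/-- deterministic systems do not have positive entropy -/
lemma not_ent_pos (hp2 : 2 ≤ p) {μ : Measure UnitAddCircle} [IsProbabilityMeasure μ]
    {w : Fin p → UnitAddCircle → ℝ} (hw : Wts p μ w) (hv : ∀ᵐ z ∂μ, ∑ a, w a z ^ 2 = 1) :
    ¬ 0 < ent p μ := by
  intro hpos
  set h := ent p μ with hh
  obtain ⟨n0, hn0⟩ := ent_small (by omega) hw hv hp2 (h / 4) (by positivity)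
  have hup : ∀ k : ℕ, Hn p μ (n0 + k) ≤ Hn p μ n0 + k * (h / 4) := by
    intro k
    induction k with
    | zero => simp
    | succ k ih =>
      have := hn0 (n0 + k) (by omega)
      rw [← add_assoc]
      push_cast
      linarith
  have hcob : IsCoboundedUnder (· ≤ ·) atTop (fun n : ℕ => Hn p μ n / (n : ℝ)) :=
    IsBoundedUnder.isCoboundedUnder_le (isBoundedUnder_of ⟨0, fun n : ℕ =>
      div_nonneg (Hn_nonneg μ n) (Nat.cast_nonneg n)⟩)
  have hfr : ∃ᶠ n : ℕ in atTop, h / 2 < Hn p μ n / (n : ℝ) :=
    frequently_lt_of_lt_limsup hcob (show h / 2 < limsup (fun n : ℕ => Hn p μ n / (n : ℝ)) atTop by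
      have : h = limsup (fun n : ℕ => Hn p μ n / (n : ℝ)) atTop := rfl
      rw [← this]
      linarith)
  obtain ⟨K, hK⟩ := exists_nat_gt ((Hn p μ n0) / (h / 4))
  have h1 : Hn p μ n0 < K * (h / 4) := by
    rwa [div_lt_iff₀ (by positivity)] at hK
  obtain ⟨n, hn, hnK⟩ := (hfr.and_eventually (eventually_ge_atTop (n0 + K + 1))).exists
  obtain ⟨k, rfl⟩ : ∃ k, n = n0 + k := ⟨n - n0, by omega⟩
  have h2 := hup k
  have hnpos : (0 : ℝ) < ((n0 + k : ℕ) : ℝ) := by
    have : 0 < n0 + k := by omega
    exact_mod_cast this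
  rw [lt_div_iff₀ hnpos] at hn
  have h3 : (K : ℝ) ≤ ((n0 + k : ℕ) : ℝ) := by exact_mod_cast (by omega : K ≤ n0 + k)
  have h4 : (k : ℝ) ≤ ((n0 + k : ℕ) : ℝ) := by exact_mod_cast (by omega : k ≤ n0 + k)
  have h5 : (K : ℝ) * (h / 4) ≤ ((n0 + k : ℕ) : ℝ) * (h / 4) :=
    mul_le_mul_of_nonneg_right h3 (by positivity)
  have h6 : (k : ℝ) * (h / 4) ≤ ((n0 + k : ℕ) : ℝ) * (h / 4) :=
    mul_le_mul_of_nonneg_right h4 (by positivity)
  linarith

end Pool.Agent.TH338.LG
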