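import Mathlib
import Pool.Agent.TH338.LG.Ent

/-! Fourier coefficients of measures invariant under multiplication by a prime. -/

set_option autoImplicit false
open MeasureTheory Finset Filter Topology
open scoped ENNReal ProbabilityTheory

namespace Pool.Agent.TH338.LG

variable {p : ℕ}

/-- positive entropy on every invariant set of positive measure -/
def PosEnt (p : ℕ) (μ : Measure UnitAddCircle) : Prop :=
  ∀ B : Set UnitAddCircle, MeasurableSet B → (fun x : UnitAddCircle => p • x) ⁻¹' B = B →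
    0 < μ B → 0 < ent p (μ[|B])

lemma Wts.cond {μ : Measure UnitAddCircle} [IsProbabilityMeasure μ]
    {w : Fin p → UnitAddCircle → ℝ} (hw : Wts p μ w) {B : Set UnitAddCircle}
    (mB : MeasurableSet B) (hB : (fun x : UnitAddCircle => p • x) ⁻¹' B = B) :
    Wts p (μ[|B]) w := by
  refine ⟨hw.mw, hw.w0, hw.w1, ?_⟩
  rintro F mF ⟨C, hC⟩
  rw [ProbabilityTheory.cond, integral_smul_measure, integral_smul_measure]
  congr 1
  have h1 := hw.inv (fun z => Set.indicator B (fun _ => (1 : ℂ)) z * F z)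
    ((measurable_const.indicator mB).mul mF)
    ⟨1 * C, fun z => by
      rw [norm_mul]
      exact mul_le_mul ((norm_indicator_le_norm_self _ _).trans (by simp)) (hC z)
        (norm_nonneg _) zero_le_one⟩
  have hmem : ∀ (a : Fin p) z, br p a z ∈ B ↔ z ∈ B := by
    intro a z
    have h2 : br p a z ∈ (fun x : UnitAddCircle => p • x) ⁻¹' B ↔ z ∈ B := by
      show p • br p a z ∈ B ↔ z ∈ B
      rw [nsmul_br]
    rwa [hB] at h2
  have h2 : ∀ z, ∑ a, w a z • (Set.indicator B (fun _ => (1 : ℂ)) (br p a z) * F (br p a z)) =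
      Set.indicator B (fun z => ∑ a, w a z • F (br p a z)) z := by
    intro z
    by_cases hz : z ∈ B
    · rw [Set.indicator_of_mem hz]
      refine Finset.sum_congr rfl fun a _ => ?_
      rw [Set.indicator_of_mem ((hmem a z).2 hz), one_mul]
    · rw [Set.indicator_of_notMem hz]
      refine Finset.sum_eq_zero fun a _ => ?_
      rw [Set.indicator_of_notMem (fun h => hz ((hmem a z).1 h)), zero_mul, smul_zero]
  simp only [h2] at h1
  rw [integral_indicator mB] at h1
  rw [h1, ← integral_indicator mB]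
  refine integral_congr_ae (Eventually.of_forall fun z => ?_)
  show Set.indicator B (fun _ => (1 : ℂ)) z * F z = Set.indicator B F z
  by_cases hz : z ∈ B
  · rw [Set.indicator_of_mem hz, Set.indicator_of_mem hz, one_mul]
  · rw [Set.indicator_of_notMem hz, Set.indicator_of_notMem hz, zero_mul]

/-- positive entropy gives variance almost everywhere -/
lemma pos_of_posEnt (hp2 : 2 ≤ p) {μ : Measure UnitAddCircle} [IsProbabilityMeasure μ]
    (hinv : MeasurePreserving (fun x : UnitAddCircle => p • x) μ μ) (hent : PosEnt p μ)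
    {w : Fin p → UnitAddCircle → ℝ} (hw : Wts p μ w) {c : ℝ} (hc : 0 < c) :
    ∀ᵐ z ∂μ, ∃ i : ℕ, 0 < c * (1 - ∑ a, w a ((fun x : UnitAddCircle => p • x)^[i] z) ^ 2) := by
  set σ : UnitAddCircle → UnitAddCircle := fun x => p • x with hσ
  have mσ : Measurable σ := measurable_nsmul'
  set v : UnitAddCircle → ℝ := fun z => c * (1 - ∑ a, w a z ^ 2) with hv
  have mv : Measurable v := by
    refine ((Finset.measurable_sum _ fun a _ => (hw.mw a).pow_const 2).const_sub 1).const_mul c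
  have v0 : ∀ z, 0 ≤ v z := by
    intro z
    have : ∑ a, w a z ^ 2 ≤ 1 := by
      rw [← hw.w1 z]
      refine Finset.sum_le_sum fun a _ => ?_
      have h1 := hw.w0 a z
      have h2 := hw.le_one a z
      nlinarith
    have : 0 ≤ 1 - ∑ a, w a z ^ 2 := by linarith
    positivity
  set B' : Set UnitAddCircle := {z | ∀ i : ℕ, v (σ^[i] z) = 0} with hB'
  have mB' : MeasurableSet B' := by
    have : B' = ⋂ i : ℕ, (fun z => v (σ^[i] z)) ⁻¹' {0} := by
      ext z
      simp only [hB', Set.mem_iInter, Set.mem_preimage, Set.mem_singleton_iff]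
      rfl
    rw [this]
    exact MeasurableSet.iInter fun i => (mv.comp (mσ.iterate i)) (measurableSet_singleton 0)
  by_contra hcon
  have hne : μ B' ≠ 0 := by
    intro h0
    apply hcon
    rw [ae_iff]
    refine measure_mono_null ?_ h0
    intro z hz
    have hz' : ¬ ∃ i : ℕ, 0 < v (σ^[i] z) := hz
    push Not at hz'
    exact fun i => le_antisymm (hz' i) (v0 _)
  have hsub : B' ⊆ σ ⁻¹' B' := by
    intro z hz i
    have := hz (i + 1)
    rwa [Function.iterate_succ_apply] at this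
  have hsubm : ∀ m : ℕ, B' ⊆ σ^[m] ⁻¹' B' := by
    intro m
    induction m with
    | zero => exact fun z hz => hz
    | succ m ih =>
      intro z hz
      have h1 : σ^[m] (σ z) ∈ B' := ih (hsub hz)
      show σ^[m + 1] z ∈ B'
      rwa [Function.iterate_succ_apply]
  have hae : ∀ m : ℕ, (σ^[m] ⁻¹' B' : Set UnitAddCircle) =ᵐ[μ] B' := by
    intro m
    have h1 : μ (σ^[m] ⁻¹' B') = μ B' := (hinv.iterate m).measure_preimage mB'.nullMeasurableSet
    exact (ae_eq_of_subset_of_measure_ge (hsubm m) h1.le mB'.nullMeasurableSet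
      (measure_ne_top _ _)).symm
  set B : Set UnitAddCircle := ⋃ m : ℕ, σ^[m] ⁻¹' B' with hB
  have mB : MeasurableSet B := MeasurableSet.iUnion fun m => (mσ.iterate m) mB'
  have hBinv : σ ⁻¹' B = B := by
    ext x
    simp only [hB, Set.mem_iUnion, Set.mem_preimage]
    constructor
    · rintro ⟨m, hm⟩
      exact ⟨m + 1, by rwa [Function.iterate_succ_apply]⟩
    · rintro ⟨m, hm⟩
      refine ⟨m, ?_⟩
      rw [← Function.iterate_succ_apply, Function.iterate_succ_apply']
      exact hsub hm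
  have hBae : B =ᵐ[μ] B' := by
    have h1 := Filter.EventuallyEq.countable_iUnion hae
    have h2 : (⋃ _m : ℕ, B') = B' := Set.iUnion_const _
    rw [h2] at h1
    exact h1
  have hBpos : 0 < μ B := by
    rw [measure_congr hBae]
    exact pos_iff_ne_zero.2 hne
  have hcp : IsProbabilityMeasure (μ[|B]) :=
    ProbabilityTheory.cond_isProbabilityMeasure hBpos.ne'
  refine not_ent_pos hp2 (hw.cond mB hBinv) ?_ (hent B mB hBinv hBpos)
  have h1 : ∀ᵐ z ∂(μ[|B]), z ∈ B := ProbabilityTheory.ae_cond_mem mB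
  have h2 : ∀ᵐ z ∂(μ[|B]), (z ∈ B ↔ z ∈ B') :=
    ProbabilityTheory.cond_absolutelyContinuous.ae_le hBae.mem_iff
  filter_upwards [h1, h2] with z hz hz2
  have h3 : v z = 0 := (hz2.1 hz) 0
  have h4 : c * (1 - ∑ a, w a z ^ 2) = 0 := h3
  have h5 : 1 - ∑ a, w a z ^ 2 = 0 := by
    rcases mul_eq_zero.1 h4 with h | h
    · exact absurd h hc.ne'
    · exact h
  linarith

/-- **Structure theorem.** -/
theorem structure_thm [hp : Fact p.Prime] (μ : Measure UnitAddCircle) [IsProbabilityMeasure μ]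
    (hinv : MeasurePreserving (fun x : UnitAddCircle => p • x) μ μ) (hent : PosEnt p μ)
    (N : ℕ → ℕ) (J : Set ℕ) (hJ : J.Infinite) (hN : ∀ j ∈ J, ¬ p ∣ N j) (c : ℝ) (hc : 0 < c)
    (hlow : ∀ j ∈ J, c ≤ ‖∫ z, fourier (T := (1 : ℝ)) (N j : ℤ) z ∂μ‖) :
    Term (fun j => ((N j : ℕ) : ℤ_[p])) J := by
  have hp2 : 2 ≤ p := hp.out.two_le
  have hp0 : 0 < p := by omega
  have : Nonempty (Fin p) := ⟨⟨0, hp0⟩⟩
  obtain ⟨w, mw, w0, w1, winv⟩ := exists_weights μ (fun x : UnitAddCircle => p • x)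
    measurable_nsmul' hinv.map_eq (br p) measurable_br (fun x => (⟨dg p x, dg_lt hp0 x⟩ : Fin p))
    (fun a => by
      have : (fun x => (⟨dg p x, dg_lt hp0 x⟩ : Fin p)) ⁻¹' {a} = dg p ⁻¹' {(a : ℕ)} := by
        ext x
        simp only [Set.mem_preimage, Set.mem_singleton_iff]
        exact Fin.ext_iff
      rw [this]
      exact measurable_dg (measurableSet_singleton _))
    (fun x => br_dg hp0 x)
  have hw : Wts p μ w := ⟨mw, w0, w1, winv⟩
  obtain ⟨cg, hcg, hgap⟩ := exists_gap hp2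
  have hv0 : ∀ z, 0 ≤ cg * (1 - ∑ a, w a z ^ 2) := by
    intro z
    have : ∑ a, w a z ^ 2 ≤ 1 := by
      rw [← w1 z]
      refine Finset.sum_le_sum fun a _ => ?_
      have h1 := w0 a z
      have h2 := hw.le_one a z
      nlinarith
    have : 0 ≤ 1 - ∑ a, w a z ^ 2 := by linarith
    positivity
  set Y : Sys p UnitAddCircle (Fin p) :=
    { σ := fun x => p • x
      c := br p
      w := w
      e := chr
      v := fun z => cg * (1 - ∑ a, w a z ^ 2)
      μ := μ
      prob := inferInstance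
      hσ := measurable_nsmul'
      hc := measurable_br
      hw := mw
      he := measurable_chr
      hv := ((Finset.measurable_sum _ fun a _ => (mw a).pow_const 2).const_sub 1).const_mul cg
      w0 := w0
      w1 := w1
      σc := nsmul_br
      e1 := chr_norm
      eb := chr_nsmul
      v0 := hv0
      vu := fun u hu z => vu_general hp.out hgap w w0 w1 hu z
      inv := winv
      pos := pos_of_posEnt hp2 hinv hent hw hcg } with hY
  refine Y.core N J hJ hN c hc fun j hj => ?_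
  have h1 := hlow j hj
  have h2 : ∫ z, Y.e z ^ (N j) ∂Y.μ = ∫ z, fourier (T := (1 : ℝ)) (N j : ℤ) z ∂μ := by
    refine integral_congr_ae (Eventually.of_forall fun z => ?_)
    exact chr_pow z (N j)
  rw [h2]
  exact h1

/-- exact expansions with integer coefficients -/
lemma term_int [hp : Fact p.Prime] {N : ℕ → ℕ} {J : Set ℕ}
    (h : Term (fun j => ((N j : ℕ) : ℤ_[p])) J) :
    ∃ (D : ℕ) (r : ℕ) (m : Fin r → ℤ), 0 < D ∧
      {j | j ∈ J ∧ ∃ V : Fin r → ℕ, (D : ℤ) * N j = ∑ i, m i * (p : ℤ) ^ (V i)}.Infinite := by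
  obtain ⟨r, κ, hinf⟩ := h
  obtain ⟨g, hg⟩ := LinearMap.exists_leftInverse_of_injective (Algebra.linearMap ℚ ℚ_[p])
    (LinearMap.ker_eq_bot.2 (algebraMap ℚ ℚ_[p]).injective)
  have hg1 : ∀ x : ℚ, g (algebraMap ℚ ℚ_[p] x) = x := fun x => by
    have := LinearMap.congr_fun hg x
    simpa using this
  set ρ : Fin r → ℚ := fun i => g ((κ i : ℤ_[p]) : ℚ_[p]) with hρ
  set d : ℕ := ∏ i, (ρ i).den with hd
  have hd0 : d ≠ 0 := Finset.prod_ne_zero_iff.2 fun i _ => (ρ i).den_ne_zero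
  have hcl : ∀ i, ∃ c : ℤ, ρ i * (d : ℚ) = c := by
    intro i
    obtain ⟨k, hk⟩ : (ρ i).den ∣ d := Finset.dvd_prod_of_mem _ (Finset.mem_univ i)
    refine ⟨(ρ i).num * k, ?_⟩
    rw [hk]
    push_cast
    rw [← mul_assoc, Rat.mul_den_eq_num]
  choose c hc using hcl
  refine ⟨d, r, c, Nat.pos_of_ne_zero hd0, hinf.mono ?_⟩
  rintro j ⟨hj, V, hV⟩
  refine ⟨hj, V, ?_⟩
  have h2 := congrArg (fun x : ℤ_[p] => (x : ℚ_[p])) hV
  have h3 : (((N j : ℕ) : ℤ_[p]) : ℚ_[p]) = algebraMap ℚ ℚ_[p] (N j : ℚ) := by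
    push_cast
    simp
  have h4 : ((∑ i, κ i * (p : ℤ_[p]) ^ (V i) : ℤ_[p]) : ℚ_[p]) =
      ∑ i, ((p : ℚ) ^ (V i)) • ((κ i : ℤ_[p]) : ℚ_[p]) := by
    rw [PadicInt.coe_sum]
    refine Finset.sum_congr rfl fun i _ => ?_
    rw [Algebra.smul_def]
    push_cast
    simp [mul_comm]
  rw [h3, h4] at h2
  have h5 := congrArg g h2
  rw [hg1, map_sum] at h5
  have h6 : (N j : ℚ) = ∑ i, ρ i * (p : ℚ) ^ (V i) := by
    rw [h5]
    refine Finset.sum_congr rfl fun i _ => ?_
    rw [map_smul, smul_eq_mul, mul_comm]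
  have h7 : (((d : ℤ) * N j : ℤ) : ℚ) = ((∑ i, c i * (p : ℤ) ^ (V i) : ℤ) : ℚ) := by
    push_cast
    rw [h6, Finset.mul_sum]
    refine Finset.sum_congr rfl fun i _ => ?_
    rw [← hc i]
    ring
  exact_mod_cast h7

lemma int_fourier_neg (μ : Measure UnitAddCircle) (n : ℤ) :
    ‖∫ z, fourier (T := (1 : ℝ)) (-n) z ∂μ‖ = ‖∫ z, fourier (T := (1 : ℝ)) n z ∂μ‖ := by
  have h1 : ∀ z, fourier (T := (1 : ℝ)) (-n) z = starRingEnd ℂ (fourier (T := (1 : ℝ)) n z) :=
    fun z => fourier_neg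
  simp only [h1]
  rw [integral_conj, RCLike.norm_conj]

lemma int_fourier_mul (μ : Measure UnitAddCircle)
    (hinv : MeasurePreserving (fun x : UnitAddCircle => p • x) μ μ) (s : ℕ) (n : ℤ) :
    ∫ z, fourier (T := (1 : ℝ)) ((p : ℤ) ^ s * n) z ∂μ =
      ∫ z, fourier (T := (1 : ℝ)) n z ∂μ := by
  have h1 : ∀ z : UnitAddCircle, fourier (T := (1 : ℝ)) ((p : ℤ) ^ s * n) z =
      fourier (T := (1 : ℝ)) n ((fun x : UnitAddCircle => p • x)^[s] z) := by
    intro z
    have h2 : ∀ (s : ℕ) (z : UnitAddCircle), (fun x : UnitAddCircle => p • x)^[s] z =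
        (p ^ s) • z := by
      intro s
      induction s with
      | zero => intro z; simp
      | succ s ih =>
        intro z
        rw [Function.iterate_succ_apply, ih, smul_smul, pow_succ]
    rw [h2, fourier_apply, fourier_apply, ← natCast_zsmul z (p ^ s), smul_smul]
    push_cast
    rw [mul_comm n]
  simp only [h1]
  have h3 := (hinv.iterate s).map_eq
  have h4 : ∫ z, fourier (T := (1 : ℝ)) n z ∂μ =
      ∫ z, fourier (T := (1 : ℝ)) n z ∂(μ.map (fun x : UnitAddCircle => p • x)^[s]) := by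
    rw [h3]
  rw [h4, integral_map (hinv.iterate s).measurable.aemeasurable
    (map_continuous (fourier (T := (1 : ℝ)) n)).aestronglyMeasurable]

/-- **Theorem C, sequences.** -/
theorem tendsto_seq (hp : p.Prime) (μ : Measure UnitAddCircle) [IsProbabilityMeasure μ]
    (hinv : MeasurePreserving (fun x : UnitAddCircle => p • x) μ μ) (hent : PosEnt p μ)
    (c : ℕ → ℤ) (hc0 : ∀ n, c n ≠ 0)
    (hfin : ∀ (D r : ℕ) (m : Fin r → ℤ), 0 < D →
      {n | ∃ V : Fin r → ℕ, (D : ℤ) * c n = ∑ i, m i * (p : ℤ) ^ (V i)}.Finite) :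
    Tendsto (fun n => ∫ z, fourier (T := (1 : ℝ)) (c n) z ∂μ) atTop (𝓝 0) := by
  have : Fact p.Prime := ⟨hp⟩
  rw [tendsto_zero_iff_norm_tendsto_zero]
  by_contra hnot
  obtain ⟨ε, hε, hfreq⟩ : ∃ ε : ℝ, 0 < ε ∧
      ∃ᶠ n in atTop, ε ≤ ‖∫ z, fourier (T := (1 : ℝ)) (c n) z ∂μ‖ := by
    by_contra h
    push Not at h
    apply hnot
    rw [Metric.tendsto_nhds]
    intro ε hε
    have h1 := h ε hε
    filter_upwards [h1] with n hn
    rw [Real.dist_eq, sub_zero, abs_norm]
    exact hn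
  set J : Set ℕ := {n | ε ≤ ‖∫ z, fourier (T := (1 : ℝ)) (c n) z ∂μ‖} with hJ
  have hJinf : J.Infinite := Nat.frequently_atTop_iff_infinite.1 hfreq
  have hdec : ∀ n, ∃ (s N : ℕ), (c n).natAbs = p ^ s * N ∧ ¬ p ∣ N := by
    intro n
    obtain ⟨s, N, hN, h⟩ := Nat.exists_eq_pow_mul_and_not_dvd (n := (c n).natAbs)
      (Int.natAbs_ne_zero.2 (hc0 n)) p hp.one_lt.ne'
    exact ⟨s, N, h, hN⟩
  choose s N hsN hN using hdec
  have hlow : ∀ j ∈ J, ε ≤ ‖∫ z, fourier (T := (1 : ℝ)) (N j : ℤ) z ∂μ‖ := by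
    intro j hj
    have h1 : ε ≤ ‖∫ z, fourier (T := (1 : ℝ)) (c j) z ∂μ‖ := hj
    have h2 : ‖∫ z, fourier (T := (1 : ℝ)) (c j) z ∂μ‖ =
        ‖∫ z, fourier (T := (1 : ℝ)) (((c j).natAbs : ℕ) : ℤ) z ∂μ‖ := by
      rcases Int.natAbs_eq (c j) with h | h
      · rw [← h]
      · conv_lhs => rw [h]
        exact int_fourier_neg μ _
    rw [h2, hsN j] at h1
    push_cast at h1
    rwa [int_fourier_mul μ hinv] at h1
  have hT := structure_thm μ hinv hent N J hJinf (fun j _ => hN j) ε hε hlow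
  obtain ⟨D, r, m, hD, hinf⟩ := term_int hT
  have hsub : {j | j ∈ J ∧ ∃ V : Fin r → ℕ, (D : ℤ) * N j = ∑ i, m i * (p : ℤ) ^ (V i)} ⊆
      {n | ∃ V : Fin r → ℕ, (D : ℤ) * c n = ∑ i, m i * (p : ℤ) ^ (V i)} ∪
      {n | ∃ V : Fin r → ℕ, (D : ℤ) * c n = ∑ i, (-m i) * (p : ℤ) ^ (V i)} := by
    rintro j ⟨_, V, hV⟩
    have h1 : (((c j).natAbs : ℕ) : ℤ) = (p : ℤ) ^ (s j) * N j := by
      rw [hsN j]; push_cast; ring
    have h2 : (D : ℤ) * (((c j).natAbs : ℕ) : ℤ) = ∑ i, m i * (p : ℤ) ^ (V i + s j) := by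
      rw [h1]
      have : (D : ℤ) * ((p : ℤ) ^ (s j) * N j) = (p : ℤ) ^ (s j) * ((D : ℤ) * N j) := by ring
      rw [this, hV, Finset.mul_sum]
      refine Finset.sum_congr rfl fun i _ => ?_
      rw [pow_add]
      ring
    rcases Int.natAbs_eq (c j) with h | h
    · left
      exact ⟨fun i => V i + s j, by rw [← h2, ← h]⟩
    · right
      refine ⟨fun i => V i + s j, ?_⟩
      have : ∑ i, (-m i) * (p : ℤ) ^ (V i + s j) = -∑ i, m i * (p : ℤ) ^ (V i + s j) := by
        rw [← Finset.sum_neg_distrib]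
        refine Finset.sum_congr rfl fun i _ => ?_
        ring
      rw [this, ← h2]
      conv_lhs => rw [h]
      ring
  exact hinf (((hfin D r m hD).union (hfin D r (fun i => -m i) hD)).subset hsub)

/-- powers -/
theorem tendsto_pow_coprime (hp : p.Prime) (μ : Measure UnitAddCircle) [IsProbabilityMeasure μ]
    (hinv : MeasurePreserving (fun x : UnitAddCircle => p • x) μ μ) (hent : PosEnt p μ)
    {q : ℕ} (hq : 2 ≤ q) (hpq : ¬ p ∣ q) (a : ℤ) (ha : a ≠ 0) :
    Tendsto (fun n : ℕ => ∫ z, fourier (T := (1 : ℝ)) (a * (q : ℤ) ^ n) z ∂μ) atTop (𝓝 0) := by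
  have hcop : Nat.Coprime q p := ((Nat.Prime.coprime_iff_not_dvd hp).2 hpq).symm
  refine tendsto_seq hp μ hinv hent (fun n => a * (q : ℤ) ^ n)
    (fun n => mul_ne_zero ha (pow_ne_zero _ (by exact_mod_cast (by omega : q ≠ 0)))) ?_
  intro D r m hD
  by_contra hinf
  have hinf' : {n | ∃ V : Fin r → ℕ, (D : ℤ) * (a * (q : ℤ) ^ n) =
      ∑ i, m i * (p : ℤ) ^ (V i)}.Infinite := hinf
  have hmem := fun t => Nat.nth_mem_of_infinite hinf' t
  choose V hV using hmem
  refine ar_int p q hp.two_le hq hcop r ((D : ℤ) * a)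
    (mul_ne_zero (by exact_mod_cast hD.ne') ha) m _
    ((Nat.nth_strictMono hinf').tendsto_atTop) V ?_
  intro t
  rw [← hV t]
  ring

theorem tendsto_pow' (hp : p.Prime) (μ : Measure UnitAddCircle) [IsProbabilityMeasure μ]
    (hinv : MeasurePreserving (fun x : UnitAddCircle => p • x) μ μ) (hent : PosEnt p μ)
    {q : ℕ} (hq : 2 ≤ q) (hpq : ∀ k, q ≠ p ^ k) (a : ℤ) (ha : a ≠ 0) :
    Tendsto (fun n : ℕ => ∫ z, fourier (T := (1 : ℝ)) (a * (q : ℤ) ^ n) z ∂μ) atTop (𝓝 0) := by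
  obtain ⟨k, q', hq', h⟩ := Nat.exists_eq_pow_mul_and_not_dvd (n := q) (by omega) p hp.one_lt.ne'
  have hq2 : 2 ≤ q' := by
    rcases Nat.lt_or_ge q' 2 with h2 | h2
    · exfalso
      interval_cases q'
      · exact hq' (dvd_zero p)
      · exact hpq k (by rw [h, mul_one])
    · exact h2
  refine (tendsto_pow_coprime hp μ hinv hent hq2 hq' a ha).congr fun n => ?_
  have : a * (q : ℤ) ^ n = (p : ℤ) ^ (k * n) * (a * (q' : ℤ) ^ n) := by
    rw [h]
    push_cast
    rw [mul_pow, ← pow_mul]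
    ring
  rw [this, int_fourier_mul μ hinv]

lemma int_fourier_vol {a : ℤ} (ha : a ≠ 0) :
    ∫ z : UnitAddCircle, fourier (T := (1 : ℝ)) a z = 0 := by
  have h3 := congrFun (fourierCoeff_fourier (T := (1 : ℝ)) a) 0
  unfold fourierCoeff at h3
  rw [AddCircle.volume_eq_smul_haarAddCircle]
  simp only [ENNReal.ofReal_one, one_smul]
  rw [Pi.single_eq_of_ne (Ne.symm ha)] at h3
  rw [← h3]
  refine integral_congr_ae (Eventually.of_forall fun z => ?_)
  simp

lemma vol_prob : IsProbabilityMeasure (volume : Measure UnitAddCircle) := by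
  rw [AddCircle.volume_eq_smul_haarAddCircle]
  simp only [ENNReal.ofReal_one, one_smul]
  infer_instance

/-- weak convergence from the Fourier coefficients -/
theorem weak_of_fourier (μ : Measure UnitAddCircle) [IsProbabilityMeasure μ] (Q : ℕ → ℕ)
    (h : ∀ a : ℤ, a ≠ 0 →
      Tendsto (fun n : ℕ => ∫ z, fourier (T := (1 : ℝ)) (a * (Q n : ℤ)) z ∂μ) atTop (𝓝 0))
    (f : C(UnitAddCircle, ℂ)) :
    Tendsto (fun n : ℕ => ∫ z, f ((Q n) • z) ∂μ) atTop (𝓝 (∫ z, f z)) := by
  have hvp := vol_prob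
  set S : Submodule ℂ C(UnitAddCircle, ℂ) := Submodule.span ℂ (Set.range (fourier (T := (1 : ℝ))))
    with hS
  have hcont : ∀ (g : C(UnitAddCircle, ℂ)) (n : ℕ), Integrable (fun z => g ((Q n) • z)) μ := by
    intro g n
    refine Integrable.of_bound ((g.continuous.comp (continuous_nsmul (Q n))).aestronglyMeasurable)
      ‖g‖ (Eventually.of_forall fun z => g.norm_coe_le_norm _)
  have hvol : ∀ g : C(UnitAddCircle, ℂ), Integrable (fun z : UnitAddCircle => g z) volume := by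
    intro g
    exact Integrable.of_bound g.continuous.aestronglyMeasurable ‖g‖
      (Eventually.of_forall fun z => g.norm_coe_le_norm _)
  have hspan : ∀ g ∈ S, Tendsto (fun n : ℕ => ∫ z, g ((Q n) • z) ∂μ) atTop
      (𝓝 (∫ z : UnitAddCircle, g z)) := by
    intro g hg
    induction hg using Submodule.span_induction with
    | mem g hg =>
      obtain ⟨a, rfl⟩ := hg
      have h1 : ∀ n, (fun z : UnitAddCircle => fourier (T := (1 : ℝ)) a ((Q n) • z)) =
          fun z => fourier (T := (1 : ℝ)) (a * (Q n : ℤ)) z := by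
        intro n
        funext z
        rw [fourier_apply, fourier_apply, ← natCast_zsmul z (Q n), smul_smul]
      simp only [h1]
      by_cases ha : a = 0
      · subst ha
        simp only [zero_mul, fourier_zero, integral_const, probReal_univ, one_smul]
        exact (tendsto_const_nhds (x := (1 : ℂ)) (f := (atTop : Filter ℕ)))
      · rw [int_fourier_vol ha]
        exact h a ha
    | zero => simp
    | add g1 g2 _ _ h1 h2 =>
      simp only [ContinuousMap.add_apply]
      have e1 : ∀ n, ∫ z, (g1 ((Q n) • z) + g2 ((Q n) • z)) ∂μ =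
          ∫ z, g1 ((Q n) • z) ∂μ + ∫ z, g2 ((Q n) • z) ∂μ := fun n =>
        integral_add (hcont g1 n) (hcont g2 n)
      simp only [e1]
      rw [integral_add (hvol g1) (hvol g2)]
      exact h1.add h2
    | smul c g _ h1 =>
      simp only [ContinuousMap.smul_apply, integral_smul]
      exact h1.const_smul c
  have hdense : S.topologicalClosure = ⊤ := span_fourier_closure_eq_top
  rw [Metric.tendsto_atTop]
  intro ε hε
  have hf : f ∈ S.topologicalClosure := by rw [hdense]; trivial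
  obtain ⟨g, hg, hfg⟩ := Metric.mem_closure_iff.1 hf (ε / 3) (by positivity)
  rw [dist_eq_norm] at hfg
  obtain ⟨n0, hn0⟩ := Metric.tendsto_atTop.1 (hspan g hg) (ε / 3) (by positivity)
  refine ⟨n0, fun n hn => ?_⟩
  have h1 := hn0 n hn
  have hb : ∀ z, ‖f z - g z‖ ≤ ‖f - g‖ := fun z => (f - g).norm_coe_le_norm z
  have h2 : ‖∫ z, f ((Q n) • z) ∂μ - ∫ z, g ((Q n) • z) ∂μ‖ ≤ ‖f - g‖ := by
    rw [← integral_sub (hcont f n) (hcont g n)]
    refine (norm_integral_le_of_norm_le_const (Eventually.of_forall fun z => hb _)).trans ?_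
    simp
  have h3 : ‖(∫ z : UnitAddCircle, g z) - (∫ z : UnitAddCircle, f z)‖ ≤ ‖f - g‖ := by
    rw [← integral_sub (hvol g) (hvol f)]
    have hb' : ∀ z, ‖g z - f z‖ ≤ ‖f - g‖ := fun z => by rw [norm_sub_rev]; exact hb z
    refine (norm_integral_le_of_norm_le_const (Eventually.of_forall hb')).trans (le_of_eq ?_)
    rw [probReal_univ, mul_one]
  rw [dist_eq_norm] at h1 ⊢
  have h4 : (∫ z, f ((Q n) • z) ∂μ) - (∫ z : UnitAddCircle, f z) =
      ((∫ z, f ((Q n) • z) ∂μ) - (∫ z, g ((Q n) • z) ∂μ)) +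
      ((∫ z, g ((Q n) • z) ∂μ) - (∫ z : UnitAddCircle, g z)) +
      ((∫ z : UnitAddCircle, g z) - (∫ z : UnitAddCircle, f z)) := by ring
  rw [h4]
  refine (norm_add₃_le).trans_lt ?_
  linarith

end Pool.Agent.TH338.LG
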