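import Mathlib
import Pool.Agent.TH338.LG.Thm
import Pool.Agent.TH338.LG.Meas

/-! Bernoulli measures close to the point mass at zero. -/

set_option autoImplicit false
open MeasureTheory Finset Filter Topology
open scoped ENNReal ProbabilityTheory

namespace Pool.Agent.TH338.LG

lemma bitB_nonneg (a : Bool) : 0 ≤ bit a := by cases a <;> simp [bit]
lemma bitB_le_one (a : Bool) : bit a ≤ 1 := by cases a <;> simp [bit]

noncomputable def epsN (N : ℕ) : ℝ := 1 / ((N : ℝ) + 2)

lemma epsN_pos (N : ℕ) : 0 < epsN N := by unfold epsN; positivity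

lemma epsN_lt (N : ℕ) : epsN N < 1 := by
  unfold epsN
  rw [div_lt_one (by positivity)]
  have : (0 : ℝ) ≤ N := Nat.cast_nonneg N
  linarith

/-- coin -/
noncomputable def coin (N : ℕ) : Measure Bool :=
  ENNReal.ofReal (1 - epsN N) • Measure.dirac false + ENNReal.ofReal (epsN N) • Measure.dirac true

instance (N : ℕ) : IsProbabilityMeasure (coin N) := by
  constructor
  unfold coin
  have h1 := epsN_pos N
  have h2 := epsN_lt N
  simp only [Measure.add_apply, Measure.smul_apply, measure_univ, smul_eq_mul, mul_one]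
  rw [← ENNReal.ofReal_add (by linarith) h1.le]
  simp

lemma int_coin (N : ℕ) (g : Bool → ℂ) :
    ∫ a, g a ∂(coin N) = ((1 - epsN N : ℝ) : ℂ) * g false + ((epsN N : ℝ) : ℂ) * g true := by
  have h1 := epsN_pos N
  have h2 := epsN_lt N
  unfold coin
  rw [integral_add_measure, integral_smul_measure, integral_smul_measure, integral_dirac,
    integral_dirac, ENNReal.toReal_ofReal (by linarith), ENNReal.toReal_ofReal h1.le]
  · simp only [Complex.real_smul]
  · exact (integrable_dirac (by simp)).smul_measure ENNReal.ofReal_ne_top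
  · exact (integrable_dirac (by simp)).smul_measure ENNReal.ofReal_ne_top

/-- product measure -/
noncomputable def PB (N : ℕ) : Measure SX := Measure.infinitePi (fun _ : ℕ => coin N)

instance (N : ℕ) : IsProbabilityMeasure (PB N) := by unfold PB; infer_instance

lemma meas_cnsP : Measurable (fun x : Bool × SX => cns x.1 x.2) := by
  refine measurable_pi_iff.2 fun n => ?_
  cases n with
  | zero => exact measurable_fst
  | succ n => exact (measurable_pi_apply n).comp measurable_snd

lemma cons_law (N : ℕ) :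
    ((coin N).prod (PB N)).map (fun x : Bool × SX => cns x.1 x.2) = PB N := by
  classical
  refine Measure.eq_infinitePi (fun _ : ℕ => coin N) ?_
  intro s t mt
  obtain ⟨M, hM⟩ : ∃ M, s ⊆ range (M + 1) := by
    obtain ⟨M, hM⟩ := s.exists_nat_subset_range
    exact ⟨M, hM.trans (Finset.range_mono (Nat.le_succ M))⟩
  set T : ℕ → Set Bool := fun i => if i ∈ s then t i else Set.univ with hT
  have h1 : Set.pi (s : Set ℕ) t = Set.pi ((range (M + 1) : Finset ℕ) : Set ℕ) T := by
    ext x
    simp only [Set.mem_pi, Finset.mem_coe, hT]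
    constructor
    · intro h i _
      split_ifs with hi
      · exact h i hi
      · trivial
    · intro h i hi
      have := h i (hM hi)
      rwa [if_pos hi] at this
  have h2 : ∏ i ∈ s, coin N (t i) = ∏ i ∈ range (M + 1), coin N (T i) := by
    rw [← Finset.prod_subset hM]
    · refine Finset.prod_congr rfl fun i hi => ?_
      simp only [hT]
      rw [if_pos hi]
    · intro i _ hi
      simp only [hT]
      rw [if_neg hi, measure_univ]
  rw [h1, h2, Measure.map_apply meas_cnsP
    (MeasurableSet.pi (Finset.countable_toSet _) fun i _ => by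
      simp only [hT]
      split_ifs
      · exact mt i
      · exact MeasurableSet.univ)]
  have h3 : (fun x : Bool × SX => cns x.1 x.2) ⁻¹'
      (Set.pi ((range (M + 1) : Finset ℕ) : Set ℕ) T) =
      (T 0) ×ˢ (Set.pi ((range M : Finset ℕ) : Set ℕ) (fun i => T (i + 1))) := by
    ext ⟨a, ω⟩
    simp only [Set.mem_preimage, Set.mem_pi, Finset.mem_coe, Finset.mem_range, Set.mem_prod]
    constructor
    · intro h
      exact ⟨h 0 (by omega), fun i hi => h (i + 1) (by omega)⟩
    · rintro ⟨h0, h⟩ i hi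
      cases i with
      | zero => exact h0
      | succ i => exact h i (by omega)
  rw [h3, Measure.prod_prod]
  unfold PB
  rw [Measure.infinitePi_pi _ (fun i _ => by
      simp only [hT]
      split_ifs
      · exact mt _
      · exact MeasurableSet.univ), Finset.prod_range_succ', mul_comm]

lemma int_cons (N : ℕ) (F : SX → ℂ) (hF : Measurable F) (C : ℝ) (hC : ∀ ω, ‖F ω‖ ≤ C) :
    ∫ ω, F ω ∂(PB N) = ∫ ω, (((1 - epsN N : ℝ) : ℂ) * F (cns false ω) +
      ((epsN N : ℝ) : ℂ) * F (cns true ω)) ∂(PB N) := by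
  conv_lhs => rw [← cons_law N]
  rw [integral_map meas_cnsP.aemeasurable hF.aestronglyMeasurable]
  have hi : Integrable (fun x : Bool × SX => F (cns x.1 x.2)) ((coin N).prod (PB N)) :=
    Integrable.of_bound (hF.comp meas_cnsP).aestronglyMeasurable C
      (Eventually.of_forall fun x => hC _)
  rw [integral_prod_symm _ hi]
  refine integral_congr_ae (Eventually.of_forall fun ω => ?_)
  exact int_coin N (fun a => F (cns a ω))

/-! ### the point of the circle -/

section

variable {p : ℕ}

noncomputable def xv (p : ℕ) (ω : SX) : ℝ := ∑' i : ℕ, bit (ω i) / (p : ℝ) ^ (i + 1)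

lemma summable_inv (hp : 2 ≤ p) : Summable (fun i : ℕ => (1 : ℝ) / (p : ℝ) ^ (i + 1)) := by
  have hpR : (2 : ℝ) ≤ p := by exact_mod_cast hp
  have h : Summable (fun i : ℕ => ((1 : ℝ) / p) ^ i) :=
    summable_geometric_of_lt_one (by positivity) (by rw [div_lt_one (by linarith)]; linarith)
  refine (h.mul_left (1 / (p : ℝ))).congr fun i => ?_
  rw [pow_succ, div_pow, one_pow]
  field_simp

lemma summable_xv (hp : 2 ≤ p) (ω : SX) : Summable (fun i : ℕ => bit (ω i) / (p : ℝ) ^ (i + 1)) := by
  have hpR : (2 : ℝ) ≤ p := by exact_mod_cast hp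
  refine Summable.of_nonneg_of_le (fun i => div_nonneg (bitB_nonneg _) (by positivity))
    (fun i => ?_) (summable_inv hp)
  exact div_le_div_of_nonneg_right (bitB_le_one _) (by positivity)

lemma cont_xv (hp : 2 ≤ p) : Continuous (xv p) := by
  have hpR : (2 : ℝ) ≤ p := by exact_mod_cast hp
  refine continuous_tsum (fun i => ?_) (summable_inv hp) (fun i ω => ?_)
  · exact ((continuous_of_discreteTopology (f := bit)).comp (continuous_apply i)).div_const _
  · rw [Real.norm_eq_abs, abs_of_nonneg (div_nonneg (bitB_nonneg _) (by positivity))]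
    exact div_le_div_of_nonneg_right (bitB_le_one _) (by positivity)

lemma xv_step (hp : 2 ≤ p) (ω : SX) : (p : ℝ) * xv p ω = bit (ω 0) + xv p (sh ω) := by
  have hpR : (2 : ℝ) ≤ p := by exact_mod_cast hp
  unfold xv
  rw [(summable_xv hp ω).tsum_eq_zero_add, mul_add, ← tsum_mul_left]
  congr 1
  · rw [zero_add, pow_one]
    field_simp
  · refine tsum_congr fun i => ?_
    simp only [sh]
    rw [pow_succ (p : ℝ) (i + 1)]
    field_simp

lemma xv_cns (hp : 2 ≤ p) (a : Bool) (ω : SX) : xv p (cns a ω) = (xv p ω + bit a) / p := by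
  have hpR : (2 : ℝ) ≤ p := by exact_mod_cast hp
  have := xv_step hp (cns a ω)
  rw [sh_cns] at this
  have h2 : cns a ω 0 = a := rfl
  rw [h2] at this
  rw [eq_div_iff (by linarith)]
  linarith

lemma xv_nonneg (hp : 2 ≤ p) (ω : SX) : 0 ≤ xv p ω :=
  tsum_nonneg fun i => div_nonneg (bitB_nonneg _) (by positivity)

lemma xv_le_one (hp : 2 ≤ p) (ω : SX) : xv p ω ≤ 1 := by
  have hpR : (2 : ℝ) ≤ p := by exact_mod_cast hp
  have h1 : xv p ω ≤ ∑' i : ℕ, (1 : ℝ) / (p : ℝ) ^ (i + 1) :=
    (summable_xv hp ω).tsum_le_tsum (fun i =>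
      div_le_div_of_nonneg_right (bitB_le_one _) (by positivity)) (summable_inv hp)
  refine h1.trans ?_
  have h2 : ∑' i : ℕ, (1 : ℝ) / (p : ℝ) ^ (i + 1) = (1 / (p : ℝ)) * (1 - 1 / (p : ℝ))⁻¹ := by
    rw [← tsum_geometric_of_lt_one (by positivity : (0 : ℝ) ≤ 1 / p)
      (by rw [div_lt_one (by linarith)]; linarith), ← tsum_mul_left]
    refine tsum_congr fun i => ?_
    rw [pow_succ, div_pow, one_pow]
    field_simp
  rw [h2]
  have h3 : (0 : ℝ) < 1 - 1 / (p : ℝ) := by
    rw [sub_pos, div_lt_one (by linarith)]; linarith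
  rw [← div_eq_mul_inv, div_le_one h3]
  have : 1 / (p : ℝ) ≤ 1 / 2 := by
    apply one_div_le_one_div_of_le <;> linarith
  linarith

/-- a point with value `1` has all digits `1` -/
lemma xv_lt_one (hp : 2 ≤ p) {ω : SX} {i : ℕ} (hi : ω i = false) : xv p ω < 1 := by
  have hpR : (2 : ℝ) ≤ p := by exact_mod_cast hp
  induction i generalizing ω with
  | zero =>
    have h1 := xv_step hp ω
    rw [hi] at h1
    have h2 := xv_le_one hp (sh ω)
    have h3 := xv_nonneg hp ω
    simp only [bit] at h1
    have h4 : (p : ℝ) * xv p ω ≤ 1 := by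
      simp at h1
      linarith
    nlinarith
  | succ i ih =>
    have h1 := xv_step hp ω
    have h2 := ih (ω := sh ω) hi
    have h3 := bitB_le_one (ω 0)
    have h4 := xv_nonneg hp ω
    nlinarith

lemma ae_exists_false (N : ℕ) : ∀ᵐ ω ∂(PB N), ∃ i : ℕ, ω i = false := by
  rw [ae_iff]
  have h1 : ∀ n : ℕ, PB N {ω | ¬ ∃ i : ℕ, ω i = false} ≤ (ENNReal.ofReal (epsN N)) ^ n := by
    intro n
    have h2 : {ω : SX | ¬ ∃ i : ℕ, ω i = false} ⊆
        Set.pi ((range n : Finset ℕ) : Set ℕ) (fun _ => {true}) := by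
      intro ω hω i _
      simp only [not_exists, Bool.not_eq_false] at hω
      exact hω i
    refine (measure_mono h2).trans ?_
    unfold PB
    rw [Measure.infinitePi_pi _ (fun i _ => measurableSet_singleton _)]
    rw [Finset.prod_const, Finset.card_range]
    refine pow_le_pow_left₀ (zero_le) ?_ n
    unfold coin
    simp
  have h3 : Tendsto (fun n : ℕ => (ENNReal.ofReal (epsN N)) ^ n) atTop (𝓝 0) := by
    refine ENNReal.tendsto_pow_atTop_nhds_zero_of_lt_one ?_
    rw [← ENNReal.ofReal_one]
    exact (ENNReal.ofReal_lt_ofReal_iff zero_lt_one).2 (epsN_lt N)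
  exact le_antisymm (ge_of_tendsto' h3 h1) (zero_le)

/-- the measure on the circle -/
noncomputable def nuB (p N : ℕ) : Measure UnitAddCircle :=
  (PB N).map (fun ω => ((xv p ω : ℝ) : UnitAddCircle))

lemma meas_point (hp : 2 ≤ p) : Measurable (fun ω : SX => ((xv p ω : ℝ) : UnitAddCircle)) :=
  (AddCircle.measurable_mk').comp (cont_xv hp).measurable

lemma nuB_prob (hp : 2 ≤ p) (N : ℕ) : IsProbabilityMeasure (nuB p N) :=
  Measure.isProbabilityMeasure_map (meas_point hp).aemeasurable

/-- constant weights -/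
noncomputable def wB (p N : ℕ) (a : Fin p) (_ : UnitAddCircle) : ℝ :=
  if (a : ℕ) = 0 then 1 - epsN N else if (a : ℕ) = 1 then epsN N else 0

lemma sum_wB {E : Type} [AddCommGroup E] [Module ℝ E] (hp : 2 ≤ p) (N : ℕ) (G : Fin p → E)
    (z : UnitAddCircle) : ∑ a, wB p N a z • G a =
      (1 - epsN N) • G ⟨0, by omega⟩ + (epsN N) • G ⟨1, by omega⟩ := by
  have h01 : (⟨0, by omega⟩ : Fin p) ≠ ⟨1, by omega⟩ := by
    intro h
    have := congrArg Fin.val h
    simp at this
  rw [← Finset.sum_subset (Finset.subset_univ ({⟨0, by omega⟩, ⟨1, by omega⟩} : Finset (Fin p)))]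
  · rw [Finset.sum_pair h01]
    simp [wB]
  · intro a _ ha
    simp only [Finset.mem_insert, Finset.mem_singleton, not_or] at ha
    have h0 : (a : ℕ) ≠ 0 := fun h => ha.1 (Fin.ext h)
    have h1 : (a : ℕ) ≠ 1 := fun h => ha.2 (Fin.ext h)
    simp [wB, h0, h1]

lemma wts_nuB (hp : 2 ≤ p) (N : ℕ) : Wts p (nuB p N) (wB p N) := by
  have h1 := epsN_pos N
  have h2 := epsN_lt N
  refine ⟨fun a => measurable_const, fun a z => ?_, fun z => ?_, ?_⟩
  · unfold wB
    split_ifs
    · linarith
    · exact h1.le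
    · exact le_rfl
  · have := sum_wB hp N (fun _ => (1 : ℝ)) z
    simpa using this
  · rintro F mF ⟨C, hC⟩
    unfold nuB
    have mG : Measurable (fun z : UnitAddCircle => ∑ a, wB p N a z • F (br p a z)) :=
      Finset.measurable_sum _ fun a _ => (measurable_const (a := (wB p N a 0))).smul
        (mF.comp (measurable_br a))
    rw [integral_map (meas_point hp).aemeasurable mG.aestronglyMeasurable,
      integral_map (meas_point hp).aemeasurable mF.aestronglyMeasurable,
      int_cons N (fun ω => F ((xv p ω : ℝ) : UnitAddCircle)) (mF.comp (meas_point hp)) C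
        (fun ω => hC _)]
    refine integral_congr_ae ?_
    filter_upwards [ae_exists_false N] with ω hω
    obtain ⟨i, hi⟩ := hω
    have hrep : rep ((xv p ω : ℝ) : UnitAddCircle) = xv p ω :=
      rep_coe (xv_nonneg hp ω) (xv_lt_one hp hi)
    rw [sum_wB hp N (fun a => F (br p a ((xv p ω : ℝ) : UnitAddCircle)))]
    unfold br
    rw [hrep, xv_cns hp, xv_cns hp]
    simp only [Complex.real_smul, bit]
    simp

lemma nuB_inv (hp : 2 ≤ p) (N : ℕ) :
    MeasurePreserving (fun x : UnitAddCircle => p • x) (nuB p N) (nuB p N) := by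
  have := nuB_prob hp N
  refine ⟨measurable_nsmul', ?_⟩
  have : IsProbabilityMeasure ((nuB p N).map (fun x : UnitAddCircle => p • x)) :=
    Measure.isProbabilityMeasure_map measurable_nsmul'.aemeasurable
  refine ext_of_forall_integral_eq_of_IsFiniteMeasure fun f => ?_
  have hw := wts_nuB hp N
  rw [integral_map measurable_nsmul'.aemeasurable f.continuous.aestronglyMeasurable]
  have h1 := hw.inv (fun z => ((f (p • z) : ℝ) : ℂ))
    (Complex.measurable_ofReal.comp (f.continuous.measurable.comp measurable_nsmul'))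
    ⟨‖f‖, fun z => by
      rw [Complex.norm_real]
      exact f.norm_coe_le_norm _⟩
  have h2 : ∀ z, ∑ a, wB p N a z • ((f (p • br p a z) : ℝ) : ℂ) = ((f z : ℝ) : ℂ) := by
    intro z
    simp only [nsmul_br]
    rw [← Finset.sum_smul, hw.w1, one_smul]
  simp only [h2] at h1
  rw [integral_complex_ofReal, integral_complex_ofReal] at h1
  exact_mod_cast h1.symm

lemma int_rep (hp : 2 ≤ p) (N : ℕ) : ∫ z, rep z ∂(nuB p N) ≤ epsN N := by
  have := nuB_prob hp N
  have hpR : (2 : ℝ) ≤ p := by exact_mod_cast hp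
  have hw := wts_nuB hp N
  have h1 := hw.inv (fun z => ((rep z : ℝ) : ℂ)) (Complex.measurable_ofReal.comp measurable_rep)
    ⟨1, fun z => by
      rw [Complex.norm_real, Real.norm_eq_abs, abs_of_nonneg (rep_nonneg z)]
      exact (rep_lt_one z).le⟩
  have h2 : ∀ z, ∑ a, wB p N a z • ((rep (br p a z) : ℝ) : ℂ) =
      (((rep z + epsN N) / p : ℝ) : ℂ) := by
    intro z
    rw [sum_wB hp N (fun a => ((rep (br p a z) : ℝ) : ℂ))]
    simp only [rep_br, Complex.real_smul]
    push_cast
    ring
  simp only [h2] at h1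
  rw [integral_complex_ofReal, integral_complex_ofReal] at h1
  have h3 : ∫ z, (rep z + epsN N) / p ∂(nuB p N) = ∫ z, rep z ∂(nuB p N) := by exact_mod_cast h1
  have ir : Integrable rep (nuB p N) := Integrable.of_bound measurable_rep.aestronglyMeasurable 1
    (Eventually.of_forall fun z => by
      rw [Real.norm_eq_abs, abs_of_nonneg (rep_nonneg z)]
      exact (rep_lt_one z).le)
  have h4 := integral_add ir (integrable_const (μ := nuB p N) (epsN N))
  rw [integral_div, h4] at h3
  have h5 : ∫ _z, epsN N ∂(nuB p N) = epsN N := by simp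
  rw [h5] at h3
  set E := ∫ z, rep z ∂(nuB p N) with hE
  have h6 : E + epsN N = E * p := by
    rw [div_eq_iff (by linarith)] at h3
    exact h3
  have hE0 : 0 ≤ E := integral_nonneg fun z => rep_nonneg z
  nlinarith

end

end Pool.Agent.TH338.LG
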