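import Mathlib
import Pool.Agent.TH338.LG.Bern

/-! The Bernoulli measures are ergodic; the classification of the sequences. -/

set_option autoImplicit false
open MeasureTheory Finset Filter Topology
open scoped ENNReal ProbabilityTheory

namespace Pool.Agent.TH338.LG

variable {p : ℕ}

/-- functions which vary little at distances less than `δ` -/
def Osc (δ ε : ℝ) (G : UnitAddCircle → ℂ) : Prop :=
  ∀ z z', |rep z - rep z'| < δ → ‖G z - G z'‖ ≤ ε

lemma osc_step (hp : 2 ≤ p) {N : ℕ} {δ ε : ℝ} {G : UnitAddCircle → ℂ} (hG : Osc δ ε G) :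
    Osc (p * δ) ε (fun z => ∑ a, wB p N a z • G (br p a z)) := by
  have hpR : (2 : ℝ) ≤ p := by exact_mod_cast hp
  have hw := wts_nuB hp N
  intro z z' h
  show ‖∑ a, wB p N a z • G (br p a z) - ∑ a, wB p N a z' • G (br p a z')‖ ≤ ε
  rw [← Finset.sum_sub_distrib]
  refine (norm_sum_le _ _).trans ?_
  have h1 : ∀ a : Fin p, ‖wB p N a z • G (br p a z) - wB p N a z' • G (br p a z')‖ ≤
      wB p N a z * ε := by
    intro a
    have h2 : wB p N a z' = wB p N a z := rfl
    rw [h2, ← smul_sub, norm_smul, Real.norm_eq_abs, abs_of_nonneg (hw.w0 a z)]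
    refine mul_le_mul_of_nonneg_left (hG _ _ ?_) (hw.w0 a z)
    rw [rep_br, rep_br]
    have h3 : (rep z + (a : ℕ)) / (p : ℝ) - (rep z' + (a : ℕ)) / p = (rep z - rep z') / p := by
      ring
    rw [h3, abs_div, abs_of_nonneg (by linarith : (0 : ℝ) ≤ p), div_lt_iff₀ (by linarith)]
    linarith
  refine (Finset.sum_le_sum fun a _ => h1 a).trans ?_
  rw [← Finset.sum_mul, hw.w1, one_mul]

lemma int_close_aux (hp : 2 ≤ p) {N : ℕ} {μ μ' : Measure UnitAddCircle} [IsProbabilityMeasure μ]
    [IsProbabilityMeasure μ'] (hw : Wts p μ (wB p N)) (hw' : Wts p μ' (wB p N)) {ε : ℝ}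
    (n : ℕ) : ∀ (δ : ℝ) (G : UnitAddCircle → ℂ), Measurable G → (∃ C : ℝ, ∀ z, ‖G z‖ ≤ C) →
      Osc δ ε G → 1 ≤ p ^ n * δ → ‖∫ z, G z ∂μ - ∫ z, G z ∂μ'‖ ≤ ε := by
  induction n with
  | zero =>
    rintro δ G mG ⟨C, hC⟩ hG hδ
    rw [pow_zero, one_mul] at hδ
    have hosc : ∀ z z', ‖G z - G z'‖ ≤ ε := by
      intro z z'
      apply hG
      have h1 := rep_nonneg z
      have h2 := rep_nonneg z'
      have h3 := rep_lt_one z
      have h4 := rep_lt_one z'
      rw [abs_lt]
      constructor <;> linarith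
    have hi : Integrable G μ := Integrable.of_bound mG.aestronglyMeasurable C
      (Eventually.of_forall hC)
    have hi' : Integrable G μ' := Integrable.of_bound mG.aestronglyMeasurable C
      (Eventually.of_forall hC)
    have e1 : ∀ z', ‖∫ z, G z ∂μ - G z'‖ ≤ ε := by
      intro z'
      have e2 : ∫ z, G z ∂μ - G z' = ∫ z, (G z - G z') ∂μ := by
        rw [integral_sub hi (integrable_const _)]
        simp
      rw [e2]
      refine (norm_integral_le_of_norm_le_const (Eventually.of_forall fun z => hosc z z')).trans ?_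
      simp
    have e3 : ∫ z, G z ∂μ - ∫ z, G z ∂μ' = ∫ z', (∫ z, G z ∂μ - G z') ∂μ' := by
      rw [integral_sub (integrable_const _) hi']
      simp
    rw [e3]
    refine (norm_integral_le_of_norm_le_const (Eventually.of_forall fun z => e1 z)).trans ?_
    simp
  | succ n ih =>
    rintro δ G mG ⟨C, hC⟩ hG hδ
    rw [← hw.inv G mG ⟨C, hC⟩, ← hw'.inv G mG ⟨C, hC⟩]
    refine ih (p * δ) _ ?_ ⟨C, fun z => ?_⟩ (osc_step hp hG) ?_
    · exact Finset.measurable_sum _ fun a _ => (measurable_const (a := (wB p N a 0))).smul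
        (mG.comp (measurable_br a))
    · refine (norm_sum_le _ _).trans ?_
      calc ∑ a, ‖wB p N a z • G (br p a z)‖ ≤ ∑ a, wB p N a z * C := by
            refine Finset.sum_le_sum fun a _ => ?_
            rw [norm_smul, Real.norm_eq_abs, abs_of_nonneg (hw.w0 a z)]
            exact mul_le_mul_of_nonneg_left (hC _) (hw.w0 a z)
        _ = C := by rw [← Finset.sum_mul, hw.w1, one_mul]
    · rw [← mul_assoc, ← pow_succ]
      exact hδ

/-- two measures with the same constant weights agree -/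
lemma eq_of_wts (hp : 2 ≤ p) {N : ℕ} {μ μ' : Measure UnitAddCircle} [IsProbabilityMeasure μ]
    [IsProbabilityMeasure μ'] (hw : Wts p μ (wB p N)) (hw' : Wts p μ' (wB p N)) : μ = μ' := by
  have hpR : (2 : ℝ) ≤ p := by exact_mod_cast hp
  refine ext_of_forall_integral_eq_of_IsFiniteMeasure fun f => ?_
  have huc : UniformContinuous f := CompactSpace.uniformContinuous_of_continuous f.continuous
  have key : ∀ ε : ℝ, 0 < ε → ‖∫ z, ((f z : ℝ) : ℂ) ∂μ - ∫ z, ((f z : ℝ) : ℂ) ∂μ'‖ ≤ ε := by
    intro ε hε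
    obtain ⟨δ, hδ, hf⟩ := Metric.uniformContinuous_iff.1 huc ε hε
    have hO : Osc δ ε (fun z => ((f z : ℝ) : ℂ)) := by
      intro z z' h
      rw [← Complex.ofReal_sub, Complex.norm_real, Real.norm_eq_abs, ← Real.dist_eq]
      refine (hf ?_).le
      have e1 : dist z z' ≤ |rep z - rep z'| := by
        rw [dist_eq_norm]
        conv_lhs => rw [← coe_rep z, ← coe_rep z', ← AddCircle.coe_sub]
        exact QuotientAddGroup.norm_mk_le_norm
      exact lt_of_le_of_lt e1 h
    obtain ⟨n, hn⟩ := pow_unbounded_of_one_lt (1 / δ) (by linarith : (1 : ℝ) < p)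
    refine int_close_aux hp hw hw' n δ _
      (Complex.measurable_ofReal.comp f.continuous.measurable)
      ⟨‖f‖, fun z => ?_⟩ hO ?_
    · rw [Complex.norm_real]
      exact f.norm_coe_le_norm _
    · rw [div_lt_iff₀ hδ] at hn
      exact hn.le
  have h0 : ‖∫ z, ((f z : ℝ) : ℂ) ∂μ - ∫ z, ((f z : ℝ) : ℂ) ∂μ'‖ = 0 :=
    le_antisymm (le_of_forall_pos_le_add fun ε hε => by rw [zero_add]; exact key ε hε)
      (norm_nonneg _)
  rw [norm_eq_zero, sub_eq_zero, integral_complex_ofReal, integral_complex_ofReal] at h0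
  exact_mod_cast h0

lemma nuB_ergodic (hp : 2 ≤ p) (N : ℕ) :
    Ergodic (fun x : UnitAddCircle => p • x) (nuB p N) := by
  have := nuB_prob hp N
  refine ⟨nuB_inv hp N, ⟨fun B mB hB => ?_⟩⟩
  rw [Filter.eventuallyConst_set']
  by_cases h0 : nuB p N B = 0
  · left
    exact ae_eq_empty.2 h0
  · right
    have hcp : IsProbabilityMeasure ((nuB p N)[|B]) := ProbabilityTheory.cond_isProbabilityMeasure h0
    have h1 : (nuB p N)[|B] = nuB p N :=
      eq_of_wts hp ((wts_nuB hp N).cond mB hB) (wts_nuB hp N)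
    have h2 : (nuB p N)[|B] Bᶜ = 0 := by
      rw [ProbabilityTheory.cond_apply mB]
      simp
    rw [h1] at h2
    rw [eventuallyEq_univ, mem_ae_iff]
    exact h2

/-- `PosEnt` for ergodic measures -/
theorem posEnt_of_ergodic (p : ℕ) (μ : Measure UnitAddCircle) [IsProbabilityMeasure μ]
    (h : Ergodic (fun x : UnitAddCircle => p • x) μ) (hpos : 0 < ent p μ) : PosEnt p μ := by
  intro B mB hB hB0
  have h1 : μ Bᶜ = 0 := by
    rcases h.toPreErgodic.measure_self_or_compl_eq_zero mB hB with h2 | h2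
    · exact absurd h2 hB0.ne'
    · exact h2
  have h2 : ProbabilityTheory.cond μ B = μ := by
    have h3 : μ B = 1 := (prob_compl_eq_zero_iff mB).1 h1
    rw [ProbabilityTheory.cond, h3, inv_one, one_smul]
    exact Measure.restrict_eq_self_of_ae_mem (mem_ae_iff.2 h1)
  rw [h2]
  exact hpos

lemma PosEnt.ent_pos {μ : Measure UnitAddCircle} [IsProbabilityMeasure μ] (h : PosEnt p μ) :
    0 < ent p μ := by
  have h1 := h Set.univ MeasurableSet.univ Set.preimage_univ (by simp)
  rwa [ProbabilityTheory.cond_univ] at h1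

end Pool.Agent.TH338.LG
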