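import Mathlib
import Pool.Agent.TH338.LG.Erg

/-! The converse: measures of positive entropy with large coefficients. -/

set_option autoImplicit false
open MeasureTheory Finset Filter Topology
open scoped ENNReal ProbabilityTheory

namespace Pool.Agent.TH338.LG

variable {p : ℕ}

/-- the entropies of a measure with constant weights -/
lemma Hn_const (hp : 0 < p) {μ : Measure UnitAddCircle} [IsProbabilityMeasure μ]
    {w : Fin p → UnitAddCircle → ℝ} (hw : Wts p μ w) {ρ : Fin p → ℝ} (hρ : ∀ a z, w a z = ρ a)
    (n : ℕ) : Hn p μ n = n * ∑ a, Real.negMulLog (ρ a) := by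
  have z0 : UnitAddCircle := 0
  have hρ0 : ∀ a, 0 ≤ ρ a := fun a => by rw [← hρ a z0]; exact hw.w0 a z0
  have hρ1 : ∑ a, ρ a = 1 := by
    rw [← hw.w1 z0]
    exact Finset.sum_congr rfl fun a _ => (hρ a z0).symm
  induction n with
  | zero =>
    unfold Hn
    have h1 : {x : UnitAddCircle | cell p 0 x = 0} = Set.univ := by
      ext x
      simp only [Set.mem_univ, iff_true]
      show cell p 0 x = 0
      have := cell_lt hp 0 x
      simpa using this
    simp [h1]
  | succ n ih =>
    have hexp : Hn p μ (n + 1) = ∑ k ∈ range (p ^ n), ∑ a : Fin p,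
        Real.negMulLog (μ.real {x | cell p n x = k} * ρ a) := by
      unfold Hn
      rw [pow_succ, mul_comm (p ^ n) p, sum_range_mul', Finset.sum_comm]
      refine Finset.sum_congr rfl fun k hk => ?_
      rw [Finset.sum_range (fun i => Real.negMulLog (μ.real {x | cell p (n + 1) x = i * p ^ n + k}))]
      refine Finset.sum_congr rfl fun a _ => ?_
      rw [hw.cell_mass hp n a (Finset.mem_range.1 hk)]
      simp only [hρ]
      simp
    rw [hexp]
    have hPtot : ∑ k ∈ range (p ^ n), μ.real {x | cell p n x = k} = 1 := by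
      have h1 : ∑ k ∈ range (p ^ n), μ.real {x | cell p n x = k} =
          μ.real (⋃ k ∈ range (p ^ n), {x | cell p n x = k}) := by
        rw [measureReal_biUnion_finset]
        · intro k _ k' _ hkk
          refine Set.disjoint_left.2 fun x h1 h2 => hkk ?_
          exact (show cell p n x = k from h1).symm.trans h2
        · intro k _; exact (measurable_cell n) (measurableSet_singleton _)
      rw [h1]
      have : (⋃ k ∈ range (p ^ n), {x : UnitAddCircle | cell p n x = k}) = Set.univ := by
        ext x
        simp only [Set.mem_iUnion, Set.mem_univ, iff_true, Finset.mem_range]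
        exact ⟨cell p n x, cell_lt hp n x, rfl⟩
      rw [this]
      simp
    have h2 : ∀ k, ∑ a : Fin p, Real.negMulLog (μ.real {x | cell p n x = k} * ρ a) =
        Real.negMulLog (μ.real {x | cell p n x = k}) +
          μ.real {x | cell p n x = k} * ∑ a, Real.negMulLog (ρ a) := by
      intro k
      simp only [Real.negMulLog_mul]
      rw [Finset.sum_add_distrib, ← Finset.sum_mul, hρ1, one_mul, ← Finset.mul_sum]
    rw [Finset.sum_congr rfl fun k _ => h2 k, Finset.sum_add_distrib, ← Finset.sum_mul, hPtot,
      one_mul]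
    have h3 : ∑ k ∈ range (p ^ n), Real.negMulLog (μ.real {x | cell p n x = k}) = Hn p μ n := rfl
    rw [h3, ih]
    push_cast
    ring

/-- `-x log x` is subadditive -/
lemma negMulLog_sum_le {ι : Type} (s : Finset ι) (x : ι → ℝ) (h0 : ∀ i ∈ s, 0 ≤ x i) :
    Real.negMulLog (∑ i ∈ s, x i) ≤ ∑ i ∈ s, Real.negMulLog (x i) := by
  rcases (Finset.sum_nonneg h0).lt_or_eq with hpos | hz
  · have h1 : Real.negMulLog (∑ i ∈ s, x i) = ∑ i ∈ s, -(x i) * Real.log (∑ i ∈ s, x i) := by
      rw [← Finset.sum_mul, Finset.sum_neg_distrib]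
      rfl
    rw [h1]
    refine Finset.sum_le_sum fun i hi => ?_
    unfold Real.negMulLog
    rcases (h0 i hi).lt_or_eq with h | h
    · have h2 : Real.log (x i) ≤ Real.log (∑ i ∈ s, x i) :=
        Real.log_le_log h (Finset.single_le_sum h0 hi)
      nlinarith
    · rw [← h]; simp
  · have h1 : ∀ i ∈ s, x i = 0 := (Finset.sum_eq_zero_iff_of_nonneg h0).1 hz.symm
    rw [← hz, Finset.sum_eq_zero fun i hi => by rw [h1 i hi, Real.negMulLog_zero],
      Real.negMulLog_zero]

/-- at most `K` terms: `∑ -x log x ≤ -X log X + X log K` -/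
lemma sum_negMulLog_le {ι : Type} (s : Finset ι) (x : ι → ℝ) (h0 : ∀ i ∈ s, 0 ≤ x i) {K : ℕ}
    (hK : 0 < K) (hs : s.card ≤ K) :
    ∑ i ∈ s, Real.negMulLog (x i) ≤
      Real.negMulLog (∑ i ∈ s, x i) + (∑ i ∈ s, x i) * Real.log K := by
  have hKR : (0 : ℝ) < K := by exact_mod_cast hK
  rcases (Finset.sum_nonneg h0).lt_or_eq with hpos | hz
  · set X := ∑ i ∈ s, x i with hX
    -- `-x log x ≤ x log (K / X) + X / K - x` by `log t ≤ t - 1`
    have h1 : ∀ i ∈ s, Real.negMulLog (x i) ≤ x i * (Real.log K - Real.log X) + X / K - x i := by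
      intro i hi
      unfold Real.negMulLog
      rcases (h0 i hi).lt_or_eq with h | h
      · have h2 : Real.log (X / (K * x i)) ≤ X / (K * x i) - 1 :=
          Real.log_le_sub_one_of_pos (by positivity)
        rw [Real.log_div hpos.ne' (by positivity), Real.log_mul hKR.ne' h.ne'] at h2
        have h3 : x i * (Real.log X - (Real.log K + Real.log (x i))) ≤
            x i * (X / (K * x i) - 1) := mul_le_mul_of_nonneg_left h2 h.le
        have h4 : x i * (X / (K * x i) - 1) = X / K - x i := by
          field_simp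
        rw [h4] at h3
        linarith
      · rw [← h]
        simp only [neg_zero, zero_mul, zero_add, sub_zero]
        positivity
    calc ∑ i ∈ s, Real.negMulLog (x i) ≤
          ∑ i ∈ s, (x i * (Real.log K - Real.log X) + X / K - x i) := Finset.sum_le_sum h1
      _ = X * (Real.log K - Real.log X) + s.card * (X / K) - X := by
          rw [Finset.sum_sub_distrib, Finset.sum_add_distrib, ← Finset.sum_mul, Finset.sum_const,
            nsmul_eq_mul]
      _ ≤ X * (Real.log K - Real.log X) + K * (X / K) - X := by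
          have : (s.card : ℝ) ≤ K := by exact_mod_cast hs
          have h5 : 0 ≤ X / K := by positivity
          nlinarith [mul_le_mul_of_nonneg_right this h5]
      _ = Real.negMulLog X + X * Real.log K := by
          unfold Real.negMulLog
          have : (K : ℝ) * (X / K) = X := by field_simp
          rw [this]
          ring
  · have h1 : ∀ i ∈ s, x i = 0 := (Finset.sum_eq_zero_iff_of_nonneg h0).1 hz.symm
    rw [← hz, Finset.sum_eq_zero fun i hi => by rw [h1 i hi, Real.negMulLog_zero],
      Real.negMulLog_zero, zero_mul, zero_add]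

/-- the cell of a point and the cell of its multiple -/
lemma cell_mul (hp : 0 < p) {D : ℕ} (hD : 0 < D) (n : ℕ) (y : UnitAddCircle) :
    ∃ j < D, cell p n y = (p ^ n * j + cell p n (D • y)) / D := by
  refine ⟨dg D y, dg_lt hD y, ?_⟩
  have hDR : (0 : ℝ) < D := by exact_mod_cast hD
  have hpn : (0 : ℝ) < (p : ℝ) ^ n := by positivity
  have h0 := rep_nonneg y
  have h1 : rep (D • y) = D * rep y - dg D y := rep_nsmul y
  set j := dg D y with hj
  have h2 : 0 ≤ rep (D • y) := rep_nonneg _
  have h3 : cell p n (D • y) = ⌊(p : ℝ) ^ n * (D * rep y - j)⌋₊ := by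
    unfold cell; rw [h1]
  set k := cell p n y with hk
  set l := cell p n (D • y) with hl
  have k1 : (k : ℝ) ≤ (p : ℝ) ^ n * rep y := Nat.floor_le (by positivity)
  have k2 : (p : ℝ) ^ n * rep y < k + 1 := Nat.lt_floor_add_one _
  have l1 : (l : ℝ) ≤ (p : ℝ) ^ n * (D * rep y - j) := by
    rw [h3]; exact Nat.floor_le (by rw [← h1]; positivity)
  have l2 : (p : ℝ) ^ n * (D * rep y - j) < l + 1 := by
    rw [h3]; exact Nat.lt_floor_add_one _
  symm
  apply Nat.div_eq_of_lt_le
  · -- k * D ≤ p ^ n * j + l
    have h4 : ((k * D : ℕ) : ℝ) < ((p ^ n * j + l + 1 : ℕ) : ℝ) := by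
      push_cast
      calc (k : ℝ) * D ≤ ((p : ℝ) ^ n * rep y) * D := mul_le_mul_of_nonneg_right k1 hDR.le
        _ = (p : ℝ) ^ n * (D * rep y - j) + (p : ℝ) ^ n * j := by ring
        _ < (l + 1) + (p : ℝ) ^ n * j := by linarith
        _ = (p : ℝ) ^ n * j + l + 1 := by ring
    have h5 : k * D < p ^ n * j + l + 1 := by exact_mod_cast h4
    omega
  · have h4 : ((p ^ n * j + l : ℕ) : ℝ) < (((k + 1) * D : ℕ) : ℝ) := by
      push_cast
      calc (p : ℝ) ^ n * j + l ≤ (p : ℝ) ^ n * j + (p : ℝ) ^ n * (D * rep y - j) := by linarith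
        _ = ((p : ℝ) ^ n * rep y) * D := by ring
        _ < (k + 1) * D := mul_lt_mul_of_pos_right k2 hDR
    exact_mod_cast h4

/-- entropies of the image under multiplication by `D` -/
lemma Hn_mul_le (hp : 0 < p) {D : ℕ} (hD : 0 < D) (ν : Measure UnitAddCircle)
    [IsProbabilityMeasure ν] (n : ℕ) :
    Hn p ν n ≤ Hn p (ν.map (fun x : UnitAddCircle => D • x)) n + Real.log D := by
  classical
  have mD : Measurable (fun x : UnitAddCircle => D • x) := measurable_nsmul'
  set A : ℕ → Set UnitAddCircle := fun k => {x | cell p n x = k} with hA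
  set B : ℕ → Set UnitAddCircle := fun l => {x | cell p n (D • x) = l} with hB
  have mA : ∀ k, MeasurableSet (A k) := fun k => (measurable_cell n) (measurableSet_singleton k)
  have mB : ∀ l, MeasurableSet (B l) := fun l =>
    ((measurable_cell n).comp mD) (measurableSet_singleton l)
  set R := range (p ^ n) with hR
  have dA : ∀ k k', k ≠ k' → Disjoint (A k) (A k') := fun k k' hkk =>
    Set.disjoint_left.2 fun x h1 h2 => hkk ((show cell p n x = k from h1).symm.trans h2)
  have dB : ∀ k k', k ≠ k' → Disjoint (B k) (B k') := fun k k' hkk =>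
    Set.disjoint_left.2 fun x h1 h2 => hkk ((show cell p n (D • x) = k from h1).symm.trans h2)
  have cA : ∀ S : Set UnitAddCircle, MeasurableSet S → ∑ k ∈ R, ν.real (A k ∩ S) = ν.real S := by
    intro S mS
    rw [← measureReal_biUnion_finset]
    · congr 1
      ext x
      simp only [Set.mem_iUnion, Set.mem_inter_iff, hR, Finset.mem_range]
      constructor
      · rintro ⟨k, _, _, h⟩; exact h
      · intro h; exact ⟨cell p n x, cell_lt hp n x, rfl, h⟩
    · intro k _ k' _ hkk
      exact (dA k k' hkk).mono Set.inter_subset_left Set.inter_subset_left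
    · intro k _; exact (mA k).inter mS
  have cB : ∀ S : Set UnitAddCircle, MeasurableSet S → ∑ l ∈ R, ν.real (S ∩ B l) = ν.real S := by
    intro S mS
    rw [← measureReal_biUnion_finset]
    · congr 1
      ext x
      simp only [Set.mem_iUnion, Set.mem_inter_iff, hR, Finset.mem_range]
      constructor
      · rintro ⟨k, _, h, _⟩; exact h
      · intro h; exact ⟨cell p n (D • x), cell_lt hp n _, h, rfl⟩
    · intro k _ k' _ hkk
      exact (dB k k' hkk).mono Set.inter_subset_right Set.inter_subset_right
    · intro k _; exact mS.inter (mB k)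
  have hmap : ∀ l, (ν.map (fun x : UnitAddCircle => D • x)).real {x | cell p n x = l} =
      ν.real (B l) := by
    intro l
    have hS : MeasurableSet {x : UnitAddCircle | cell p n x = l} :=
      (measurable_cell n) (measurableSet_singleton l)
    rw [map_measureReal_apply mD hS]
    rfl
  have hcard : ∀ l, (R.filter (fun k => ν.real (A k ∩ B l) ≠ 0)).card ≤ D := by
    intro l
    have hsub : R.filter (fun k => ν.real (A k ∩ B l) ≠ 0) ⊆
        (range D).image (fun j => (p ^ n * j + l) / D) := by
      intro k hk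
      rw [Finset.mem_filter] at hk
      have hne : (A k ∩ B l).Nonempty := by
        by_contra h
        rw [Set.not_nonempty_iff_eq_empty] at h
        rw [h] at hk
        simp at hk
      obtain ⟨x, hx1, hx2⟩ := hne
      obtain ⟨j, hj, hj2⟩ := cell_mul hp hD n x
      rw [Finset.mem_image]
      refine ⟨j, Finset.mem_range.2 hj, ?_⟩
      have e1 : cell p n x = k := hx1
      have e2 : cell p n (D • x) = l := hx2
      rw [e1, e2] at hj2
      exact hj2.symm
    exact (Finset.card_le_card hsub).trans (Finset.card_image_le.trans (by simp))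
  calc Hn p ν n = ∑ k ∈ R, Real.negMulLog (ν.real (A k)) := rfl
    _ ≤ ∑ k ∈ R, ∑ l ∈ R, Real.negMulLog (ν.real (A k ∩ B l)) := by
        refine Finset.sum_le_sum fun k _ => ?_
        rw [← cB (A k) (mA k)]
        exact negMulLog_sum_le R _ fun _ _ => measureReal_nonneg
    _ = ∑ l ∈ R, ∑ k ∈ R, Real.negMulLog (ν.real (A k ∩ B l)) := Finset.sum_comm
    _ ≤ ∑ l ∈ R, (Real.negMulLog (ν.real (B l)) + ν.real (B l) * Real.log D) := by
        refine Finset.sum_le_sum fun l _ => ?_
        have e1 : ∑ k ∈ R, Real.negMulLog (ν.real (A k ∩ B l)) =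
            ∑ k ∈ R.filter (fun k => ν.real (A k ∩ B l) ≠ 0),
              Real.negMulLog (ν.real (A k ∩ B l)) := by
          rw [Finset.sum_filter]
          refine Finset.sum_congr rfl fun k _ => ?_
          split_ifs with h
          · rfl
          · push Not at h
            rw [h, Real.negMulLog_zero]
        have e2 : ∑ k ∈ R.filter (fun k => ν.real (A k ∩ B l) ≠ 0), ν.real (A k ∩ B l) =
            ν.real (B l) := by
          rw [← cA (B l) (mB l), Finset.sum_filter]
          refine Finset.sum_congr rfl fun k _ => ?_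
          split_ifs with h
          · rfl
          · push Not at h
            exact h.symm
        have e3 := sum_negMulLog_le (R.filter (fun k => ν.real (A k ∩ B l) ≠ 0))
          (fun k => ν.real (A k ∩ B l)) (fun _ _ => measureReal_nonneg) hD (hcard l)
        rw [e2] at e3
        rw [e1]
        exact e3
    _ = Hn p (ν.map (fun x : UnitAddCircle => D • x)) n + Real.log D := by
        rw [Finset.sum_add_distrib, ← Finset.sum_mul]
        have e1 : ∑ l ∈ R, ν.real (B l) = 1 := by
          have := cB Set.univ MeasurableSet.univ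
          simp only [Set.univ_inter] at this
          rw [this]
          simp
        rw [e1, one_mul]
        congr 1
        unfold Hn
        refine Finset.sum_congr rfl fun l _ => ?_
        rw [hmap]

/-- positive entropy of the images -/
lemma posEnt_map (hp2 : 2 ≤ p) {D : ℕ} (hD : 0 < D) (N : ℕ) :
    PosEnt p ((nuB p N).map (fun x : UnitAddCircle => D • x)) := by
  have hp0 : 0 < p := by omega
  have := nuB_prob hp2 N
  have mD : Measurable (fun x : UnitAddCircle => D • x) := measurable_nsmul'
  intro B mB hB hBpos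
  set ν := nuB p N with hν
  set B1 : Set UnitAddCircle := (fun x : UnitAddCircle => D • x) ⁻¹' B with hB1
  have mB1 : MeasurableSet B1 := mD mB
  have hB1inv : (fun x : UnitAddCircle => p • x) ⁻¹' B1 = B1 := by
    ext x
    simp only [hB1, Set.mem_preimage]
    have h1 : D • p • x = p • D • x := smul_comm _ _ _
    rw [h1]
    have h2 : D • x ∈ (fun x : UnitAddCircle => p • x) ⁻¹' B ↔ D • x ∈ B := by rw [hB]
    exact h2
  have hB1pos : ν B1 ≠ 0 := by
    rw [Measure.map_apply mD mB] at hBpos
    exact hBpos.ne'
  have hpr : IsProbabilityMeasure (ν[|B1]) := ProbabilityTheory.cond_isProbabilityMeasure hB1pos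
  have hcond : (ν.map (fun x : UnitAddCircle => D • x))[|B] =
      (ν[|B1]).map (fun x : UnitAddCircle => D • x) := by
    unfold ProbabilityTheory.cond
    rw [Measure.map_smul, Measure.map_apply mD mB, Measure.restrict_map mD mB]
  have hw := (wts_nuB hp2 N).cond mB1 hB1inv
  have hH := Hn_const hp0 (ρ := fun a => wB p N a 0) hw (fun a z => rfl)
  set h := ∑ a : Fin p, Real.negMulLog (wB p N a 0) with hh
  have hpos : 0 < h := by
    have h1 := epsN_pos N
    have h2 := epsN_lt N
    refine Finset.sum_pos' (fun a _ => Real.negMulLog_nonneg (hw.w0 a 0) (hw.le_one a 0))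
      ⟨⟨1, by omega⟩, Finset.mem_univ _, ?_⟩
    have h3 : wB p N ⟨1, by omega⟩ 0 = epsN N := by simp [wB]
    rw [h3]
    unfold Real.negMulLog
    have := Real.log_neg h1 h2
    nlinarith
  have hpr2 : IsProbabilityMeasure ((ν[|B1]).map (fun x : UnitAddCircle => D • x)) :=
    Measure.isProbabilityMeasure_map mD.aemeasurable
  rw [hcond]
  set μ' := (ν[|B1]).map (fun x : UnitAddCircle => D • x) with hμ'
  have hlow : ∀ n : ℕ, n * h - Real.log D ≤ Hn p μ' n := by
    intro n
    have := Hn_mul_le hp0 hD (ν[|B1]) n
    rw [hH n] at this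
    linarith
  have hbd : ∀ n : ℕ, Hn p μ' n ≤ n * Real.log p := by
    intro n
    have h1 := sum_negMulLog_le (range (p ^ n)) (fun k => μ'.real {x | cell p n x = k})
      (fun _ _ => measureReal_nonneg) (K := p ^ n) (by positivity) (by simp)
    have hPtot : ∑ k ∈ range (p ^ n), μ'.real {x | cell p n x = k} = 1 := by
      rw [← measureReal_biUnion_finset]
      · have : (⋃ k ∈ range (p ^ n), {x : UnitAddCircle | cell p n x = k}) = Set.univ := by
          ext x
          simp only [Set.mem_iUnion, Set.mem_univ, iff_true, Finset.mem_range]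
          exact ⟨cell p n x, cell_lt hp0 n x, rfl⟩
        rw [this]
        simp
      · intro k _ k' _ hkk
        refine Set.disjoint_left.2 fun x h1 h2 => hkk ?_
        exact (show cell p n x = k from h1).symm.trans h2
      · intro k _; exact (measurable_cell n) (measurableSet_singleton _)
    rw [hPtot, Real.negMulLog_one, zero_add, one_mul] at h1
    push_cast at h1
    rw [Real.log_pow] at h1
    exact h1
  have hlim : h / 2 ≤ limsup (fun n : ℕ => Hn p μ' n / (n : ℝ)) atTop := by
    refine le_limsup_of_frequently_le ?_ ?_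
    · refine Eventually.frequently ?_
      obtain ⟨K, hK⟩ := exists_nat_gt (Real.log D / (h / 2))
      filter_upwards [eventually_ge_atTop (K + 1)] with n hn
      have hn0 : (0 : ℝ) < n := by
        have : 0 < n := by omega
        exact_mod_cast this
      rw [le_div_iff₀ hn0]
      have h1 : Real.log D < K * (h / 2) := by rwa [div_lt_iff₀ (by positivity)] at hK
      have h2 : (K : ℝ) ≤ n := by exact_mod_cast (by omega : K ≤ n)
      have h3 : (K : ℝ) * (h / 2) ≤ n * (h / 2) := mul_le_mul_of_nonneg_right h2 (by positivity)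
      have := hlow n
      linarith
    · refine isBoundedUnder_of ⟨Real.log p, fun n => ?_⟩
      rcases Nat.eq_zero_or_pos n with h | h
      · subst h
        simp only [Nat.cast_zero, div_zero]
        exact Real.log_nonneg (by exact_mod_cast hp0)
      · have hn0 : (0 : ℝ) < n := by exact_mod_cast h
        rw [div_le_iff₀ hn0]
        have := hbd n
        linarith
  show 0 < limsup (fun n : ℕ => Hn p μ' n / (n : ℝ)) atTop
  linarith

lemma fourier_dist (m : ℤ) (z : UnitAddCircle) :
    ‖1 - fourier (T := (1 : ℝ)) m z‖ ≤ 2 * Real.pi * |(m : ℝ)| * rep z := by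
  conv_lhs => rw [← coe_rep z]
  rw [fourier_coe_apply, norm_sub_rev]
  have h1 : Complex.exp (2 * Real.pi * Complex.I * m * (rep z : ℂ) / ((1 : ℝ) : ℂ)) =
      Complex.exp (Complex.I * ((2 * Real.pi * m * rep z : ℝ) : ℂ)) := by
    congr 1
    push_cast
    ring
  rw [h1]
  refine Real.norm_exp_I_mul_ofReal_sub_one_le.trans (le_of_eq ?_)
  rw [Real.norm_eq_abs, abs_mul, abs_mul, abs_of_nonneg (by positivity : 0 ≤ 2 * Real.pi),
    abs_of_nonneg (rep_nonneg z)]

lemma one_sub_prod_le {ι : Type} (s : Finset ι) (f : ι → ℂ) (hf : ∀ i, ‖f i‖ = 1) :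
    ‖1 - ∏ i ∈ s, f i‖ ≤ ∑ i ∈ s, ‖1 - f i‖ := by
  classical
  induction s using Finset.induction_on with
  | empty => simp
  | insert a s ha ih =>
    rw [Finset.prod_insert ha, Finset.sum_insert ha]
    have h1 : 1 - f a * ∏ i ∈ s, f i = (1 - f a) + f a * (1 - ∏ i ∈ s, f i) := by ring
    rw [h1]
    refine (norm_add_le _ _).trans ?_
    rw [norm_mul, hf, one_mul]
    linarith

/-- **the converse** -/
theorem converse (hp : p.Prime) {D r : ℕ} (hD : 0 < D) (m : Fin r → ℤ) :
    ∃ μ : Measure UnitAddCircle, IsProbabilityMeasure μ ∧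
      Ergodic (fun x : UnitAddCircle => p • x) μ ∧ PosEnt p μ ∧
      ∀ c : ℤ, (∃ V : Fin r → ℕ, (D : ℤ) * c = ∑ i, m i * (p : ℤ) ^ (V i)) →
        1 / 2 ≤ ‖∫ z, fourier (T := (1 : ℝ)) c z ∂μ‖ := by
  have hp2 := hp.two_le
  have mD : Measurable (fun x : UnitAddCircle => D • x) := measurable_nsmul'
  set K : ℝ := ∑ i, 2 * Real.pi * |(m i : ℝ)| with hK
  have hK0 : 0 ≤ K := Finset.sum_nonneg fun i _ => by positivity
  obtain ⟨N, hN⟩ := exists_nat_gt (2 * K)
  have hε : K * epsN N ≤ 1 / 2 := by
    unfold epsN
    rw [mul_one_div, div_le_iff₀ (by positivity)]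
    linarith
  have hpr := nuB_prob hp2 N
  set ν := nuB p N with hν
  have hinv := nuB_inv hp2 N
  refine ⟨ν.map (fun x : UnitAddCircle => D • x),
    Measure.isProbabilityMeasure_map mD.aemeasurable, ?_, posEnt_map hp2 hD N, ?_⟩
  · exact MeasurePreserving.ergodic_of_ergodic_semiconj (mD.measurePreserving ν)
      (nuB_ergodic hp2 N) measurable_nsmul' (fun x => smul_comm _ _ _)
  · rintro c ⟨V, hV⟩
    rw [integral_map mD.aemeasurable (map_continuous (fourier (T := (1 : ℝ)) c)).aestronglyMeasurable]
    have h1 : ∀ z : UnitAddCircle, fourier (T := (1 : ℝ)) c (D • z) =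
        ∏ i, fourier (T := (1 : ℝ)) ((p : ℤ) ^ (V i) * m i) z := by
      intro z
      have h2 : fourier (T := (1 : ℝ)) c (D • z) = fourier (T := (1 : ℝ)) ((D : ℤ) * c) z := by
        rw [fourier_apply, fourier_apply, ← natCast_zsmul z D, smul_smul, mul_comm]
      rw [h2, hV]
      have h3 : ∀ s : Finset (Fin r), fourier (T := (1 : ℝ)) (∑ i ∈ s, m i * (p : ℤ) ^ (V i)) z =
          ∏ i ∈ s, fourier (T := (1 : ℝ)) ((p : ℤ) ^ (V i) * m i) z := by
        intro s
        classical
        induction s using Finset.induction_on with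
        | empty => simp
        | insert a s ha ih =>
          rw [Finset.sum_insert ha, Finset.prod_insert ha, fourier_add, ih, mul_comm (m a)]
      exact h3 _
    simp only [h1]
    have hunit : ∀ (n : ℤ) (z : UnitAddCircle), ‖fourier (T := (1 : ℝ)) n z‖ = 1 := fun n z => by
      rw [fourier_apply]; exact Circle.norm_coe _
    set G : UnitAddCircle → ℂ := fun z => ∏ i, fourier (T := (1 : ℝ)) ((p : ℤ) ^ (V i) * m i) z
      with hG
    have mG : Measurable G := Finset.measurable_prod _ fun i _ =>
      (map_continuous (fourier (T := (1 : ℝ)) ((p : ℤ) ^ (V i) * m i))).measurable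
    have iG : Integrable G ν := Integrable.of_bound mG.aestronglyMeasurable 1
      (Eventually.of_forall fun z => by
        simp only [hG]
        rw [norm_prod]
        exact (Finset.prod_eq_one fun i _ => hunit _ _).le)
    have h4 : ‖1 - ∫ z, G z ∂ν‖ ≤ 1 / 2 := by
      have e1 : 1 - ∫ z, G z ∂ν = ∫ z, (1 - G z) ∂ν := by
        rw [integral_sub (integrable_const _) iG]
        simp
      rw [e1]
      refine (norm_integral_le_integral_norm _).trans ?_
      have iD : ∀ n : ℤ, Integrable (fun z => ‖1 - fourier (T := (1 : ℝ)) n z‖) ν := fun n =>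
        Integrable.of_bound ((measurable_const.sub
          (map_continuous (fourier (T := (1 : ℝ)) n)).measurable).norm).aestronglyMeasurable 2
          (Eventually.of_forall fun z => by
            rw [norm_norm]
            refine (norm_sub_le _ _).trans ?_
            rw [hunit, norm_one]; norm_num)
      have e2 : ∫ z, ‖1 - G z‖ ∂ν ≤
          ∫ z, ∑ i, ‖1 - fourier (T := (1 : ℝ)) ((p : ℤ) ^ (V i) * m i) z‖ ∂ν := by
        refine integral_mono_of_nonneg (Eventually.of_forall fun z => norm_nonneg _)
          (integrable_finsetSum _ fun i _ => iD _) (Eventually.of_forall fun z => ?_)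
        exact one_sub_prod_le _ _ fun i => hunit _ _
      refine e2.trans ?_
      rw [integral_finsetSum _ fun i _ => iD _]
      have e3 : ∀ i, ∫ z, ‖1 - fourier (T := (1 : ℝ)) ((p : ℤ) ^ (V i) * m i) z‖ ∂ν ≤
          2 * Real.pi * |(m i : ℝ)| * epsN N := by
        intro i
        have f1 : ∀ z : UnitAddCircle, fourier (T := (1 : ℝ)) ((p : ℤ) ^ (V i) * m i) z =
            fourier (T := (1 : ℝ)) (m i) ((fun x : UnitAddCircle => p • x)^[V i] z) := by
          intro z
          have h2 : ∀ (s : ℕ) (z : UnitAddCircle), (fun x : UnitAddCircle => p • x)^[s] z =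
              (p ^ s) • z := by
            intro s
            induction s with
            | zero => intro z; simp
            | succ s ih =>
              intro z
              rw [Function.iterate_succ_apply, ih, smul_smul, pow_succ]
          rw [h2, fourier_apply, fourier_apply, ← natCast_zsmul z (p ^ (V i)), smul_smul]
          push_cast
          rw [mul_comm (m i)]
        simp only [f1]
        have f2 : ∫ z, ‖1 - fourier (T := (1 : ℝ)) (m i)
            ((fun x : UnitAddCircle => p • x)^[V i] z)‖ ∂ν =
            ∫ z, ‖1 - fourier (T := (1 : ℝ)) (m i) z‖ ∂ν := by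
          have h3 := (hinv.iterate (V i)).map_eq
          have h4 : ∫ z, ‖1 - fourier (T := (1 : ℝ)) (m i) z‖ ∂ν =
              ∫ z, ‖1 - fourier (T := (1 : ℝ)) (m i) z‖
                ∂(ν.map (fun x : UnitAddCircle => p • x)^[V i]) := by rw [h3]
          rw [h4, integral_map (f := fun z : UnitAddCircle => ‖1 - fourier (T := (1 : ℝ)) (m i) z‖)
            (hinv.iterate (V i)).measurable.aemeasurable
            ((measurable_const.sub
              (map_continuous (fourier (T := (1 : ℝ)) (m i))).measurable).norm).aestronglyMeasurable]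
        rw [f2]
        have ir : Integrable rep ν := Integrable.of_bound measurable_rep.aestronglyMeasurable 1
          (Eventually.of_forall fun z => by
            rw [Real.norm_eq_abs, abs_of_nonneg (rep_nonneg z)]
            exact (rep_lt_one z).le)
        calc ∫ z, ‖1 - fourier (T := (1 : ℝ)) (m i) z‖ ∂ν ≤
              ∫ z, 2 * Real.pi * |(m i : ℝ)| * rep z ∂ν :=
              integral_mono_of_nonneg (Eventually.of_forall fun z => norm_nonneg _)
                (ir.const_mul _) (Eventually.of_forall fun z => fourier_dist _ _)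
          _ = 2 * Real.pi * |(m i : ℝ)| * ∫ z, rep z ∂ν := integral_const_mul _ _
          _ ≤ 2 * Real.pi * |(m i : ℝ)| * epsN N :=
              mul_le_mul_of_nonneg_left (int_rep hp2 N) (by positivity)
      calc ∑ i, ∫ z, ‖1 - fourier (T := (1 : ℝ)) ((p : ℤ) ^ (V i) * m i) z‖ ∂ν ≤
            ∑ i, 2 * Real.pi * |(m i : ℝ)| * epsN N := Finset.sum_le_sum fun i _ => e3 i
        _ = K * epsN N := by rw [← Finset.sum_mul]
        _ ≤ 1 / 2 := hε
    have h5 : ‖(1 : ℂ)‖ ≤ ‖1 - ∫ z, G z ∂ν‖ + ‖∫ z, G z ∂ν‖ := by
      have : (1 : ℂ) = (1 - ∫ z, G z ∂ν) + ∫ z, G z ∂ν := by ring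
      conv_lhs => rw [this]
      exact norm_add_le _ _
    rw [norm_one] at h5
    linarith

end Pool.Agent.TH338.LG
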