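import Mathlib
import Pool.Agent.TH338.LG.Conv

/-! The sequences of integers along which all images of measures of positive entropy converge to
Lebesgue measure. -/

set_option autoImplicit false
open MeasureTheory Finset Filter Topology
open scoped ENNReal ProbabilityTheory

namespace Pool.Agent.TH338.LG

variable {p : ℕ}

/-- weak convergence from the Fourier coefficients, integer multipliers -/
theorem weak_of_fourier_int (μ : Measure UnitAddCircle) [IsProbabilityMeasure μ] (Q : ℕ → ℤ)
    (h : ∀ a : ℤ, a ≠ 0 →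
      Tendsto (fun n : ℕ => ∫ z, fourier (T := (1 : ℝ)) (a * Q n) z ∂μ) atTop (𝓝 0))
    (f : C(UnitAddCircle, ℂ)) :
    Tendsto (fun n : ℕ => ∫ z, f ((Q n) • z) ∂μ) atTop (𝓝 (∫ z, f z)) := by
  have hvp := vol_prob
  set S : Submodule ℂ C(UnitAddCircle, ℂ) := Submodule.span ℂ (Set.range (fourier (T := (1 : ℝ))))
    with hS
  have hcont : ∀ (g : C(UnitAddCircle, ℂ)) (n : ℕ), Integrable (fun z => g ((Q n) • z)) μ := by
    intro g n
    refine Integrable.of_bound ((g.continuous.comp (continuous_zsmul (Q n))).aestronglyMeasurable)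
      ‖g‖ (Eventually.of_forall fun z => g.norm_coe_le_norm _)
  have hvol : ∀ g : C(UnitAddCircle, ℂ), Integrable (fun z : UnitAddCircle => g z) volume := by
    intro g
    exact Integrable.of_bound g.continuous.aestronglyMeasurable ‖g‖
      (Eventually.of_forall fun z => g.norm_coe_le_norm _)
  have hspan : ∀ g ∈ S, Tendsto (fun n : ℕ => ∫ z, g ((Q n) • z) ∂μ) atTop
      (𝓝 (∫ z : UnitAddCircle, g z)) := by
    intro g hg
    induction hg using Submodule.span_induction with
    | mem g hg =>
      obtain ⟨a, rfl⟩ := hg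
      have h1 : ∀ n, (fun z : UnitAddCircle => fourier (T := (1 : ℝ)) a ((Q n) • z)) =
          fun z => fourier (T := (1 : ℝ)) (a * Q n) z := by
        intro n
        funext z
        rw [fourier_apply, fourier_apply, smul_smul]
      simp only [h1]
      by_cases ha : a = 0
      · subst ha
        simp only [zero_mul, fourier_zero, integral_const, probReal_univ, one_smul]
        exact (tendsto_const_nhds (x := (1 : ℂ)) (f := (atTop : Filter ℕ)))
      · rw [int_fourier_vol ha]
        exact h a ha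
    | zero => simp
    | add g1 g2 _ _ h1 h2 =>
      simp only [ContinuousMap.add_apply]
      have e1 : ∀ n, ∫ z, (g1 ((Q n) • z) + g2 ((Q n) • z)) ∂μ =
          ∫ z, g1 ((Q n) • z) ∂μ + ∫ z, g2 ((Q n) • z) ∂μ := fun n =>
        integral_add (hcont g1 n) (hcont g2 n)
      simp only [e1]
      rw [integral_add (hvol g1) (hvol g2)]
      exact h1.add h2
    | smul c g _ h1 =>
      simp only [ContinuousMap.smul_apply, integral_smul]
      exact h1.const_smul c
  have hdense : S.topologicalClosure = ⊤ := span_fourier_closure_eq_top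
  rw [Metric.tendsto_atTop]
  intro ε hε
  have hf : f ∈ S.topologicalClosure := by rw [hdense]; trivial
  obtain ⟨g, hg, hfg⟩ := Metric.mem_closure_iff.1 hf (ε / 3) (by positivity)
  rw [dist_eq_norm] at hfg
  obtain ⟨n0, hn0⟩ := Metric.tendsto_atTop.1 (hspan g hg) (ε / 3) (by positivity)
  refine ⟨n0, fun n hn => ?_⟩
  have h1 := hn0 n hn
  have hb : ∀ z, ‖f z - g z‖ ≤ ‖f - g‖ := fun z => (f - g).norm_coe_le_norm z
  have h2 : ‖∫ z, f ((Q n) • z) ∂μ - ∫ z, g ((Q n) • z) ∂μ‖ ≤ ‖f - g‖ := by
    rw [← integral_sub (hcont f n) (hcont g n)]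
    refine (norm_integral_le_of_norm_le_const (Eventually.of_forall fun z => hb _)).trans ?_
    simp
  have h3 : ‖(∫ z : UnitAddCircle, g z) - (∫ z : UnitAddCircle, f z)‖ ≤ ‖f - g‖ := by
    rw [← integral_sub (hvol g) (hvol f)]
    have hb' : ∀ z, ‖g z - f z‖ ≤ ‖f - g‖ := fun z => by rw [norm_sub_rev]; exact hb z
    refine (norm_integral_le_of_norm_le_const (Eventually.of_forall hb')).trans (le_of_eq ?_)
    rw [probReal_univ, mul_one]
  rw [dist_eq_norm] at h1 ⊢
  have h4 : (∫ z, f ((Q n) • z) ∂μ) - (∫ z : UnitAddCircle, f z) =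
      ((∫ z, f ((Q n) • z) ∂μ) - (∫ z, g ((Q n) • z) ∂μ)) +
      ((∫ z, g ((Q n) • z) ∂μ) - (∫ z : UnitAddCircle, g z)) +
      ((∫ z : UnitAddCircle, g z) - (∫ z : UnitAddCircle, f z)) := by ring
  rw [h4]
  refine (norm_add₃_le).trans_lt ?_
  linarith

/-- **Classification of the sequences.** -/
theorem classification (hp : p.Prime) (c : ℕ → ℤ) :
    List.TFAE [
      ∀ (μ : Measure UnitAddCircle) [IsProbabilityMeasure μ],
        MeasurePreserving (fun x : UnitAddCircle => p • x) μ μ → PosEnt p μ →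
        ∀ f : C(UnitAddCircle, ℂ),
          Tendsto (fun n : ℕ => ∫ z, f ((c n) • z) ∂μ) atTop (𝓝 (∫ z, f z)),
      ∀ (μ : Measure UnitAddCircle) [IsProbabilityMeasure μ],
        Ergodic (fun x : UnitAddCircle => p • x) μ → 0 < ent p μ →
        ∀ f : C(UnitAddCircle, ℂ),
          Tendsto (fun n : ℕ => ∫ z, f ((c n) • z) ∂μ) atTop (𝓝 (∫ z, f z)),
      ∀ (D r : ℕ) (m : Fin r → ℤ), 0 < D →
        {n : ℕ | ∃ V : Fin r → ℕ, (D : ℤ) * c n = ∑ i, m i * (p : ℤ) ^ (V i)}.Finite] := by
  tfae_have 1 → 2 := by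
    intro h μ _ hμ he f
    exact h μ hμ.toMeasurePreserving (posEnt_of_ergodic p μ hμ he) f
  tfae_have 2 → 3 := by
    intro h D r m hD
    by_contra hinf
    obtain ⟨μ, hpr, herg, hpos, hlow⟩ := converse hp hD m
    have h1 := h μ herg hpos.ent_pos (fourier (T := (1 : ℝ)) 1)
    rw [int_fourier_vol one_ne_zero] at h1
    have h2 : ∀ n, ∫ z, fourier (T := (1 : ℝ)) 1 ((c n) • z) ∂μ =
        ∫ z, fourier (T := (1 : ℝ)) (c n) z ∂μ := by
      intro n
      refine integral_congr_ae (Eventually.of_forall fun z => ?_)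
      show fourier (T := (1 : ℝ)) 1 ((c n) • z) = fourier (T := (1 : ℝ)) (c n) z
      rw [fourier_apply, fourier_apply, one_smul]
    simp only [h2] at h1
    obtain ⟨n0, hn0⟩ := Metric.tendsto_atTop.1 h1 (1 / 2) (by norm_num)
    obtain ⟨n, hn, hn1⟩ := (Set.infinite_iff_exists_gt.1 hinf) n0
    have h3 := hn0 n hn1.le
    rw [dist_zero_right] at h3
    exact absurd (hlow (c n) hn) (not_le.2 h3)
  tfae_have 3 → 1 := by
    intro h μ _ hinv hent f
    have hz : {n : ℕ | c n = 0}.Finite := by
      have h1 := h 1 0 (fun i => 0) one_pos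
      refine h1.subset fun n hn => ⟨fun i => 0, ?_⟩
      have : c n = 0 := hn
      simp [this]
    refine weak_of_fourier_int μ c (fun a ha => ?_) f
    set c' : ℕ → ℤ := fun n => if c n = 0 then 1 else a * c n with hc'
    have hc0 : ∀ n, c' n ≠ 0 := by
      intro n
      simp only [hc']
      split_ifs with h0
      · exact one_ne_zero
      · exact mul_ne_zero ha h0
    have hfin : ∀ (D r : ℕ) (m : Fin r → ℤ), 0 < D →
        {n | ∃ V : Fin r → ℕ, (D : ℤ) * c' n = ∑ i, m i * (p : ℤ) ^ (V i)}.Finite := by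
      intro D r m hD
      have h1 := h (D * a.natAbs) r m (Nat.mul_pos hD (Int.natAbs_pos.2 ha))
      have h2 := h (D * a.natAbs) r (fun i => -m i) (Nat.mul_pos hD (Int.natAbs_pos.2 ha))
      refine ((hz.union h1).union h2).subset ?_
      rintro n ⟨V, hV⟩
      by_cases h0 : c n = 0
      · exact Or.inl (Or.inl h0)
      · have e1 : c' n = a * c n := by simp only [hc', if_neg h0]
        rw [e1] at hV
        rcases Int.natAbs_eq a with h3 | h3
        · refine Or.inl (Or.inr ⟨V, ?_⟩)
          rw [← hV, Nat.cast_mul, ← h3]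
          ring
        · refine Or.inr ⟨V, ?_⟩
          have e2 : ∑ i, (-m i) * (p : ℤ) ^ (V i) = -∑ i, m i * (p : ℤ) ^ (V i) := by
            rw [← Finset.sum_neg_distrib]
            exact Finset.sum_congr rfl fun i _ => by ring
          rw [e2, ← hV, Nat.cast_mul]
          have h4 : ((a.natAbs : ℕ) : ℤ) = -a := by
            rw [h3]
            simp
          rw [h4]
          ring
    have h5 := tendsto_seq hp μ hinv hent c' hc0 hfin
    refine h5.congr' ?_
    have h6 : ∀ᶠ n in atTop, n ∉ {n : ℕ | c n = 0} := by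
      rw [← Nat.cofinite_eq_atTop]
      exact hz.compl_mem_cofinite
    filter_upwards [h6] with n hn
    have e1 : c' n = a * c n := if_neg hn
    rw [e1]
  tfae_finish

end Pool.Agent.TH338.LG
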