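import Mathlib
import Pool.Agent.TH951.NF.SU

/-! Sums of units are combinations of a bounded number of powers of a prime only finitely often. -/

set_option autoImplicit false
open Finset Filter Topology Height

namespace Pool.Agent.TH338.LG

open TH951.NF

lemma height_bd {x : ℚ} {L : ℝ} (h : logHeight₁ x ≤ L) :
    (x.num.natAbs : ℝ) ≤ Real.exp L ∧ (x.den : ℝ) ≤ Real.exp L := by
  rw [Rat.logHeight₁_eq_log_max] at h
  have hd : (1 : ℝ) ≤ x.den := by exact_mod_cast x.den_pos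
  have hm : (0 : ℝ) < ((max x.num.natAbs x.den : ℕ) : ℝ) := by
    have : (x.den : ℝ) ≤ ((max x.num.natAbs x.den : ℕ) : ℝ) := by
      exact_mod_cast le_max_right _ _
    linarith
  have h2 : ((max x.num.natAbs x.den : ℕ) : ℝ) ≤ Real.exp L := by
    rw [← Real.log_le_iff_le_exp hm]
    exact_mod_cast h
  constructor
  · refine le_trans ?_ h2
    exact_mod_cast le_max_left _ _
  · refine le_trans ?_ h2
    exact_mod_cast le_max_right _ _

lemma finite_height (L : ℝ) : {x : ℚ | logHeight₁ x ≤ L}.Finite := by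
  have h1 : {x : ℚ | logHeight₁ x ≤ L} ⊆ (fun y : ℤ × ℕ => (y.1 : ℚ) / y.2) ''
      ((Set.Icc (-(⌈Real.exp L⌉₊ : ℤ)) ⌈Real.exp L⌉₊) ×ˢ (Set.Iic ⌈Real.exp L⌉₊)) := by
    intro x hx
    obtain ⟨h2, h3⟩ := height_bd hx
    refine ⟨(x.num, x.den), ⟨?_, ?_⟩, Rat.num_div_den x⟩
    · have h4 : x.num.natAbs ≤ ⌈Real.exp L⌉₊ := by
        have := h2.trans (Nat.le_ceil _)
        exact_mod_cast this
      simp only [Set.mem_Icc]
      omega
    · have := h3.trans (Nat.le_ceil _)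
      simp only [Set.mem_Iic]
      exact_mod_cast this
  exact ((((Set.finite_Icc _ _).prod (Set.finite_Iic _))).image _).subset h1

lemma dvd_pow_of_primeFactors {s d : ℕ} (hs : s ≠ 0) (hd : d ≠ 0)
    (h : s.primeFactors ⊆ d.primeFactors) : ∃ K : ℕ, s ∣ d ^ K := by
  refine ⟨s, ?_⟩
  rw [← Nat.factorization_le_iff_dvd hs (pow_ne_zero _ hd)]
  intro l
  rw [Nat.factorization_pow, Finsupp.smul_apply, smul_eq_mul]
  by_cases hl : l ∈ s.primeFactors
  · have h1 : l ∈ d.primeFactors := h hl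
    have h2 : 1 ≤ d.factorization l := by
      have := Nat.prime_of_mem_primeFactors h1
      exact this.factorization_pos_of_dvd hd (Nat.dvd_of_mem_primeFactors h1)
    have h3 : s.factorization l < s := Nat.factorization_lt l hs
    nlinarith
  · have : s.factorization l = 0 := by
      rw [← Finsupp.notMem_support_iff, Nat.support_factorization]
      exact hl
    rw [this]
    exact Nat.zero_le _

lemma alm_of {d c : ℕ} {a : ℤ} {s : ℕ} (ha : a ≠ 0) (hac : a ∣ (c : ℤ))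
    (hs : s ≠ 0) (hd : ∃ K : ℕ, s ∣ d ^ K) : Alm d c ((a : ℚ) * s) := by
  obtain ⟨K, z, hz⟩ := hd
  obtain ⟨w, hw⟩ := hac
  refine ⟨⟨0, c * (a * s), by push_cast; ring⟩, ⟨K, w * z, ?_⟩⟩
  have ha' : (a : ℚ) ≠ 0 := by exact_mod_cast ha
  have hs' : (s : ℚ) ≠ 0 := by exact_mod_cast hs
  have h1 : (d : ℚ) ^ K = s * z := by exact_mod_cast congrArg (Nat.cast (R := ℚ)) hz
  have h2 : (c : ℚ) = a * w := by exact_mod_cast congrArg (Int.cast (R := ℚ)) hw
  rw [h1, h2, mul_inv]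
  push_cast
  field_simp

/-- **Sums of units.** -/
theorem uni {p : ℕ} (hp : p.Prime) (S : Finset ℕ) {k : ℕ} (s : ℕ → Fin k → ℕ)
    (hs : ∀ t i, s t i ≠ 0) (hS : ∀ t i, (s t i).primeFactors ⊆ S)
    (h1 : ∀ (i : Fin k) (a : ℕ), {t | ∃ v : ℕ, s t i = a * p ^ v}.Finite)
    (h2 : ∀ i j : Fin k, i ≠ j → ∀ r : ℚ, {t | (s t i : ℚ) / s t j = r}.Finite)
    (m : ℤ) (h : Fin k → ℤ) (hh : h ≠ 0) (D : ℕ) (hD : 0 < D) (r : ℕ) (c : Fin r → ℤ) :
    {t | ∃ V : Fin r → ℕ, (D : ℤ) * (m + ∑ i, h i * (s t i : ℤ)) =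
      ∑ l, c l * (p : ℤ) ^ (V l)}.Finite := by
  classical
  obtain ⟨i0, hi0⟩ : ∃ i0, h i0 ≠ 0 := by
    by_contra hne
    push Not at hne
    exact hh (funext hne)
  -- the index set of all terms
  set J0 := (Option (Fin k)) ⊕ Fin r with hJ0
  set a : J0 → ℤ := fun j => match j with
    | Sum.inl none => (D : ℤ) * m
    | Sum.inl (some i) => (D : ℤ) * h i
    | Sum.inr l => - c l with ha
  set σ : ℕ → (Fin r → ℕ) → J0 → ℕ := fun t V j => match j with
    | Sum.inl none => 1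
    | Sum.inl (some i) => s t i
    | Sum.inr l => p ^ V l with hσ
  have hσ0 : ∀ t V j, σ t V j ≠ 0 := by
    intro t V j
    rcases j with (_ | i) | l
    · simp [hσ]
    · simpa [hσ] using hs t i
    · simpa [hσ] using fun h => absurd h hp.ne_zero
  set d : ℕ := p * ∏ l ∈ S.filter Nat.Prime, l with hd
  have hSp : ∀ l ∈ S.filter Nat.Prime, l ≠ 0 := fun l hl => (Finset.mem_filter.1 hl).2.ne_zero
  have hprod0 : ∏ l ∈ S.filter Nat.Prime, l ≠ 0 := Finset.prod_ne_zero_iff.2 hSp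
  have hd0 : d ≠ 0 := mul_ne_zero hp.ne_zero hprod0
  have hdS : ∀ l ∈ S, l.Prime → l ∈ d.primeFactors := by
    intro l hl hlp
    refine Nat.mem_primeFactors.2 ⟨hlp, ?_, hd0⟩
    exact Dvd.dvd.mul_left (Finset.dvd_prod_of_mem _ (Finset.mem_filter.2 ⟨hl, hlp⟩)) _
  have hσd : ∀ t V j, ∃ K : ℕ, σ t V j ∣ d ^ K := by
    intro t V j
    rcases j with (_ | i) | l
    · exact ⟨0, by simp [hσ]⟩
    · refine dvd_pow_of_primeFactors (hs t i) hd0 fun l hl => ?_
      exact hdS l (hS t i hl) (Nat.prime_of_mem_primeFactors hl)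
    · exact ⟨V l, pow_dvd_pow_of_dvd (dvd_mul_right _ _) _⟩
  set cc : ℕ := ∏ j : J0, (if a j = 0 then 1 else (a j).natAbs) with hcc
  have hcc0 : 0 < cc := by
    refine Finset.prod_pos fun j _ => ?_
    split_ifs with hj
    · exact one_pos
    · exact Int.natAbs_pos.2 hj
  have hacc : ∀ j, a j ≠ 0 → a j ∣ (cc : ℤ) := by
    intro j hj
    have h3 : (a j).natAbs ∣ cc := by
      have := Finset.dvd_prod_of_mem (fun j : J0 => if a j = 0 then 1 else (a j).natAbs)
        (Finset.mem_univ j)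
      simpa [hj] using this
    exact Int.natAbs_dvd.1 (Int.natCast_dvd_natCast.2 h3)
  obtain ⟨A, hA0, hA⟩ := partner_all d hd0 (Fintype.card J0)
  set L : ℝ := 8 * (Fintype.card J0 : ℕ) * Real.log cc + A with hL
  have hR := finite_height L
  set R : Set ℚ := {x : ℚ | logHeight₁ x ≤ L} with hRdef
  set B : ℕ := ⌈Real.exp L⌉₊ with hB
  have ha0 : a (Sum.inl (some i0)) ≠ 0 :=
    mul_ne_zero (by exact_mod_cast hD.ne') hi0
  -- the three kinds of exceptional sets
  set E1 : Set ℕ := {t | ∃ x ∈ Set.Iic (B * ((a (Sum.inl none)).natAbs)), ∃ v : ℕ,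
    s t i0 = x * p ^ v} with hE1
  have fE1 : E1.Finite := by
    have : E1 = ⋃ x ∈ Set.Iic (B * ((a (Sum.inl none)).natAbs)), {t | ∃ v : ℕ,
        s t i0 = x * p ^ v} := by
      ext t
      simp [hE1]
    rw [this]
    exact (Set.finite_Iic _).biUnion fun x _ => h1 i0 x
  set E2 : Set ℕ := ⋃ i : Fin k, {t | i ≠ i0 ∧ ∃ x ∈ R, (s t i0 : ℚ) / s t i = x * h i / h i0}
    with hE2
  have fE2 : E2.Finite := by
    refine Set.finite_iUnion fun i => ?_
    by_cases hi : i = i0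
    · refine Set.Finite.subset Set.finite_empty ?_
      rintro t ⟨ht, _⟩
      exact absurd hi ht
    · have : {t | i ≠ i0 ∧ ∃ x ∈ R, (s t i0 : ℚ) / s t i = x * h i / h i0} ⊆
          ⋃ x ∈ R, {t | (s t i0 : ℚ) / s t i = x * h i / h i0} := by
        rintro t ⟨_, x, hx, ht⟩
        simp only [Set.mem_iUnion]
        exact ⟨x, hx, ht⟩
      refine Set.Finite.subset (hR.biUnion fun x _ => ?_) this
      exact h2 i0 i (fun h => hi h.symm) _
  set E3 : Set ℕ := ⋃ l : Fin r, {t | ∃ x ∈ Set.Iic (B * (c l).natAbs), ∃ v : ℕ,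
    s t i0 = x * p ^ v} with hE3
  have fE3 : E3.Finite := by
    refine Set.finite_iUnion fun l => ?_
    have : {t | ∃ x ∈ Set.Iic (B * (c l).natAbs), ∃ v : ℕ, s t i0 = x * p ^ v} =
        ⋃ x ∈ Set.Iic (B * (c l).natAbs), {t | ∃ v : ℕ, s t i0 = x * p ^ v} := by
      ext t
      simp
    rw [this]
    exact (Set.finite_Iic _).biUnion fun x _ => h1 i0 x
  refine ((fE1.union fE2).union fE3).subset ?_
  rintro t ⟨V, hV⟩
  -- the vanishing sum
  have hsum : ∑ j : J0, ((a j : ℚ) * (σ t V j : ℕ)) = 0 := by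
    rw [Fintype.sum_sum_type, Fintype.sum_option]
    simp only [ha, hσ]
    have h3 : (((D : ℤ) * (m + ∑ i, h i * (s t i : ℤ)) : ℤ) : ℚ) =
      ((∑ l, c l * (p : ℤ) ^ (V l) : ℤ) : ℚ) := by rw [hV]
    push_cast at h3 ⊢
    have h4 : ∑ i : Fin k, (D : ℚ) * h i * (s t i : ℚ) = D * ∑ i, (h i : ℚ) * (s t i : ℚ) := by
      rw [Finset.mul_sum]
      exact Finset.sum_congr rfl fun i _ => by ring
    have h5 : ∑ l : Fin r, -(c l : ℚ) * (p : ℚ) ^ V l = - ∑ l, (c l : ℚ) * (p : ℚ) ^ V l := by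
      rw [← Finset.sum_neg_distrib]
      exact Finset.sum_congr rfl fun i _ => by ring
    rw [h4, h5, ← h3]
    ring
  set J := {j : J0 // a j ≠ 0} with hJ
  have hcard : Fintype.card J ≤ Fintype.card J0 := Fintype.card_subtype_le _
  have hsumJ : ∑ j : J, ((a j.1 : ℚ) * (σ t V j.1 : ℕ)) = 0 := by
    rw [← hsum]
    have h3 : ∑ j : J0, ((a j : ℚ) * (σ t V j : ℕ)) =
        ∑ j ∈ Finset.univ.filter (fun j : J0 => a j ≠ 0), ((a j : ℚ) * (σ t V j : ℕ)) := by
      rw [Finset.sum_filter]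
      refine Finset.sum_congr rfl fun j _ => ?_
      split_ifs with hj
      · rfl
      · push Not at hj
        rw [hj]
        simp
    rw [h3]
    exact (Finset.sum_subtype (Finset.univ.filter (fun j : J0 => a j ≠ 0))
      (fun j => by simp) (fun j => ((a j : ℚ) * (σ t V j : ℕ)))).symm
  obtain ⟨j, hj, hht⟩ := hA J hcard (fun j => (a j.1 : ℚ) * (σ t V j.1 : ℕ))
    (fun j => mul_ne_zero (by exact_mod_cast j.2) (by exact_mod_cast hσ0 t V j.1)) hsumJ cc hcc0
    (fun j => alm_of j.2 (hacc j.1 j.2) (hσ0 t V j.1) (hσd t V j.1)) ⟨Sum.inl (some i0), ha0⟩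
  have hht' : logHeight₁ (((a (Sum.inl (some i0)) : ℚ) * (s t i0 : ℕ)) /
      ((a j.1 : ℚ) * (σ t V j.1 : ℕ))) ≤ L := hht
  set x : ℚ := ((a (Sum.inl (some i0)) : ℚ) * (s t i0 : ℕ)) /
      ((a j.1 : ℚ) * (σ t V j.1 : ℕ)) with hx
  obtain ⟨hxn, hxd⟩ := height_bd hht'
  have hxn' : x.num.natAbs ≤ B := by
    have := hxn.trans (Nat.le_ceil _)
    exact_mod_cast this
  have hxR : x ∈ R := hht'
  have haj : (a j.1 : ℚ) ≠ 0 := by exact_mod_cast j.2
  have hσj : ((σ t V j.1 : ℕ) : ℚ) ≠ 0 := by exact_mod_cast hσ0 t V j.1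
  have ha0' : (a (Sum.inl (some i0)) : ℚ) ≠ 0 := by exact_mod_cast ha0
  have hst0 : (s t i0 : ℚ) ≠ 0 := by exact_mod_cast hs t i0
  have hx0 : x ≠ 0 := div_ne_zero (mul_ne_zero ha0' hst0) (mul_ne_zero haj hσj)
  -- cross multiplication in the integers
  have hcross : (a (Sum.inl (some i0))) * (s t i0 : ℤ) * x.den =
      x.num * (a j.1 * (σ t V j.1 : ℤ)) := by
    have h3 : (a (Sum.inl (some i0)) : ℚ) * (s t i0 : ℕ) = x * ((a j.1 : ℚ) * (σ t V j.1 : ℕ)) := by
      rw [hx, div_mul_cancel₀ _ (mul_ne_zero haj hσj)]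
    have h4 : (x.num : ℚ) = x * x.den := by
      rw [Rat.mul_den_eq_num]
    have h5 : (a (Sum.inl (some i0)) : ℚ) * (s t i0 : ℕ) * x.den =
        x.num * ((a j.1 : ℚ) * (σ t V j.1 : ℕ)) := by
      rw [h3, h4]; ring
    exact_mod_cast h5
  have hdvd : s t i0 ∣ x.num.natAbs * ((a j.1).natAbs * σ t V j.1) := by
    have h3 : (s t i0 : ℤ) ∣ x.num * (a j.1 * (σ t V j.1 : ℤ)) := by
      rw [← hcross]
      exact ⟨a (Sum.inl (some i0)) * x.den, by ring⟩
    have h4 := Int.natAbs_dvd_natAbs.2 h3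
    simpa [Int.natAbs_mul] using h4
  obtain ⟨j, hj0⟩ := j
  rcases j with (_ | i) | l
  · -- the constant term
    left; left
    refine ⟨s t i0, ?_, 0, by simp⟩
    simp only [Set.mem_Iic]
    have h3 : σ t V (Sum.inl none) = 1 := rfl
    rw [h3, mul_one] at hdvd
    refine (Nat.le_of_dvd ?_ hdvd).trans (Nat.mul_le_mul_right _ hxn')
    refine Nat.mul_pos (Int.natAbs_pos.2 ?_) (Int.natAbs_pos.2 hj0)
    rw [Ne, Rat.num_eq_zero]
    exact hx0
  · left; right
    simp only [hE2, Set.mem_iUnion]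
    refine ⟨i, ?_, x, hxR, ?_⟩
    · intro h3
      apply hj
      simp only [h3]
    · have h3 : σ t V (Sum.inl (some i)) = s t i := rfl
      have h4 : a (Sum.inl (some i)) = D * h i := rfl
      have h5 : a (Sum.inl (some i0)) = D * h i0 := rfl
      have hDq : (D : ℚ) ≠ 0 := by exact_mod_cast hD.ne'
      have hhi0 : (h i0 : ℚ) ≠ 0 := by exact_mod_cast hi0
      rw [h3] at hσj
      have hhi : (h i : ℚ) ≠ 0 := by
        have : h i ≠ 0 := by
          intro h6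
          apply hj0
          rw [h4, h6, mul_zero]
        exact_mod_cast this
      rw [hx]
      simp only [h3, h4, h5]
      push_cast
      field_simp
  · right
    simp only [hE3, Set.mem_iUnion]
    refine ⟨l, ?_⟩
    have h3 : σ t V (Sum.inr l) = p ^ V l := rfl
    have h4 : a (Sum.inr l) = - c l := rfl
    rw [h3, h4, Int.natAbs_neg] at hdvd
    obtain ⟨v, N, hN, hsN⟩ := Nat.exists_eq_pow_mul_and_not_dvd (n := s t i0) (hs t i0) p
      hp.one_lt.ne'
    refine ⟨N, ?_, v, by rw [hsN]; ring⟩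
    simp only [Set.mem_Iic]
    have h5 : N ∣ (x.num.natAbs * (c l).natAbs) * p ^ V l := by
      refine (Dvd.intro_left (p ^ v) hsN.symm).trans ?_
      rw [mul_assoc]
      exact hdvd
    have h6 : Nat.Coprime N (p ^ V l) :=
      Nat.Coprime.pow_right _ ((Nat.Prime.coprime_iff_not_dvd hp).2 hN).symm
    have h7 : N ∣ x.num.natAbs * (c l).natAbs := h6.dvd_of_dvd_mul_right h5
    refine (Nat.le_of_dvd ?_ h7).trans (Nat.mul_le_mul_right _ hxn')
    refine Nat.mul_pos (Int.natAbs_pos.2 ?_) (Int.natAbs_pos.2 ?_)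
    · rw [Ne, Rat.num_eq_zero]
      exact hx0
    · intro h8
      apply hj0
      rw [h4, h8, neg_zero]

end Pool.Agent.TH338.LG
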