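import Mathlib
import Pool.Agent.TH338.LG.Thm
import Pool.Agent.TH338.LG.Uni

/-! Asymptotic independence of dilates of a measure invariant under multiplication by a prime. -/

set_option autoImplicit false
open MeasureTheory Finset Filter Topology
open scoped ENNReal

namespace Pool.Agent.TH338.LG

variable {p : ℕ}

lemma tendsto_comb (hp : p.Prime) (μ : Measure UnitAddCircle) [IsProbabilityMeasure μ]
    (hinv : MeasurePreserving (fun x : UnitAddCircle => p • x) μ μ) (hent : PosEnt p μ)
    (C : ℕ → ℤ)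
    (hfin : ∀ (m : ℤ) (D r : ℕ) (c : Fin r → ℤ), 0 < D →
      {t | ∃ V : Fin r → ℕ, (D : ℤ) * (m + C t) = ∑ i, c i * (p : ℤ) ^ (V i)}.Finite) (m : ℤ) :
    Tendsto (fun t => ∫ z, fourier (T := (1 : ℝ)) (m + C t) z ∂μ) atTop (𝓝 0) := by
  classical
  have hZ : {t | m + C t = 0}.Finite := by
    refine (hfin m 1 0 Fin.elim0 one_pos).subset ?_
    intro t ht
    have ht' : m + C t = 0 := ht
    exact ⟨Fin.elim0, by simp [ht']⟩
  set c' : ℕ → ℤ := fun t => if m + C t = 0 then 1 else m + C t with hc'
  have h1 : Tendsto (fun t => ∫ z, fourier (T := (1 : ℝ)) (c' t) z ∂μ) atTop (𝓝 0) := by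
    refine tendsto_seq hp μ hinv hent c' ?_ ?_
    · intro t
      simp only [hc']
      split_ifs with h
      · exact one_ne_zero
      · exact h
    · intro D r c hD
      refine ((hfin m D r c hD).union hZ).subset ?_
      rintro t ⟨V, hV⟩
      by_cases h : m + C t = 0
      · exact Or.inr h
      · left
        refine ⟨V, ?_⟩
        rw [← hV]
        simp only [hc', if_neg h]
  refine h1.congr' ?_
  have h2 : ∀ᶠ t in atTop, ¬ (m + C t = 0) := by
    have := hZ.compl_mem_cofinite
    rw [Nat.cofinite_eq_atTop] at this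
    exact this
  filter_upwards [h2] with t ht
  simp only [hc', if_neg ht]

/-- a limit of functionals of norm at most one is determined on a dense subspace -/
lemma dense_lim {X : Type*} [TopologicalSpace X] [CompactSpace X] (S : Submodule ℂ C(X, ℂ))
    (hS : S.topologicalClosure = ⊤) (Λ : ℕ → C(X, ℂ) → ℂ) (Λ' : C(X, ℂ) → ℂ)
    (hb : ∀ t f g, ‖Λ t f - Λ t g‖ ≤ ‖f - g‖) (hb' : ∀ f g, ‖Λ' f - Λ' g‖ ≤ ‖f - g‖)
    (hspan : ∀ f ∈ S, Tendsto (fun t => Λ t f) atTop (𝓝 (Λ' f))) (f : C(X, ℂ)) :
    Tendsto (fun t => Λ t f) atTop (𝓝 (Λ' f)) := by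
  rw [Metric.tendsto_atTop]
  intro ε hε
  have hf : f ∈ S.topologicalClosure := by rw [hS]; trivial
  obtain ⟨g, hg, hfg⟩ := Metric.mem_closure_iff.1 hf (ε / 3) (by positivity)
  rw [dist_eq_norm] at hfg
  obtain ⟨n0, hn0⟩ := Metric.tendsto_atTop.1 (hspan g hg) (ε / 3) (by positivity)
  refine ⟨n0, fun n hn => ?_⟩
  have h1 := hn0 n hn
  have h2 := hb n f g
  have h3 := hb' g f
  rw [norm_sub_rev g f] at h3
  rw [dist_eq_norm] at h1 ⊢
  have h4 : Λ n f - Λ' f = (Λ n f - Λ n g) + (Λ n g - Λ' g) + (Λ' g - Λ' f) := by ring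
  rw [h4]
  refine (norm_add₃_le).trans_lt ?_
  linarith

lemma norm_fourier_le (n : ℤ) (z : UnitAddCircle) : ‖fourier (T := (1 : ℝ)) n z‖ ≤ 1 := by
  rw [fourier_apply]
  exact (Circle.norm_coe _).le

/-- against continuous functions -/
lemma tendsto_cont (hp : p.Prime) (μ : Measure UnitAddCircle) [IsProbabilityMeasure μ]
    (hinv : MeasurePreserving (fun x : UnitAddCircle => p • x) μ μ) (hent : PosEnt p μ)
    (C : ℕ → ℤ)
    (hfin : ∀ (m : ℤ) (D r : ℕ) (c : Fin r → ℤ), 0 < D →
      {t | ∃ V : Fin r → ℕ, (D : ℤ) * (m + C t) = ∑ i, c i * (p : ℤ) ^ (V i)}.Finite)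
    (g : C(UnitAddCircle, ℂ)) :
    Tendsto (fun t => ∫ z, g z * fourier (T := (1 : ℝ)) (C t) z ∂μ) atTop (𝓝 0) := by
  set S : Submodule ℂ C(UnitAddCircle, ℂ) := Submodule.span ℂ (Set.range (fourier (T := (1 : ℝ))))
    with hS
  have hint : ∀ (g : C(UnitAddCircle, ℂ)) (n : ℤ),
      Integrable (fun z => g z * fourier (T := (1 : ℝ)) n z) μ := by
    intro g n
    refine Integrable.of_bound ((g.continuous.mul
      (fourier (T := (1 : ℝ)) n).continuous).aestronglyMeasurable) ‖g‖
      (Eventually.of_forall fun z => ?_)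
    rw [norm_mul]
    have h1 := g.norm_coe_le_norm z
    have h2 := norm_fourier_le n z
    have h3 := norm_nonneg (g z)
    have h4 := norm_nonneg (fourier (T := (1 : ℝ)) n z)
    nlinarith
  refine dense_lim S span_fourier_closure_eq_top
    (fun t g => ∫ z, g z * fourier (T := (1 : ℝ)) (C t) z ∂μ) (fun _ => 0) ?_ ?_ ?_ g
  · intro t f g
    rw [← integral_sub (hint f _) (hint g _)]
    refine (norm_integral_le_of_norm_le_const (C := ‖f - g‖) (Eventually.of_forall fun z => ?_)).trans
      (le_of_eq ?_)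
    · rw [← sub_mul, norm_mul]
      have h1 : ‖f z - g z‖ ≤ ‖f - g‖ := (f - g).norm_coe_le_norm z
      have h2 := norm_fourier_le (C t) z
      have h3 := norm_nonneg (f z - g z)
      have h4 := norm_nonneg (fourier (T := (1 : ℝ)) (C t) z)
      nlinarith
    · rw [probReal_univ, mul_one]
  · intro f g
    simp
  · intro f hf
    induction hf using Submodule.span_induction with
    | mem f hf =>
      obtain ⟨m, rfl⟩ := hf
      refine (tendsto_comb hp μ hinv hent C hfin m).congr fun t => ?_
      refine integral_congr_ae (Eventually.of_forall fun z => ?_)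
      show fourier (m + C t) z = fourier m z * fourier (C t) z
      rw [fourier_add]
    | zero => simp
    | add g1 g2 _ _ h1 h2 =>
      have e1 : ∀ t, ∫ z, (g1 + g2) z * fourier (T := (1 : ℝ)) (C t) z ∂μ =
          ∫ z, g1 z * fourier (T := (1 : ℝ)) (C t) z ∂μ +
          ∫ z, g2 z * fourier (T := (1 : ℝ)) (C t) z ∂μ := fun t => by
        rw [← integral_add (hint g1 _) (hint g2 _)]
        refine integral_congr_ae (Eventually.of_forall fun z => ?_)
        show (g1 z + g2 z) * _ = _
        ring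
      simp only [e1]
      simpa using h1.add h2
    | smul a g _ h1 =>
      have e1 : ∀ t, ∫ z, (a • g) z * fourier (T := (1 : ℝ)) (C t) z ∂μ =
          a * ∫ z, g z * fourier (T := (1 : ℝ)) (C t) z ∂μ := fun t => by
        rw [← integral_const_mul]
        refine integral_congr_ae (Eventually.of_forall fun z => ?_)
        show (a * g z) * _ = _
        ring
      simp only [e1]
      simpa using h1.const_mul a

/-- against integrable functions -/
lemma tendsto_int (hp : p.Prime) (μ : Measure UnitAddCircle) [IsProbabilityMeasure μ]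
    (hinv : MeasurePreserving (fun x : UnitAddCircle => p • x) μ μ) (hent : PosEnt p μ)
    (C : ℕ → ℤ)
    (hfin : ∀ (m : ℤ) (D r : ℕ) (c : Fin r → ℤ), 0 < D →
      {t | ∃ V : Fin r → ℕ, (D : ℤ) * (m + C t) = ∑ i, c i * (p : ℤ) ^ (V i)}.Finite)
    {g : UnitAddCircle → ℂ} (hg : Integrable g μ) :
    Tendsto (fun t => ∫ z, g z * fourier (T := (1 : ℝ)) (C t) z ∂μ) atTop (𝓝 0) := by
  rw [Metric.tendsto_atTop]
  intro ε hε
  obtain ⟨g', _, hgg, hc, hi⟩ := hg.exists_hasCompactSupport_integral_sub_le (ε := ε / 2)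
    (by positivity)
  obtain ⟨n0, hn0⟩ := Metric.tendsto_atTop.1
    (tendsto_cont hp μ hinv hent C hfin ⟨g', hc⟩) (ε / 2) (by positivity)
  refine ⟨n0, fun t ht => ?_⟩
  have h1 := hn0 t ht
  rw [dist_zero_right] at h1 ⊢
  have hint : ∀ {u : UnitAddCircle → ℂ}, Integrable u μ →
      Integrable (fun z => u z * fourier (T := (1 : ℝ)) (C t) z) μ := by
    intro u hu
    refine hu.mul_bdd (c := 1) ((fourier (T := (1 : ℝ)) (C t)).continuous.aestronglyMeasurable) ?_
    exact Eventually.of_forall fun z => norm_fourier_le _ z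
  have h2 : ∫ z, g z * fourier (T := (1 : ℝ)) (C t) z ∂μ =
      ∫ z, (g z - g' z) * fourier (T := (1 : ℝ)) (C t) z ∂μ +
      ∫ z, g' z * fourier (T := (1 : ℝ)) (C t) z ∂μ := by
    have e1 := integral_add (hint (u := fun z => g z - g' z) (hg.sub hi)) (hint hi)
    rw [← e1]
    refine integral_congr_ae (Eventually.of_forall fun z => ?_)
    show g z * _ = (g z - g' z) * _ + _
    ring
  have h3 : ‖∫ z, (g z - g' z) * fourier (T := (1 : ℝ)) (C t) z ∂μ‖ ≤ ε / 2 := by
    refine (norm_integral_le_integral_norm _).trans (le_trans ?_ hgg)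
    refine integral_mono_of_nonneg (Eventually.of_forall fun z => norm_nonneg _) (hg.sub hi).norm
      (Eventually.of_forall fun z => ?_)
    show ‖(g z - g' z) * fourier (T := (1 : ℝ)) (C t) z‖ ≤ ‖g z - g' z‖
    rw [norm_mul]
    have h2 := norm_fourier_le (C t) z
    have h3 := norm_nonneg (g z - g' z)
    nlinarith
  rw [h2]
  have h1' : ‖∫ z, g' z * fourier (T := (1 : ℝ)) (C t) z ∂μ‖ < ε / 2 := h1
  refine (norm_add_le _ _).trans_lt ?_
  linarith

/-- absolutely continuous measures -/
lemma tendsto_ac (hp : p.Prime) (μ ν : Measure UnitAddCircle) [IsProbabilityMeasure μ]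
    [IsProbabilityMeasure ν]
    (hinv : MeasurePreserving (fun x : UnitAddCircle => p • x) μ μ) (hent : PosEnt p μ)
    (hν : ν ≪ μ) (C : ℕ → ℤ)
    (hfin : ∀ (m : ℤ) (D r : ℕ) (c : Fin r → ℤ), 0 < D →
      {t | ∃ V : Fin r → ℕ, (D : ℤ) * (m + C t) = ∑ i, c i * (p : ℤ) ^ (V i)}.Finite) :
    Tendsto (fun t => ∫ z, fourier (T := (1 : ℝ)) (C t) z ∂ν) atTop (𝓝 0) := by
  have h1 : Integrable (fun z => (((ν.rnDeriv μ z).toReal : ℝ) : ℂ)) μ :=
    Measure.integrable_toReal_rnDeriv.ofReal
  refine (tendsto_int hp μ hinv hent C hfin h1).congr fun t => ?_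
  have : Measure.HaveLebesgueDecomposition ν μ :=
    Measure.haveLebesgueDecomposition_of_sigmaFinite ν μ
  have h2 := integral_rnDeriv_smul (μ := ν) (ν := μ)
    (f := fun z : UnitAddCircle => fourier (T := (1 : ℝ)) (C t) z) hν
  rw [← h2]
  refine integral_congr_ae (Eventually.of_forall fun z => ?_)
  show _ = _ • _
  rw [Complex.real_smul]

lemma prod_fourier {ι : Type*} (J : Finset ι) (n : ι → ℤ) (z : UnitAddCircle) :
    ∏ i ∈ J, fourier (T := (1 : ℝ)) (n i) z = fourier (T := (1 : ℝ)) (∑ i ∈ J, n i) z := by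
  classical
  induction J using Finset.induction_on with
  | empty => simp
  | insert a J ha ih => rw [Finset.prod_insert ha, Finset.sum_insert ha, fourier_add, ih]

/-- **Asymptotic independence**, prime base, abstract condition on the multipliers. -/
theorem mix_general (hp : p.Prime) (μ ν : Measure UnitAddCircle) [IsProbabilityMeasure μ]
    [IsProbabilityMeasure ν]
    (hinv : MeasurePreserving (fun x : UnitAddCircle => p • x) μ μ) (hent : PosEnt p μ)
    (hν : ν ≪ μ) {k : ℕ} (s : ℕ → Fin k → ℕ)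
    (hfin : ∀ (m : ℤ) (h : Fin k → ℤ), h ≠ 0 → ∀ (D : ℕ), 0 < D → ∀ (r : ℕ) (c : Fin r → ℤ),
      {t | ∃ V : Fin r → ℕ, (D : ℤ) * (m + ∑ i, h i * (s t i : ℤ)) =
        ∑ l, c l * (p : ℤ) ^ (V l)}.Finite)
    (f : C(Fin k → UnitAddCircle, ℂ)) :
    Tendsto (fun t => ∫ x, f (fun i => s t i • x) ∂ν) atTop (𝓝 (∫ y, f y)) := by
  have hvp := vol_prob
  have hint : ∀ (t : ℕ) (g : C(Fin k → UnitAddCircle, ℂ)),
      Integrable (fun x : UnitAddCircle => g (fun i => s t i • x)) ν := by
    intro t g
    refine Integrable.of_bound ((g.continuous.comp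
      (continuous_pi fun i => continuous_nsmul (s t i))).aestronglyMeasurable)
      ‖g‖ (Eventually.of_forall fun z => g.norm_coe_le_norm _)
  have hvol : ∀ g : C(Fin k → UnitAddCircle, ℂ),
      Integrable (fun z : Fin k → UnitAddCircle => g z) volume := by
    intro g
    exact Integrable.of_bound g.continuous.aestronglyMeasurable ‖g‖
      (Eventually.of_forall fun z => g.norm_coe_le_norm _)
  refine dense_lim _ (UnitAddTorus.span_mFourier_closure_eq_top (d := Fin k))
    (fun t g => ∫ x, g (fun i => s t i • x) ∂ν) (fun g => ∫ y, g y) ?_ ?_ ?_ f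
  · intro t g g'
    rw [← integral_sub (hint t g) (hint t g')]
    refine (norm_integral_le_of_norm_le_const (C := ‖g - g'‖)
      (Eventually.of_forall fun z => (g - g').norm_coe_le_norm _)).trans (le_of_eq ?_)
    rw [probReal_univ, mul_one]
  · intro g g'
    rw [← integral_sub (hvol g) (hvol g')]
    refine (norm_integral_le_of_norm_le_const (C := ‖g - g'‖)
      (Eventually.of_forall fun z => (g - g').norm_coe_le_norm _)).trans (le_of_eq ?_)
    rw [probReal_univ, mul_one]
  · intro g hg
    induction hg using Submodule.span_induction with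
    | mem g hg =>
      obtain ⟨h, rfl⟩ := hg
      have h1 : ∀ t (x : UnitAddCircle), UnitAddTorus.mFourier h (fun i => s t i • x) =
          fourier (T := (1 : ℝ)) (∑ i, h i * (s t i : ℤ)) x := by
        intro t x
        rw [← prod_fourier]
        show ∏ i, fourier (h i) (s t i • x) = _
        refine Finset.prod_congr rfl fun i _ => ?_
        rw [fourier_apply, fourier_apply, ← natCast_zsmul x (s t i), smul_smul]
      simp only [h1]
      by_cases h0 : h = 0
      · subst h0
        have e1 : ∫ y : Fin k → UnitAddCircle, (UnitAddTorus.mFourier (0 : Fin k → ℤ)) y = 1 := by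
          rw [UnitAddTorus.mFourier_zero]
          simp
        rw [e1]
        simp only [Pi.zero_apply, zero_mul, Finset.sum_const_zero, fourier_zero, integral_const,
          probReal_univ, one_smul]
        exact tendsto_const_nhds
      · obtain ⟨i0, hi0⟩ : ∃ i0, h i0 ≠ 0 := by
          by_contra hne
          push Not at hne
          exact h0 (funext hne)
        have e1 : ∫ y : Fin k → UnitAddCircle, (UnitAddTorus.mFourier h) y = 0 := by
          have e2 : ∫ y : Fin k → UnitAddCircle, (UnitAddTorus.mFourier h) y =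
              ∏ i, ∫ z : UnitAddCircle, fourier (T := (1 : ℝ)) (h i) z :=
            integral_fintype_prod_volume_eq_prod
              (fun i => (fun z : UnitAddCircle => fourier (T := (1 : ℝ)) (h i) z))
          rw [e2]
          exact Finset.prod_eq_zero (Finset.mem_univ i0) (int_fourier_vol hi0)
        rw [e1]
        exact tendsto_ac hp μ ν hinv hent hν (fun t => ∑ i, h i * (s t i : ℤ))
          (fun m D r c hD => hfin m h h0 D hD r c)
    | zero => simp
    | add g1 g2 _ _ h1 h2 =>
      simp only [ContinuousMap.add_apply]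
      have e1 : ∀ t, ∫ x, (g1 (fun i => s t i • x) + g2 (fun i => s t i • x)) ∂ν =
          ∫ x, g1 (fun i => s t i • x) ∂ν + ∫ x, g2 (fun i => s t i • x) ∂ν := fun t =>
        integral_add (hint t g1) (hint t g2)
      simp only [e1]
      rw [integral_add (hvol g1) (hvol g2)]
      exact h1.add h2
    | smul a g _ h1 =>
      simp only [ContinuousMap.smul_apply, integral_smul]
      exact h1.const_smul a

/-- **Asymptotic independence for units**, prime base. -/
theorem mix_units (hp : p.Prime) (μ ν : Measure UnitAddCircle) [IsProbabilityMeasure μ]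
    [IsProbabilityMeasure ν]
    (hinv : MeasurePreserving (fun x : UnitAddCircle => p • x) μ μ) (hent : PosEnt p μ)
    (hν : ν ≪ μ) (S : Finset ℕ) {k : ℕ} (s : ℕ → Fin k → ℕ)
    (hs : ∀ t i, s t i ≠ 0) (hS : ∀ t i, (s t i).primeFactors ⊆ S)
    (h1 : ∀ (i : Fin k) (a : ℕ), {t | ∃ v : ℕ, s t i = a * p ^ v}.Finite)
    (h2 : ∀ i j : Fin k, i ≠ j → ∀ r : ℚ, {t | (s t i : ℚ) / s t j = r}.Finite)
    (f : C(Fin k → UnitAddCircle, ℂ)) :
    Tendsto (fun t => ∫ x, f (fun i => s t i • x) ∂ν) atTop (𝓝 (∫ y, f y)) :=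
  mix_general hp μ ν hinv hent hν s
    (fun m h hh D hD r c => uni hp S s hs hS h1 h2 m h hh D hD r c) f

end Pool.Agent.TH338.LG
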