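import Mathlib
import Pool.Agent.TH338.LG.Conv
import Pool.Agent.TH338.LG.Mix

/-! Asymptotic independence of dilates of a measure invariant under multiplication by a prime
power. -/

set_option autoImplicit false
open MeasureTheory Finset Filter Topology
open scoped ENNReal ProbabilityTheory

namespace Pool.Agent.TH338.LG

lemma Hn_le {p : ℕ} (hp0 : 0 < p) (μ : Measure UnitAddCircle) [IsProbabilityMeasure μ] (n : ℕ) :
    Hn p μ n ≤ n * Real.log p := by
  have h1 := sum_negMulLog_le (range (p ^ n)) (fun k => μ.real {x | cell p n x = k})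
    (fun _ _ => measureReal_nonneg) (K := p ^ n) (by positivity) (by simp)
  have hPtot : ∑ k ∈ range (p ^ n), μ.real {x | cell p n x = k} = 1 := by
    rw [← measureReal_biUnion_finset]
    · have : (⋃ k ∈ range (p ^ n), {x : UnitAddCircle | cell p n x = k}) = Set.univ := by
        ext x
        simp only [Set.mem_iUnion, Set.mem_univ, iff_true, Finset.mem_range]
        exact ⟨cell p n x, cell_lt hp0 n x, rfl⟩
      rw [this]
      simp
    · intro k _ k' _ hkk
      refine Set.disjoint_left.2 fun x h1 h2 => hkk ?_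
      exact (show cell p n x = k from h1).symm.trans h2
    · intro k _; exact (measurable_cell n) (measurableSet_singleton _)
  rw [hPtot, Real.negMulLog_one, zero_add, one_mul] at h1
  push_cast at h1
  rw [Real.log_pow] at h1
  exact h1

lemma Hn_pow (l e : ℕ) (μ : Measure UnitAddCircle) (n : ℕ) :
    Hn l μ (e * n) = Hn (l ^ e) μ n := by
  unfold Hn cell
  push_cast
  simp only [pow_mul]

/-- the average of the images under the powers of `l` -/
noncomputable def avg (l e : ℕ) (μ : Measure UnitAddCircle) : Measure UnitAddCircle :=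
  (e : ℝ≥0∞)⁻¹ • ∑ i ∈ range e, μ.map (fun x : UnitAddCircle => l ^ i • x)

lemma avg_apply (l e : ℕ) (μ : Measure UnitAddCircle) {A : Set UnitAddCircle}
    (mA : MeasurableSet A) :
    avg l e μ A = (e : ℝ≥0∞)⁻¹ * ∑ i ∈ range e, μ ((fun x : UnitAddCircle => l ^ i • x) ⁻¹' A) := by
  unfold avg
  rw [Measure.smul_apply, Measure.finsetSum_apply, smul_eq_mul]
  congr 1
  refine Finset.sum_congr rfl fun i _ => ?_
  rw [Measure.map_apply measurable_nsmul' mA]

lemma avg_prob {l e : ℕ} (he : 0 < e) (μ : Measure UnitAddCircle) [IsProbabilityMeasure μ] :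
    IsProbabilityMeasure (avg l e μ) := by
  constructor
  rw [avg_apply l e μ MeasurableSet.univ]
  simp only [Set.preimage_univ, measure_univ, Finset.sum_const, Finset.card_range, nsmul_eq_mul,
    mul_one]
  exact ENNReal.inv_mul_cancel (by exact_mod_cast he.ne') (ENNReal.natCast_ne_top e)

lemma avg_inv {l e : ℕ} (μ : Measure UnitAddCircle) [IsProbabilityMeasure μ]
    (hinv : MeasurePreserving (fun x : UnitAddCircle => l ^ e • x) μ μ) :
    MeasurePreserving (fun x : UnitAddCircle => l • x) (avg l e μ) (avg l e μ) := by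
  refine ⟨measurable_nsmul', ?_⟩
  ext A mA
  have mA' : MeasurableSet ((fun x : UnitAddCircle => l • x) ⁻¹' A) := measurable_nsmul' mA
  rw [Measure.map_apply measurable_nsmul' mA, avg_apply l e μ mA', avg_apply l e μ mA]
  congr 1
  set a : ℕ → ℝ≥0∞ := fun i => μ ((fun x : UnitAddCircle => l ^ i • x) ⁻¹' A) with ha
  have h1 : ∀ i, μ ((fun x : UnitAddCircle => l ^ i • x) ⁻¹'
      ((fun x : UnitAddCircle => l • x) ⁻¹' A)) = a (i + 1) := by
    intro i
    simp only [ha]
    congr 1
    ext x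
    simp only [Set.mem_preimage, smul_smul]
    rw [pow_succ, mul_comm]
  simp only [h1]
  have h2 : a e = a 0 := by
    simp only [ha]
    rw [hinv.measure_preimage mA.nullMeasurableSet]
    congr 1
    ext x
    simp
  have h3 := Finset.sum_range_succ a e
  rw [Finset.sum_range_succ', h2] at h3
  exact (ENNReal.add_left_inj (measure_ne_top _ _)).1 h3

lemma ac_avg {l e : ℕ} (he : 0 < e) (μ : Measure UnitAddCircle) : μ ≪ avg l e μ := by
  refine Measure.AbsolutelyContinuous.mk fun A mA h => ?_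
  rw [avg_apply l e μ mA, mul_eq_zero] at h
  rcases h with h | h
  · exact absurd h (ENNReal.inv_ne_zero.2 (ENNReal.natCast_ne_top e))
  · have h1 := (Finset.sum_eq_zero_iff.1 h) 0 (Finset.mem_range.2 he)
    have h2 : (fun x : UnitAddCircle => l ^ 0 • x) ⁻¹' A = A := by
      ext x; simp
    rwa [h2] at h1

lemma preimage_pow {l : ℕ} {B : Set UnitAddCircle}
    (hB : (fun x : UnitAddCircle => l • x) ⁻¹' B = B) (i : ℕ) :
    (fun x : UnitAddCircle => l ^ i • x) ⁻¹' B = B := by
  induction i with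
  | zero => ext x; simp
  | succ i ih =>
    ext x
    have h1 : l ^ (i + 1) • x = l ^ i • (l • x) := by rw [smul_smul, pow_succ]
    have h2 : (l ^ i • (l • x) ∈ B) ↔ (l • x ∈ B) := by
      have : (l • x ∈ (fun x : UnitAddCircle => l ^ i • x) ⁻¹' B) ↔ (l • x ∈ B) := by rw [ih]
      exact this
    have h3 : (l • x ∈ B) ↔ x ∈ B := by
      have : (x ∈ (fun x : UnitAddCircle => l • x) ⁻¹' B) ↔ (x ∈ B) := by rw [hB]
      exact this
    simp only [Set.mem_preimage, h1, h2, h3]

lemma avg_inv_set {l e : ℕ} (he : 0 < e) (μ : Measure UnitAddCircle) {B : Set UnitAddCircle}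
    (mB : MeasurableSet B) (hB : (fun x : UnitAddCircle => l • x) ⁻¹' B = B) :
    avg l e μ B = μ B := by
  rw [avg_apply l e μ mB]
  simp only [preimage_pow hB, Finset.sum_const, Finset.card_range, nsmul_eq_mul]
  rw [← mul_assoc, ENNReal.inv_mul_cancel (by exact_mod_cast he.ne') (ENNReal.natCast_ne_top e),
    one_mul]

lemma avg_cond {l e : ℕ} (he : 0 < e) (μ : Measure UnitAddCircle) {B : Set UnitAddCircle}
    (mB : MeasurableSet B) (hB : (fun x : UnitAddCircle => l • x) ⁻¹' B = B) :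
    (avg l e μ)[|B] = avg l e (μ[|B]) := by
  ext A mA
  rw [ProbabilityTheory.cond_apply mB, avg_inv_set he μ mB hB, avg_apply l e μ (mB.inter mA),
    avg_apply l e _ mA, ← mul_assoc, mul_comm (μ B)⁻¹, mul_assoc, Finset.mul_sum]
  congr 1
  refine Finset.sum_congr rfl fun i _ => ?_
  rw [ProbabilityTheory.cond_apply mB, Set.preimage_inter, preimage_pow hB]

lemma avg_real {l e : ℕ} (μ : Measure UnitAddCircle) [IsProbabilityMeasure μ]
    {A : Set UnitAddCircle} (mA : MeasurableSet A) :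
    (avg l e μ).real A =
      ∑ i ∈ range e, (e : ℝ)⁻¹ * μ.real ((fun x : UnitAddCircle => l ^ i • x) ⁻¹' A) := by
  rw [Measure.real, avg_apply l e μ mA, ENNReal.toReal_mul, ENNReal.toReal_inv,
    ENNReal.toReal_natCast, ENNReal.toReal_sum (fun _ _ => measure_ne_top _ _), Finset.mul_sum]
  rfl

lemma Hn_avg {l e : ℕ} (he : 0 < e) (μ : Measure UnitAddCircle) [IsProbabilityMeasure μ]
    (n : ℕ) : (e : ℝ)⁻¹ * Hn l μ n ≤ Hn l (avg l e μ) n := by
  have heR : (0 : ℝ) < e := by exact_mod_cast he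
  unfold Hn
  rw [Finset.mul_sum]
  refine Finset.sum_le_sum fun k _ => ?_
  have mA : MeasurableSet {x : UnitAddCircle | cell l n x = k} :=
    (measurable_cell n) (measurableSet_singleton _)
  rw [avg_real μ mA]
  have h1 := Real.concaveOn_negMulLog.le_map_sum (t := range e) (w := fun _ => (e : ℝ)⁻¹)
    (p := fun i => μ.real ((fun x : UnitAddCircle => l ^ i • x) ⁻¹'
      {x : UnitAddCircle | cell l n x = k})) (fun _ _ => by positivity)
    (by rw [Finset.sum_const, Finset.card_range, nsmul_eq_mul, mul_inv_cancel₀ heR.ne'])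
    (fun _ _ => measureReal_nonneg)
  simp only [smul_eq_mul] at h1
  refine le_trans ?_ h1
  have h2 : ∀ i ∈ range e, 0 ≤ (e : ℝ)⁻¹ * Real.negMulLog (μ.real ((fun x : UnitAddCircle =>
      l ^ i • x) ⁻¹' {x : UnitAddCircle | cell l n x = k})) := fun i _ =>
    mul_nonneg (by positivity) (Real.negMulLog_nonneg measureReal_nonneg measureReal_le_one)
  have h3 := Finset.single_le_sum h2 (Finset.mem_range.2 he)
  have h4 : (fun x : UnitAddCircle => l ^ 0 • x) ⁻¹' {x : UnitAddCircle | cell l n x = k} =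
      {x : UnitAddCircle | cell l n x = k} := by
    ext x; simp
  rwa [h4] at h3

lemma ent_avg {l e : ℕ} (hl : 2 ≤ l) (he : 0 < e) (μ : Measure UnitAddCircle)
    [IsProbabilityMeasure μ] (h : 0 < ent (l ^ e) μ) : 0 < ent l (avg l e μ) := by
  have heR : (0 : ℝ) < e := by exact_mod_cast he
  have hprob := avg_prob (l := l) he μ
  set h0 := ent (l ^ e) μ with hh0
  have hcob : IsCoboundedUnder (· ≤ ·) atTop (fun n : ℕ => Hn (l ^ e) μ n / (n : ℝ)) :=
    IsBoundedUnder.isCoboundedUnder_le (isBoundedUnder_of ⟨0, fun n : ℕ =>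
      div_nonneg (Hn_nonneg μ n) (Nat.cast_nonneg n)⟩)
  have hfr : ∃ᶠ n : ℕ in atTop, h0 / 2 < Hn (l ^ e) μ n / (n : ℝ) :=
    frequently_lt_of_lt_limsup hcob
      (show h0 / 2 < limsup (fun n : ℕ => Hn (l ^ e) μ n / (n : ℝ)) atTop by
        have : h0 = limsup (fun n : ℕ => Hn (l ^ e) μ n / (n : ℝ)) atTop := rfl
        rw [← this]
        linarith)
  have hlim : h0 / 2 / (e : ℝ) ^ 2 ≤ limsup (fun n : ℕ => Hn l (avg l e μ) n / (n : ℝ)) atTop := by
    refine le_limsup_of_frequently_le ?_ ?_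
    · rw [Filter.frequently_atTop]
      intro N
      obtain ⟨n, hn, hn2⟩ := (Filter.frequently_atTop.1 hfr) (N + 1)
      have hn0 : (0 : ℝ) < n := by
        have : 0 < n := by omega
        exact_mod_cast this
      refine ⟨e * n, ?_, ?_⟩
      · have : n ≤ e * n := Nat.le_mul_of_pos_left n he
        omega
      · have h1 := Hn_avg (l := l) he μ (e * n)
        rw [Hn_pow] at h1
        rw [lt_div_iff₀ hn0] at hn2
        push_cast
        rw [div_le_div_iff₀ (by positivity) (by positivity)]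
        have h2 : (e : ℝ)⁻¹ * (h0 / 2 * n) ≤ Hn l (avg l e μ) (e * n) :=
          (mul_le_mul_of_nonneg_left hn2.le (by positivity)).trans h1
        have h3 : h0 / 2 * (e * n) = (e : ℝ)⁻¹ * (h0 / 2 * n) * (e : ℝ) ^ 2 := by
          field_simp
        rw [h3]
        exact mul_le_mul_of_nonneg_right h2 (by positivity)
    · refine isBoundedUnder_of ⟨Real.log l, fun n => ?_⟩
      rcases Nat.eq_zero_or_pos n with h | h
      · subst h
        simp only [Nat.cast_zero, div_zero]
        exact Real.log_nonneg (by exact_mod_cast (by omega : 1 ≤ l))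
      · have hn0 : (0 : ℝ) < n := by exact_mod_cast h
        rw [div_le_iff₀ hn0]
        have := Hn_le (p := l) (by omega) (avg l e μ) n
        linarith
  show 0 < limsup (fun n : ℕ => Hn l (avg l e μ) n / (n : ℝ)) atTop
  have : 0 < h0 / 2 / (e : ℝ) ^ 2 := by positivity
  linarith

lemma posEnt_avg {l e : ℕ} (hl : 2 ≤ l) (he : 0 < e) (μ : Measure UnitAddCircle)
    [IsProbabilityMeasure μ] (h : PosEnt (l ^ e) μ) : PosEnt l (avg l e μ) := by
  intro B mB hB hB0
  rw [avg_inv_set he μ mB hB] at hB0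
  have h1 := h B mB (preimage_pow hB e) hB0
  rw [avg_cond he μ mB hB]
  have : IsProbabilityMeasure (μ[|B]) := ProbabilityTheory.cond_isProbabilityMeasure hB0.ne'
  exact ent_avg hl he _ h1

/-- **Asymptotic independence for units**, base a power of a prime. -/
theorem mix_pow {l e : ℕ} (hl : l.Prime) (he : 0 < e) (μ ν : Measure UnitAddCircle)
    [IsProbabilityMeasure μ] [IsProbabilityMeasure ν]
    (hinv : MeasurePreserving (fun x : UnitAddCircle => l ^ e • x) μ μ)
    (hent : PosEnt (l ^ e) μ) (hν : ν ≪ μ) (S : Finset ℕ) {k : ℕ} (s : ℕ → Fin k → ℕ)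
    (hs : ∀ t i, s t i ≠ 0) (hS : ∀ t i, (s t i).primeFactors ⊆ S)
    (h1 : ∀ (i : Fin k) (a : ℕ), {t | ∃ v : ℕ, s t i = a * l ^ v}.Finite)
    (h2 : ∀ i j : Fin k, i ≠ j → ∀ r : ℚ, {t | (s t i : ℚ) / s t j = r}.Finite)
    (f : C(Fin k → UnitAddCircle, ℂ)) :
    Tendsto (fun t => ∫ x, f (fun i => s t i • x) ∂ν) atTop (𝓝 (∫ y, f y)) := by
  have := avg_prob (l := l) he μ
  exact mix_units hl (avg l e μ) ν (avg_inv μ hinv) (posEnt_avg hl.two_le he μ hent)
    (hν.trans (ac_avg he μ)) S s hs hS h1 h2 f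

/-- powers of one number -/
theorem mix_one {l e : ℕ} (hl : l.Prime) (he : 0 < e) (μ ν : Measure UnitAddCircle)
    [IsProbabilityMeasure μ] [IsProbabilityMeasure ν]
    (hinv : MeasurePreserving (fun x : UnitAddCircle => l ^ e • x) μ μ)
    (hent : PosEnt (l ^ e) μ) (hν : ν ≪ μ) {q : ℕ} (hq : 2 ≤ q) (hql : ∀ v : ℕ, q ≠ l ^ v)
    {k : ℕ} (n : ℕ → Fin k → ℕ) (hn : ∀ i, Tendsto (fun t => n t i) atTop atTop)
    (hn2 : ∀ i j, i ≠ j → Tendsto (fun t => |(n t i : ℤ) - n t j|) atTop atTop)
    (f : C(Fin k → UnitAddCircle, ℂ)) :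
    Tendsto (fun t => ∫ x, f (fun i => q ^ n t i • x) ∂ν) atTop (𝓝 (∫ y, f y)) := by
  have hq0 : q ≠ 0 := by omega
  refine mix_pow hl he μ ν hinv hent hν q.primeFactors (fun t i => q ^ n t i)
    (fun t i => pow_ne_zero _ hq0) (fun t i => ?_) (fun i a => ?_) (fun i j hij r => ?_) f
  · rcases Nat.eq_zero_or_pos (n t i) with h | h
    · simp [h]
    · rw [Nat.primeFactors_pow q h.ne']
  · obtain ⟨w, q', hq', hw⟩ := Nat.exists_eq_pow_mul_and_not_dvd (n := q) hq0 l hl.one_lt.ne'
    have hq2 : 2 ≤ q' := by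
      rcases Nat.lt_or_ge q' 2 with h2 | h2
      · exfalso
        interval_cases q'
        · exact hq' (dvd_zero l)
        · exact hql w (by rw [hw, mul_one])
      · exact h2
    have hfin : {t | n t i ≤ a}.Finite := by
      have h3 : ∀ᶠ t in atTop, a < n t i := (hn i).eventually_gt_atTop a
      rw [← Nat.cofinite_eq_atTop, Filter.eventually_cofinite] at h3
      refine h3.subset fun t ht => ?_
      simpa using ht
    refine hfin.subset ?_
    rintro t ⟨v, hv⟩
    show n t i ≤ a
    have ha : a ≠ 0 := by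
      rintro rfl
      rw [zero_mul] at hv
      exact pow_ne_zero _ hq0 hv
    have h3 : q' ^ n t i ∣ a * l ^ v := by
      rw [← hv, hw, mul_pow]
      exact dvd_mul_left _ _
    have h4 : Nat.Coprime (q' ^ n t i) (l ^ v) :=
      Nat.Coprime.pow _ _ ((Nat.Prime.coprime_iff_not_dvd hl).2 hq').symm
    have h5 : q' ^ n t i ≤ a := Nat.le_of_dvd (Nat.pos_of_ne_zero ha) (h4.dvd_of_dvd_mul_right h3)
    exact (Nat.lt_pow_self (by omega : 1 < q')).le.trans h5
  · rcases Set.eq_empty_or_nonempty {t | ((q ^ n t i : ℕ) : ℚ) / (q ^ n t j : ℕ) = r} with h | h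
    · exact h ▸ Set.finite_empty
    · obtain ⟨t0, ht0⟩ := h
      have hqQ : (1 : ℚ) < q := by exact_mod_cast (by omega : 1 < q)
      have hqQ0 : (q : ℚ) ≠ 0 := by positivity
      have hz : ∀ t, ((q ^ n t i : ℕ) : ℚ) / (q ^ n t j : ℕ) = (q : ℚ) ^ ((n t i : ℤ) - n t j) := by
        intro t
        rw [zpow_sub₀ hqQ0, zpow_natCast, zpow_natCast]
        push_cast
        rfl
      have hfin : {t | |(n t i : ℤ) - n t j| ≤ |(n t0 i : ℤ) - n t0 j|}.Finite := by
        have h3 : ∀ᶠ t in atTop, |(n t0 i : ℤ) - n t0 j| < |(n t i : ℤ) - n t j| :=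
          (hn2 i j hij).eventually_gt_atTop _
        rw [← Nat.cofinite_eq_atTop, Filter.eventually_cofinite] at h3
        refine h3.subset fun t ht => ?_
        simpa using ht
      refine hfin.subset fun t ht => ?_
      have h3 : ((q ^ n t i : ℕ) : ℚ) / (q ^ n t j : ℕ) = r := ht
      have h4 : ((q ^ n t0 i : ℕ) : ℚ) / (q ^ n t0 j : ℕ) = r := ht0
      rw [hz] at h3 h4
      have h5 : (n t i : ℤ) - n t j = (n t0 i : ℤ) - n t0 j :=
        zpow_right_injective₀ (by positivity) hqQ.ne' (h3.trans h4.symm)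
      show |(n t i : ℤ) - n t j| ≤ |(n t0 i : ℤ) - n t0 j|
      rw [h5]

end Pool.Agent.TH338.LG
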