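import Mathlib
import Pool.Agent.TH338.LG.Ar
import Pool.Agent.TH338.LG.Wt
import Pool.Agent.TH338.LG.Meas

/-! Infinite sets of constraints force subexponentially many words. -/

set_option autoImplicit false
open MeasureTheory Finset Filter Topology
open scoped ENNReal

namespace Pool.Agent.TH338.LG

/-- value of a word, lowest digit first -/
def lv : List Bool → ℕ
  | [] => 0
  | a :: w => (if a then 1 else 0) + 3 * lv w

/-- the lowest `T` ternary digits of `m` are not `2` -/
def om (m T : ℕ) : Prop := ∀ k < T, m / 3 ^ k % 3 ≠ 2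

lemma om_mod {m T : ℕ} (h : om m T) : ∀ k ≤ T, 2 * (m % 3 ^ k) < 3 ^ k := by
  intro k
  induction k with
  | zero => intro _; simp [Nat.mod_one]
  | succ k ih =>
    intro hk
    have h1 := ih (by omega)
    have h2 := h k (by omega)
    have h3 : m / 3 ^ k % 3 < 3 := Nat.mod_lt _ (by norm_num)
    rw [Nat.mod_pow_succ, pow_succ]
    have h4 : m / 3 ^ k % 3 ≤ 1 := by omega
    have h5 : 3 ^ k * (m / 3 ^ k % 3) ≤ 3 ^ k * 1 := Nat.mul_le_mul_left _ h4
    omega

lemma lv_append (u v : List Bool) : lv (u ++ v) = lv u + 3 ^ u.length * lv v := by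
  induction u with
  | nil => simp [lv]
  | cons a u ih =>
    rw [List.cons_append, lv, ih, lv, List.length_cons, pow_succ]
    ring

open Classical in
/-- words compatible with the constraints `S` up to a carry -/
noncomputable def WT (S : Set ℕ) (T : ℕ) : Finset (List Bool) :=
  (List.finite_length_eq Bool T).toFinset.filter
    (fun w => ∀ n ∈ S, ∃ c < 2 ^ n, om (2 ^ n * lv w + c) T)

lemma mem_WT {S : Set ℕ} {T : ℕ} {w : List Bool} :
    w ∈ WT S T ↔ w.length = T ∧ ∀ n ∈ S, ∃ c < 2 ^ n, om (2 ^ n * lv w + c) T := by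
  classical
  simp [WT]

/-! ### the value of a point -/

noncomputable def xval (ω : SX) : ℝ := ∑' i : ℕ, bit (ω i) / 3 ^ (i + 1)

lemma bit_nonneg (a : Bool) : 0 ≤ bit a := by cases a <;> simp [bit]
lemma bit_le_one (a : Bool) : bit a ≤ 1 := by cases a <;> simp [bit]

lemma summable_third : Summable (fun i : ℕ => (1 : ℝ) / 3 ^ (i + 1)) := by
  have h : Summable (fun i : ℕ => ((1 : ℝ) / 3) ^ i) :=
    summable_geometric_of_lt_one (by norm_num) (by norm_num)
  refine (h.mul_left (1 / 3)).congr fun i => ?_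
  rw [pow_succ, div_pow, one_pow]
  field_simp

lemma summable_x (ω : SX) : Summable (fun i : ℕ => bit (ω i) / (3 : ℝ) ^ (i + 1)) := by
  refine Summable.of_nonneg_of_le (fun i => div_nonneg (bit_nonneg _) (by positivity))
    (fun i => ?_) summable_third
  exact div_le_div_of_nonneg_right (bit_le_one _) (by positivity)

lemma cont_xval : Continuous xval := by
  refine continuous_tsum (fun i => ?_) summable_third (fun i ω => ?_)
  · exact ((continuous_of_discreteTopology (f := bit)).comp (continuous_apply i)).div_const _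
  · rw [Real.norm_eq_abs, abs_of_nonneg (div_nonneg (bit_nonneg _) (by positivity))]
    exact div_le_div_of_nonneg_right (bit_le_one _) (by positivity)

lemma xval_step (ω : SX) : 3 * xval ω = bit (ω 0) + xval (sh ω) := by
  unfold xval
  rw [(summable_x ω).tsum_eq_zero_add, mul_add, ← tsum_mul_left]
  congr 1
  · rw [zero_add, pow_one]; ring
  · refine tsum_congr fun i => ?_
    simp only [sh]
    rw [pow_succ (3 : ℝ) (i + 1)]
    field_simp

lemma xval_cns (a : Bool) (ω : SX) : xval (cns a ω) = (bit a + xval ω) / 3 := by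
  have := xval_step (cns a ω)
  rw [sh_cns] at this
  have h2 : cns a ω 0 = a := rfl
  rw [h2] at this
  linarith

lemma xval_nil : xval (ext []) = 0 := by
  unfold xval ext
  simp [bit]

lemma xval_ext (w : List Bool) : xval (ext w.reverse) = (lv w : ℝ) / 3 ^ w.length := by
  induction w using List.reverseRecOn with
  | nil => simp [xval_nil, lv]
  | append_singleton w a ih =>
    rw [List.reverse_append, List.reverse_singleton, List.singleton_append]
    have h1 := xval_step (ext (a :: w.reverse))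
    rw [sh_ext, ext_zero, ih] at h1
    have h2 : (lv (w ++ [a]) : ℝ) = lv w + 3 ^ w.length * bit a := by
      rw [lv_append]
      push_cast
      simp only [lv, bit]
      cases a <;> simp
    rw [h2, List.length_append, List.length_singleton, pow_succ]
    have h3 : xval (ext (a :: w.reverse)) = (bit a + (lv w : ℝ) / 3 ^ w.length) / 3 := by linarith
    rw [h3]
    field_simp
    ring

/-- the sine bound -/
lemma sin_bound {S : Set ℕ} {T n : ℕ} (hn : n ∈ S) {w : List Bool} (hw : w ∈ WT S T) {k : ℕ}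
    (hk : k ≤ T) : -(2 * Real.pi * 2 ^ n * (1 / 3 ^ k)) ≤
      Real.sin (2 * Real.pi * (2 ^ n * xval (ext (w.take k).reverse))) := by
  obtain ⟨hlen, hS⟩ := mem_WT.1 hw
  obtain ⟨c, hc, hom⟩ := hS n hn
  have hk' : (w.take k).length = k := by rw [List.length_take, hlen]; omega
  rw [xval_ext, hk']
  set lk := lv (w.take k) with hlk
  have h1 : lv w = lk + 3 ^ k * lv (w.drop k) := by
    conv_lhs => rw [← List.take_append_drop k w]
    rw [lv_append, hk']
  have h2 : (2 ^ n * lk + c) % 3 ^ k = (2 ^ n * lv w + c) % 3 ^ k := by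
    have : 2 ^ n * lv w + c = (2 ^ n * lk + c) + 3 ^ k * (2 ^ n * lv (w.drop k)) := by
      rw [h1]; ring
    rw [this, Nat.add_mul_mod_self_left]
  have h3 := om_mod hom k hk
  rw [← h2] at h3
  set ρ := (2 ^ n * lk + c) % 3 ^ k with hρ
  set j := (2 ^ n * lk + c) / 3 ^ k with hj
  have h4 : 2 ^ n * lk + c = 3 ^ k * j + ρ := (Nat.div_add_mod _ _).symm
  have h4' : (2 : ℝ) ^ n * lk + c = 3 ^ k * j + ρ := by exact_mod_cast h4
  have h3k : (0 : ℝ) < 3 ^ k := by positivity
  have h5 : 0 ≤ Real.sin (2 * Real.pi * (2 ^ n * ((lk : ℝ) / 3 ^ k) + c / 3 ^ k)) := by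
    have e1 : 2 * Real.pi * (2 ^ n * ((lk : ℝ) / 3 ^ k) + c / 3 ^ k) =
        2 * Real.pi * (ρ / 3 ^ k) + (j : ℕ) * (2 * Real.pi) := by
      have : 2 ^ n * ((lk : ℝ) / 3 ^ k) + c / 3 ^ k = ((2 : ℝ) ^ n * lk + c) / 3 ^ k := by
        field_simp
      rw [this, h4']
      field_simp
      ring
    rw [e1, Real.sin_add_nat_mul_two_pi]
    refine Real.sin_nonneg_of_nonneg_of_le_pi (by positivity) ?_
    have h6 : (2 : ℝ) * ρ < 3 ^ k := by exact_mod_cast h3
    have h7 : (2 : ℝ) * (ρ / 3 ^ k) ≤ 1 := by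
      rw [← mul_div_assoc, div_le_one h3k]
      exact h6.le
    calc 2 * Real.pi * ((ρ : ℝ) / 3 ^ k) = Real.pi * (2 * (ρ / 3 ^ k)) := by ring
      _ ≤ Real.pi * 1 := mul_le_mul_of_nonneg_left h7 Real.pi_pos.le
      _ = Real.pi := mul_one _
  have h8 : |Real.sin (2 * Real.pi * (2 ^ n * ((lk : ℝ) / 3 ^ k) + c / 3 ^ k)) -
      Real.sin (2 * Real.pi * (2 ^ n * ((lk : ℝ) / 3 ^ k)))| ≤ 2 * Real.pi * 2 ^ n * (1 / 3 ^ k) := by
    refine (Real.abs_sin_sub_sin_le _ _).trans ?_
    have e2 : 2 * Real.pi * (2 ^ n * ((lk : ℝ) / 3 ^ k) + c / 3 ^ k) -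
        2 * Real.pi * (2 ^ n * ((lk : ℝ) / 3 ^ k)) = 2 * Real.pi * c * (1 / 3 ^ k) := by ring
    rw [e2, abs_of_nonneg (by positivity)]
    have hc' : (c : ℝ) ≤ 2 ^ n := by exact_mod_cast hc.le
    refine mul_le_mul_of_nonneg_right ?_ (by positivity)
    exact mul_le_mul_of_nonneg_left hc' (by positivity)
  have := (abs_le.1 h8).2
  linarith

lemma sum_third (T : ℕ) : ∑ k ∈ range T, (1 : ℝ) / 3 ^ (k + 1) ≤ 1 := by
  have : ∑ k ∈ range T, (1 : ℝ) / 3 ^ (k + 1) = (1 - 1 / 3 ^ T) / 2 := by
    induction T with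
    | zero => simp
    | succ T ih =>
      rw [Finset.sum_range_succ, ih, pow_succ]
      field_simp
      ring
  rw [this]
  have : (0 : ℝ) ≤ 1 / 3 ^ T := by positivity
  linarith

/-- the character -/
noncomputable def eX (ω : SX) : ℂ := Complex.exp (((2 * Real.pi * xval ω : ℝ) : ℂ) * Complex.I)

lemma eX_pow (ω : SX) (N : ℕ) : eX ω ^ N =
    Complex.exp (((2 * Real.pi * (N * xval ω) : ℝ) : ℂ) * Complex.I) := by
  unfold eX
  rw [← Complex.exp_nat_mul]
  congr 1
  push_cast
  ring

lemma eX_pow_im (ω : SX) (N : ℕ) :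
    (eX ω ^ N).im = Real.sin (2 * Real.pi * (N * xval ω)) := by
  rw [eX_pow, Complex.exp_ofReal_mul_I_im]

lemma eX_norm (ω : SX) : ‖eX ω‖ = 1 := Complex.norm_exp_ofReal_mul_I _

lemma eX_cube (ω : SX) : eX ω ^ 3 = eX (sh ω) := by
  rw [eX_pow]
  have h := xval_step ω
  have h2 : (2 * Real.pi * (((3 : ℕ) : ℝ) * xval ω) : ℝ) =
      2 * Real.pi * bit (ω 0) + 2 * Real.pi * xval (sh ω) := by
    push_cast
    rw [h]; ring
  rw [h2]
  unfold eX
  cases h0 : ω 0
  · simp [bit]
  · simp only [bit, if_true, mul_one]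
    push_cast
    rw [add_mul, Complex.exp_add, Complex.exp_two_pi_mul_I, one_mul]

lemma meas_eX : Measurable eX := by
  have : Continuous eX := by
    unfold eX
    exact Complex.continuous_exp.comp
      ((Complex.continuous_ofReal.comp (continuous_const.mul cont_xval)).mul continuous_const)
  exact this.measurable

lemma cos_third {u : ℕ} (hu : ¬ 3 ∣ u) : Real.cos (2 * Real.pi * (u / 3)) = -(1 / 2) := by
  have h1 : Real.cos (2 * Real.pi / 3) = -(1 / 2) := by
    have : 2 * Real.pi / 3 = Real.pi - Real.pi / 3 := by ring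
    rw [this, Real.cos_pi_sub, Real.cos_pi_div_three]
  have h2 : Real.cos (4 * Real.pi / 3) = -(1 / 2) := by
    have : 4 * Real.pi / 3 = Real.pi / 3 + Real.pi := by ring
    rw [this, Real.cos_add_pi, Real.cos_pi_div_three]
  have h3 : u % 3 = 1 ∨ u % 3 = 2 := by omega
  have h4 : (u : ℝ) = 3 * ((u / 3 : ℕ) : ℝ) + ((u % 3 : ℕ) : ℝ) := by
    exact_mod_cast (Nat.div_add_mod u 3).symm
  rcases h3 with h3 | h3
  · rw [h3] at h4
    have : 2 * Real.pi * ((u : ℝ) / 3) = 2 * Real.pi / 3 + ((u / 3 : ℕ) : ℝ) * (2 * Real.pi) := by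
      rw [h4]; push_cast; ring
    rw [this, Real.cos_add_nat_mul_two_pi, h1]
  · rw [h3] at h4
    have : 2 * Real.pi * ((u : ℝ) / 3) = 4 * Real.pi / 3 + ((u / 3 : ℕ) : ℝ) * (2 * Real.pi) := by
      rw [h4]; push_cast; ring
    rw [this, Real.cos_add_nat_mul_two_pi, h2]

lemma vu_aux (w : Bool → SX → ℝ) (w1 : ∀ z, ∑ a, w a z = 1) {u : ℕ} (hu : ¬ 3 ∣ u) (z : SX) :
    3 * (w false z * w true z) ≤ 1 - ‖∑ a, w a z • eX (cns a z) ^ u‖ ^ 2 := by
  have h1 := w1 z
  rw [Fintype.sum_bool] at h1
  rw [Fintype.sum_bool]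
  set θ : ℂ := Complex.exp (((2 * Real.pi * (u * (xval z / 3)) : ℝ) : ℂ) * Complex.I) with hθ
  set ζ : ℂ := Complex.exp (((2 * Real.pi * (u / 3) : ℝ) : ℂ) * Complex.I) with hζ
  have e0 : eX (cns false z) ^ u = θ := by
    rw [eX_pow, xval_cns]
    simp [bit, hθ]
  have e1 : eX (cns true z) ^ u = θ * ζ := by
    rw [eX_pow, xval_cns, hθ, hζ, ← Complex.exp_add]
    congr 1
    simp only [bit, if_true]
    push_cast
    ring
  rw [e0, e1]
  have e2 : w true z • (θ * ζ) + w false z • θ = θ * ((w false z : ℂ) + (w true z : ℂ) * ζ) := by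
    simp only [Complex.real_smul]
    ring
  have hθ1 : ‖θ‖ = 1 := Complex.norm_exp_ofReal_mul_I _
  rw [e2, norm_mul, hθ1, one_mul, ← Complex.normSq_eq_norm_sq, Complex.normSq_apply]
  simp only [Complex.add_re, Complex.add_im, Complex.mul_re, Complex.mul_im, Complex.ofReal_re,
    Complex.ofReal_im]
  have hr : ζ.re = -(1 / 2) := by
    rw [hζ, Complex.exp_ofReal_mul_I_re, cos_third hu]
  have hi : ζ.re * ζ.re + ζ.im * ζ.im = 1 := by
    have h3 : ‖ζ‖ = 1 := Complex.norm_exp_ofReal_mul_I _
    have := Complex.normSq_eq_norm_sq ζ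
    rw [h3, Complex.normSq_apply] at this
    linarith
  have hi2 : ζ.im * ζ.im = 3 / 4 := by rw [hr] at hi; linarith
  rw [hr]
  have hw : w true z = 1 - w false z := by linarith
  have e3 : (0 + (w true z * ζ.im + 0 * -(1 / 2))) * (0 + (w true z * ζ.im + 0 * -(1 / 2))) =
      w true z * w true z * (3 / 4) := by
    have : (0 + (w true z * ζ.im + 0 * -(1 / 2))) * (0 + (w true z * ζ.im + 0 * -(1 / 2))) =
      w true z * w true z * (ζ.im * ζ.im) := by ring
    rw [this, hi2]
  rw [e3, hw]
  apply le_of_eq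
  ring

/-- the conditional variance is positive -/
lemma int_var_pos (μ : Measure SX) [IsProbabilityMeasure μ] (w : Bool → SX → ℝ)
    (mw : ∀ a, Measurable (w a)) (w0 : ∀ a z, 0 ≤ w a z) (w1 : ∀ z, ∑ a, w a z = 1)
    (inv : ∀ F : SX → ℂ, Measurable F → (∃ C : ℝ, ∀ z, ‖F z‖ ≤ C) →
        ∫ z, ∑ a, w a z • F (cns a z) ∂μ = ∫ z, F z ∂μ)
    (c : ℝ) (hc : 0 < c) (hP : ∀ g : SX → ℝ, Continuous g →
        c ≤ ∫ ω, (bit (ω 0) - g (sh ω)) ^ 2 ∂μ) :
    0 < ∫ z, 3 * (w false z * w true z) ∂μ := by
  have hw1 : ∀ z, w false z = 1 - w true z := fun z => by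
    have := w1 z
    rw [Fintype.sum_bool] at this
    linarith
  have wle : ∀ a z, w a z ≤ 1 := fun a z => by
    have h1 := hw1 z
    have h2 := w0 true z
    have h3 := w0 false z
    cases a <;> linarith
  have invR : ∀ F : SX → ℝ, Measurable F → (∀ z, |F z| ≤ 1) →
      ∫ z, (w true z * F (cns true z) + w false z * F (cns false z)) ∂μ = ∫ z, F z ∂μ := by
    intro F mF hF
    have h1 := inv (fun z => (F z : ℂ)) (Complex.measurable_ofReal.comp mF)
      ⟨1, fun z => by simpa using hF z⟩
    have h2 : ∀ z, ∑ a, w a z • ((F (cns a z) : ℝ) : ℂ) =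
        (((w true z * F (cns true z) + w false z * F (cns false z) : ℝ)) : ℂ) := by
      intro z
      rw [Fintype.sum_bool]
      simp only [Complex.real_smul]
      push_cast
      ring
    simp only [h2] at h1
    rw [integral_complex_ofReal, integral_complex_ofReal] at h1
    exact_mod_cast h1
  have iw : Integrable (w true) μ := Integrable.of_bound (mw true).aestronglyMeasurable 1
    (Eventually.of_forall fun z => by
      rw [Real.norm_eq_abs, abs_of_nonneg (w0 _ _)]; exact wle _ _)
  obtain ⟨g0, hg0, ig0⟩ := iw.exists_boundedContinuous_integral_sub_le (ε := c / 2) (by positivity)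
  set g : SX → ℝ := fun z => max 0 (min 1 (g0 z)) with hg
  have cg : Continuous g := continuous_const.max (continuous_const.min g0.continuous)
  have g00 : ∀ z, 0 ≤ g z := fun z => le_max_left _ _
  have g01 : ∀ z, g z ≤ 1 := fun z => max_le zero_le_one (min_le_left _ _)
  have hclip : ∀ z, |w true z - g z| ≤ |w true z - g0 z| := by
    intro z
    have h1 := w0 true z
    have h2 := wle true z
    simp only [hg]
    rcases le_total (g0 z) 0 with h | h
    · rw [min_eq_right (by linarith), max_eq_left h, sub_zero, abs_of_nonneg h1,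
        abs_of_nonneg (by linarith)]
      linarith
    · rcases le_total (g0 z) 1 with h' | h'
      · rw [min_eq_right h', max_eq_right h]
      · rw [min_eq_left h', max_eq_right zero_le_one, abs_of_nonpos (by linarith),
          abs_of_nonpos (by linarith)]
        linarith
  have h1 := hP g cg
  have mF : Measurable (fun ω : SX => (bit (ω 0) - g (sh ω)) ^ 2) :=
    ((cont_bit0.sub (cg.comp cont_sh)).pow 2).measurable
  rw [← invR _ mF ?_] at h1
  swap
  · intro ω
    rw [abs_of_nonneg (by positivity)]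
    have a1 := bit_nonneg (ω 0)
    have a2 := bit_le_one (ω 0)
    have a3 := g00 (sh ω)
    have a4 := g01 (sh ω)
    have : |bit (ω 0) - g (sh ω)| ≤ 1 := by
      rw [abs_le]; constructor <;> linarith
    rw [← sq_abs]
    exact pow_le_one₀ (abs_nonneg _) this
  have h2 : ∀ z, w true z * (bit (cns true z 0) - g (sh (cns true z))) ^ 2 +
      w false z * (bit (cns false z 0) - g (sh (cns false z))) ^ 2 =
      (w true z - g z) ^ 2 + w false z * w true z := by
    intro z
    rw [sh_cns, sh_cns]
    have e1 : bit (cns true z 0) = 1 := by simp [cns, bit]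
    have e2 : bit (cns false z 0) = 0 := by simp [cns, bit]
    rw [e1, e2, hw1]
    ring
  simp only [h2] at h1
  have mg : Measurable g := cg.measurable
  have i1 : Integrable (fun z => (w true z - g z) ^ 2) μ :=
    Integrable.of_bound (((mw true).sub mg).pow_const 2).aestronglyMeasurable 1
      (Eventually.of_forall fun z => by
        rw [Real.norm_eq_abs, abs_of_nonneg (by positivity), ← sq_abs]
        refine pow_le_one₀ (abs_nonneg _) ?_
        have a1 := w0 true z
        have a2 := wle true z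
        have a3 := g00 z
        have a4 := g01 z
        rw [abs_le]; constructor <;> linarith)
  have i2 : Integrable (fun z => w false z * w true z) μ :=
    Integrable.of_bound ((mw false).mul (mw true)).aestronglyMeasurable 1
      (Eventually.of_forall fun z => by
        rw [Real.norm_eq_abs, abs_of_nonneg (mul_nonneg (w0 _ _) (w0 _ _))]
        exact mul_le_one₀ (wle _ _) (w0 _ _) (wle _ _))
  rw [integral_add i1 i2] at h1
  have h3 : ∫ z, (w true z - g z) ^ 2 ∂μ ≤ c / 2 := by
    refine le_trans ?_ hg0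
    refine integral_mono_of_nonneg (Eventually.of_forall fun z => by positivity)
      ((iw.sub ig0).norm) (Eventually.of_forall fun z => ?_)
    have a1 := w0 true z
    have a2 := wle true z
    have a3 := g00 z
    have a4 := g01 z
    have a5 : |w true z - g z| ≤ 1 := by rw [abs_le]; constructor <;> linarith
    show (w true z - g z) ^ 2 ≤ ‖w true z - g0 z‖
    rw [← sq_abs, Real.norm_eq_abs, pow_two]
    calc |w true z - g z| * |w true z - g z| ≤ |w true z - g z| * 1 :=
          mul_le_mul_of_nonneg_left a5 (abs_nonneg _)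
      _ = |w true z - g z| := mul_one _
      _ ≤ _ := hclip z
  rw [integral_const_mul]
  have : 0 < ∫ z, w false z * w true z ∂μ := by linarith
  positivity

/-- **Theorem.** Infinitely many constraints leave subexponentially many words. -/
theorem count (S : Set ℕ) (hS : S.Infinite) (ε : ℝ) (hε : 0 < ε) :
    ∃ T : ℕ, 1 ≤ T ∧ ((WT S T).card : ℝ) < Real.exp (ε * T) := by
  classical
  by_contra hcon
  push Not at hcon
  obtain ⟨μ, hμ, hinv, ⟨c, hc, hP⟩, hvan⟩ := exists_meas hε (WT S)
    (fun T w hw => (mem_WT.1 hw).1) hcon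
  obtain ⟨w, mw, w0, w1, winv⟩ := exists_weights μ sh cont_sh.measurable hinv cns
    (fun a => (cont_cns a).measurable) (fun ω => ω 0)
    (fun a => (measurable_pi_apply 0) (measurableSet_singleton a)) cns_sh
  have hv := int_var_pos μ w mw w0 w1 winv c hc hP
  set v : SX → ℝ := fun z => 3 * (w false z * w true z) with hvdef
  have mv : Measurable v := (((mw false).mul (mw true))).const_mul 3
  have v0 : ∀ z, 0 ≤ v z := fun z => by
    have := w0 false z
    have := w0 true z
    positivity
  obtain ⟨μ', hμ', hac, winv', hpos⟩ := exists_cond μ sh cont_sh.measurable cns w w1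
    (fun a z => sh_cns a z) winv v mv v0 hv
  set Y : Sys 3 SX Bool :=
    { σ := sh
      c := cns
      w := w
      e := eX
      v := v
      μ := μ'
      prob := hμ'
      hσ := cont_sh.measurable
      hc := fun a => (cont_cns a).measurable
      hw := mw
      he := meas_eX
      hv := mv
      w0 := w0
      w1 := w1
      σc := sh_cns
      e1 := eX_norm
      eb := eX_cube
      v0 := v0
      vu := fun u hu z => vu_aux w w1 hu z
      inv := winv'
      pos := hpos } with hY
  have : Fact (Nat.Prime 3) := ⟨Nat.prime_three⟩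
  set n : ℕ → ℕ := Nat.nth (· ∈ S) with hn
  have nmono : StrictMono n := Nat.nth_strictMono hS
  have nmem : ∀ j, n j ∈ S := fun j => Nat.nth_mem_of_infinite hS j
  have hsin : ∀ j, ∀ᵐ z ∂μ', 0 ≤ (eX z ^ (2 ^ (n j))).im := by
    intro j
    refine hac.ae_le ?_
    set F : SX → ℝ := fun z => max 0 (-(Real.sin (2 * Real.pi * (2 ^ (n j) * xval z)))) with hF
    have cF : Continuous F := continuous_const.max
      ((Real.continuous_sin.comp (continuous_const.mul (continuous_const.mul cont_xval))).neg)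
    have h1 := hvan F cF (fun z => le_max_left _ _) ⟨2 * Real.pi * 2 ^ (n j), ?_⟩
    · have i1 : Integrable F μ := Integrable.of_bound cF.aestronglyMeasurable 1
        (Eventually.of_forall fun z => by
          rw [Real.norm_eq_abs, abs_of_nonneg (le_max_left _ _)]
          refine max_le zero_le_one ?_
          have := Real.neg_one_le_sin (2 * Real.pi * (2 ^ (n j) * xval z))
          linarith)
      have h2 := (integral_eq_zero_iff_of_nonneg (fun z => le_max_left _ _) i1).1 h1
      filter_upwards [h2] with z hz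
      have h3 : F z = 0 := hz
      rw [eX_pow_im]
      push_cast
      have h4 : -(Real.sin (2 * Real.pi * (2 ^ (n j) * xval z))) ≤ F z := le_max_right _ _
      linarith
    · intro T w hw
      calc ∑ k ∈ range T, F (ext (w.take (k + 1)).reverse) ≤
            ∑ k ∈ range T, 2 * Real.pi * 2 ^ (n j) * (1 / 3 ^ (k + 1)) := by
            refine Finset.sum_le_sum fun k hk => ?_
            have := sin_bound (nmem j) hw (k := k + 1) (by
              have := Finset.mem_range.1 hk; omega)
            refine max_le (by positivity) ?_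
            linarith
        _ = 2 * Real.pi * 2 ^ (n j) * ∑ k ∈ range T, (1 : ℝ) / 3 ^ (k + 1) := by
            rw [Finset.mul_sum]
        _ ≤ 2 * Real.pi * 2 ^ (n j) * 1 :=
            mul_le_mul_of_nonneg_left (sum_third T) (by positivity)
        _ = 2 * Real.pi * 2 ^ (n j) := mul_one _
  have h3n : ∀ m : ℕ, ¬ 3 ∣ 2 ^ m := by
    intro m h
    have := Nat.prime_three.dvd_of_dvd_pow h
    omega
  have hvpos := Y.int_v_pos (by norm_num)
  have hlow : ∀ j ∈ (Set.univ : Set ℕ), (∫ z, Y.v z ∂Y.μ) / 4 ≤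
      ‖∫ z, Y.e z ^ (2 ^ (n j)) ∂Y.μ‖ := by
    intro j _
    have h1 := Y.low (2 ^ (n j)) (by
      have := h3n (n j + 1)
      rwa [pow_succ, mul_comm] at this) (hsin j)
    have h2 : ∫ z, (Y.e z ^ (2 ^ (n j))).im ∂Y.μ ≤ ‖∫ z, Y.e z ^ (2 ^ (n j)) ∂Y.μ‖ := by
      have h3 : ∫ z, (Y.e z ^ (2 ^ (n j))).im ∂Y.μ = (∫ z, Y.e z ^ (2 ^ (n j)) ∂Y.μ).im := by
        have := integral_im (𝕜 := ℂ) (Y.integrable_bddC (F := fun z => Y.e z ^ (2 ^ (n j)))
          (Y.he.pow_const _) (C := 1) (fun z => (Y.e_pow_norm _ z).le))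
        simpa using this
      rw [h3]
      exact (le_abs_self _).trans (Complex.abs_im_le_norm _)
    linarith
  have hT := Y.core (fun j => 2 ^ (n j)) Set.univ Set.infinite_univ (fun j _ => h3n (n j)) _
    (by positivity) hlow
  have := ar (b := 3) (q := 2) le_rfl (by norm_num) 1 one_ne_zero n nmono Set.univ
  apply this
  simpa using hT

end Pool.Agent.TH338.LG
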