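import Mathlib
import Pool.Agent.TH338.LG.Cnt

/-! The dimension bound in the `3`-adic integers. -/

set_option autoImplicit false
open MeasureTheory Finset Filter Topology
open scoped ENNReal NNReal MeasureTheory

namespace Pool.Agent.TH338.LG

/-- `y` omits the digit `2` -/
def Om (y : ℤ_[3]) : Prop := ∀ k : ℕ, y.appr (k + 1) / 3 ^ k ≠ 2

lemma val_toZModPow (y : ℤ_[3]) (n : ℕ) : (PadicInt.toZModPow n y).val = y.appr n := by
  have h1 : PadicInt.toZModPow n y = ((y.appr n : ℕ) : ZMod (3 ^ n)) := by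
    have h2 := PadicInt.appr_spec n y
    rw [← PadicInt.ker_toZModPow, RingHom.mem_ker, map_sub, sub_eq_zero, map_natCast] at h2
    exact h2
  rw [h1, ZMod.val_natCast, Nat.mod_eq_of_lt (PadicInt.appr_lt y n)]

lemma appr_mod (x : ℤ_[3]) {m n : ℕ} (h : m ≤ n) : x.appr n % 3 ^ m = x.appr m := by
  have h1 : x.appr n ≡ x.appr m [MOD 3 ^ m] := appr_congr (by simp) _ _ h le_rfl
  have h2 : x.appr n % 3 ^ m = x.appr m % 3 ^ m := h1
  rw [h2, Nat.mod_eq_of_lt (PadicInt.appr_lt x m)]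

lemma appr_pow_mul (x : ℤ_[3]) (n : ℕ) {m M : ℕ} (h : m ≤ M) :
    ((2 : ℤ_[3]) ^ n * x).appr m = (2 ^ n * x.appr M) % 3 ^ m := by
  have h1 : ((2 : ℤ_[3]) ^ n * x).appr m ≡ 2 ^ n * x.appr M [MOD 3 ^ m] := by
    apply modEq_of_dvd
    have h2 := appr_dvd ((2 : ℤ_[3]) ^ n * x) m
    have h3 : ((3 : ℕ) : ℤ_[3]) ^ m ∣ x - (x.appr M : ℤ_[3]) :=
      (pow_dvd_pow _ h).trans (appr_dvd x M)
    have h4 : (((2 : ℤ_[3]) ^ n * x).appr m : ℤ_[3]) - ((2 ^ n * x.appr M : ℕ) : ℤ_[3]) =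
        (2 : ℤ_[3]) ^ n * (x - (x.appr M : ℤ_[3])) -
        ((2 : ℤ_[3]) ^ n * x - (((2 : ℤ_[3]) ^ n * x).appr m : ℤ_[3])) := by
      push_cast
      ring
    rw [h4]
    exact dvd_sub (h3.mul_left _) h2
  have h2 : ((2 : ℤ_[3]) ^ n * x).appr m % 3 ^ m = (2 ^ n * x.appr M) % 3 ^ m := h1
  rwa [Nat.mod_eq_of_lt (PadicInt.appr_lt _ m)] at h2

/-- the digits in terms of a finite approximation -/
lemma Om.digit {x : ℤ_[3]} {n : ℕ} (h : Om ((2 : ℤ_[3]) ^ n * x)) {k M : ℕ} (hk : k < M) :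
    (2 ^ n * x.appr M) / 3 ^ k % 3 ≠ 2 := by
  have h1 := h k
  rw [appr_pow_mul x n (show k + 1 ≤ M by omega), pow_succ, Nat.mod_mul_right_div_self] at h1
  exact h1

lemma exists_word (T : ℕ) : ∀ b : ℕ, b < 3 ^ T → (∀ j < T, b / 3 ^ j % 3 ≠ 2) →
    ∃ w : List Bool, w.length = T ∧ lv w = b := by
  induction T with
  | zero =>
    intro b hb _
    refine ⟨[], rfl, ?_⟩
    simp only [pow_zero, Nat.lt_one_iff] at hb
    rw [hb]; rfl
  | succ T ih =>
    intro b hb h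
    obtain ⟨w, hw, hw2⟩ := ih (b / 3) (by rw [pow_succ] at hb; omega) (by
      intro j hj
      have := h (j + 1) (by omega)
      rwa [pow_succ, mul_comm, ← Nat.div_div_eq_div_mul] at this)
    have h0 := h 0 (by omega)
    simp only [pow_zero, Nat.div_one] at h0
    have h3 : b % 3 = 0 ∨ b % 3 = 1 := by omega
    rcases h3 with h3 | h3
    · refine ⟨false :: w, by simp [hw], ?_⟩
      simp only [lv, hw2]
      simp
      omega
    · refine ⟨true :: w, by simp [hw], ?_⟩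
      simp only [lv, hw2]
      simp
      omega

open Classical in
/-- residues built from `k` blocks -/
noncomputable def AA (F : Set ℕ) (T : ℕ) : ℕ → Finset ℕ
  | 0 => {0}
  | k + 1 => (AA F T k ×ˢ WT F T).image (fun p => p.1 + 3 ^ (k * T) * lv p.2)

lemma card_AA (F : Set ℕ) (T k : ℕ) : (AA F T k).card ≤ (WT F T).card ^ k := by
  induction k with
  | zero => simp [AA]
  | succ k ih =>
    rw [AA]
    refine Finset.card_image_le.trans ?_
    rw [Finset.card_product, pow_succ]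
    exact Nat.mul_le_mul_right _ ih

lemma appr_mem_AA {F : Set ℕ} (h0 : 0 ∈ F) {y : ℤ_[3]}
    (hy : ∀ n ∈ F, Om ((2 : ℤ_[3]) ^ n * y)) (T k : ℕ) : y.appr (k * T) ∈ AA F T k := by
  classical
  induction k with
  | zero =>
    simp only [zero_mul, AA, Finset.mem_singleton]
    have := PadicInt.appr_lt y 0
    simpa using this
  | succ k ih =>
    set M := (k + 1) * T with hM
    have hkM : k * T ≤ M := Nat.mul_le_mul_right _ (Nat.le_succ k)
    set a := y.appr M with ha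
    set r := y.appr (k * T) with hr
    have har : a % 3 ^ (k * T) = r := appr_mod y hkM
    set b := a / 3 ^ (k * T) with hb
    have hab : a = r + 3 ^ (k * T) * b := by
      rw [← har, hb]
      exact (Nat.mod_add_div _ _).symm
    have hb3 : b < 3 ^ T := by
      rw [hb, Nat.div_lt_iff_lt_mul (by positivity), ← pow_add]
      have : T + k * T = M := by rw [hM]; ring
      rw [this]
      exact PadicInt.appr_lt y M
    have hr3 : r < 3 ^ (k * T) := PadicInt.appr_lt y _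
    obtain ⟨w, hw, hw2⟩ := exists_word T b hb3 (by
      intro j hj
      have h1 := (hy 0 h0).digit (M := M) (k := k * T + j) (by rw [hM]; linarith [hj, add_mul k 1 T])
      rw [pow_zero, one_mul] at h1
      rw [hb, Nat.div_div_eq_div_mul, ← pow_add]
      exact h1)
    have hwW : w ∈ WT F T := by
      refine mem_WT.2 ⟨hw, fun n hn => ⟨2 ^ n * r / 3 ^ (k * T), ?_, ?_⟩⟩
      · rw [Nat.div_lt_iff_lt_mul (by positivity)]
        exact Nat.mul_lt_mul_of_pos_left hr3 (by positivity)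
      · intro j hj
        have h1 := (hy n hn).digit (M := M) (k := k * T + j)
          (by rw [hM]; linarith [hj, add_mul k 1 T])
        rw [pow_add, ← Nat.div_div_eq_div_mul] at h1
        have h2 : 2 ^ n * y.appr M / 3 ^ (k * T) = 2 ^ n * lv w + 2 ^ n * r / 3 ^ (k * T) := by
          rw [hw2, ← ha, hab]
          have : 2 ^ n * (r + 3 ^ (k * T) * b) = 2 ^ n * r + 3 ^ (k * T) * (2 ^ n * b) := by ring
          rw [this, Nat.add_mul_div_left _ _ (by positivity)]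
          ring
        rw [h2] at h1
        exact h1
    rw [AA, Finset.mem_image]
    refine ⟨(r, w), Finset.mem_product.2 ⟨ih, hwW⟩, ?_⟩
    show r + 3 ^ (k * T) * lv w = a
    rw [hw2, ← hab]

/-- the dimension bound for a finite set of constraints -/
lemma dim_piece (F : Set ℕ) (h0 : 0 ∈ F) (n0 T : ℕ) (hT : 1 ≤ T) (d : ℝ≥0)
    (hcard : ((WT F T).card : ℝ) ≤ ((3 : ℝ) ^ T) ^ (d : ℝ)) :
    dimH {x : ℤ_[3] | ∀ n ∈ F, Om ((2 : ℤ_[3]) ^ n * ((2 : ℤ_[3]) ^ n0 * x))} ≤ d := by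
  classical
  borelize ℤ_[3]
  set E : Set ℤ_[3] := {x : ℤ_[3] | ∀ n ∈ F, Om ((2 : ℤ_[3]) ^ n * ((2 : ℤ_[3]) ^ n0 * x))} with hE
  set q : ℝ := 1 / 3 ^ T with hq
  have hq0 : 0 < q := by positivity
  have hq1 : q < 1 := by
    rw [hq, div_lt_one (by positivity)]
    exact one_lt_pow₀ (by norm_num) (by omega)
  set t : ∀ k : ℕ, AA F T k → Set ℤ_[3] := fun k i =>
    {x | ((2 : ℤ_[3]) ^ n0 * x).appr (k * T) = i.1} with ht
  have hdiam : ∀ k (i : AA F T k), Metric.ediam (t k i) ≤ ENNReal.ofReal (q ^ k) := by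
    intro k i
    refine Metric.ediam_le fun x hx y hy => ?_
    rw [edist_dist, dist_eq_norm]
    refine ENNReal.ofReal_le_ofReal ?_
    have hx' : ((2 : ℤ_[3]) ^ n0 * x).appr (k * T) = i.1 := hx
    have hy' : ((2 : ℤ_[3]) ^ n0 * y).appr (k * T) = i.1 := hy
    have h1 := appr_dvd ((2 : ℤ_[3]) ^ n0 * x) (k * T)
    have h2 := appr_dvd ((2 : ℤ_[3]) ^ n0 * y) (k * T)
    rw [hx'] at h1
    rw [hy'] at h2
    have h3 : ((3 : ℕ) : ℤ_[3]) ^ (k * T) ∣ (2 : ℤ_[3]) ^ n0 * (x - y) := by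
      have := dvd_sub h1 h2
      have e : (2 : ℤ_[3]) ^ n0 * x - (i.1 : ℤ_[3]) - ((2 : ℤ_[3]) ^ n0 * y - (i.1 : ℤ_[3])) =
          (2 : ℤ_[3]) ^ n0 * (x - y) := by ring
      rwa [e] at this
    have h4 : ‖(2 : ℤ_[3]) ^ n0 * (x - y)‖ ≤ ((3 : ℕ) : ℝ) ^ (-((k * T : ℕ) : ℤ)) := by
      rw [PadicInt.norm_le_pow_iff_mem_span_pow, Ideal.mem_span_singleton]
      exact h3
    have h5 : ‖(2 : ℤ_[3])‖ = 1 := by
      by_contra hne
      have h6 : ‖(2 : ℤ_[3])‖ < 1 := lt_of_le_of_ne (PadicInt.norm_le_one _) hne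
      have h7 : ‖((2 : ℤ) : ℤ_[3])‖ < 1 := by push_cast; exact h6
      rw [PadicInt.norm_int_lt_one_iff_dvd] at h7
      omega
    rw [norm_mul, norm_pow, h5, one_pow, one_mul] at h4
    refine h4.trans (le_of_eq ?_)
    rw [hq, zpow_neg, zpow_natCast, one_div, inv_pow, ← pow_mul, mul_comm k T]
    push_cast
    rfl
  have hcov : ∀ k, E ⊆ ⋃ i, t k i := by
    intro k x hx
    rw [Set.mem_iUnion]
    exact ⟨⟨_, appr_mem_AA h0 hx T k⟩, rfl⟩
  have hr : Tendsto (fun k : ℕ => ENNReal.ofReal (q ^ k)) atTop (𝓝 0) := by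
    have := (ENNReal.continuous_ofReal.tendsto 0).comp
      (tendsto_pow_atTop_nhds_zero_of_lt_one hq0.le hq1)
    simpa [Function.comp_def] using this
  have hmain := Measure.hausdorffMeasure_le_liminf_sum (d : ℝ) E
    (fun k : ℕ => ENNReal.ofReal (q ^ k)) hr t (Eventually.of_forall hdiam)
    (Eventually.of_forall hcov)
  have hsum : ∀ k, ∑ i, Metric.ediam (t k i) ^ (d : ℝ) ≤ 1 := by
    intro k
    calc ∑ i, Metric.ediam (t k i) ^ (d : ℝ) ≤
          ∑ _i : AA F T k, ENNReal.ofReal (q ^ k) ^ (d : ℝ) :=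
          Finset.sum_le_sum fun i _ => ENNReal.rpow_le_rpow (hdiam k i) d.2
      _ = ((AA F T k).card : ℝ≥0∞) * ENNReal.ofReal (q ^ k) ^ (d : ℝ) := by
          rw [Finset.sum_const, Finset.card_univ, Fintype.card_coe, nsmul_eq_mul]
      _ = ENNReal.ofReal (((AA F T k).card : ℝ) * (q ^ k) ^ (d : ℝ)) := by
          rw [ENNReal.ofReal_mul (Nat.cast_nonneg _), ENNReal.ofReal_natCast,
            ENNReal.ofReal_rpow_of_nonneg (by positivity) (NNReal.coe_nonneg d)]
      _ ≤ ENNReal.ofReal 1 := by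
          refine ENNReal.ofReal_le_ofReal ?_
          have h1 : ((AA F T k).card : ℝ) ≤ ((WT F T).card : ℝ) ^ k := by
            exact_mod_cast card_AA F T k
          have h2 : (q ^ k) ^ (d : ℝ) = (q ^ (d : ℝ)) ^ k := by
            rw [← Real.rpow_natCast q k, ← Real.rpow_mul hq0.le, mul_comm,
              Real.rpow_mul hq0.le, Real.rpow_natCast]
          have h3 : ((WT F T).card : ℝ) * q ^ (d : ℝ) ≤ 1 := by
            have e1 : q ^ (d : ℝ) = (((3 : ℝ) ^ T) ^ (d : ℝ))⁻¹ := by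
              rw [hq, one_div, Real.inv_rpow (by positivity)]
            rw [e1, ← div_eq_mul_inv]
            exact (div_le_one (by positivity)).2 hcard
          rw [h2]
          calc ((AA F T k).card : ℝ) * (q ^ (d : ℝ)) ^ k ≤
                ((WT F T).card : ℝ) ^ k * (q ^ (d : ℝ)) ^ k :=
                mul_le_mul_of_nonneg_right h1 (by positivity)
            _ = (((WT F T).card : ℝ) * q ^ (d : ℝ)) ^ k := by rw [mul_pow]
            _ ≤ 1 := pow_le_one₀ (by positivity) h3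
      _ = 1 := ENNReal.ofReal_one
  have hfin : μH[(d : ℝ)] E ≤ 1 := by
    refine hmain.trans ?_
    calc liminf (fun k => ∑ i, Metric.ediam (t k i) ^ (d : ℝ)) atTop ≤
          liminf (fun _ : ℕ => (1 : ℝ≥0∞)) atTop :=
          liminf_le_liminf (Eventually.of_forall hsum)
      _ = 1 := liminf_const 1
  exact dimH_le_of_hausdorffMeasure_ne_top (ne_top_of_le_ne_top ENNReal.one_ne_top hfin)

/-- a finite subset of the constraints is enough -/
lemma exists_finite (S : Set ℕ) (h0 : 0 ∈ S) (T : ℕ) :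
    ∃ F : Finset ℕ, 0 ∈ F ∧ (F : Set ℕ) ⊆ S ∧ WT (F : Set ℕ) T ⊆ WT S T := by
  classical
  have hch : ∀ w : List Bool, ∃ n ∈ S, w.length = T → w ∉ WT S T →
      ¬ ∃ c < 2 ^ n, om (2 ^ n * lv w + c) T := by
    intro w
    by_cases hw : w.length = T ∧ w ∉ WT S T
    · have h1 : ¬ ∀ n ∈ S, ∃ c < 2 ^ n, om (2 ^ n * lv w + c) T := fun h =>
        hw.2 (mem_WT.2 ⟨hw.1, h⟩)
      push Not at h1
      obtain ⟨n, hn, h2⟩ := h1
      refine ⟨n, hn, fun _ _ => ?_⟩
      push Not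
      exact h2
    · exact ⟨0, h0, fun h1 h2 => absurd ⟨h1, h2⟩ hw⟩
  choose f hf hf2 using hch
  refine ⟨insert 0 ((List.finite_length_eq Bool T).toFinset.image f), by simp, ?_, ?_⟩
  · intro n hn
    rw [Finset.mem_coe, Finset.mem_insert] at hn
    rcases hn with rfl | hn
    · exact h0
    · obtain ⟨w, _, rfl⟩ := Finset.mem_image.1 hn
      exact hf w
  · intro w hw
    obtain ⟨hlen, h1⟩ := mem_WT.1 hw
    by_contra hnot
    apply hf2 w hlen hnot
    apply h1
    rw [Finset.mem_coe, Finset.mem_insert]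
    right
    refine Finset.mem_image_of_mem f ?_
    rw [Set.Finite.mem_toFinset]
    exact hlen

/-- **Theorem.** The exceptional set has dimension zero. -/
theorem dim_zero : dimH {x : ℤ_[3] | {n : ℕ | Om ((2 : ℤ_[3]) ^ n * x)}.Infinite} = 0 := by
  refine le_antisymm ?_ (zero_le)
  refine ENNReal.le_of_forall_pos_le_add fun e he _ => ?_
  rw [zero_add]
  set Idx := {p : ℕ × Finset ℕ // 0 ∈ p.2 ∧ ∃ T : ℕ, 1 ≤ T ∧
    ((WT (p.2 : Set ℕ) T).card : ℝ) ≤ ((3 : ℝ) ^ T) ^ (e : ℝ)} with hIdx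
  have hsub : {x : ℤ_[3] | {n : ℕ | Om ((2 : ℤ_[3]) ^ n * x)}.Infinite} ⊆
      ⋃ p : Idx, {x : ℤ_[3] | ∀ n ∈ (p.1.2 : Set ℕ),
        Om ((2 : ℤ_[3]) ^ n * ((2 : ℤ_[3]) ^ p.1.1 * x))} := by
    intro x hx
    have hx' : {n : ℕ | Om ((2 : ℤ_[3]) ^ n * x)}.Infinite := hx
    set A : Set ℕ := {n : ℕ | Om ((2 : ℤ_[3]) ^ n * x)} with hA
    obtain ⟨n0, hn0⟩ := hx'.nonempty
    set S : Set ℕ := {n | n0 + n ∈ A} with hS
    have hSinf : S.Infinite := by
      intro hfin
      apply hx'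
      have h1 : A ⊆ (fun n => n0 + n) '' S ∪ (Set.Iio n0) := by
        intro m hm
        rcases lt_or_ge m n0 with h | h
        · exact Or.inr h
        · left
          refine ⟨m - n0, ?_, by simp; omega⟩
          show n0 + (m - n0) ∈ A
          rwa [Nat.add_sub_cancel' h]
      exact ((hfin.image _).union (Set.finite_Iio n0)).subset h1
    have hS0 : 0 ∈ S := by
      show n0 + 0 ∈ A
      simpa using hn0
    have heR : (0 : ℝ) < e := by exact_mod_cast he
    obtain ⟨T, hT, hcount⟩ := count S hSinf (e * Real.log 3)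
      (mul_pos heR (Real.log_pos (by norm_num)))
    obtain ⟨F, hF0, hFS, hFW⟩ := exists_finite S hS0 T
    have hcard : ((WT (F : Set ℕ) T).card : ℝ) ≤ ((3 : ℝ) ^ T) ^ (e : ℝ) := by
      have h1 : ((WT (F : Set ℕ) T).card : ℝ) ≤ ((WT S T).card : ℝ) := by
        exact_mod_cast Finset.card_le_card hFW
      refine h1.trans (hcount.le.trans (le_of_eq ?_))
      rw [← Real.rpow_natCast 3 T, ← Real.rpow_mul (by norm_num),
        Real.rpow_def_of_pos (by norm_num)]
      congr 1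
      ring
    rw [Set.mem_iUnion]
    refine ⟨⟨(n0, F), hF0, T, hT, hcard⟩, ?_⟩
    intro n hn
    have h1 : n0 + n ∈ A := hFS hn
    have h2 : Om ((2 : ℤ_[3]) ^ (n0 + n) * x) := h1
    show Om ((2 : ℤ_[3]) ^ n * ((2 : ℤ_[3]) ^ n0 * x))
    rw [← mul_assoc, ← pow_add, add_comm n n0]
    exact h2
  refine (dimH_mono hsub).trans ?_
  rw [dimH_iUnion]
  refine iSup_le fun p => ?_
  obtain ⟨⟨n0, F⟩, hF0, T, hT, hcard⟩ := p
  exact dim_piece (F : Set ℕ) hF0 n0 T hT e hcard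

end Pool.Agent.TH338.LG
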