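import Mathlib
import Pool.Agent.TH338.LG.Dimn

/-! Chains of exponents in which the `i`-th member is at most `B i` after the first. -/

set_option autoImplicit false
open MeasureTheory Finset Filter Topology
open scoped ENNReal NNReal

namespace Pool.Agent.TH338.LG

lemma WT_anti {F F' : Set ℕ} (h : F ⊆ F') (T : ℕ) : WT F' T ⊆ WT F T := by
  intro w hw
  obtain ⟨h1, h2⟩ := mem_WT.1 hw
  exact mem_WT.2 ⟨h1, fun n hn => h2 n (h hn)⟩

/-- **uniform count for bounded chains** -/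
theorem chain_count (B : ℕ → ℕ) (e : ℝ≥0) (he : 0 < e) : ∃ k : ℕ, ∀ s : ℕ → ℕ, s 0 = 0 →
    (∀ i, i + 1 < k → s i < s (i + 1)) → (∀ i < k, s i ≤ B i) →
    ∃ T : ℕ, 1 ≤ T ∧ ((WT (s '' Set.Iio k) T).card : ℝ) ≤ ((3 : ℝ) ^ T) ^ (e : ℝ) := by
  classical
  by_contra hcon
  push Not at hcon
  choose c hc0 hcm hcB hcbad using hcon
  set U : Ultrafilter ℕ := Filter.hyperfilter ℕ with hU
  have hUle : (U : Filter ℕ) ≤ atTop := by
    rw [← Nat.cofinite_eq_atTop]
    exact Filter.hyperfilter_le_cofinite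
  have hge : ∀ m : ℕ, ∀ᶠ k in (U : Filter ℕ), m ≤ k := fun m =>
    hUle (Filter.eventually_ge_atTop m)
  have hlim : ∀ i : ℕ, ∃ v : ℕ, ∀ᶠ k in (U : Filter ℕ), c k i = v := by
    intro i
    have h1 : ∀ᶠ k in (U : Filter ℕ), c k i ∈ (Set.Iic (B i)) := by
      filter_upwards [hge (i + 1)] with k hk
      exact hcB k i (by omega)
    have h2 : ∀ᶠ k in (U : Filter ℕ), ∃ v ∈ Set.Iic (B i), c k i = v := by
      filter_upwards [h1] with k hk
      exact ⟨_, hk, rfl⟩
    rw [Ultrafilter.eventually_exists_mem_iff (Set.finite_Iic (B i))] at h2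
    obtain ⟨v, _, hv⟩ := h2
    exact ⟨v, hv⟩
  choose s hs using hlim
  have hs0 : s 0 = 0 := by
    have h1 : ∀ᶠ k in (U : Filter ℕ), s 0 = 0 := by
      filter_upwards [hs 0] with k hk
      rw [← hk, hc0]
    exact h1.exists.choose_spec
  have hmono : StrictMono s := by
    refine strictMono_nat_of_lt_succ fun i => ?_
    have h1 : ∀ᶠ k in (U : Filter ℕ), s i < s (i + 1) := by
      filter_upwards [hs i, hs (i + 1), hge (i + 2)] with k h1 h2 h3
      rw [← h1, ← h2]
      exact hcm k i (by omega)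
    exact h1.exists.choose_spec
  have hinf : (Set.range s).Infinite := Set.infinite_range_of_injective hmono.injective
  have heR : (0 : ℝ) < e := by exact_mod_cast he
  obtain ⟨T, hT, hcount⟩ := count (Set.range s) hinf (e * Real.log 3)
    (mul_pos heR (Real.log_pos (by norm_num)))
  obtain ⟨F, hF0, hFS, hFW⟩ := exists_finite (Set.range s) ⟨0, hs0⟩ T
  have hcard : ((WT (F : Set ℕ) T).card : ℝ) ≤ ((3 : ℝ) ^ T) ^ (e : ℝ) := by
    have h1 : ((WT (F : Set ℕ) T).card : ℝ) ≤ ((WT (Set.range s) T).card : ℝ) := by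
      exact_mod_cast Finset.card_le_card hFW
    refine h1.trans (hcount.le.trans (le_of_eq ?_))
    rw [← Real.rpow_natCast 3 T, ← Real.rpow_mul (by norm_num),
      Real.rpow_def_of_pos (by norm_num)]
    congr 1
    ring
  have hFin : ∀ᶠ k in (U : Filter ℕ), (F : Set ℕ) ⊆ (c k) '' Set.Iio k := by
    have h1 : ∀ m ∈ F, ∀ᶠ k in (U : Filter ℕ), m ∈ (c k) '' Set.Iio k := by
      intro m hm
      obtain ⟨i, rfl⟩ := hFS hm
      filter_upwards [hs i, hge (i + 1)] with k h2 h3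
      exact ⟨i, by show i < k; omega, h2⟩
    have h2 := (Filter.eventually_all_finset F).2 h1
    filter_upwards [h2] with k hk m hm
    exact hk m hm
  obtain ⟨k, hk⟩ := hFin.exists
  have h1 := hcbad k T hT
  have h2 : ((WT ((c k) '' Set.Iio k) T).card : ℝ) ≤ ((WT (F : Set ℕ) T).card : ℝ) := by
    exact_mod_cast Finset.card_le_card (WT_anti hk T)
  linarith

/-- **Theorem.** The nesting constant of bounded chains is zero. -/
theorem chain_dim (B : ℕ → ℕ) : Tendsto (fun k : ℕ => dimH {x : ℤ_[3] | ∃ n : ℕ → ℕ,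
    (∀ i, i + 1 < k → n i < n (i + 1)) ∧ (∀ i < k, n i ≤ n 0 + B i) ∧
      ∀ i < k, Om ((2 : ℤ_[3]) ^ n i * x)}) atTop (𝓝 0) := by
  classical
  rw [ENNReal.tendsto_nhds_zero]
  intro ε hε
  obtain ⟨e, he0, hee⟩ : ∃ e : ℝ≥0, 0 < e ∧ (e : ℝ≥0∞) ≤ ε := by
    obtain ⟨e, h1, h2⟩ := ENNReal.lt_iff_exists_nnreal_btwn.1 hε
    exact ⟨e, by exact_mod_cast h1, h2.le⟩
  obtain ⟨k0, hk0⟩ := chain_count B e he0
  filter_upwards [eventually_ge_atTop (k0 + 1)] with k hk
  refine le_trans ?_ hee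
  set Idx := {p : ℕ × Finset ℕ // 0 ∈ p.2 ∧ ∃ T : ℕ, 1 ≤ T ∧
    ((WT (p.2 : Set ℕ) T).card : ℝ) ≤ ((3 : ℝ) ^ T) ^ (e : ℝ)} with hIdx
  have hsub : {x : ℤ_[3] | ∃ n : ℕ → ℕ,
      (∀ i, i + 1 < k → n i < n (i + 1)) ∧ (∀ i < k, n i ≤ n 0 + B i) ∧
      ∀ i < k, Om ((2 : ℤ_[3]) ^ n i * x)} ⊆
      ⋃ p : Idx, {x : ℤ_[3] | ∀ n ∈ (p.1.2 : Set ℕ),
        Om ((2 : ℤ_[3]) ^ n * ((2 : ℤ_[3]) ^ p.1.1 * x))} := by
    rintro x ⟨n, h1, h2, h3⟩
    have hle : ∀ i, i < k → n 0 ≤ n i := by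
      intro i
      induction i with
      | zero => intro _; exact le_rfl
      | succ i ih =>
        intro hi
        exact (ih (by omega)).trans (h1 i hi).le
    obtain ⟨T, hT, hc⟩ := hk0 (fun i => n i - n 0) (by simp)
      (fun i hi => by
        have e1 := h1 i (by omega)
        have e2 := hle i (by omega)
        show n i - n 0 < n (i + 1) - n 0
        omega)
      (fun i hi => by
        have := h2 i (by omega)
        show n i - n 0 ≤ B i
        omega)
    have hne : (0 : ℕ) < k := by omega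
    set F : Finset ℕ := insert 0 ((Finset.range k0).image (fun i => n i - n 0)) with hF
    have hFsup : (fun i => n i - n 0) '' Set.Iio k0 ⊆ (F : Set ℕ) := by
      rintro m ⟨i, hi, rfl⟩
      rw [hF, Finset.coe_insert]
      right
      rw [Finset.coe_image]
      exact ⟨i, by simpa using hi, rfl⟩
    rw [Set.mem_iUnion]
    refine ⟨⟨(n 0, F), by simp [hF], T, hT, ?_⟩, ?_⟩
    · refine le_trans ?_ hc
      exact_mod_cast Finset.card_le_card (WT_anti hFsup T)
    · intro m hm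
      show Om ((2 : ℤ_[3]) ^ m * ((2 : ℤ_[3]) ^ (n 0) * x))
      have hm' : m ∈ F := hm
      rw [hF, Finset.mem_insert] at hm'
      rw [← mul_assoc, ← pow_add]
      rcases hm' with rfl | hm'
      · rw [zero_add]
        exact h3 0 hne
      · obtain ⟨i, hi, rfl⟩ := Finset.mem_image.1 hm'
        have hi' : i < k0 := Finset.mem_range.1 hi
        have := hle i (by omega)
        have e2 : n i - n 0 + n 0 = n i := by omega
        rw [e2]
        exact h3 i (by omega)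
  refine (dimH_mono hsub).trans ?_
  rw [dimH_iUnion]
  refine iSup_le fun p => ?_
  obtain ⟨⟨n0, F⟩, hF0, T, hT, hcard⟩ := p
  exact dim_piece (F : Set ℕ) hF0 n0 T hT e hcard

end Pool.Agent.TH338.LG
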